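import Pool.Agent.Helper230.Five.Shape

/-! # Dissections into five mutually similar triangles: AnalysisB -/

set_option autoImplicit false
noncomputable section
namespace Pool.Agent.Helper230.Five


/-- `sin (2π/3)^2 = sin^2 y + sin^2 (π/3 - y) + sin y sin (π/3 - y)` -/
theorem analysisB_sq (y : ℝ) : Real.sin (2 * Real.pi / 3) ^ 2 =
    Real.sin y ^ 2 + Real.sin (Real.pi / 3 - y) ^ 2 + Real.sin y * Real.sin (Real.pi / 3 - y) := by
  have h1 : Real.sin (2 * Real.pi / 3) = √3 / 2 := by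
    have h : 2 * Real.pi / 3 = Real.pi - Real.pi / 3 := by ring
    rw [h, Real.sin_pi_sub, Real.sin_pi_div_three]
  have h2 : Real.sin (Real.pi / 3 - y) = √3 / 2 * Real.cos y - 1 / 2 * Real.sin y := by
    rw [Real.sin_sub, Real.sin_pi_div_three, Real.cos_pi_div_three]
  have h3 : √3 ^ 2 = (3 : ℝ) := Real.sq_sqrt (by norm_num)
  have h4 := Real.sin_sq_add_cos_sq y
  rw [h1, h2]
  linear_combination (1 / 4 - 1 / 4 * Real.cos y ^ 2) * h3 - 3 / 4 * h4

theorem analysisB {y z w fN fN1 fM1 fM dNN dNE dNM : ℝ} (hy0 : 0 < y) (hy1 : y < Real.pi / 3)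
    (hz : z = y ∨ z = Real.pi / 3 - y) (hw : w = y ∨ w = Real.pi / 3 - y)
    (p1 : 0 < fN) (p2 : 0 < fN1) (p3 : 0 < fM1) (p4 : 0 < fM) (p5 : 0 < dNN) (p6 : 0 < dNE)
    (p7 : 0 < dNM)
    (e1 : fN * Real.sin y = fN1 * Real.sin (Real.pi / 3 - y))
    (e2 : fN1 * Real.sin y = fM1 * Real.sin (Real.pi / 3 - y))
    (e3 : fM * Real.sin z = fM1 * Real.sin (Real.pi / 3 - z))
    (e4 : dNN * Real.sin (Real.pi / 3 - y) = fN * Real.sin (2 * Real.pi / 3))
    (e5 : dNE * Real.sin y = dNN * Real.sin (2 * Real.pi / 3))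
    (e6 : dNM * Real.sin (Real.pi / 3 - w) = dNE * Real.sin w)
    (e7 : fM = fN + dNM) :
    (y + w = z + (Real.pi / 3 - w) ∨ y + w = (Real.pi / 3 - z) + (Real.pi / 3 - y) ∨
      z + (Real.pi / 3 - w) = (Real.pi / 3 - z) + (Real.pi / 3 - y)) ∨
    ∃ x : ℝ, 0 < x ∧ x < Real.pi / 3 ∧
      Perm3 (y + w) (z + (Real.pi / 3 - w)) ((Real.pi / 3 - z) + (Real.pi / 3 - y))
        (Real.pi / 3) (2 * x) (2 * (Real.pi / 3 - x)) ∧
      (Real.sin x = 2 * Real.sin (Real.pi / 3 - x) ∨
        Real.sin x ^ 3 = 2 * Real.sin x ^ 2 * Real.sin (Real.pi / 3 - x) +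
          Real.sin x * Real.sin (Real.pi / 3 - x) ^ 2 + Real.sin (Real.pi / 3 - x) ^ 3) := by
  have hp : 0 < Real.sin y := Real.sin_pos_of_pos_of_lt_pi hy0 (by linarith [Real.pi_pos])
  have hq : 0 < Real.sin (Real.pi / 3 - y) :=
    Real.sin_pos_of_pos_of_lt_pi (by linarith) (by linarith [Real.pi_pos])
  have hS := analysisB_sq y
  rcases hz with hz | hz <;> rcases hw with hw | hw
  · exfalso
    subst hz
    subst hw
    have h1 : fM = fN1 := by
      have h : (fM - fN1) * Real.sin w = 0 := by linear_combination e3 - e2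
      rcases mul_eq_zero.1 h with h | h
      · linarith
      · exact absurd h hp.ne'
    have h2 : fN * (2 * Real.sin (Real.pi / 3 - w) ^ 2 + Real.sin w ^ 2) = 0 := by
      have e7' : fN1 = fN + dNM := by rw [← h1]; exact e7
      linear_combination (-Real.sin (Real.pi / 3 - w) ^ 2) * e7' - Real.sin (Real.pi / 3 - w) * e1
        - Real.sin (Real.pi / 3 - w) * e6 - Real.sin (Real.pi / 3 - w) * e5
        - Real.sin (2 * Real.pi / 3) * e4 - fN * hS
    have h3 : 0 < fN * (2 * Real.sin (Real.pi / 3 - w) ^ 2 + Real.sin w ^ 2) := by positivity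
    linarith
  · right
    subst hz
    subst hw
    have hw' : Real.pi / 3 - (Real.pi / 3 - z) = z := by ring
    rw [hw'] at e6
    have h1 : fM = fN1 := by
      have h : (fM - fN1) * Real.sin z = 0 := by linear_combination e3 - e2
      rcases mul_eq_zero.1 h with h | h
      · linarith
      · exact absurd h hp.ne'
    have h2 : fN * (Real.sin z ^ 3 - (2 * Real.sin z ^ 2 * Real.sin (Real.pi / 3 - z) +
          Real.sin z * Real.sin (Real.pi / 3 - z) ^ 2 + Real.sin (Real.pi / 3 - z) ^ 3)) = 0 := by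
      have e7' : fN1 = fN + dNM := by rw [← h1]; exact e7
      linear_combination (Real.sin (Real.pi / 3 - z) * Real.sin z ^ 2) * e7' + Real.sin z ^ 2 * e1
        + Real.sin (Real.pi / 3 - z) * Real.sin z * e6 + Real.sin (Real.pi / 3 - z) ^ 2 * e5
        + Real.sin (Real.pi / 3 - z) * Real.sin (2 * Real.pi / 3) * e4
        + Real.sin (Real.pi / 3 - z) * fN * hS
    refine ⟨z, hy0, hy1, Or.inl ⟨by ring, by ring, by ring⟩, Or.inr ?_⟩
    rcases mul_eq_zero.1 h2 with h | h
    · exact absurd h p1.ne'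
    · linarith
  · right
    subst hz
    subst hw
    have hw' : Real.pi / 3 - (Real.pi / 3 - w) = w := by ring
    rw [hw'] at e3
    have h2 : fN * ((Real.sin w - 2 * Real.sin (Real.pi / 3 - w)) *
        (Real.sin w ^ 2 + Real.sin w * Real.sin (Real.pi / 3 - w) +
          Real.sin (Real.pi / 3 - w) ^ 2)) = 0 := by
      linear_combination (Real.sin (Real.pi / 3 - w) ^ 3) * e7 + Real.sin w ^ 2 * e1
        + Real.sin (Real.pi / 3 - w) * Real.sin w * e2 - Real.sin (Real.pi / 3 - w) ^ 2 * e3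
        + Real.sin (Real.pi / 3 - w) ^ 2 * e6 + Real.sin (Real.pi / 3 - w) ^ 2 * e5
        + Real.sin (Real.pi / 3 - w) * Real.sin (2 * Real.pi / 3) * e4
        + Real.sin (Real.pi / 3 - w) * fN * hS
    refine ⟨w, hy0, hy1, Or.inr (Or.inr (Or.inr (Or.inl ⟨by ring, by ring, by ring⟩))), Or.inl ?_⟩
    rcases mul_eq_zero.1 h2 with h | h
    · exact absurd h p1.ne'
    · rcases mul_eq_zero.1 h with h | h
      · linarith
      · exfalso
        have : 0 < Real.sin w ^ 2 + Real.sin w * Real.sin (Real.pi / 3 - w) +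
          Real.sin (Real.pi / 3 - w) ^ 2 := by positivity
        linarith
  · left
    left
    rw [hz, hw]
    ring



end Pool.Agent.Helper230.Five

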