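import Pool.Agent.Helper230.Five.Geo

/-! # Dissections into five similar triangles: the tiles around an interior vertex -/

set_option autoImplicit false
noncomputable section
open scoped BigOperators
open Pool.Agent.Helper549.Tri Pool.Agent.Helper549.Tri.Basic Pool.Agent.Helper549.Tri.Angles
  Pool.Agent.Helper549.Tri.AngleSum Pool.Agent.Helper549.Tri.Opp Pool.Agent.Helper549.Tri.Corner
  Pool.Agent.Helper549.Tri.Vertex

namespace Pool.Agent.Helper230.Five

variable {N : ℕ} {T : Fin 3 → ℂ} {t : Fin N → Fin 3 → ℂ}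

open Classical in
/-- the index of the vertex `F` -/
def mi (t : Fin N → Fin 3 → ℂ) (F : ℂ) (i : Fin N) : Fin 3 :=
  if h : Has (t i) F then h.choose else 0

theorem mi_spec {F : ℂ} {i : Fin N} (hi : Has (t i) F) : t i (mi t F i) = F := by
  unfold mi
  rw [dif_pos hi]
  exact hi.choose_spec

def out (t : Fin N → Fin 3 → ℂ) (F : ℂ) (i : Fin N) : ℂ := t i (mi t F i + 1)
def inn (t : Fin N → Fin 3 → ℂ) (F : ℂ) (i : Fin N) : ℂ := t i (mi t F i + 2)

theorem out_has (F : ℂ) (i : Fin N) : Has (t i) (out t F i) := ⟨_, rfl⟩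
theorem inn_has (F : ℂ) (i : Fin N) : Has (t i) (inn t F i) := ⟨_, rfl⟩

theorem out_ne_F (h : Dis N T t) {F : ℂ} {i : Fin N} (hi : Has (t i) F) : out t F i ≠ F := by
  intro hc
  have := vertex_inj _ (h.ccwt i) (hc.trans (mi_spec hi).symm)
  have hn : ∀ a : Fin 3, a + 1 ≠ a := by decide
  exact hn _ this

theorem inn_ne_F (h : Dis N T t) {F : ℂ} {i : Fin N} (hi : Has (t i) F) : inn t F i ≠ F := by
  intro hc
  have := vertex_inj _ (h.ccwt i) (hc.trans (mi_spec hi).symm)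
  have hn : ∀ a : Fin 3, a + 2 ≠ a := by decide
  exact hn _ this

theorem out_ne_inn (h : Dis N T t) (F : ℂ) (i : Fin N) : out t F i ≠ inn t F i := by
  intro hc
  have := vertex_inj _ (h.ccwt i) hc
  exact q_ne _ this

theorem out_inj (h : Dis N T t) {F : ℂ} {i j : Fin N} (hij : i ≠ j) (hi : Has (t i) F)
    (hj : Has (t j) F) : out t F i ≠ out t F j := by
  intro hc
  have key : ∀ l, Has (t l) F → onSide (t l) (mi t F l + 2)
      ((1 / 2 : ℝ) • F + (1 / 2 : ℝ) • out t F l) := by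
    intro l hl
    unfold onSide
    rw [q_e21, q_e22, mi_spec hl]
    exact ⟨1 / 2, 1 / 2, by norm_num, by norm_num, by norm_num, rfl⟩
  have h1 := key i hi
  have h2 := key j hj
  rw [← hc] at h2
  have h3 := opp_dir h hij h1 h2
  have e : dir (t i) (mi t F i + 2) = dir (t j) (mi t F j + 2) := by
    unfold dir len
    rw [aux_sd2, aux_sd2, mi_spec hi, mi_spec hj]
    change (out t F i - F) / _ = (out t F j - F) / _
    change _ / ((‖out t F i - F‖ : ℝ) : ℂ) = _ / ((‖out t F j - F‖ : ℝ) : ℂ)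
    rw [hc]
  rw [e] at h3
  exact dir_ne_zero _ (h.ccwt j) _ (self_eq_neg.mp h3)

theorem inn_inj (h : Dis N T t) {F : ℂ} {i j : Fin N} (hij : i ≠ j) (hi : Has (t i) F)
    (hj : Has (t j) F) : inn t F i ≠ inn t F j := by
  intro hc
  have key : ∀ l, Has (t l) F → onSide (t l) (mi t F l + 1)
      ((1 / 2 : ℝ) • inn t F l + (1 / 2 : ℝ) • F) := by
    intro l hl
    unfold onSide
    rw [q_e11, q_e12, mi_spec hl]
    exact ⟨1 / 2, 1 / 2, by norm_num, by norm_num, by norm_num, rfl⟩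
  have h1 := key i hi
  have h2 := key j hj
  rw [← hc] at h2
  have h3 := opp_dir h hij h1 h2
  have e : dir (t i) (mi t F i + 1) = dir (t j) (mi t F j + 1) := by
    unfold dir len
    rw [aux_sd1, aux_sd1, mi_spec hi, mi_spec hj]
    change -(inn t F i - F) / _ = -(inn t F j - F) / _
    change _ / ((‖-(inn t F i - F)‖ : ℝ) : ℂ) = _ / ((‖-(inn t F j - F)‖ : ℝ) : ℂ)
    rw [hc]
  rw [e] at h3
  exact dir_ne_zero _ (h.ccwt j) _ (self_eq_neg.mp h3)

/-- the angle at `F` -/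
def gF (t : Fin N → Fin 3 → ℂ) (F : ℂ) (i : Fin N) : ℝ := ang (t i) (mi t F i)

theorem gF_eq (h : Dis N T t) {F : ℂ} {i : Fin N} (hi : Has (t i) F) :
    q_V (t i) F = gF t F i := by
  conv_lhs => rw [← mi_spec hi]
  exact q_V_self _ (h.ccwt i) _

theorem arc_dir (h : Dis N T t) {F : ℂ} {i : Fin N} (hi : Has (t i) F) :
    (out t F i - F) / (‖out t F i - F‖ : ℂ) = Complex.exp (-(gF t F i : ℂ) * Complex.I) *
      ((inn t F i - F) / (‖inn t F i - F‖ : ℂ)) := by
  have hcr : 0 < cr (t i (mi t F i + 1) - t i (mi t F i)) (t i (mi t F i + 2) - t i (mi t F i)) := by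
    rw [aux_cr]; exact h.ccwt i
  have := aux_exp _ _ hcr
  rw [← aux_ang, mi_spec hi] at this
  exact this

/-- the difference of the logarithms of the sines -/
def LF (t : Fin N → Fin 3 → ℂ) (F : ℂ) (i : Fin N) : ℝ :=
  Real.log (Real.sin (ang (t i) (mi t F i + 1))) - Real.log (Real.sin (ang (t i) (mi t F i + 2)))

theorem LF_eq (h : Dis N T t) {F : ℂ} {i : Fin N} (hi : Has (t i) F) :
    LF t F i = Real.log ‖inn t F i - F‖ - Real.log ‖out t F i - F‖ := by
  have hsl := sine_law (t i) (h.ccwt i) (mi t F i + 2) (mi t F i + 1)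
  have l1 : len (t i) (mi t F i + 2) = ‖out t F i - F‖ := by
    unfold len
    rw [aux_sd2, mi_spec hi]
    rfl
  have l2 : len (t i) (mi t F i + 1) = ‖inn t F i - F‖ := by
    unfold len
    rw [aux_sd1, mi_spec hi, norm_neg]
    rfl
  rw [l1, l2] at hsl
  have p1 : 0 < ‖out t F i - F‖ := norm_pos_iff.2 (sub_ne_zero.2 (out_ne_F h hi))
  have p2 : 0 < ‖inn t F i - F‖ := norm_pos_iff.2 (sub_ne_zero.2 (inn_ne_F h hi))
  have s : ∀ m, 0 < Real.sin (ang (t i) m) := fun m =>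
    Real.sin_pos_of_pos_of_lt_pi (ang_pos _ (h.ccwt i) m) (ang_lt_pi _ (h.ccwt i) m)
  have := congrArg Real.log hsl
  rw [Real.log_mul p1.ne' (s _).ne', Real.log_mul p2.ne' (s _).ne'] at this
  unfold LF
  linarith

open Classical in
theorem sum_L (h : Dis N T t) {F : ℂ}
    (hO : (I t F).image (out t F) = (I t F).image (inn t F)) : ∑ i ∈ I t F, LF t F i = 0 := by
  have h1 : ∑ i ∈ I t F, LF t F i = ∑ i ∈ I t F, Real.log ‖inn t F i - F‖ -
      ∑ i ∈ I t F, Real.log ‖out t F i - F‖ := by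
    rw [← Finset.sum_sub_distrib]
    exact Finset.sum_congr rfl fun i hi => LF_eq h ((mem_I _ _ _).1 hi)
  have h2 : ∑ p ∈ (I t F).image (out t F), Real.log ‖p - F‖ =
      ∑ i ∈ I t F, Real.log ‖out t F i - F‖ := by
    rw [Finset.sum_image]
    intro i hi j hj hij
    by_contra hne
    exact out_inj h hne ((mem_I _ _ _).1 hi) ((mem_I _ _ _).1 hj) hij
  have h3 : ∑ p ∈ (I t F).image (inn t F), Real.log ‖p - F‖ =
      ∑ i ∈ I t F, Real.log ‖inn t F i - F‖ := by
    rw [Finset.sum_image]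
    intro i hi j hj hij
    by_contra hne
    exact inn_inj h hne ((mem_I _ _ _).1 hi) ((mem_I _ _ _).1 hj) hij
  rw [h1, ← h2, ← h3, hO, sub_self]

/-- three arcs with angles `2 π / 3` -/
theorem three_arcs (h : Dis N T t) {F : ℂ} {i j k : Fin N} (hi : Has (t i) F) (hj : Has (t j) F)
    (hk : Has (t k) F) (gi : gF t F i = 2 * Real.pi / 3) (gj : gF t F j = 2 * Real.pi / 3)
    (gk : gF t F k = 2 * Real.pi / 3) (hij : inn t F i = out t F j) (hjk : inn t F j = out t F k) :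
    (out t F i - F) / (‖out t F i - F‖ : ℂ) = (inn t F k - F) / (‖inn t F k - F‖ : ℂ) := by
  have h1 := arc_dir h hi
  have h2 := arc_dir h hj
  have h3 := arc_dir h hk
  rw [gi] at h1
  rw [gj] at h2
  rw [gk] at h3
  rw [h1, hij, h2, hjk, h3, ← mul_assoc, ← mul_assoc, ← Complex.exp_add, ← Complex.exp_add]
  have : -((2 * Real.pi / 3 : ℝ) : ℂ) * Complex.I + -((2 * Real.pi / 3 : ℝ) : ℂ) * Complex.I +
      -((2 * Real.pi / 3 : ℝ) : ℂ) * Complex.I = -(2 * Real.pi * Complex.I) := by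
    push_cast
    ring
  rw [this, Complex.exp_neg, Complex.exp_two_pi_mul_I, inv_one, one_mul]

theorem seg_of_dir {F X Y : ℂ} (hX : X ≠ F) (hY : Y ≠ F)
    (hd : (X - F) / (‖X - F‖ : ℂ) = (Y - F) / (‖Y - F‖ : ℂ)) (hlt : ‖Y - F‖ < ‖X - F‖) :
    Y ∈ openSegment ℝ F X := by
  have p1 : 0 < ‖X - F‖ := norm_pos_iff.2 (sub_ne_zero.2 hX)
  have p2 : 0 < ‖Y - F‖ := norm_pos_iff.2 (sub_ne_zero.2 hY)
  have c1 : ((‖X - F‖ : ℝ) : ℂ) ≠ 0 := by exact_mod_cast p1.ne'
  have c2 : ((‖Y - F‖ : ℝ) : ℂ) ≠ 0 := by exact_mod_cast p2.ne'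
  refine ⟨1 - ‖Y - F‖ / ‖X - F‖, ‖Y - F‖ / ‖X - F‖, ?_, by positivity, by ring, ?_⟩
  · rw [sub_pos, div_lt_one p1]; exact hlt
  · have e : Y - F = (‖Y - F‖ / ‖X - F‖ : ℂ) * (X - F) := by
      field_simp at hd ⊢
      linear_combination -hd
    simp only [Complex.real_smul]
    push_cast
    linear_combination -e

end Pool.Agent.Helper230.Five
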