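import Pool.Agent.Helper230.Five.Path

/-! # Dissections into five mutually similar triangles: RayMatch -/

set_option autoImplicit false
noncomputable section
open scoped BigOperators
open Pool.Agent.Helper549.Tri Pool.Agent.Helper549.Tri.Basic Pool.Agent.Helper549.Tri.Angles
  Pool.Agent.Helper549.Tri.AngleSum Pool.Agent.Helper549.Tri.Opp Pool.Agent.Helper549.Tri.Corner
  Pool.Agent.Helper549.Tri.Vertex
namespace Pool.Agent.Helper230.Five


open Filter Topology

theorem rayMatch_other {N : ℕ} {T : Fin 3 → ℂ} {t : Fin N → Fin 3 → ℂ} (h : Dis N T t) {p : ℂ}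
    (hT : p ∈ interior (hull T)) {i : Fin N} {k : Fin 3} (hi : onSide (t i) k p)
    (hver : ∀ (x : Fin N) (m : Fin 3), p ≠ t x m) :
    ∃ (j : Fin N) (l : Fin 3), j ≠ i ∧ onSide (t j) l p := by
  classical
  have hpi := Real.pi_pos
  have hsum := angle_sum h p
  have hTang : 2 * Real.pi ≤ angAt T p := by
    rw [q_angAt, q_E_int T h.ccwT p hT]
    have h1 : 0 ≤ q_V T p := by
      unfold q_V
      refine Finset.sum_nonneg fun k _ => ?_
      split_ifs
      · exact (ang_pos T h.ccwT k).le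
      · exact le_rfl
    push_cast
    linarith
  have hiang : angAt (t i) p = Real.pi := by
    rw [q_angAt, q_E_side (t i) (h.ccwt i) p k hi, q_V_zero (t i) p]
    · push_cast
      ring
    · rintro ⟨m, hm⟩
      exact hver i m hm.symm
  obtain ⟨j, hji, hj⟩ : ∃ j, j ≠ i ∧ 0 < angAt (t j) p := by
    by_contra hcon
    push Not at hcon
    have h1 : ∑ x, angAt (t x) p ≤ angAt (t i) p := by
      rw [← Finset.add_sum_erase Finset.univ (fun x => angAt (t x) p) (Finset.mem_univ i)]
      have h2 := Finset.sum_nonpos (s := Finset.univ.erase i) (f := fun x => angAt (t x) p)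
        (fun x hx => hcon x (Finset.ne_of_mem_erase hx))
      linarith
    linarith
  rcases h_angAt_cases (t j) p hj with ⟨m, hm⟩ | ⟨l, hl⟩ | hint
  · exact absurd hm (hver j m)
  · exact ⟨j, l, hji, hl⟩
  · exact (int_disj h hji hint (sc_mem (t i) (h.ccwt i) hi)).elim

theorem rayMatch_sd (v : Fin 3 → ℂ) (m : Fin 3) : sd v (m + 2) = v (m + 1) - v m := by
  unfold sd
  rw [q_e22, q_e21]

theorem rayMatch {N : ℕ} {T : Fin 3 → ℂ} {t : Fin N → Fin 3 → ℂ} (h : Dis N T t) {F : ℂ}
    (hF : F ∈ interior (hull T)) (hfull : ∀ i k, ¬ onSide (t i) k F) {i : Fin N} {m : Fin 3}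
    (hm : t i m = F) :
    ∃ j m', j ≠ i ∧ t j m' = F ∧ dir (t i) (m + 2) = - dir (t j) (m' + 1) := by
  classical
  have hv := h.ccwt i
  obtain ⟨d, hd⟩ : ∃ d : ℂ, d = sd (t i) (m + 2) := ⟨_, rfl⟩
  have hd1 : d = t i (m + 1) - F := by rw [hd, rayMatch_sd, hm]
  have hlen := len_pos (t i) hv (m + 2)
  have hdne : d ≠ 0 := by
    rw [hd]
    intro e
    unfold len at hlen
    rw [e, norm_zero] at hlen
    exact lt_irrefl _ hlen
  obtain ⟨p, hp⟩ : ∃ p : ℝ → ℂ, p = fun s : ℝ => F + s * d := ⟨_, rfl⟩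
  have hpc : Continuous p := by rw [hp]; fun_prop
  have hp0 : p 0 = F := by rw [hp]; simp
  have hlim : Tendsto p (𝓝[>] 0) (𝓝 F) := by
    have := hpc.tendsto 0
    rw [hp0] at this
    exact this.mono_left nhdsWithin_le_nhds
  have hIoo : ∀ᶠ s : ℝ in 𝓝[>] 0, 0 < s ∧ s < 1 := by
    filter_upwards [Ioo_mem_nhdsGT (show (0 : ℝ) < 1 by norm_num)] with s hs using hs
  have hseg : ∀ s : ℝ, 0 < s → s < 1 → onSide (t i) (m + 2) (p s) := by
    intro s h0 h1
    refine ⟨1 - s, s, by linarith, h0, by ring, ?_⟩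
    rw [q_e21, q_e22, hm, hp, hd1]
    simp only [Complex.real_smul]
    push_cast
    ring
  have hint : ∀ᶠ s : ℝ in 𝓝[>] 0, p s ∈ interior (hull T) :=
    hlim.eventually_mem (isOpen_interior.mem_nhds hF)
  have hvert : ∀ᶠ s : ℝ in 𝓝[>] 0, ∀ im : Fin N × Fin 3, p s ≠ t im.1 im.2 := by
    rw [eventually_all]
    rintro ⟨x, y⟩
    by_cases e : t x y = F
    · filter_upwards [hIoo] with s hs
      rw [e, hp]
      intro e2
      have e2 : F + (s : ℂ) * d = F := e2
      have e3 : (s : ℂ) * d = 0 := by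
        have : F + (s : ℂ) * d = F + 0 := by rw [e2, add_zero]
        exact add_left_cancel this
      rcases mul_eq_zero.mp e3 with e4 | e4
      · have : s = 0 := by exact_mod_cast e4
        linarith [hs.1]
      · exact hdne e4
    · exact hlim.eventually_ne (fun e' => e e'.symm)
  obtain ⟨⟨j, l⟩, hil⟩ : ∃ il : Fin N × Fin 3,
      ∃ᶠ s in 𝓝[>] (0 : ℝ), il.1 ≠ i ∧ onSide (t il.1) il.2 (p s) := by
    by_contra hcon
    push Not at hcon
    have hall : ∀ᶠ s in 𝓝[>] (0 : ℝ), ∀ il : Fin N × Fin 3,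
        ¬ (il.1 ≠ i ∧ onSide (t il.1) il.2 (p s)) := by
      rw [eventually_all]
      intro il
      filter_upwards [hcon il] with s hs
      rintro ⟨h1, h2⟩
      exact hs h1 h2
    obtain ⟨s, h1, h2, h3, h4⟩ := (hall.and (hvert.and (hIoo.and hint))).exists
    obtain ⟨j, l, h5, h6⟩ := rayMatch_other h h4 (hseg s h3.1 h3.2) (fun x y => h2 (x, y))
    exact h1 (j, l) ⟨h5, h6⟩
  simp only at hil
  have hji : j ≠ i := by
    obtain ⟨s, hs⟩ := hil.exists
    exact hs.1
  have hil' : ∃ᶠ s in 𝓝[>] (0 : ℝ), onSide (t j) l (p s) := hil.mono fun s hs => hs.2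
  have hccw := h.ccwt j
  have hl0 : lam (t j) l F = 0 := by
    have hcl : IsClosed {z : ℂ | lam (t j) l z = 0} := isClosed_eq (h_lam_cont _ _) continuous_const
    exact hcl.mem_of_frequently_of_tendsto
      (hil'.mono fun s hs => ((onSide_iff _ hccw _ _).mp hs).1) hlim
  have hmem : F ∈ hull (t j) :=
    (hull_closed (t j)).mem_of_frequently_of_tendsto (hil'.mono fun s hs => sc_mem (t j) hccw hs)
      hlim
  obtain ⟨m', hm'⟩ : ∃ m', F = t j m' := by
    rcases vertex_cases (t j) hccw F hmem with h1 | ⟨k', h1⟩ | h1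
    · rw [mem_int _ hccw] at h1
      have := h1 l
      linarith
    · exact absurd h1 (hfull j k')
    · exact h1
  obtain ⟨s, hs, hs1⟩ := (hil'.and_eventually hIoo).exists
  have hopp := opp_dir h hji.symm (hseg s hs1.1 hs1.2) hs
  refine ⟨j, m', hji, hm'.symm, ?_⟩
  rcases q_fin3 m' l with e | e | e
  · exfalso
    rw [e, hm', lam_self] at hl0
    linarith
  · rw [← e]
    exact hopp
  · exfalso
    rw [e] at hs hopp
    obtain ⟨a, b, ha, hb, hab, hab'⟩ := hs
    rw [q_e21, q_e22, ← hm'] at hab'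
    have hlen' := len_pos (t j) hccw (m' + 2)
    have h1 : p s - F = (b : ℂ) * sd (t j) (m' + 2) := by
      rw [rayMatch_sd, ← hm', ← hab']
      have ha' : a = 1 - b := by linarith
      rw [ha']
      simp only [Complex.real_smul]
      push_cast
      ring
    have h2 : p s - F = (s : ℂ) * sd (t i) (m + 2) := by
      rw [hp, ← hd]
      ring
    rw [h1, sd_eq (t i) hv, sd_eq (t j) hccw, hopp] at h2
    have h3 : ((b * len (t j) (m' + 2) + s * len (t i) (m + 2) : ℝ) : ℂ) * dir (t j) (m' + 2) = 0 := by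
      push_cast
      linear_combination h2
    rcases mul_eq_zero.mp h3 with h4 | h4
    · have h5 : b * len (t j) (m' + 2) + s * len (t i) (m + 2) = 0 := by exact_mod_cast h4
      have h6 := mul_pos hb hlen'
      have h7 := mul_pos hs1.1 hlen
      linarith
    · exact dir_ne_zero (t j) hccw _ h4


end Pool.Agent.Helper230.Five
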