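import Pool.Agent.Helper230.Five.One
import Pool.Agent.Helper230.Five.RayMatch

/-! # Dissections into five mutually similar triangles: one full vertex, first consequences -/

set_option autoImplicit false
noncomputable section
open scoped BigOperators
open Pool.Agent.Helper549.Tri Pool.Agent.Helper549.Tri.Basic Pool.Agent.Helper549.Tri.Angles
  Pool.Agent.Helper549.Tri.AngleSum Pool.Agent.Helper549.Tri.Opp Pool.Agent.Helper549.Tri.Corner
  Pool.Agent.Helper549.Tri.Vertex

namespace Pool.Agent.Helper230.Five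

variable {T : Fin 3 → ℂ} {t : Fin 5 → Fin 3 → ℂ} {θ : Fin 3 → ℝ} {τ : Fin 5 → Equiv.Perm (Fin 3)}

theorem full_side (h : Dis 5 T t) {F : ℂ} (hF : F ∈ interior (hull T))
    (hW : W t F = 2 * Real.pi) (i : Fin 5) (k : Fin 3) : ¬ onSide (t i) k F := by
  intro hs
  have hsum := angle_sum h F
  simp only [q_angAt] at hsum
  rw [Finset.sum_add_distrib, ← Finset.sum_mul] at hsum
  have hV : q_V T F = 0 := by
    apply q_V_zero
    rintro ⟨m, hm⟩
    exact corner_not_int h.ccwT m (hm ▸ hF)
  rw [hV, zero_add, q_E_int T h.ccwT F hF] at hsum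
  have h1 : (1 : ℝ) ≤ ∑ i, (q_E (t i) F : ℝ) := by
    have e1 : (q_E (t i) F : ℝ) = 1 := by rw [q_E_side _ (h.ccwt i) F k hs]; norm_num
    calc (1 : ℝ) = (q_E (t i) F : ℝ) := e1.symm
      _ ≤ _ := Finset.single_le_sum (f := fun i => (q_E (t i) F : ℝ))
        (fun j _ => Nat.cast_nonneg _) (Finset.mem_univ i)
  have h2 : ∑ i, q_V (t i) F = 2 * Real.pi := hW
  rw [h2] at hsum
  have hpi := Real.pi_pos
  push_cast at hsum
  nlinarith

theorem ray (h : Dis 5 T t) {F : ℂ} (hF : F ∈ interior (hull T)) (hW : W t F = 2 * Real.pi)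
    (i : Fin 5) (hi : Has (t i) F) : ∃ j, j ≠ i ∧ Has (t j) F ∧
      (out t F i - F) / (‖out t F i - F‖ : ℂ) = (inn t F j - F) / (‖inn t F j - F‖ : ℂ) := by
  obtain ⟨j, m', hne, hj, hd⟩ := rayMatch h hF (fun i k => full_side h hF hW i k) (mi_spec hi)
  have hjF : Has (t j) F := ⟨m', hj⟩
  have hm : m' = mi t F j := vertex_inj _ (h.ccwt j) (hj.trans (mi_spec hjF).symm)
  refine ⟨j, hne, hjF, ?_⟩
  subst hm
  unfold dir len at hd
  rw [aux_sd2, aux_sd1, mi_spec hi, mi_spec hjF, norm_neg, neg_div, neg_neg] at hd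
  exact hd

theorem one_of (h : Dis 5 T t) (hang : ∀ i m, ang (t i) m = θ (τ i m))
    (hr : ∀ k, θ k ≠ Real.pi / 2) (hn : (nc T t).card = 3) :
    ∃ F, One T t θ τ F := by
  have h1 := card_nc_full h
  rw [hn] at h1
  have h2 : (full T t).card = 1 := by omega
  obtain ⟨F, hF⟩ := Finset.card_eq_one.1 h2
  have hFf : F ∈ full T t := by rw [hF]; exact Finset.mem_singleton_self _
  obtain ⟨hint, hW⟩ := full_int h hFf
  refine ⟨F, h, hang, hr, n_geth h hang hr, hn, (mem_full.1 hFf).1, hW, hint, ?_,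
    ray h hint hW⟩
  intro p hp hpF
  by_contra hcon
  have : p ∈ full T t := mem_full.2 ⟨hp, hcon⟩
  rw [hF, Finset.mem_singleton] at this
  exact hpF this

/-- a vertex on the ray from `F` nearer than another point of `T` is in the interior -/
theorem near_int (h : Dis 5 T t) {F X Y : ℂ} (hF : F ∈ interior (hull T)) (hX : X ∈ hull T)
    (hseg : Y ∈ openSegment ℝ F X) : Y ∈ interior (hull T) := by
  have hconv : Convex ℝ (hull T) := convex_convexHull ℝ _
  exact hconv.openSegment_interior_self_subset_interior hF hX hseg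

theorem near_nc (h : Dis 5 T t) {F X Y : ℂ} (hF : F ∈ interior (hull T)) (hX : X ∈ hull T)
    (hseg : Y ∈ openSegment ℝ F X) (hY : Y ∈ pts t) : Y ∈ nc T t :=
  mem_nc.2 ⟨hY, fun j hj => corner_not_int h.ccwT j (hj ▸ near_int h hF hX hseg)⟩

/-- comparing the two ends on a ray -/
theorem ray_cases {F X Y : ℂ} (hX : X ≠ F) (hY : Y ≠ F)
    (hd : (X - F) / (‖X - F‖ : ℂ) = (Y - F) / (‖Y - F‖ : ℂ)) :
    X = Y ∨ Y ∈ openSegment ℝ F X ∨ X ∈ openSegment ℝ F Y := by
  rcases lt_trichotomy ‖Y - F‖ ‖X - F‖ with hlt | heq | hgt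
  · exact Or.inr (Or.inl (seg_of_dir hX hY hd hlt))
  · left
    have p1 : 0 < ‖X - F‖ := norm_pos_iff.2 (sub_ne_zero.2 hX)
    have c1 : ((‖X - F‖ : ℝ) : ℂ) ≠ 0 := by exact_mod_cast p1.ne'
    rw [heq, div_left_inj' c1] at hd
    exact sub_left_injective hd
  · exact Or.inr (Or.inr (seg_of_dir hY hX hd.symm hgt))

/-- the side from `F` to `out` -/
theorem out_side {F : ℂ} {i : Fin 5} (hi : Has (t i) F) {p : ℂ}
    (hp : p ∈ openSegment ℝ F (out t F i)) : onSide (t i) (mi t F i + 2) p := by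
  unfold onSide
  rw [q_e21, q_e22, mi_spec hi]
  exact hp

theorem inn_side {F : ℂ} {i : Fin 5} (hi : Has (t i) F) {p : ℂ}
    (hp : p ∈ openSegment ℝ F (inn t F i)) : onSide (t i) (mi t F i + 1) p := by
  unfold onSide
  rw [q_e11, q_e12, mi_spec hi]
  rw [openSegment_symm]
  exact hp

theorem seg_half {F X Y : ℂ} (h : Y ∈ openSegment ℝ F X) :
    (1 / 2 : ℝ) • F + (1 / 2 : ℝ) • Y ∈ openSegment ℝ F X := by
  obtain ⟨a, b, ha, hb, hab, rfl⟩ := h
  refine ⟨1 / 2 + a / 2, b / 2, by positivity, by positivity, by linarith, ?_⟩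
  simp only [Complex.real_smul]
  push_cast
  ring

theorem seg_mid {F Y : ℂ} : (1 / 2 : ℝ) • F + (1 / 2 : ℝ) • Y ∈ openSegment ℝ F Y :=
  ⟨1 / 2, 1 / 2, by norm_num, by norm_num, by norm_num, rfl⟩

/-- all five tiles at the full vertex: impossible -/
theorem five_at {F : ℂ} (o : One T t θ τ F) : (I t F).card ≤ 4 := by
  classical
  by_contra hcon
  have hle : (I t F).card ≤ 5 := by
    have := Finset.card_le_univ (I t F)
    simpa using this
  have h5 : (I t F).card = 5 := by omega
  have huniv : I t F = Finset.univ := Finset.eq_univ_of_card _ (by rw [h5]; rfl)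
  have : ∃ H ∈ nc T t, H ≠ F := by
    by_contra hc
    push Not at hc
    have : nc T t ⊆ {F} := fun x hx => Finset.mem_singleton.2 (hc x hx)
    have := Finset.card_le_card this
    rw [o.hn, Finset.card_singleton] at this
    omega
  obtain ⟨H, hH, hHF⟩ := this
  have h3 := o.h3 H (mem_nc.1 hH).1 (mem_nc.1 hH).2
  have h2 := inter_le_two o.h hHF.symm
  rw [huniv, Finset.univ_inter] at h2
  omega

/-- four tiles at the full vertex: the sides at `F` match -/
theorem four_match {F : ℂ} (o : One T t θ τ F) (h4 : (I t F).card = 4) :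
    ∀ q, (∃ i, Has (t i) F ∧ out t F i = q) ↔ ∃ i, Has (t i) F ∧ inn t F i = q := by
  classical
  -- noncorners are both out and inn
  have hnc : ∀ H ∈ nc T t, H ≠ F → (∃ i, Has (t i) F ∧ out t F i = H) ∧
      ∃ i, Has (t i) F ∧ inn t F i = H := by
    intro H hH hHF
    have h3 := o.h3 H (mem_nc.1 hH).1 (mem_nc.1 hH).2
    have h1 : (I t F ∪ I t H).card ≤ 5 := by
      simpa using Finset.card_le_univ (I t F ∪ I t H)
    have h2 := Finset.card_union_add_card_inter (I t F) (I t H)
    have hlt : 1 < (I t F ∩ I t H).card := by omega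
    obtain ⟨x, hx, y, hy, hxy⟩ := Finset.one_lt_card.1 hlt
    rw [Finset.mem_inter, mem_I, mem_I] at hx hy
    have key : ∀ z, Has (t z) F → Has (t z) H → out t F z = H ∨ inn t F z = H := by
      intro z hz1 hz2
      have : H ∈ Set.range (t z) := hz2
      rw [range_eq F hz1] at this
      simp only [Set.mem_insert_iff, Set.mem_singleton_iff] at this
      rcases this with e | e | e
      · exact absurd e hHF
      · exact Or.inl e.symm
      · exact Or.inr e.symm
    rcases key x hx.1 hx.2 with e | e <;> rcases key y hy.1 hy.2 with e' | e'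
    · exact absurd (e.trans e'.symm) (out_inj o.h hxy hx.1 hy.1)
    · exact ⟨⟨x, hx.1, e⟩, ⟨y, hy.1, e'⟩⟩
    · exact ⟨⟨y, hy.1, e'⟩, ⟨x, hx.1, e⟩⟩
    · exact absurd (e.trans e'.symm) (inn_inj o.h hxy hx.1 hy.1)
  have hsub : (I t F).image (out t F) ⊆ (I t F).image (inn t F) := by
    intro q hq
    rw [Finset.mem_image] at hq
    obtain ⟨i, hi, rfl⟩ := hq
    rw [mem_I] at hi
    obtain ⟨j, hji, hj, hd⟩ := o.hray i hi
    have fX := out_ne_F o.h hi
    have fY := inn_ne_F o.h hj
    rcases ray_cases fX fY hd with e | hseg | hseg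
    · rw [e]
      exact Finset.mem_image_of_mem _ ((mem_I _ _ _).2 hj)
    · exfalso
      have hYn := near_nc o.h o.hF (has_mem o.h (out_has F i)) hseg
        ((mem_pts _ _).2 ⟨j, inn_has F j⟩)
      obtain ⟨⟨k, hk, ek⟩, _⟩ := hnc _ hYn fY
      have hki : k ≠ i := by
        rintro rfl
        rw [ek] at hseg
        exact (fun hh => by
          obtain ⟨a, b, ha, hb, hab, e⟩ := hh
          have e1 : a • F + b • inn t F j - inn t F j = a • (F - inn t F j) := by
            rw [smul_sub]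
            have : b = 1 - a := by linarith
            rw [this, sub_smul, one_smul]
            abel
          rw [e, sub_self] at e1
          rcases smul_eq_zero.1 e1.symm with e2 | e2
          · exact ha.ne' e2
          · exact fY (sub_eq_zero.1 e2).symm : inn t F j ∈ openSegment ℝ F (inn t F j) → False)
          hseg
      have hkj : k ≠ j := by
        rintro rfl
        exact out_ne_inn o.h F k ek
      exact three_sides o.h hji hkj.symm (Ne.symm hki) (inn_side hj (seg_mid))
        (out_side hi (seg_half hseg)) (out_side hk (by rw [ek]; exact seg_mid))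
    · have hXn := near_nc o.h o.hF (has_mem o.h (inn_has F j)) hseg
        ((mem_pts _ _).2 ⟨i, out_has F i⟩)
      obtain ⟨_, k, hk, ek⟩ := hnc _ hXn fX
      rw [← ek]
      exact Finset.mem_image_of_mem _ ((mem_I _ _ _).2 hk)
  have c1 : ((I t F).image (out t F)).card = 4 := by
    rw [Finset.card_image_of_injOn, h4]
    intro i hi j hj hij
    by_contra hne
    exact out_inj o.h hne ((mem_I _ _ _).1 hi) ((mem_I _ _ _).1 hj) hij
  have c2 : ((I t F).image (inn t F)).card = 4 := by
    rw [Finset.card_image_of_injOn, h4]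
    intro i hi j hj hij
    by_contra hne
    exact inn_inj o.h hne ((mem_I _ _ _).1 hi) ((mem_I _ _ _).1 hj) hij
  have heq := Finset.eq_of_subset_of_card_le hsub (by rw [c1, c2])
  intro q
  constructor
  · rintro ⟨i, hi, rfl⟩
    have : out t F i ∈ (I t F).image (inn t F) := by
      rw [← heq]; exact Finset.mem_image_of_mem _ ((mem_I _ _ _).2 hi)
    obtain ⟨j, hj, e⟩ := Finset.mem_image.1 this
    exact ⟨j, (mem_I _ _ _).1 hj, e⟩
  · rintro ⟨i, hi, rfl⟩
    have : inn t F i ∈ (I t F).image (out t F) := by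
      rw [heq]; exact Finset.mem_image_of_mem _ ((mem_I _ _ _).2 hi)
    obtain ⟨j, hj, e⟩ := Finset.mem_image.1 this
    exact ⟨j, (mem_I _ _ _).1 hj, e⟩

end Pool.Agent.Helper230.Five
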