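import Pool.Agent.Helper230.Five.Path

/-! # Dissections into five similar triangles: the angles -/

set_option autoImplicit false
noncomputable section
open scoped BigOperators
open Pool.Agent.Helper549.Tri Pool.Agent.Helper549.Tri.Basic Pool.Agent.Helper549.Tri.Angles
  Pool.Agent.Helper549.Tri.AngleSum Pool.Agent.Helper549.Tri.Opp Pool.Agent.Helper549.Tri.Corner
  Pool.Agent.Helper549.Tri.Vertex

namespace Pool.Agent.Helper230.Five

variable {T : Fin 3 → ℂ} {t : Fin 5 → Fin 3 → ℂ}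

theorem trig7 {A : ℝ} (hA : A = Real.pi / 7) :
    Real.log (Real.sin A) < Real.log (Real.sin (2 * A)) ∧
    Real.log (Real.sin (2 * A)) < Real.log (Real.sin (4 * A)) ∧
    Real.log (Real.sin (4 * A)) + 2 * Real.log (Real.sin A) < 3 * Real.log (Real.sin (2 * A)) := by
  have hpi := Real.pi_pos
  have s1 : 0 < Real.sin A := Real.sin_pos_of_pos_of_lt_pi (by rw [hA]; positivity) (by linarith)
  have s2 : 0 < Real.sin (2 * A) :=
    Real.sin_pos_of_pos_of_lt_pi (by rw [hA]; positivity) (by linarith)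
  have s4 : 0 < Real.sin (4 * A) :=
    Real.sin_pos_of_pos_of_lt_pi (by rw [hA]; positivity) (by linarith)
  have h12 : Real.sin A < Real.sin (2 * A) :=
    Real.sin_lt_sin_of_lt_of_le_pi_div_two (by linarith) (by linarith) (by linarith)
  have e4 : Real.sin (4 * A) = Real.sin (3 * A) := by
    rw [show 4 * A = Real.pi - 3 * A by rw [hA]; ring, Real.sin_pi_sub]
  have h24 : Real.sin (2 * A) < Real.sin (4 * A) := by
    rw [e4]
    exact Real.sin_lt_sin_of_lt_of_le_pi_div_two (by linarith) (by linarith) (by linarith)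
  refine ⟨Real.log_lt_log s1 h12, Real.log_lt_log s2 h24, ?_⟩
  have c : 0 < Real.cos A := Real.cos_pos_of_mem_Ioo ⟨by linarith, by linarith⟩
  have f2 : Real.sin (2 * A) = 2 * Real.sin A * Real.cos A := Real.sin_two_mul A
  have f4 : Real.sin (4 * A) = 2 * Real.sin (2 * A) * Real.cos (2 * A) := by
    rw [show 4 * A = 2 * (2 * A) by ring, Real.sin_two_mul]
  have fc : Real.cos (2 * A) = 2 * Real.cos A ^ 2 - 1 := Real.cos_two_mul A
  have hlt : Real.sin (4 * A) * Real.sin A ^ 2 < Real.sin (2 * A) ^ 3 := by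
    have : Real.sin (2 * A) ^ 3 - Real.sin (4 * A) * Real.sin A ^ 2 =
        4 * Real.sin A ^ 3 * Real.cos A := by
      rw [f4, fc, f2]; ring
    have : 0 < 4 * Real.sin A ^ 3 * Real.cos A := by positivity
    linarith
  have := Real.log_lt_log (by positivity) hlt
  rw [Real.log_mul s4.ne' (by positivity), Real.log_pow, Real.log_pow] at this
  push_cast at this
  exact this

/-- logarithm of the sine of an angle -/
def sl (T : Fin 3 → ℂ) (k : Fin 3) : ℝ := Real.log (Real.sin (ang T k))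

theorem pc_abs (g s : Fin 3 → ℝ) (a x y z : Fin 3) (n1 : x ≠ y) (n2 : x ≠ z) (n3 : y ≠ z) :
    (g x = g a ∧ (s y - s z = s (a + 1) - s (a + 2) ∨ s y - s z = s (a + 2) - s (a + 1))) ∨
    (g x = g (a + 1) ∧ (s y - s z = s a - s (a + 2) ∨ s y - s z = s (a + 2) - s a)) ∨
    (g x = g (a + 2) ∧ (s y - s z = s a - s (a + 1) ∨ s y - s z = s (a + 1) - s a)) := by
  rcases q_fin3 a x with e1 | e1 | e1 <;> rcases q_fin3 a y with e2 | e2 | e2 <;>
    rcases q_fin3 a z with e3 | e3 | e3 <;>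
    first
    | exact absurd (e1.trans e2.symm) n1
    | exact absurd (e1.trans e3.symm) n2
    | exact absurd (e2.trans e3.symm) n3
    | (rw [e1, e2, e3]; simp)

theorem pc (τ : Fin 5 → Equiv.Perm (Fin 3)) (hang : ∀ i m, ang (t i) m = ang T (τ i m)) (F : ℂ)
    (i : Fin 5) (a : Fin 3) :
    (gF t F i = ang T a ∧
      (LF t F i = sl T (a + 1) - sl T (a + 2) ∨ LF t F i = sl T (a + 2) - sl T (a + 1))) ∨
    (gF t F i = ang T (a + 1) ∧
      (LF t F i = sl T a - sl T (a + 2) ∨ LF t F i = sl T (a + 2) - sl T a)) ∨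
    (gF t F i = ang T (a + 2) ∧
      (LF t F i = sl T a - sl T (a + 1) ∨ LF t F i = sl T (a + 1) - sl T a)) := by
  have hg : gF t F i = ang T (τ i (mi t F i)) := hang i _
  have hL : LF t F i = sl T (τ i (mi t F i + 1)) - sl T (τ i (mi t F i + 2)) := by
    unfold LF sl
    rw [hang, hang]
  have hn : ∀ b : Fin 3, b ≠ b + 1 ∧ b ≠ b + 2 ∧ b + 1 ≠ b + 2 := by decide
  have n1 : τ i (mi t F i) ≠ τ i (mi t F i + 1) := fun e => (hn _).1 ((τ i).injective e)
  have n2 : τ i (mi t F i) ≠ τ i (mi t F i + 2) := fun e => (hn _).2.1 ((τ i).injective e)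
  have n3 : τ i (mi t F i + 1) ≠ τ i (mi t F i + 2) := fun e => (hn _).2.2 ((τ i).injective e)
  rw [hg, hL]
  exact pc_abs (ang T) (sl T) a _ _ _ n1 n2 n3

theorem two_sum (h : Dis 5 T t) (hs : ∀ i m, ∃ k, ang (t i) m = ang T k) {p : ℂ}
    (hc : (I t p).card = 2) : ∃ x y, W t p = ang T x + ang T y := by
  obtain ⟨i, j, hij, he⟩ := Finset.card_eq_two.1 hc
  rw [W_eq, he, Finset.sum_pair hij]
  have h1 : i ∈ I t p := by rw [he]; exact Finset.mem_insert_self _ _
  have h2 : j ∈ I t p := by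
    rw [he]; exact Finset.mem_insert_of_mem (Finset.mem_singleton_self _)
  obtain ⟨k, hk⟩ := val h hs ((mem_I t p i).1 h1)
  obtain ⟨l, hl⟩ := val h hs ((mem_I t p j).1 h2)
  exact ⟨k, l, by rw [hk, hl]⟩

theorem sum_rot (f : Fin 3 → ℕ) (a : Fin 3) : f 0 + f 1 + f 2 = f a + f (a + 1) + f (a + 2) := by
  fin_cases a
  · rfl
  · show f 0 + f 1 + f 2 = f 1 + f 2 + f 0; omega
  · show f 0 + f 1 + f 2 = f 2 + f 0 + f 1; omega

theorem sum_rot' (T : Fin 3 → ℂ) (hT : 0 < dd T) (a : Fin 3) :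
    ang T a + ang T (a + 1) + ang T (a + 2) = Real.pi := by
  rw [← ang_sum T hT]
  fin_cases a
  · rfl
  · show ang T 1 + ang T 2 + ang T 0 = _; ring
  · show ang T 2 + ang T 0 + ang T 1 = _; ring

/-- the possible angles if the two other corners are each divided into two -/
theorem arith (hT : 0 < dd T) (hr : ∀ k, ang T k ≠ Real.pi / 2) (a : Fin 3)
    (hB : ∃ x y, ang T (a + 1) = ang T x + ang T y)
    (hC : ∃ x y, ang T (a + 2) = ang T x + ang T y) :
    (ang T (a + 1) = 2 * ang T a ∧ ang T (a + 2) = 2 * ang T a) ∨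
    (ang T (a + 1) = 2 * ang T a ∧ ang T (a + 2) = 4 * ang T a) ∨
    (ang T (a + 1) = 4 * ang T a ∧ ang T (a + 2) = 2 * ang T a) := by
  have hsum := sum_rot' T hT a
  have pA := ang_pos T hT a
  have pB := ang_pos T hT (a + 1)
  have pC := ang_pos T hT (a + 2)
  have rB := hr (a + 1)
  have rC := hr (a + 2)
  obtain ⟨x, y, hxy⟩ := hB
  obtain ⟨z, w, hzw⟩ := hC
  have hB' : ang T (a + 1) = 2 * ang T a ∨ ang T (a + 1) = 2 * ang T (a + 2) := by
    rcases q_fin3 a x with e1 | e1 | e1 <;> rcases q_fin3 a y with e2 | e2 | e2 <;>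
      rw [e1, e2] at hxy <;>
      first
      | (left; linarith)
      | (right; linarith)
      | (exfalso; linarith)
      | exact absurd (by linarith) rB
  have hC' : ang T (a + 2) = 2 * ang T a ∨ ang T (a + 2) = 2 * ang T (a + 1) := by
    rcases q_fin3 a z with e1 | e1 | e1 <;> rcases q_fin3 a w with e2 | e2 | e2 <;>
      rw [e1, e2] at hzw <;>
      first
      | (left; linarith)
      | (right; linarith)
      | (exfalso; linarith)
      | exact absurd (by linarith) rC
  rcases hB' with e1 | e1 <;> rcases hC' with e2 | e2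
  · left; exact ⟨e1, e2⟩
  · right; left; exact ⟨e1, by linarith⟩
  · right; right; exact ⟨by linarith, e2⟩
  · exfalso; linarith

end Pool.Agent.Helper230.Five
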