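import Mathlib

/-! # Dissections into five mutually similar triangles: definitions -/

set_option autoImplicit false
noncomputable section

namespace Pool.Agent.Helper230.Five

/-- `(A, B, C)` is a permutation of `(x, y, z)` -/
def Perm3 (A B C x y z : ℝ) : Prop :=
  (A = x ∧ B = y ∧ C = z) ∨ (A = x ∧ B = z ∧ C = y) ∨ (A = y ∧ B = x ∧ C = z) ∨
  (A = y ∧ B = z ∧ C = x) ∨ (A = z ∧ B = x ∧ C = y) ∨ (A = z ∧ B = y ∧ C = x)

/-- the side lengths of `T` are proportional to `x, y, z` in some order -/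
def Shape {P : Type*} [MetricSpace P] (T : Fin 3 → P) (x y z : ℝ) : Prop :=
  ∃ (σ : Equiv.Perm (Fin 3)) (r : ℝ), 0 < r ∧ dist (T (σ 1)) (T (σ 2)) = r * x ∧
    dist (T (σ 0)) (T (σ 2)) = r * y ∧ dist (T (σ 0)) (T (σ 1)) = r * z

/-- `T` can be dissected into five mutually similar triangles -/
def FiveGood (T : Fin 3 → EuclideanSpace ℝ (Fin 2)) : Prop :=
  ∃ P : Fin 5 → Fin 3 → EuclideanSpace ℝ (Fin 2), (∀ i, AffineIndependent ℝ (P i)) ∧
    (∀ i j, ∃ (σ : Equiv.Perm (Fin 3)) (r : ℝ), 0 < r ∧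
      ∀ k l, dist (P i k) (P i l) = r * dist (P j (σ k)) (P j (σ l))) ∧
    (⋃ i, convexHull ℝ (Set.range (P i))) = convexHull ℝ (Set.range T) ∧
    (∀ i j, i ≠ j → Disjoint (interior (convexHull ℝ (Set.range (P i))))
          (interior (convexHull ℝ (Set.range (P j)))))

end Pool.Agent.Helper230.Five
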