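import Pool.Agent.Helper230.Five.Gen
import Pool.Agent.Helper230.Five.Shape

/-! # Dissections into five mutually similar triangles: Conv -/

set_option autoImplicit false
noncomputable section
open scoped BigOperators
open Pool.Agent.Helper549.Tri Pool.Agent.Helper549.Tri.Basic Pool.Agent.Helper549.Tri.Angles
  Pool.Agent.Helper549.Tri.AngleSum Pool.Agent.Helper549.Tri.Opp Pool.Agent.Helper549.Tri.Corner
  Pool.Agent.Helper549.Tri.Vertex
namespace Pool.Agent.Helper230.Five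

variable {T : Fin 3 → ℂ} {t : Fin 5 → Fin 3 → ℂ} {θ : Fin 3 → ℝ} {τ : Fin 5 → Equiv.Perm (Fin 3)}

theorem conv_len (T : Fin 3 → ℂ) (hT : 0 < dd T) :
    ∃ R : ℝ, 0 < R ∧ dist (T 1) (T 2) = R * Real.sin (ang T 0) ∧
      dist (T 0) (T 2) = R * Real.sin (ang T 1) ∧ dist (T 0) (T 1) = R * Real.sin (ang T 2) := by
  have hs : ∀ k, 0 < Real.sin (ang T k) := fun k =>
    Real.sin_pos_of_pos_of_lt_pi (ang_pos T hT k) (ang_lt_pi T hT k)
  have d0 : dist (T 1) (T 2) = len T 0 := by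
    rw [dist_comm, dist_eq_norm]
    rfl
  have d1 : dist (T 0) (T 2) = len T 1 := by
    rw [dist_eq_norm]
    rfl
  have d2 : dist (T 0) (T 1) = len T 2 := by
    rw [dist_comm, dist_eq_norm]
    rfl
  have hl : 0 < len T 0 := len_pos T hT 0
  refine ⟨len T 0 / Real.sin (ang T 0), div_pos hl (hs 0), ?_, ?_, ?_⟩
  · rw [d0, div_mul_cancel₀ _ (hs 0).ne']
  · rw [d1, div_mul_eq_mul_div, eq_div_iff (hs 0).ne']
    exact sine_law T hT 1 0
  · rw [d2, div_mul_eq_mul_div, eq_div_iff (hs 0).ne']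
    exact sine_law T hT 2 0

theorem conv_core (T : Fin 3 → ℂ) (hT : 0 < dd T) {α β γ x y z s : ℝ} (hs : 0 < s)
    (hx : Real.sin α = s * x) (hy : Real.sin β = s * y) (hz : Real.sin γ = s * z)
    (hp : Perm3 (ang T 0) (ang T 1) (ang T 2) α β γ) : Shape T x y z := by
  obtain ⟨R, hR, h0, h1, h2⟩ := conv_len T hT
  have hRs : 0 < R * s := mul_pos hR hs
  have h0' : dist (T 2) (T 1) = R * Real.sin (ang T 0) := by rw [dist_comm]; exact h0
  have h1' : dist (T 2) (T 0) = R * Real.sin (ang T 1) := by rw [dist_comm]; exact h1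
  have h2' : dist (T 1) (T 0) = R * Real.sin (ang T 2) := by rw [dist_comm]; exact h2
  rcases hp with ⟨e0, e1, e2⟩ | ⟨e0, e1, e2⟩ | ⟨e0, e1, e2⟩ | ⟨e0, e1, e2⟩ | ⟨e0, e1, e2⟩ |
    ⟨e0, e1, e2⟩ <;> rw [e0] at h0 h0' <;> rw [e1] at h1 h1' <;> rw [e2] at h2 h2'
  · refine ⟨1, R * s, hRs, ?_, ?_, ?_⟩
    · show dist (T 1) (T 2) = _
      rw [h0, hx]; ring
    · show dist (T 0) (T 2) = _
      rw [h1, hy]; ring
    · show dist (T 0) (T 1) = _
      rw [h2, hz]; ring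
  · have s0 : (Equiv.swap 1 2 : Equiv.Perm (Fin 3)) 0 = 0 := by decide
    have s1 : (Equiv.swap 1 2 : Equiv.Perm (Fin 3)) 1 = 2 := by decide
    have s2 : (Equiv.swap 1 2 : Equiv.Perm (Fin 3)) 2 = 1 := by decide
    refine ⟨Equiv.swap 1 2, R * s, hRs, ?_, ?_, ?_⟩
    · rw [s1, s2, h0', hx]; ring
    · rw [s0, s2, h2, hy]; ring
    · rw [s0, s1, h1, hz]; ring
  · have s0 : (Equiv.swap 0 1 : Equiv.Perm (Fin 3)) 0 = 1 := by decide
    have s1 : (Equiv.swap 0 1 : Equiv.Perm (Fin 3)) 1 = 0 := by decide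
    have s2 : (Equiv.swap 0 1 : Equiv.Perm (Fin 3)) 2 = 2 := by decide
    refine ⟨Equiv.swap 0 1, R * s, hRs, ?_, ?_, ?_⟩
    · rw [s1, s2, h1, hx]; ring
    · rw [s0, s2, h0, hy]; ring
    · rw [s0, s1, h2', hz]; ring
  · have s0 : (finRotate 3).symm 0 = 2 := by decide
    have s1 : (finRotate 3).symm 1 = 0 := by decide
    have s2 : (finRotate 3).symm 2 = 1 := by decide
    refine ⟨(finRotate 3).symm, R * s, hRs, ?_, ?_, ?_⟩
    · rw [s1, s2, h2, hx]; ring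
    · rw [s0, s2, h0', hy]; ring
    · rw [s0, s1, h1', hz]; ring
  · have s0 : (finRotate 3) 0 = 1 := by decide
    have s1 : (finRotate 3) 1 = 2 := by decide
    have s2 : (finRotate 3) 2 = 0 := by decide
    refine ⟨finRotate 3, R * s, hRs, ?_, ?_, ?_⟩
    · rw [s1, s2, h1', hx]; ring
    · rw [s0, s2, h2', hy]; ring
    · rw [s0, s1, h0, hz]; ring
  · have s0 : (Equiv.swap 0 2 : Equiv.Perm (Fin 3)) 0 = 2 := by decide
    have s1 : (Equiv.swap 0 2 : Equiv.Perm (Fin 3)) 1 = 1 := by decide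
    have s2 : (Equiv.swap 0 2 : Equiv.Perm (Fin 3)) 2 = 0 := by decide
    refine ⟨Equiv.swap 0 2, R * s, hRs, ?_, ?_, ?_⟩
    · rw [s1, s2, h2', hx]; ring
    · rw [s0, s2, h1', hy]; ring
    · rw [s0, s1, h0', hz]; ring

/-- the trigonometry: `u = sin (b/2)`, `c = cos (b/2)`, `r = 2 cos b - 1` -/
theorem conv_trig {a b : ℝ} (ha : 0 < a) (hb : 0 < b) (hab : 2 * a + 3 * b = Real.pi) :
    ∃ u c r : ℝ, 0 < u ∧ 0 < c ∧ 0 < r ∧ u ^ 2 + c ^ 2 = 1 ∧ r = 1 - 4 * u ^ 2 ∧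
      Real.sin a = r * c ∧ Real.sin (a + 2 * b) = c ∧ Real.sin b = 2 * u * c ∧
      Real.sin (a + b) = c ∧ Real.sin (2 * b) = 2 * u * c * (1 + r) ∧
      Real.sin (2 * a) = 2 * u * c * ((1 + r) ^ 2 - 1) := by
  have hpi := Real.pi_pos
  have hb3 : b < Real.pi / 3 := by linarith
  have hu : 0 < Real.sin (b / 2) := Real.sin_pos_of_pos_of_lt_pi (by linarith) (by linarith)
  have hc : 0 < Real.cos (b / 2) :=
    Real.cos_pos_of_mem_Ioo ⟨by linarith, by linarith⟩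
  have huc : Real.sin (b / 2) ^ 2 + Real.cos (b / 2) ^ 2 = 1 := Real.sin_sq_add_cos_sq _
  have hsb : Real.sin b = 2 * Real.sin (b / 2) * Real.cos (b / 2) := by
    have := Real.sin_two_mul (b / 2)
    rwa [mul_div_cancel₀ b (two_ne_zero)] at this
  have hcb : Real.cos b = 1 - 2 * Real.sin (b / 2) ^ 2 := by
    have := Real.cos_two_mul (b / 2)
    rw [mul_div_cancel₀ b (two_ne_zero)] at this
    rw [this]
    linarith
  have hsa : Real.sin a = (1 - 4 * Real.sin (b / 2) ^ 2) * Real.cos (b / 2) := by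
    have e1 : a = Real.pi / 2 - (b + b / 2) := by linarith
    rw [e1, Real.sin_pi_div_two_sub, Real.cos_add, hcb, hsb]
    ring
  have hapos : 0 < Real.sin a := Real.sin_pos_of_pos_of_lt_pi ha (by linarith)
  refine ⟨Real.sin (b / 2), Real.cos (b / 2), 1 - 4 * Real.sin (b / 2) ^ 2, hu, hc, ?_, huc, rfl,
    hsa, ?_, hsb, ?_, ?_, ?_⟩
  · rw [hsa] at hapos
    exact (pos_iff_pos_of_mul_pos hapos).2 hc
  · have e1 : a + 2 * b = b / 2 + Real.pi / 2 := by linarith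
    rw [e1, Real.sin_add_pi_div_two]
  · have e1 : a + b = Real.pi / 2 - b / 2 := by linarith
    rw [e1, Real.sin_pi_div_two_sub]
  · rw [Real.sin_two_mul, hsb, hcb]
    ring
  · have e1 : 2 * a = Real.pi - 3 * b := by linarith
    rw [e1, Real.sin_pi_sub, Real.sin_three_mul, hsb]
    linear_combination (-32 * Real.sin (b / 2) ^ 3 * Real.cos (b / 2)) * huc

theorem conv1 (T : Fin 3 → ℂ) (hT : 0 < dd T) {a b : ℝ} (ha : 0 < a) (hb : 0 < b)
    (hab : 2 * a + 3 * b = Real.pi) (he : Real.sin a * Real.sin (a + 2 * b) = Real.sin b ^ 2)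
    (hp : Perm3 (ang T 0) (ang T 1) (ang T 2) b (2 * b) (2 * a)) : Shape T 4 6 5 := by
  obtain ⟨u, c, r, hu, hc, hr, huc, hr1, h1, h2, h3, h4, h5, h6⟩ := conv_trig ha hb hab
  rw [h1, h2, h3] at he
  have hr2 : r = 1 / 2 := by
    have hc2 : c ^ 2 ≠ 0 := pow_ne_zero _ hc.ne'
    have h7 : r = 4 * u ^ 2 := by
      apply mul_right_cancel₀ hc2
      linarith
    linarith
  refine conv_core T hT (s := 2 * u * c / 4) (by positivity) ?_ ?_ ?_ hp
  · rw [h3]; ring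
  · rw [h5, hr2]; ring
  · rw [h6, hr2]; ring

theorem conv2 (T : Fin 3 → ℂ) (hT : 0 < dd T) {a b : ℝ} (ha : 0 < a) (hb : 0 < b)
    (hab : 2 * a + 3 * b = Real.pi) (he : Real.sin a * Real.sin (a + 2 * b) = Real.sin b ^ 2)
    (hp : Perm3 (ang T 0) (ang T 1) (ang T 2) a (a + b) (2 * b)) :
    Shape T 2 4 (3 * Real.sqrt 2) := by
  obtain ⟨u, c, r, hu, hc, hr, huc, hr1, h1, h2, h3, h4, h5, h6⟩ := conv_trig ha hb hab
  rw [h1, h2, h3] at he
  have hr2 : r = 1 / 2 := by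
    have hc2 : c ^ 2 ≠ 0 := pow_ne_zero _ hc.ne'
    have h7 : r = 4 * u ^ 2 := by
      apply mul_right_cancel₀ hc2
      linarith
    linarith
  have h4u : Real.sqrt 2 = 4 * u := by
    rw [Real.sqrt_eq_iff_mul_self_eq (by norm_num) (by positivity)]
    nlinarith
  refine conv_core T hT (s := c / 4) (by positivity) ?_ ?_ ?_ hp
  · rw [h1, hr2]; ring
  · rw [h4]; ring
  · rw [h5, hr2, h4u]; ring

theorem conv3 (T : Fin 3 → ℂ) (hT : 0 < dd T) {a b : ℝ} (ha : 0 < a) (hb : 0 < b)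
    (hab : 2 * a + 3 * b = Real.pi)
    (he : Real.sin (a + 2 * b) * Real.sin b ^ 2 = Real.sin a ^ 3)
    (hp : Perm3 (ang T 0) (ang T 1) (ang T 2) a (2 * b) (a + b)) :
    ∃ r : ℝ, 0 < r ∧ r ^ 3 + r = 1 ∧ Shape T 1 (Real.sqrt r * (1 + r)) (1 + r ^ 2) := by
  obtain ⟨u, c, r, hu, hc, hr, huc, hr1, h1, h2, h3, h4, h5, h6⟩ := conv_trig ha hb hab
  rw [h1, h2, h3] at he
  have h7 : 4 * u ^ 2 = r ^ 3 := by
    have hc3 : c ^ 3 ≠ 0 := pow_ne_zero _ hc.ne'
    apply mul_right_cancel₀ hc3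
    linarith
  have hr3 : r ^ 3 + r = 1 := by linarith
  refine ⟨r, hr, hr3, ?_⟩
  have h8 : r * Real.sqrt r = 2 * u := by
    have h9 : Real.sqrt r ^ 2 = r := Real.sq_sqrt hr.le
    have h10 : (r * Real.sqrt r) ^ 2 = (2 * u) ^ 2 := by
      rw [mul_pow, h9]
      linarith
    have h11 : 0 ≤ r * Real.sqrt r := by positivity
    have h12 : 0 ≤ 2 * u := by positivity
    exact (pow_left_inj₀ h11 h12 two_ne_zero).1 h10
  refine conv_core T hT (s := r * c) (by positivity) ?_ ?_ ?_ hp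
  · rw [h1]; ring
  · rw [h5, ← h8]; ring
  · rw [h4]
    linear_combination (-c) * hr3

end Pool.Agent.Helper230.Five
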