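import Pool.Agent.Helper230.Five.Gen
import Pool.Agent.Helper230.Five.Shape

/-! # Dissections into five mutually similar triangles: Conv45 -/

set_option autoImplicit false
noncomputable section
open scoped BigOperators
open Pool.Agent.Helper549.Tri Pool.Agent.Helper549.Tri.Basic Pool.Agent.Helper549.Tri.Angles
  Pool.Agent.Helper549.Tri.AngleSum Pool.Agent.Helper549.Tri.Opp Pool.Agent.Helper549.Tri.Corner
  Pool.Agent.Helper549.Tri.Vertex
namespace Pool.Agent.Helper230.Five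

variable {T : Fin 3 → ℂ} {t : Fin 5 → Fin 3 → ℂ} {θ : Fin 3 → ℝ} {τ : Fin 5 → Equiv.Perm (Fin 3)}

lemma conv45_dist (T : Fin 3 → ℂ) (a b c : Fin 3) (hab : a ≠ b) (hac : a ≠ c) (hbc : b ≠ c) :
    dist (T b) (T c) = len T a := by
  have h : (b = a + 1 ∧ c = a + 2) ∨ (b = a + 2 ∧ c = a + 1) := by
    revert a b c
    decide
  unfold len sd
  rcases h with ⟨rfl, rfl⟩ | ⟨rfl, rfl⟩
  · rw [dist_comm, dist_eq_norm]
  · rw [dist_eq_norm]

lemma conv45_perm (T : Fin 3 → ℂ) (a b c : Fin 3) (hab : a ≠ b) (hac : a ≠ c) (hbc : b ≠ c)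
    {x y z r : ℝ} (hr : 0 < r) (h1 : len T a = r * x) (h2 : len T b = r * y)
    (h3 : len T c = r * z) : Shape T x y z := by
  have hinj : Function.Injective ![a, b, c] := by
    intro i j h
    fin_cases i <;> fin_cases j <;> simp_all
  refine ⟨Equiv.ofBijective ![a, b, c] (Finite.injective_iff_bijective.1 hinj), r, hr, ?_, ?_, ?_⟩
  · change dist (T b) (T c) = _
    rw [conv45_dist T a b c hab hac hbc, h1]
  · change dist (T a) (T c) = _
    rw [conv45_dist T b a c hab.symm hbc hac, h2]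
  · change dist (T a) (T b) = _
    rw [conv45_dist T c a b hac.symm hbc.symm hab, h3]

lemma conv45_shape (T : Fin 3 → ℂ) (hT : 0 < dd T) {α β γ x y z s : ℝ} (hs : 0 < s)
    (hx : Real.sin α = s * x) (hy : Real.sin β = s * y) (hz : Real.sin γ = s * z)
    (hp : Perm3 (ang T 0) (ang T 1) (ang T 2) α β γ) : Shape T x y z := by
  have hsum := ang_sum T hT
  have h0 := ang_pos T hT 0
  have h1 := ang_pos T hT 1
  have h2 := ang_pos T hT 2
  have hsin : 0 < Real.sin (ang T 0) := Real.sin_pos_of_pos_of_lt_pi h0 (by linarith)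
  have hl := len_pos T hT 0
  set R := len T 0 / Real.sin (ang T 0) with hR
  have hR0 : 0 < R := div_pos hl hsin
  have key : ∀ k, len T k = R * Real.sin (ang T k) := by
    intro k
    have h := sine_law T hT k 0
    rw [hR, div_mul_eq_mul_div, eq_div_iff hsin.ne', h]
  have hrs : 0 < R * s := mul_pos hR0 hs
  have k0 := key 0
  have k1 := key 1
  have k2 := key 2
  rcases hp with ⟨e0, e1, e2⟩ | ⟨e0, e1, e2⟩ | ⟨e0, e1, e2⟩ | ⟨e0, e1, e2⟩ | ⟨e0, e1, e2⟩ |
      ⟨e0, e1, e2⟩ <;> rw [e0] at k0 <;> rw [e1] at k1 <;> rw [e2] at k2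
  · exact conv45_perm T 0 1 2 (by decide) (by decide) (by decide) hrs
      (by rw [k0, hx, mul_assoc]) (by rw [k1, hy, mul_assoc]) (by rw [k2, hz, mul_assoc])
  · exact conv45_perm T 0 2 1 (by decide) (by decide) (by decide) hrs
      (by rw [k0, hx, mul_assoc]) (by rw [k2, hy, mul_assoc]) (by rw [k1, hz, mul_assoc])
  · exact conv45_perm T 1 0 2 (by decide) (by decide) (by decide) hrs
      (by rw [k1, hx, mul_assoc]) (by rw [k0, hy, mul_assoc]) (by rw [k2, hz, mul_assoc])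
  · exact conv45_perm T 2 0 1 (by decide) (by decide) (by decide) hrs
      (by rw [k2, hx, mul_assoc]) (by rw [k0, hy, mul_assoc]) (by rw [k1, hz, mul_assoc])
  · exact conv45_perm T 1 2 0 (by decide) (by decide) (by decide) hrs
      (by rw [k1, hx, mul_assoc]) (by rw [k2, hy, mul_assoc]) (by rw [k0, hz, mul_assoc])
  · exact conv45_perm T 2 1 0 (by decide) (by decide) (by decide) hrs
      (by rw [k2, hx, mul_assoc]) (by rw [k1, hy, mul_assoc]) (by rw [k0, hz, mul_assoc])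

lemma conv45_rot {A B C x y z : ℝ} (h : Perm3 A B C x y z) : Perm3 A B C y z x := by
  rcases h with h | h | h | h | h | h
  · exact Or.inr (Or.inr (Or.inr (Or.inr (Or.inl h))))
  · exact Or.inr (Or.inr (Or.inr (Or.inr (Or.inr h))))
  · exact Or.inr (Or.inl h)
  · exact Or.inl h
  · exact Or.inr (Or.inr (Or.inr (Or.inl h)))
  · exact Or.inr (Or.inr (Or.inl h))

/-- the basic identities -/
lemma conv45_id (x : ℝ) : Real.sqrt 3 * Real.cos x =
      2 * Real.sin (Real.pi / 3 - x) + Real.sin x ∧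
    2 * Real.cos (Real.pi / 3 - x) = Real.cos x + Real.sqrt 3 * Real.sin x ∧
    Real.sqrt 3 * Real.sqrt 3 = 3 ∧ Real.sin x ^ 2 + Real.cos x ^ 2 = 1 := by
  refine ⟨?_, ?_, Real.mul_self_sqrt (by norm_num), Real.sin_sq_add_cos_sq x⟩
  · rw [Real.sin_sub, Real.sin_pi_div_three, Real.cos_pi_div_three]
    ring
  · rw [Real.cos_sub, Real.sin_pi_div_three, Real.cos_pi_div_three]
    ring

theorem conv4 (T : Fin 3 → ℂ) (hT : 0 < dd T) {x : ℝ} (h0 : 0 < x) (h1 : x < Real.pi / 3)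
    (he : Real.sin x = 2 * Real.sin (Real.pi / 3 - x))
    (hp : Perm3 (ang T 0) (ang T 1) (ang T 2) (Real.pi / 3) (2 * x) (2 * (Real.pi / 3 - x))) :
    Shape T 8 5 7 := by
  obtain ⟨e1, e2, e3, e4⟩ := conv45_id x
  have hr : 0 < Real.sqrt 3 := Real.sqrt_pos.2 (by norm_num)
  set r := Real.sqrt 3 with hrdef
  set s := Real.sin x with hs
  set c := Real.cos x with hc
  set s' := Real.sin (Real.pi / 3 - x) with hs'
  set c' := Real.cos (Real.pi / 3 - x) with hc'
  have f1 : r * c = 2 * s := by linarith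
  have f2 : 3 * c = 2 * r * s := by
    have : r * (r * c) = r * (2 * s) := by rw [f1]
    rw [← mul_assoc, e3] at this
    linarith
  have f3 : s ^ 2 = 3 / 7 := by
    have h9 : 9 * c ^ 2 = 12 * s ^ 2 := by
      have : (3 * c) ^ 2 = (2 * r * s) ^ 2 := by rw [f2]
      have h' : (2 * r * s) ^ 2 = 4 * (r * r) * s ^ 2 := by ring
      rw [h', e3] at this
      linarith [this, (by ring : (3 * c) ^ 2 = 9 * c ^ 2)]
    linarith
  have g1 : Real.sin (2 * x) = r / 14 * 8 := by
    rw [Real.sin_two_mul]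
    have : 2 * s * c = 2 * s * (2 * r * s / 3) := by
      rw [show c = 2 * r * s / 3 by linarith]
    rw [this]
    have : 2 * s * (2 * r * s / 3) = 4 * r / 3 * s ^ 2 := by ring
    rw [this, f3]
    ring
  have g2 : Real.sin (2 * (Real.pi / 3 - x)) = r / 14 * 5 := by
    rw [Real.sin_two_mul]
    have h5 : 2 * s' * c' = s * c' := by rw [he]
    rw [h5]
    have h6 : 6 * c' = 5 * r * s := by linarith
    have h7 : s * c' = 5 * r / 6 * s ^ 2 := by
      rw [show c' = 5 * r * s / 6 by linarith]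
      ring
    rw [h7, f3]
    ring
  have g3 : Real.sin (Real.pi / 3) = r / 14 * 7 := by
    rw [Real.sin_pi_div_three]
    ring
  exact conv45_shape T hT (α := 2 * x) (β := 2 * (Real.pi / 3 - x)) (γ := Real.pi / 3)
    (s := r / 14) (by positivity) g1 g2 g3 (conv45_rot hp)

theorem conv5 (T : Fin 3 → ℂ) (hT : 0 < dd T) {x : ℝ} (h0 : 0 < x) (h1 : x < Real.pi / 3)
    (he : Real.sin x ^ 3 = 2 * Real.sin x ^ 2 * Real.sin (Real.pi / 3 - x) +
          Real.sin x * Real.sin (Real.pi / 3 - x) ^ 2 + Real.sin (Real.pi / 3 - x) ^ 3)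
    (hp : Perm3 (ang T 0) (ang T 1) (ang T 2) (Real.pi / 3) (2 * x) (2 * (Real.pi / 3 - x))) :
    ∃ p : ℝ, 1 < p ∧ p ^ 3 = 2 * p ^ 2 + p + 1 ∧ Shape T p (p + 1 / p) (p - 1) := by
  obtain ⟨e1, e2, e3, e4⟩ := conv45_id x
  have hpi := Real.pi_pos
  have hr : 0 < Real.sqrt 3 := Real.sqrt_pos.2 (by norm_num)
  have hs0 : 0 < Real.sin x := Real.sin_pos_of_pos_of_lt_pi h0 (by linarith)
  have hs0' : 0 < Real.sin (Real.pi / 3 - x) :=
    Real.sin_pos_of_pos_of_lt_pi (by linarith) (by linarith)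
  set r := Real.sqrt 3 with hrdef
  set s := Real.sin x with hs
  set c := Real.cos x with hc
  set s' := Real.sin (Real.pi / 3 - x) with hs'
  set c' := Real.cos (Real.pi / 3 - x) with hc'
  obtain ⟨p, hpd⟩ : ∃ p : ℝ, p = s / s' := ⟨_, rfl⟩
  have hsp : s = p * s' := by rw [hpd, div_mul_cancel₀ _ hs0'.ne']
  have hp0 : 0 < p := by rw [hpd]; exact div_pos hs0 hs0'
  have hp3 : p ^ 3 = 2 * p ^ 2 + p + 1 := by
    have h3 : s' ^ 3 ≠ 0 := pow_ne_zero _ hs0'.ne'
    apply mul_right_cancel₀ h3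
    have h4 := he
    rw [hsp] at h4
    linear_combination h4
  have hp1 : 1 < p := by
    by_contra hcon
    push Not at hcon
    have : p ^ 3 ≤ 1 := pow_le_one₀ hp0.le hcon
    nlinarith [sq_nonneg p]
  refine ⟨p, hp1, hp3, ?_⟩
  have hc3 : 3 * c = r * (s' * (p + 2)) := by
    have : r * (r * c) = r * (2 * s' + s) := by rw [e1]
    rw [← mul_assoc, e3, hsp] at this
    linear_combination this
  have hcv : c = r * (s' * (p + 2)) / 3 := by linarith
  have hcv' : c' = r * (s' * (2 * p + 1)) / 3 := by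
    have h5 : 2 * c' = c + r * s := e2
    rw [hcv, hsp] at h5
    linear_combination h5 / 2
  have hq : s' ^ 2 * (p ^ 2 + p + 1) = 3 / 4 := by
    have h6 := e4
    rw [hcv, hsp] at h6
    have h7 : (p * s') ^ 2 + (r * (s' * (p + 2)) / 3) ^ 2 =
        p ^ 2 * s' ^ 2 + (r * r) * s' ^ 2 * (p + 2) ^ 2 / 9 := by ring
    rw [h7, e3] at h6
    linear_combination (3 / 4) * h6
  have hlam : 0 < (p ^ 2 + p + 1) / p := by positivity
  have g0 : Real.sin (Real.pi / 3) = 2 * r / 3 * s' ^ 2 * ((p ^ 2 + p + 1) / p) * p := by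
    rw [Real.sin_pi_div_three]
    have : 2 * r / 3 * s' ^ 2 * ((p ^ 2 + p + 1) / p) * p =
        2 * r / 3 * (s' ^ 2 * (p ^ 2 + p + 1)) := by
      field_simp
    rw [this, hq]
    ring
  have g1 : Real.sin (2 * x) = 2 * r / 3 * s' ^ 2 * ((p ^ 2 + p + 1) / p) * (p + 1 / p) := by
    rw [Real.sin_two_mul]
    have h8 : ((p ^ 2 + p + 1) / p) * (p + 1 / p) = p * (p + 2) := by
      field_simp
      linear_combination (-1) * hp3
    have h9 : 2 * s * c = 2 * r / 3 * s' ^ 2 * (p * (p + 2)) := by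
      rw [hcv, hsp]
      ring
    rw [h9, ← h8]
    ring
  have g2 : Real.sin (2 * (Real.pi / 3 - x)) =
      2 * r / 3 * s' ^ 2 * ((p ^ 2 + p + 1) / p) * (p - 1) := by
    rw [Real.sin_two_mul]
    have h8 : ((p ^ 2 + p + 1) / p) * (p - 1) = 2 * p + 1 := by
      field_simp
      linear_combination hp3
    have h9 : 2 * s' * c' = 2 * r / 3 * s' ^ 2 * (2 * p + 1) := by
      rw [hcv']
      ring
    rw [h9, ← h8]
    ring
  exact conv45_shape T hT (s := 2 * r / 3 * s' ^ 2 * ((p ^ 2 + p + 1) / p)) (by positivity)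
    g0 g1 g2 hp

end Pool.Agent.Helper230.Five
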