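import Pool.Agent.Helper230.Five.One
import Pool.Agent.Helper230.Five.Shape

/-! # Dissections into five mutually similar triangles: FourAng -/

set_option autoImplicit false
noncomputable section
open scoped BigOperators
open Pool.Agent.Helper549.Tri Pool.Agent.Helper549.Tri.Basic Pool.Agent.Helper549.Tri.Angles
  Pool.Agent.Helper549.Tri.AngleSum Pool.Agent.Helper549.Tri.Opp Pool.Agent.Helper549.Tri.Corner
  Pool.Agent.Helper549.Tri.Vertex
namespace Pool.Agent.Helper230.Five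

variable {T : Fin 3 → ℂ} {t : Fin 5 → Fin 3 → ℂ} {θ : Fin 3 → ℝ} {τ : Fin 5 → Equiv.Perm (Fin 3)}


theorem fourAng_sum5 {Q P1 P2 P3 P4 : Fin 5} (hnd : [Q, P1, P2, P3, P4].Nodup) (f : Fin 5 → ℝ) :
    ∑ i, f i = f Q + f P1 + f P2 + f P3 + f P4 := by
  classical
  have h1 : ([Q, P1, P2, P3, P4].toFinset : Finset (Fin 5)) = Finset.univ := by
    apply Finset.eq_univ_of_card
    rw [List.toFinset_card_of_nodup hnd]
    rfl
  rw [← h1, List.sum_toFinset f hnd]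
  simp only [List.map_cons, List.map_nil, List.sum_cons, List.sum_nil]
  ring

theorem fourAng_sin (h : Dis 5 T t) {i : Fin 5} {X : ℂ} (hX : Has (t i) X) :
    0 < Real.sin (q_V (t i) X) := by
  obtain ⟨m, rfl⟩ := hX
  rw [q_V_self _ (h.ccwt i)]
  exact Real.sin_pos_of_pos_of_lt_pi (ang_pos _ (h.ccwt i) m) (ang_lt_pi _ (h.ccwt i) m)

theorem fourAng_LF (h : Dis 5 T t) {F : ℂ} {i : Fin 5} {X Y : ℂ}
    (hX : out t F i = X) (hY : inn t F i = Y) :
    LF t F i = Real.log (Real.sin (q_V (t i) X)) - Real.log (Real.sin (q_V (t i) Y)) := by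
  rw [← hX, ← hY]
  unfold LF out inn
  rw [q_V_self _ (h.ccwt i), q_V_self _ (h.ccwt i)]

theorem fourAng_prod (h : Dis 5 T t) {F : ℂ} {P1 P2 P3 P4 : Fin 5} {A B C D : ℂ}
    (hI : ∀ i, Has (t i) F ↔ i = P1 ∨ i = P2 ∨ i = P3 ∨ i = P4)
    (n12 : P1 ≠ P2) (n13 : P1 ≠ P3) (n14 : P1 ≠ P4) (n23 : P2 ≠ P3) (n24 : P2 ≠ P4) (n34 : P3 ≠ P4)
    (o1 : out t F P1 = A) (i1 : inn t F P1 = B) (o2 : out t F P2 = B)
    (i2 : inn t F P2 = C) (o3 : out t F P3 = C) (i3 : inn t F P3 = D)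
    (o4 : out t F P4 = D) (i4 : inn t F P4 = A) :
    Real.sin (q_V (t P1) A) * Real.sin (q_V (t P2) B) * Real.sin (q_V (t P3) C) *
      Real.sin (q_V (t P4) D) =
    Real.sin (q_V (t P1) B) * Real.sin (q_V (t P2) C) * Real.sin (q_V (t P3) D) *
      Real.sin (q_V (t P4) A) := by
  classical
  have hIF : I t F = {P1, P2, P3, P4} := by
    ext i
    rw [mem_I, hI]
    simp only [Finset.mem_insert, Finset.mem_singleton]
  have hO : (I t F).image (out t F) = (I t F).image (inn t F) := by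
    rw [hIF]
    simp only [Finset.image_insert, Finset.image_singleton, o1, o2, o3, o4, i1, i2, i3, i4]
    ext p
    simp only [Finset.mem_insert, Finset.mem_singleton]
    tauto
  have hs := sum_L h hO
  have m12 : P1 ∉ ({P2, P3, P4} : Finset (Fin 5)) := by
    simp only [Finset.mem_insert, Finset.mem_singleton]
    tauto
  have m23 : P2 ∉ ({P3, P4} : Finset (Fin 5)) := by
    simp only [Finset.mem_insert, Finset.mem_singleton]
    tauto
  rw [hIF, Finset.sum_insert m12, Finset.sum_insert m23, Finset.sum_pair n34,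
    fourAng_LF h o1 i1, fourAng_LF h o2 i2, fourAng_LF h o3 i3, fourAng_LF h o4 i4] at hs
  have A1 : 0 < Real.sin (q_V (t P1) A) := fourAng_sin h (o1 ▸ out_has F P1)
  have B1 : 0 < Real.sin (q_V (t P1) B) := fourAng_sin h (i1 ▸ inn_has F P1)
  have B2 : 0 < Real.sin (q_V (t P2) B) := fourAng_sin h (o2 ▸ out_has F P2)
  have C2 : 0 < Real.sin (q_V (t P2) C) := fourAng_sin h (i2 ▸ inn_has F P2)
  have C3 : 0 < Real.sin (q_V (t P3) C) := fourAng_sin h (o3 ▸ out_has F P3)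
  have D3 : 0 < Real.sin (q_V (t P3) D) := fourAng_sin h (i3 ▸ inn_has F P3)
  have D4 : 0 < Real.sin (q_V (t P4) D) := fourAng_sin h (o4 ▸ out_has F P4)
  have A4 : 0 < Real.sin (q_V (t P4) A) := fourAng_sin h (i4 ▸ inn_has F P4)
  have hl : Real.log (Real.sin (q_V (t P1) A) * Real.sin (q_V (t P2) B) *
      Real.sin (q_V (t P3) C) * Real.sin (q_V (t P4) D)) =
      Real.log (Real.sin (q_V (t P1) B) * Real.sin (q_V (t P2) C) * Real.sin (q_V (t P3) D) *
      Real.sin (q_V (t P4) A)) := by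
    rw [Real.log_mul (by positivity) (by positivity), Real.log_mul (by positivity) (by positivity),
      Real.log_mul (by positivity) (by positivity), Real.log_mul (by positivity) (by positivity),
      Real.log_mul (by positivity) (by positivity), Real.log_mul (by positivity) (by positivity)]
    linarith
  exact Real.log_injOn_pos (Set.mem_Ioi.2 (by positivity)) (Set.mem_Ioi.2 (by positivity)) hl

theorem four_ang {F : ℂ} (o : One T t θ τ F) {a b c : Fin 3} {H1 H2 : ℂ}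
    {Q P1 P2 P3 P4 : Fin 5} (hab : a ≠ b) (hac : a ≠ c) (hbc : b ≠ c)
    (n1 : H1 ∈ nc T t) (n2 : H2 ∈ nc T t) (n12 : H1 ≠ H2) (f1 : H1 ≠ F) (f2 : H2 ≠ F)
    (hI : ∀ i, Has (t i) F ↔ i = P1 ∨ i = P2 ∨ i = P3 ∨ i = P4)
    (hnd : [Q, P1, P2, P3, P4].Nodup)
    (q1 : Has (t Q) H1) (q2 : Has (t Q) H2) (qa : Has (t Q) (T a))
    (o1 : out t F P1 = H1) (i1 : inn t F P1 = T b) (o2 : out t F P2 = T b)
    (i2 : inn t F P2 = T c) (o3 : out t F P3 = T c) (i3 : inn t F P3 = H2)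
    (o4 : out t F P4 = H2) (i4 : inn t F P4 = H1) :
    ∃ qa q1 q2 f1 h1 b1 f2 b2 c2 f3 c3 h3 f4 g4 h4 : ℝ,
      IsPerm3 θ qa q1 q2 ∧ IsPerm3 θ f1 h1 b1 ∧ IsPerm3 θ f2 b2 c2 ∧ IsPerm3 θ f3 c3 h3 ∧
      IsPerm3 θ f4 g4 h4 ∧ f1 + f2 + f3 + f4 = 2 * Real.pi ∧ q1 + h1 + h4 = Real.pi ∧
      q2 + h3 + g4 = Real.pi ∧
      Real.sin h1 * Real.sin b2 * Real.sin c3 * Real.sin g4 =
        Real.sin b1 * Real.sin c2 * Real.sin h3 * Real.sin h4 ∧
      ang T a = qa ∧ ang T b = b1 + b2 ∧ ang T c = c2 + c3 := by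
  have h := o.h
  have hTi := vertex_inj T h.ccwT
  have tab : T a ≠ T b := fun e => hab (hTi e)
  have tac : T a ≠ T c := fun e => hac (hTi e)
  have tbc : T b ≠ T c := fun e => hbc (hTi e)
  have m1 := (mem_nc.1 n1).2
  have m2 := (mem_nc.1 n2).2
  have mF := (mem_nc.1 o.hFn).2
  have x1 : Has (t P1) F := (hI P1).2 (Or.inl rfl)
  have x2 : Has (t P2) F := (hI P2).2 (Or.inr (Or.inl rfl))
  have x3 : Has (t P3) F := (hI P3).2 (Or.inr (Or.inr (Or.inl rfl)))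
  have x4 : Has (t P4) F := (hI P4).2 (Or.inr (Or.inr (Or.inr rfl)))
  have y1 : Has (t P1) H1 := o1 ▸ out_has F P1
  have z1 : Has (t P1) (T b) := i1 ▸ inn_has F P1
  have y2 : Has (t P2) (T b) := o2 ▸ out_has F P2
  have z2 : Has (t P2) (T c) := i2 ▸ inn_has F P2
  have y3 : Has (t P3) (T c) := o3 ▸ out_has F P3
  have z3 : Has (t P3) H2 := i3 ▸ inn_has F P3
  have y4 : Has (t P4) H2 := o4 ▸ out_has F P4
  have z4 : Has (t P4) H1 := i4 ▸ inn_has F P4
  have hnd' := hnd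
  simp only [List.nodup_cons, List.mem_cons, List.not_mem_nil, not_or, or_false,
    List.nodup_nil, not_false_eq_true, and_true] at hnd'
  obtain ⟨⟨d01, d02, d03, d04⟩, ⟨d12, d13, d14⟩, ⟨d23, d24⟩, d34⟩ := hnd'
  have xQ : ¬ Has (t Q) F := by
    intro hh
    rcases (hI Q).1 hh with e | e | e | e
    · exact d01 e
    · exact d02 e
    · exact d03 e
    · exact d04 e
  -- the tiles without H1
  have u2 : ¬ Has (t P2) H1 := fun hh =>
    no_four x2 y2 z2 hh (mF b) (mF c) f1.symm tbc (m1 b).symm (m1 c).symm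
  have u3 : ¬ Has (t P3) H1 := fun hh =>
    no_four x3 y3 z3 hh (mF c) f2.symm f1.symm (m2 c).symm (m1 c).symm n12.symm
  -- the tiles without H2
  have v1 : ¬ Has (t P1) H2 := fun hh =>
    no_four x1 y1 z1 hh f1.symm (mF b) f2.symm (m1 b) n12 (m2 b).symm
  have v2 : ¬ Has (t P2) H2 := fun hh =>
    no_four x2 y2 z2 hh (mF b) (mF c) f2.symm tbc (m2 b).symm (m2 c).symm
  -- the tiles without T a
  have a1 : ¬ Has (t P1) (T a) := fun hh =>
    no_four x1 y1 z1 hh f1.symm (mF b) (mF a) (m1 b) (m1 a) tab.symm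
  have a2 : ¬ Has (t P2) (T a) := fun hh =>
    no_four x2 y2 z2 hh (mF b) (mF c) (mF a) tbc tab.symm tac.symm
  have a3 : ¬ Has (t P3) (T a) := fun hh =>
    no_four x3 y3 z3 hh (mF c) f2.symm (mF a) (m2 c).symm tac.symm (m2 a)
  have a4 : ¬ Has (t P4) (T a) := fun hh =>
    no_four x4 y4 z4 hh f2.symm f1.symm (mF a) n12.symm (m2 a) (m1 a)
  -- the tiles without T b
  have b0 : ¬ Has (t Q) (T b) := fun hh =>
    no_four qa q1 q2 hh (m1 a).symm (m2 a).symm tab n12 (m1 b) (m2 b)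
  have b3 : ¬ Has (t P3) (T b) := fun hh =>
    no_four x3 y3 z3 hh (mF c) f2.symm (mF b) (m2 c).symm tbc.symm (m2 b)
  have b4 : ¬ Has (t P4) (T b) := fun hh =>
    no_four x4 y4 z4 hh f2.symm f1.symm (mF b) n12.symm (m2 b) (m1 b)
  -- the tiles without T c
  have c0 : ¬ Has (t Q) (T c) := fun hh =>
    no_four qa q1 q2 hh (m1 a).symm (m2 a).symm tac n12 (m1 c) (m2 c)
  have c1 : ¬ Has (t P1) (T c) := fun hh =>
    no_four x1 y1 z1 hh f1.symm (mF b) (mF c) (m1 b) (m1 c) tbc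
  have c4 : ¬ Has (t P4) (T c) := fun hh =>
    no_four x4 y4 z4 hh f2.symm f1.symm (mF c) n12.symm (m2 c) (m1 c)
  have sF := o.hW
  have s1 := o.hpi H1 n1 f1
  have s2 := o.hpi H2 n2 f2
  have sa := W_corner h a
  have sb := W_corner h b
  have sc := W_corner h c
  unfold W at sF s1 s2 sa sb sc
  rw [fourAng_sum5 hnd] at sF s1 s2 sa sb sc
  rw [q_V_zero _ _ xQ] at sF
  rw [q_V_zero _ _ u2, q_V_zero _ _ u3] at s1
  rw [q_V_zero _ _ v1, q_V_zero _ _ v2] at s2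
  rw [q_V_zero _ _ a1, q_V_zero _ _ a2, q_V_zero _ _ a3, q_V_zero _ _ a4] at sa
  rw [q_V_zero _ _ b0, q_V_zero _ _ b3, q_V_zero _ _ b4] at sb
  rw [q_V_zero _ _ c0, q_V_zero _ _ c1, q_V_zero _ _ c4] at sc
  refine ⟨q_V (t Q) (T a), q_V (t Q) H1, q_V (t Q) H2, q_V (t P1) F, q_V (t P1) H1,
    q_V (t P1) (T b), q_V (t P2) F, q_V (t P2) (T b), q_V (t P2) (T c), q_V (t P3) F,
    q_V (t P3) (T c), q_V (t P3) H2, q_V (t P4) F, q_V (t P4) H2, q_V (t P4) H1,
    perm3_of h o.hang qa q1 q2 (m1 a).symm (m2 a).symm n12,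
    perm3_of h o.hang x1 y1 z1 f1.symm (mF b) (m1 b),
    perm3_of h o.hang x2 y2 z2 (mF b) (mF c) tbc,
    perm3_of h o.hang x3 y3 z3 (mF c) f2.symm (m2 c).symm,
    perm3_of h o.hang x4 y4 z4 f2.symm f1.symm n12.symm,
    by linarith, by linarith, by linarith, ?_, by linarith, by linarith, by linarith⟩
  exact fourAng_prod h hI d12 d13 d14 d23 d24 d34 o1 i1 o2 i2 o3 i3 o4 i4


end Pool.Agent.Helper230.Five
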