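import Pool.Agent.Helper230.Five.FourNonadj

/-! # Dissections into five mutually similar triangles: FourComb -/

set_option autoImplicit false
noncomputable section
open scoped BigOperators
open Pool.Agent.Helper549.Tri Pool.Agent.Helper549.Tri.Basic Pool.Agent.Helper549.Tri.Angles
  Pool.Agent.Helper549.Tri.AngleSum Pool.Agent.Helper549.Tri.Opp Pool.Agent.Helper549.Tri.Corner
  Pool.Agent.Helper549.Tri.Vertex
namespace Pool.Agent.Helper230.Five

variable {T : Fin 3 → ℂ} {t : Fin 5 → Fin 3 → ℂ} {θ : Fin 3 → ℝ} {τ : Fin 5 → Equiv.Perm (Fin 3)}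



set_option maxRecDepth 100000 in
theorem fourComb_perm : ∀ f : Fin 4 → Fin 4, (∀ k, f k ≠ k) → (∀ k l, f k = f l → k = l) →
    (∀ k, f (f k) ≠ k) →
    f = ![1, 2, 3, 0] ∨ f = ![1, 3, 0, 2] ∨ f = ![2, 3, 1, 0] ∨ f = ![2, 0, 3, 1] ∨
    f = ![3, 2, 0, 1] ∨ f = ![3, 0, 1, 2] := by decide

theorem four_comb {F : ℂ} (o : One T t θ τ F) (h4 : (I t F).card = 4)
    (hO : ∀ q, (∃ i, Has (t i) F ∧ out t F i = q) ↔ ∃ i, Has (t i) F ∧ inn t F i = q) :
    ∃ (a b c : Fin 3) (H1 H2 : ℂ) (Q P1 P2 P3 P4 : Fin 5), a ≠ b ∧ a ≠ c ∧ b ≠ c ∧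
      H1 ∈ nc T t ∧ H2 ∈ nc T t ∧ H1 ≠ H2 ∧ H1 ≠ F ∧ H2 ≠ F ∧
      (∀ i, Has (t i) F ↔ i = P1 ∨ i = P2 ∨ i = P3 ∨ i = P4) ∧ [Q, P1, P2, P3, P4].Nodup ∧
      Has (t Q) H1 ∧ Has (t Q) H2 ∧ Has (t Q) (T a) ∧
      out t F P1 = H1 ∧ inn t F P1 = T b ∧ out t F P2 = T b ∧ inn t F P2 = T c ∧
      out t F P3 = T c ∧ inn t F P3 = H2 ∧ out t F P4 = H2 ∧ inn t F P4 = H1 := by
  classical
  have h := o.h
  obtain ⟨H1, H2, hH1F, hH2F, hH12, hnc⟩ : ∃ H1 H2, H1 ≠ F ∧ H2 ≠ F ∧ H1 ≠ H2 ∧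
      nc T t = {F, H1, H2} := by
    have h2 : ((nc T t).erase F).card = 2 := by rw [Finset.card_erase_of_mem o.hFn, o.hn]
    obtain ⟨H1, H2, h12, he⟩ := Finset.card_eq_two.1 h2
    have m1 : H1 ∈ (nc T t).erase F := by rw [he]; simp
    have m2 : H2 ∈ (nc T t).erase F := by rw [he]; simp
    refine ⟨H1, H2, (Finset.mem_erase.1 m1).1, (Finset.mem_erase.1 m2).1, h12, ?_⟩
    rw [← he, Finset.insert_erase o.hFn]
  have m1 : H1 ∈ nc T t := by rw [hnc]; simp
  have m2 : H2 ∈ nc T t := by rw [hnc]; simp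
  obtain ⟨Q, hQ⟩ : ∃ Q, (I t F)ᶜ = {Q} := by
    have : ((I t F)ᶜ).card = 1 := by
      rw [Finset.card_compl, h4, Fintype.card_fin]
    exact Finset.card_eq_one.1 this
  have hQ' : ∀ i, ¬ Has (t i) F ↔ i = Q := by
    intro i
    rw [← mem_I, ← Finset.mem_compl, hQ, Finset.mem_singleton]
  have hH : ∀ H ∈ nc T t, H ≠ F → Has (t Q) H ∧ ∃ i, Has (t i) F ∧ Has (t i) H := by
    intro H hH hHF
    have hp := mem_nc.1 hH
    have c3 := o.h3 H hp.1 hp.2
    have c2 := inter_le_two h hHF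
    have e1 := Finset.card_inter_add_card_sdiff (I t H) (I t F)
    have e2 : (I t H \ I t F) ⊆ {Q} := by
      intro i hi
      rw [Finset.mem_sdiff] at hi
      rw [Finset.mem_singleton, ← hQ' i, ← mem_I]
      exact hi.2
    have e3 : (I t H \ I t F).card ≤ 1 := (Finset.card_le_card e2).trans (by simp)
    constructor
    · have : (I t H \ I t F).Nonempty := Finset.card_pos.1 (by omega)
      obtain ⟨i, hi⟩ := this
      have hiQ := Finset.mem_singleton.1 (e2 hi)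
      rw [← hiQ, ← mem_I]
      exact (Finset.mem_sdiff.1 hi).1
    · have : (I t H ∩ I t F).Nonempty := Finset.card_pos.1 (by omega)
      obtain ⟨i, hi⟩ := this
      rw [Finset.mem_inter, mem_I, mem_I] at hi
      exact ⟨i, hi.2, hi.1⟩
  obtain ⟨S, hS⟩ : ∃ S : Finset ℂ, S = (I t F).image (out t F) := ⟨_, rfl⟩
  have hSc : S.card = 4 := by
    rw [hS, Finset.card_image_of_injOn, h4]
    intro i hi j hj hij
    by_contra hne
    exact out_inj h hne ((mem_I _ _ _).1 (Finset.mem_coe.1 hi))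
      ((mem_I _ _ _).1 (Finset.mem_coe.1 hj)) hij
  have memS : ∀ q, q ∈ S ↔ ∃ i, Has (t i) F ∧ out t F i = q := by
    intro q
    rw [hS, Finset.mem_image]
    simp only [mem_I]
  have memS' : ∀ q, q ∈ S ↔ ∃ i, Has (t i) F ∧ inn t F i = q := fun q => (memS q).trans (hO q)
  have hFS : F ∉ S := by
    intro hc
    obtain ⟨i, hi, he⟩ := (memS F).1 hc
    exact out_ne_F h hi he
  have hHS : ∀ H ∈ nc T t, H ≠ F → H ∈ S := by
    intro H hHn hHF
    obtain ⟨-, i, hi, hiH⟩ := hH H hHn hHF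
    have hr : H ∈ Set.range (t i) := hiH
    rw [range_eq F hi] at hr
    simp only [Set.mem_insert_iff, Set.mem_singleton_iff] at hr
    rcases hr with e | e | e
    · exact absurd e hHF
    · exact (memS H).2 ⟨i, hi, e.symm⟩
    · exact (memS' H).2 ⟨i, hi, e.symm⟩
  have hR : ((S.erase H1).erase H2).card = 2 := by
    rw [Finset.card_erase_of_mem (Finset.mem_erase.2 ⟨hH12.symm, hHS H2 m2 hH2F⟩),
      Finset.card_erase_of_mem (hHS H1 m1 hH1F), hSc]
  obtain ⟨B, C, hBC, hRe⟩ := Finset.card_eq_two.1 hR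
  have hcor : ∀ q ∈ S, q ≠ H1 → q ≠ H2 → ∃ j, q = T j := by
    intro q hq n1 n2
    by_contra hcon
    have hcon' : ∀ j, q ≠ T j := fun j e => hcon ⟨j, e⟩
    obtain ⟨i, hi, he⟩ := (memS q).1 hq
    have hqn : q ∈ nc T t := mem_nc.2 ⟨(mem_pts t q).2 ⟨i, he ▸ out_has F i⟩, hcon'⟩
    rw [hnc] at hqn
    simp only [Finset.mem_insert, Finset.mem_singleton] at hqn
    rcases hqn with e | e | e
    · exact hFS (e ▸ hq)
    · exact n1 e
    · exact n2 e
  have hBm : B ∈ (S.erase H1).erase H2 := by rw [hRe]; simp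
  have hCm : C ∈ (S.erase H1).erase H2 := by rw [hRe]; simp
  rw [Finset.mem_erase, Finset.mem_erase] at hBm hCm
  obtain ⟨b, hb⟩ := hcor B hBm.2.2 hBm.2.1 hBm.1
  obtain ⟨c, hc⟩ := hcor C hCm.2.2 hCm.2.1 hCm.1
  subst hb
  subst hc
  have hbc : b ≠ c := by
    rintro rfl
    exact hBC rfl
  have hSlist : ∀ q ∈ S, q = T b ∨ q = T c ∨ q = H1 ∨ q = H2 := by
    intro q hq
    by_cases e1 : q = H1
    · exact Or.inr (Or.inr (Or.inl e1))
    by_cases e2 : q = H2
    · exact Or.inr (Or.inr (Or.inr e2))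
    have hm : q ∈ (S.erase H1).erase H2 := Finset.mem_erase.2 ⟨e2, Finset.mem_erase.2 ⟨e1, hq⟩⟩
    rw [hRe] at hm
    simp only [Finset.mem_insert, Finset.mem_singleton] at hm
    rcases hm with e | e
    · exact Or.inl e
    · exact Or.inr (Or.inl e)
  have hthird : ∀ b c : Fin 3, ∃ a, a ≠ b ∧ a ≠ c := by decide
  obtain ⟨a, hab, hac⟩ := hthird b c
  have nF : ∀ j, F ≠ T j := (mem_nc.1 o.hFn).2
  have n1 : ∀ j, H1 ≠ T j := (mem_nc.1 m1).2
  have n2 : ∀ j, H2 ≠ T j := (mem_nc.1 m2).2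
  have hTinj : ∀ j k, T j = T k → j = k := fun j k e => vertex_inj T h.ccwT e
  have hQa : Has (t Q) (T a) := by
    obtain ⟨i, hi⟩ := (mem_pts t (T a)).1 (W_pos_has h a)
    by_cases hiF : Has (t i) F
    · exfalso
      have hr : T a ∈ Set.range (t i) := hi
      rw [range_eq F hiF] at hr
      simp only [Set.mem_insert_iff, Set.mem_singleton_iff] at hr
      have hno : T a ∉ S := by
        intro hs
        rcases hSlist _ hs with e | e | e | e
        · exact hab (hTinj _ _ e)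
        · exact hac (hTinj _ _ e)
        · exact n1 a e.symm
        · exact n2 a e.symm
      rcases hr with e | e | e
      · exact nF a e.symm
      · exact hno ((memS _).2 ⟨i, hiF, e.symm⟩)
      · exact hno ((memS' _).2 ⟨i, hiF, e.symm⟩)
    · have := (hQ' i).1 hiF
      rw [← this]
      exact hi
  have hQ1 : Has (t Q) H1 := (hH H1 m1 hH1F).1
  have hQ2 : Has (t Q) H2 := (hH H2 m2 hH2F).1
  obtain ⟨O, hO0, hO1, hO2, hO3⟩ : ∃ O : Fin 4 → ℂ, O 0 = T b ∧ O 1 = T c ∧ O 2 = H1 ∧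
      O 3 = H2 := ⟨![T b, T c, H1, H2], rfl, rfl, rfl, rfl⟩
  have hcases : ∀ k : Fin 4, k = 0 ∨ k = 1 ∨ k = 2 ∨ k = 3 := by decide
  have hOS : ∀ k, O k ∈ S := by
    intro k
    rcases hcases k with e | e | e | e
    · rw [e, hO0]; exact hBm.2.2
    · rw [e, hO1]; exact hCm.2.2
    · rw [e, hO2]; exact hHS H1 m1 hH1F
    · rw [e, hO3]; exact hHS H2 m2 hH2F
  have hOinj : ∀ k l, O k = O l → k = l := by
    intro k l hkl
    rcases hcases k with e | e | e | e <;> rcases hcases l with e' | e' | e' | e' <;>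
      rw [e, e'] at hkl ⊢ <;>
      simp only [hO0, hO1, hO2, hO3] at hkl <;>
      first
      | exact absurd hkl hBC
      | exact absurd hkl.symm hBC
      | exact absurd hkl hH12
      | exact absurd hkl.symm hH12
      | exact absurd hkl (n1 _)
      | exact absurd hkl.symm (n1 _)
      | exact absurd hkl (n2 _)
      | exact absurd hkl.symm (n2 _)
  have hSO : ∀ q ∈ S, ∃ k, q = O k := by
    intro q hq
    rcases hSlist q hq with e | e | e | e
    · exact ⟨0, by rw [hO0, e]⟩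
    · exact ⟨1, by rw [hO1, e]⟩
    · exact ⟨2, by rw [hO2, e]⟩
    · exact ⟨3, by rw [hO3, e]⟩
  choose P hPF hPo using fun k => (memS (O k)).1 (hOS k)
  have hPinj : ∀ k l, P k = P l → k = l := fun k l e => hOinj k l (by rw [← hPo k, ← hPo l, e])
  have hinn : ∀ k, ∃ l, inn t F (P k) = O l := fun k =>
    hSO _ ((memS' _).2 ⟨P k, hPF k, rfl⟩)
  choose f hf using hinn
  have f1 : ∀ k, f k ≠ k := by
    intro k e
    exact out_ne_inn h F (P k) (by rw [hPo, hf, e])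
  have f2 : ∀ k l, f k = f l → k = l := by
    intro k l e
    by_contra hne
    exact inn_inj h (fun e' => hne (hPinj k l e')) (hPF k) (hPF l) (by rw [hf, hf, e])
  have f3 : ∀ k, f (f k) ≠ k := by
    intro k e
    have hne : P k ≠ P (f k) := fun e' => f1 k (hPinj _ _ e').symm
    refine same_vert h hne ?_
    rw [range_eq F (hPF k), range_eq F (hPF (f k)), hPo, hPo, hf, hf, e, Set.pair_comm]
  have hIP : ∀ i, Has (t i) F → ∃ k, i = P k := by
    intro i hi
    obtain ⟨k, hk⟩ := hSO _ ((memS _).2 ⟨i, hi, rfl⟩)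
    refine ⟨k, ?_⟩
    by_contra hne
    exact out_inj h hne hi (hPF k) (by rw [hk, hPo])
  have hiff : ∀ k1 k2 k3 k4 : Fin 4, (∀ k, k = k1 ∨ k = k2 ∨ k = k3 ∨ k = k4) →
      ∀ i, Has (t i) F ↔ i = P k1 ∨ i = P k2 ∨ i = P k3 ∨ i = P k4 := by
    intro k1 k2 k3 k4 hk i
    constructor
    · intro hi
      obtain ⟨k, rfl⟩ := hIP i hi
      rcases hk k with e | e | e | e <;> rw [e] <;> simp
    · rintro (e | e | e | e) <;> rw [e] <;> exact hPF _
  have hQP : ∀ k, Q ≠ P k := by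
    intro k e
    exact (hQ' Q).2 rfl (by rw [e]; exact hPF k)
  have hnd : ∀ k1 k2 k3 k4 : Fin 4, [k1, k2, k3, k4].Nodup →
      [Q, P k1, P k2, P k3, P k4].Nodup := by
    intro k1 k2 k3 k4 hk
    rw [List.nodup_cons]
    constructor
    · simp only [List.mem_cons, List.not_mem_nil, or_false, not_or]
      exact ⟨hQP _, hQP _, hQP _, hQP _⟩
    · exact List.Nodup.map (f := P) (fun k l e => hPinj k l e) hk
  have key : ∀ k : Fin 4, ¬ Has (t Q) (O k) → O k ≠ F → ∀ i, Has (t i) (O k) →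
      ∀ q, Has (t i) q → q = F ∨ q = O k ∨ q = O (f k) ∨ (∃ l, f l = k ∧ q = O l) := by
    intro k hQk hkF i hi q hq
    have hiF : Has (t i) F := by
      by_contra hc
      have := (hQ' i).1 hc
      rw [this] at hi
      exact hQk hi
    obtain ⟨m, rfl⟩ := hIP i hiF
    have r := range_eq F (hPF m)
    rw [hPo, hf] at r
    have hi' : O k ∈ Set.range (t (P m)) := hi
    have hq' : q ∈ Set.range (t (P m)) := hq
    rw [r] at hi' hq'
    simp only [Set.mem_insert_iff, Set.mem_singleton_iff] at hi' hq'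
    rcases hi' with e | e | e
    · exact absurd e hkF
    · have hkm := hOinj _ _ e
      rw [hkm]
      rcases hq' with e' | e' | e'
      · exact Or.inl e'
      · exact Or.inr (Or.inl e')
      · exact Or.inr (Or.inr (Or.inl e'))
    · have hkm := hOinj _ _ e
      rcases hq' with e' | e' | e'
      · exact Or.inl e'
      · exact Or.inr (Or.inr (Or.inr ⟨m, hkm.symm, e'⟩))
      · exact Or.inr (Or.inl (by rw [e', hkm]))
  have hQb : ¬ Has (t Q) (O 0) := by
    rw [hO0]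
    intro hc
    exact no_four hQ1 hQ2 hQa hc hH12 (n1 a) (n1 b) (n2 a) (n2 b) (fun e => hab (hTinj _ _ e))
  have hQc : ¬ Has (t Q) (O 1) := by
    rw [hO1]
    intro hc
    exact no_four hQ1 hQ2 hQa hc hH12 (n1 a) (n1 c) (n2 a) (n2 c) (fun e => hac (hTinj _ _ e))
  have hnon : (∀ q, q = O (f 0) ∨ (∃ l, f l = 0 ∧ q = O l) → q = H1 ∨ q = H2) →
      (∀ q, q = O (f 1) ∨ (∃ l, f l = 1 ∧ q = O l) → q = H1 ∨ q = H2) → False := by
    intro u0 u1
    refine four_nonadj o hbc m1 m2 ?_ ?_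
    · intro i hi q hq
      rw [← hO0] at hi
      rcases key 0 hQb (by rw [hO0]; exact (nF b).symm) i hi q hq with e | e | e
      · exact Or.inl e
      · exact Or.inr (Or.inl (by rw [e, hO0]))
      · exact Or.inr (Or.inr (u0 q e))
    · intro i hi q hq
      rw [← hO1] at hi
      rcases key 1 hQc (by rw [hO1]; exact (nF c).symm) i hi q hq with e | e | e
      · exact Or.inl e
      · exact Or.inr (Or.inl (by rw [e, hO1]))
      · exact Or.inr (Or.inr (u1 q e))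
  rcases fourComb_perm f f1 f2 f3 with e | e | e | e | e | e
  · have e0 : f 0 = 1 := by rw [e]; rfl
    have e1 : f 1 = 2 := by rw [e]; rfl
    have e2 : f 2 = 3 := by rw [e]; rfl
    have e3 : f 3 = 0 := by rw [e]; rfl
    exact ⟨a, b, c, H2, H1, Q, P 3, P 0, P 1, P 2, hab, hac, hbc, m2, m1, hH12.symm, hH2F, hH1F,
      hiff 3 0 1 2 (by decide), hnd 3 0 1 2 (by decide), hQ2, hQ1, hQa,
      by rw [hPo, hO3], by rw [hf, e3, hO0], by rw [hPo, hO0], by rw [hf, e0, hO1],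
      by rw [hPo, hO1], by rw [hf, e1, hO2], by rw [hPo, hO2], by rw [hf, e2, hO3]⟩
  · have e0 : f 0 = 1 := by rw [e]; rfl
    have e1 : f 1 = 3 := by rw [e]; rfl
    have e2 : f 2 = 0 := by rw [e]; rfl
    have e3 : f 3 = 2 := by rw [e]; rfl
    exact ⟨a, b, c, H1, H2, Q, P 2, P 0, P 1, P 3, hab, hac, hbc, m1, m2, hH12, hH1F, hH2F,
      hiff 2 0 1 3 (by decide), hnd 2 0 1 3 (by decide), hQ1, hQ2, hQa,
      by rw [hPo, hO2], by rw [hf, e2, hO0], by rw [hPo, hO0], by rw [hf, e0, hO1],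
      by rw [hPo, hO1], by rw [hf, e1, hO3], by rw [hPo, hO3], by rw [hf, e3, hO2]⟩
  · exfalso
    have e0 : f 0 = 2 := by rw [e]; rfl
    have e1 : f 1 = 3 := by rw [e]; rfl
    have e2 : f 2 = 1 := by rw [e]; rfl
    have e3 : f 3 = 0 := by rw [e]; rfl
    refine hnon ?_ ?_
    · rintro q (hq | ⟨l, hl, hq⟩)
      · left; rw [hq, e0, hO2]
      · right; rw [hq, f2 l 3 (hl.trans e3.symm), hO3]
    · rintro q (hq | ⟨l, hl, hq⟩)
      · right; rw [hq, e1, hO3]
      · left; rw [hq, f2 l 2 (hl.trans e2.symm), hO2]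
  · have e0 : f 0 = 2 := by rw [e]; rfl
    have e1 : f 1 = 0 := by rw [e]; rfl
    have e2 : f 2 = 3 := by rw [e]; rfl
    have e3 : f 3 = 1 := by rw [e]; rfl
    exact ⟨a, c, b, H2, H1, Q, P 3, P 1, P 0, P 2, hac, hab, hbc.symm, m2, m1, hH12.symm, hH2F,
      hH1F, hiff 3 1 0 2 (by decide), hnd 3 1 0 2 (by decide), hQ2, hQ1, hQa,
      by rw [hPo, hO3], by rw [hf, e3, hO1], by rw [hPo, hO1], by rw [hf, e1, hO0],
      by rw [hPo, hO0], by rw [hf, e0, hO2], by rw [hPo, hO2], by rw [hf, e2, hO3]⟩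
  · exfalso
    have e0 : f 0 = 3 := by rw [e]; rfl
    have e1 : f 1 = 2 := by rw [e]; rfl
    have e2 : f 2 = 0 := by rw [e]; rfl
    have e3 : f 3 = 1 := by rw [e]; rfl
    refine hnon ?_ ?_
    · rintro q (hq | ⟨l, hl, hq⟩)
      · right; rw [hq, e0, hO3]
      · left; rw [hq, f2 l 2 (hl.trans e2.symm), hO2]
    · rintro q (hq | ⟨l, hl, hq⟩)
      · left; rw [hq, e1, hO2]
      · right; rw [hq, f2 l 3 (hl.trans e3.symm), hO3]
  · have e0 : f 0 = 3 := by rw [e]; rfl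
    have e1 : f 1 = 0 := by rw [e]; rfl
    have e2 : f 2 = 1 := by rw [e]; rfl
    have e3 : f 3 = 2 := by rw [e]; rfl
    exact ⟨a, c, b, H1, H2, Q, P 2, P 1, P 0, P 3, hac, hab, hbc.symm, m1, m2, hH12, hH1F, hH2F,
      hiff 2 1 0 3 (by decide), hnd 2 1 0 3 (by decide), hQ1, hQ2, hQa,
      by rw [hPo, hO2], by rw [hf, e2, hO1], by rw [hPo, hO1], by rw [hf, e1, hO0],
      by rw [hPo, hO0], by rw [hf, e0, hO3], by rw [hPo, hO3], by rw [hf, e3, hO2]⟩

end Pool.Agent.Helper230.Five
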