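import Pool.Agent.Helper230.Five.Gen
import Pool.Agent.Helper230.Five.Shape

/-! # Dissections into five mutually similar triangles: Labels4 -/

set_option autoImplicit false
noncomputable section
namespace Pool.Agent.Helper230.Five



/-- two values in some order -/
def labels4_Pair (A B x y : ℝ) : Prop := (A = x ∧ B = y) ∨ (A = y ∧ B = x)

/-- the conclusion of `labels4` -/
def labels4_Concl (qa b1 b2 c2 c3 : ℝ) : Prop :=
    (qa = b1 + b2 ∨ qa = c2 + c3 ∨ b1 + b2 = c2 + c3) ∨
    ∃ a b : ℝ, 0 < a ∧ 0 < b ∧ 2 * a + 3 * b = Real.pi ∧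
      ((Real.sin a * Real.sin (a + 2 * b) = Real.sin b ^ 2 ∧
          (Perm3 qa (b1 + b2) (c2 + c3) a (a + b) (2 * b) ∨
            Perm3 qa (b1 + b2) (c2 + c3) b (2 * b) (2 * a))) ∨
        (Real.sin (a + 2 * b) * Real.sin b ^ 2 = Real.sin a ^ 3 ∧
          Perm3 qa (b1 + b2) (c2 + c3) a (2 * b) (a + b)))

theorem labels4_cancel {x y m : ℝ} (hm : 0 < m) (h : x * m = y * m) : x = y :=
  mul_right_cancel₀ hm.ne' h

theorem labels4_sines (a b : ℝ) (ha : 0 < a) (hb : 0 < b) (hs : 2 * a + 3 * b = Real.pi) :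
    0 < Real.sin a ∧ 0 < Real.sin b ∧ Real.sin a < Real.sin (a + 2 * b) ∧
      Real.sin b < Real.sin (a + 2 * b) ∧ (b < a → Real.sin b < Real.sin a) := by
  have h1 : Real.sin (a + 2 * b) = Real.sin (a + b) := by
    rw [← Real.sin_pi_sub (a + b), show Real.pi - (a + b) = a + 2 * b by linarith]
  refine ⟨Real.sin_pos_of_pos_of_lt_pi ha (by linarith), Real.sin_pos_of_pos_of_lt_pi hb (by linarith), ?_, ?_, ?_⟩
  · rw [h1]
    exact Real.sin_lt_sin_of_lt_of_le_pi_div_two (by linarith) (by linarith) (by linarith)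
  · rw [h1]
    exact Real.sin_lt_sin_of_lt_of_le_pi_div_two (by linarith) (by linarith) (by linarith)
  · intro h
    exact Real.sin_lt_sin_of_lt_of_le_pi_div_two (by linarith) (by linarith) h

theorem labels4_leaf (A : Fin 2 → ℝ) (ha : 0 < A 0) (hb : 0 < A 1) (hs : 2 * A 0 + 3 * A 1 = Real.pi)
    {qa q1 q2 h1 b1 b2 c2 c3 h3 g4 h4 : ℝ}
    (hH1 : q1 + h1 + h4 = Real.pi) (hH2 : q2 + h3 + g4 = Real.pi)
    (hprod : Real.sin h1 * Real.sin b2 * Real.sin c3 * Real.sin g4 =
      Real.sin b1 * Real.sin c2 * Real.sin h3 * Real.sin h4)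
    (Q : Perm3 qa q1 q2 (A 0) (A 1) (A 0 + 2 * A 1))
    (HP : (labels4_Pair h1 b1 (A 1) (A 0 + 2 * A 1) ∧ labels4_Pair b2 c2 (A 0) (A 1) ∧ labels4_Pair c3 h3 (A 0) (A 1) ∧ labels4_Pair g4 h4 (A 0) (A 1)) ∨
      (labels4_Pair h1 b1 (A 0) (A 1) ∧ labels4_Pair b2 c2 (A 1) (A 0 + 2 * A 1) ∧ labels4_Pair c3 h3 (A 0) (A 1) ∧ labels4_Pair g4 h4 (A 0) (A 1)) ∨
      (labels4_Pair h1 b1 (A 0) (A 1) ∧ labels4_Pair b2 c2 (A 0) (A 1) ∧ labels4_Pair c3 h3 (A 1) (A 0 + 2 * A 1) ∧ labels4_Pair g4 h4 (A 0) (A 1)) ∨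
      (labels4_Pair h1 b1 (A 0) (A 1) ∧ labels4_Pair b2 c2 (A 0) (A 1) ∧ labels4_Pair c3 h3 (A 0) (A 1) ∧ labels4_Pair g4 h4 (A 1) (A 0 + 2 * A 1))) :
    labels4_Concl qa b1 b2 c2 c3 := by
  obtain ⟨hA, hB, hGA, hGB, hBA⟩ := labels4_sines (A 0) (A 1) ha hb hs
  have hG : 0 < Real.sin (A 0 + 2 * A 1) := hA.trans hGA
  rcases HP with ⟨P1, P2, P3, P4⟩ | ⟨P1, P2, P3, P4⟩ | ⟨P1, P2, P3, P4⟩ | ⟨P1, P2, P3, P4⟩ <;>
  rcases Q with ⟨rfl, rfl, rfl⟩ | ⟨rfl, rfl, rfl⟩ | ⟨rfl, rfl, rfl⟩ | ⟨rfl, rfl, rfl⟩ | ⟨rfl, rfl, rfl⟩ | ⟨rfl, rfl, rfl⟩ <;>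
  rcases P1 with ⟨rfl, rfl⟩ | ⟨rfl, rfl⟩ <;>
  rcases P4 with ⟨rfl, rfl⟩ | ⟨rfl, rfl⟩ <;>
  (try (exfalso; linarith; done)) <;>
  rcases P3 with ⟨rfl, rfl⟩ | ⟨rfl, rfl⟩ <;>
  (try (exfalso; linarith; done)) <;>
  rcases P2 with ⟨rfl, rfl⟩ | ⟨rfl, rfl⟩ <;>
  first
    | (left; left; linarith; done)
    | (left; right; left; linarith; done)
    | (left; right; right; linarith; done)
    | (exfalso
       have hcon : Real.sin (A 0 + 2 * A 1) = Real.sin (A 0) := by
         first
           | exact labels4_cancel (m := (Real.sin (A 0) * Real.sin (A 0) * Real.sin (A 0))) (by positivity) (by linear_combination hprod)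
           | exact labels4_cancel (m := (Real.sin (A 0) * Real.sin (A 0) * Real.sin (A 0))) (by positivity) (by linear_combination (-1 : ℝ) * hprod)
           | exact labels4_cancel (m := (Real.sin (A 0) * Real.sin (A 0) * Real.sin (A 1))) (by positivity) (by linear_combination hprod)
           | exact labels4_cancel (m := (Real.sin (A 0) * Real.sin (A 0) * Real.sin (A 1))) (by positivity) (by linear_combination (-1 : ℝ) * hprod)
           | exact labels4_cancel (m := (Real.sin (A 0) * Real.sin (A 0) * Real.sin (A 0 + 2 * A 1))) (by positivity) (by linear_combination hprod)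
           | exact labels4_cancel (m := (Real.sin (A 0) * Real.sin (A 0) * Real.sin (A 0 + 2 * A 1))) (by positivity) (by linear_combination (-1 : ℝ) * hprod)
           | exact labels4_cancel (m := (Real.sin (A 0) * Real.sin (A 1) * Real.sin (A 1))) (by positivity) (by linear_combination hprod)
           | exact labels4_cancel (m := (Real.sin (A 0) * Real.sin (A 1) * Real.sin (A 1))) (by positivity) (by linear_combination (-1 : ℝ) * hprod)
           | exact labels4_cancel (m := (Real.sin (A 0) * Real.sin (A 1) * Real.sin (A 0 + 2 * A 1))) (by positivity) (by linear_combination hprod)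
           | exact labels4_cancel (m := (Real.sin (A 0) * Real.sin (A 1) * Real.sin (A 0 + 2 * A 1))) (by positivity) (by linear_combination (-1 : ℝ) * hprod)
           | exact labels4_cancel (m := (Real.sin (A 0) * Real.sin (A 0 + 2 * A 1) * Real.sin (A 0 + 2 * A 1))) (by positivity) (by linear_combination hprod)
           | exact labels4_cancel (m := (Real.sin (A 0) * Real.sin (A 0 + 2 * A 1) * Real.sin (A 0 + 2 * A 1))) (by positivity) (by linear_combination (-1 : ℝ) * hprod)
           | exact labels4_cancel (m := (Real.sin (A 1) * Real.sin (A 1) * Real.sin (A 1))) (by positivity) (by linear_combination hprod)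
           | exact labels4_cancel (m := (Real.sin (A 1) * Real.sin (A 1) * Real.sin (A 1))) (by positivity) (by linear_combination (-1 : ℝ) * hprod)
           | exact labels4_cancel (m := (Real.sin (A 1) * Real.sin (A 1) * Real.sin (A 0 + 2 * A 1))) (by positivity) (by linear_combination hprod)
           | exact labels4_cancel (m := (Real.sin (A 1) * Real.sin (A 1) * Real.sin (A 0 + 2 * A 1))) (by positivity) (by linear_combination (-1 : ℝ) * hprod)
           | exact labels4_cancel (m := (Real.sin (A 1) * Real.sin (A 0 + 2 * A 1) * Real.sin (A 0 + 2 * A 1))) (by positivity) (by linear_combination hprod)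
           | exact labels4_cancel (m := (Real.sin (A 1) * Real.sin (A 0 + 2 * A 1) * Real.sin (A 0 + 2 * A 1))) (by positivity) (by linear_combination (-1 : ℝ) * hprod)
           | exact labels4_cancel (m := (Real.sin (A 0 + 2 * A 1) * Real.sin (A 0 + 2 * A 1) * Real.sin (A 0 + 2 * A 1))) (by positivity) (by linear_combination hprod)
           | exact labels4_cancel (m := (Real.sin (A 0 + 2 * A 1) * Real.sin (A 0 + 2 * A 1) * Real.sin (A 0 + 2 * A 1))) (by positivity) (by linear_combination (-1 : ℝ) * hprod)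
       linarith)
    | (exfalso
       have hcon : Real.sin (A 0) * Real.sin (A 0 + 2 * A 1) = Real.sin (A 1) ^ 2 := by
         first
           | exact labels4_cancel (m := (Real.sin (A 0) * Real.sin (A 0))) (by positivity) (by linear_combination hprod)
           | exact labels4_cancel (m := (Real.sin (A 0) * Real.sin (A 0))) (by positivity) (by linear_combination (-1 : ℝ) * hprod)
           | exact labels4_cancel (m := (Real.sin (A 0) * Real.sin (A 1))) (by positivity) (by linear_combination hprod)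
           | exact labels4_cancel (m := (Real.sin (A 0) * Real.sin (A 1))) (by positivity) (by linear_combination (-1 : ℝ) * hprod)
           | exact labels4_cancel (m := (Real.sin (A 0) * Real.sin (A 0 + 2 * A 1))) (by positivity) (by linear_combination hprod)
           | exact labels4_cancel (m := (Real.sin (A 0) * Real.sin (A 0 + 2 * A 1))) (by positivity) (by linear_combination (-1 : ℝ) * hprod)
           | exact labels4_cancel (m := (Real.sin (A 1) * Real.sin (A 1))) (by positivity) (by linear_combination hprod)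
           | exact labels4_cancel (m := (Real.sin (A 1) * Real.sin (A 1))) (by positivity) (by linear_combination (-1 : ℝ) * hprod)
           | exact labels4_cancel (m := (Real.sin (A 1) * Real.sin (A 0 + 2 * A 1))) (by positivity) (by linear_combination hprod)
           | exact labels4_cancel (m := (Real.sin (A 1) * Real.sin (A 0 + 2 * A 1))) (by positivity) (by linear_combination (-1 : ℝ) * hprod)
           | exact labels4_cancel (m := (Real.sin (A 0 + 2 * A 1) * Real.sin (A 0 + 2 * A 1))) (by positivity) (by linear_combination hprod)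
           | exact labels4_cancel (m := (Real.sin (A 0 + 2 * A 1) * Real.sin (A 0 + 2 * A 1))) (by positivity) (by linear_combination (-1 : ℝ) * hprod)
       have hba := hBA (by linarith)
       nlinarith [mul_pos (sub_pos.2 hba) (sub_pos.2 hGB), mul_pos hB (sub_pos.2 hba), mul_pos hB (sub_pos.2 hGB)])
    | (refine Or.inr ⟨A 0, A 1, ha, hb, hs, Or.inl ⟨?_, Or.inl ?_⟩⟩
       · first
         | exact labels4_cancel (m := (Real.sin (A 0) * Real.sin (A 0))) (by positivity) (by linear_combination hprod)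
         | exact labels4_cancel (m := (Real.sin (A 0) * Real.sin (A 0))) (by positivity) (by linear_combination (-1 : ℝ) * hprod)
         | exact labels4_cancel (m := (Real.sin (A 0) * Real.sin (A 1))) (by positivity) (by linear_combination hprod)
         | exact labels4_cancel (m := (Real.sin (A 0) * Real.sin (A 1))) (by positivity) (by linear_combination (-1 : ℝ) * hprod)
         | exact labels4_cancel (m := (Real.sin (A 0) * Real.sin (A 0 + 2 * A 1))) (by positivity) (by linear_combination hprod)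
         | exact labels4_cancel (m := (Real.sin (A 0) * Real.sin (A 0 + 2 * A 1))) (by positivity) (by linear_combination (-1 : ℝ) * hprod)
         | exact labels4_cancel (m := (Real.sin (A 1) * Real.sin (A 1))) (by positivity) (by linear_combination hprod)
         | exact labels4_cancel (m := (Real.sin (A 1) * Real.sin (A 1))) (by positivity) (by linear_combination (-1 : ℝ) * hprod)
         | exact labels4_cancel (m := (Real.sin (A 1) * Real.sin (A 0 + 2 * A 1))) (by positivity) (by linear_combination hprod)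
         | exact labels4_cancel (m := (Real.sin (A 1) * Real.sin (A 0 + 2 * A 1))) (by positivity) (by linear_combination (-1 : ℝ) * hprod)
         | exact labels4_cancel (m := (Real.sin (A 0 + 2 * A 1) * Real.sin (A 0 + 2 * A 1))) (by positivity) (by linear_combination hprod)
         | exact labels4_cancel (m := (Real.sin (A 0 + 2 * A 1) * Real.sin (A 0 + 2 * A 1))) (by positivity) (by linear_combination (-1 : ℝ) * hprod)
       · first
         | exact Or.inl ⟨by ring1, by ring1, by ring1⟩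
         | exact Or.inr (Or.inl ⟨by ring1, by ring1, by ring1⟩)
         | exact Or.inr (Or.inr (Or.inl ⟨by ring1, by ring1, by ring1⟩))
         | exact Or.inr (Or.inr (Or.inr (Or.inl ⟨by ring1, by ring1, by ring1⟩)))
         | exact Or.inr (Or.inr (Or.inr (Or.inr (Or.inl ⟨by ring1, by ring1, by ring1⟩))))
         | exact Or.inr (Or.inr (Or.inr (Or.inr (Or.inr ⟨by ring1, by ring1, by ring1⟩)))))
    | (refine Or.inr ⟨A 0, A 1, ha, hb, hs, Or.inl ⟨?_, Or.inr ?_⟩⟩
       · first
         | exact labels4_cancel (m := (Real.sin (A 0) * Real.sin (A 0))) (by positivity) (by linear_combination hprod)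
         | exact labels4_cancel (m := (Real.sin (A 0) * Real.sin (A 0))) (by positivity) (by linear_combination (-1 : ℝ) * hprod)
         | exact labels4_cancel (m := (Real.sin (A 0) * Real.sin (A 1))) (by positivity) (by linear_combination hprod)
         | exact labels4_cancel (m := (Real.sin (A 0) * Real.sin (A 1))) (by positivity) (by linear_combination (-1 : ℝ) * hprod)
         | exact labels4_cancel (m := (Real.sin (A 0) * Real.sin (A 0 + 2 * A 1))) (by positivity) (by linear_combination hprod)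
         | exact labels4_cancel (m := (Real.sin (A 0) * Real.sin (A 0 + 2 * A 1))) (by positivity) (by linear_combination (-1 : ℝ) * hprod)
         | exact labels4_cancel (m := (Real.sin (A 1) * Real.sin (A 1))) (by positivity) (by linear_combination hprod)
         | exact labels4_cancel (m := (Real.sin (A 1) * Real.sin (A 1))) (by positivity) (by linear_combination (-1 : ℝ) * hprod)
         | exact labels4_cancel (m := (Real.sin (A 1) * Real.sin (A 0 + 2 * A 1))) (by positivity) (by linear_combination hprod)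
         | exact labels4_cancel (m := (Real.sin (A 1) * Real.sin (A 0 + 2 * A 1))) (by positivity) (by linear_combination (-1 : ℝ) * hprod)
         | exact labels4_cancel (m := (Real.sin (A 0 + 2 * A 1) * Real.sin (A 0 + 2 * A 1))) (by positivity) (by linear_combination hprod)
         | exact labels4_cancel (m := (Real.sin (A 0 + 2 * A 1) * Real.sin (A 0 + 2 * A 1))) (by positivity) (by linear_combination (-1 : ℝ) * hprod)
       · first
         | exact Or.inl ⟨by ring1, by ring1, by ring1⟩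
         | exact Or.inr (Or.inl ⟨by ring1, by ring1, by ring1⟩)
         | exact Or.inr (Or.inr (Or.inl ⟨by ring1, by ring1, by ring1⟩))
         | exact Or.inr (Or.inr (Or.inr (Or.inl ⟨by ring1, by ring1, by ring1⟩)))
         | exact Or.inr (Or.inr (Or.inr (Or.inr (Or.inl ⟨by ring1, by ring1, by ring1⟩))))
         | exact Or.inr (Or.inr (Or.inr (Or.inr (Or.inr ⟨by ring1, by ring1, by ring1⟩)))))
    | (refine Or.inr ⟨A 0, A 1, ha, hb, hs, Or.inr ⟨?_, ?_⟩⟩
       · first
         | exact labels4_cancel (m := (Real.sin (A 0))) (by positivity) (by linear_combination hprod)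
         | exact labels4_cancel (m := (Real.sin (A 0))) (by positivity) (by linear_combination (-1 : ℝ) * hprod)
         | exact labels4_cancel (m := (Real.sin (A 1))) (by positivity) (by linear_combination hprod)
         | exact labels4_cancel (m := (Real.sin (A 1))) (by positivity) (by linear_combination (-1 : ℝ) * hprod)
         | exact labels4_cancel (m := (Real.sin (A 0 + 2 * A 1))) (by positivity) (by linear_combination hprod)
         | exact labels4_cancel (m := (Real.sin (A 0 + 2 * A 1))) (by positivity) (by linear_combination (-1 : ℝ) * hprod)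
       · first
         | exact Or.inl ⟨by ring1, by ring1, by ring1⟩
         | exact Or.inr (Or.inl ⟨by ring1, by ring1, by ring1⟩)
         | exact Or.inr (Or.inr (Or.inl ⟨by ring1, by ring1, by ring1⟩))
         | exact Or.inr (Or.inr (Or.inr (Or.inl ⟨by ring1, by ring1, by ring1⟩)))
         | exact Or.inr (Or.inr (Or.inr (Or.inr (Or.inl ⟨by ring1, by ring1, by ring1⟩))))
         | exact Or.inr (Or.inr (Or.inr (Or.inr (Or.inr ⟨by ring1, by ring1, by ring1⟩)))))

theorem labels4_rot' {f h b g u v : ℝ} (P : Perm3 f h b g u v) : Perm3 f h b u v g := by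
  unfold Perm3 at P ⊢
  tauto

theorem labels4_leafu (g u v : ℝ) (hu : 0 < u) (hv : 0 < v) (hs : g + u + v = Real.pi)
    (h3g : 3 * g + u = 2 * Real.pi)
    {qa q1 q2 h1 b1 b2 c2 c3 h3 g4 h4 : ℝ}
    (hH1 : q1 + h1 + h4 = Real.pi) (hH2 : q2 + h3 + g4 = Real.pi)
    (hprod : Real.sin h1 * Real.sin b2 * Real.sin c3 * Real.sin g4 =
      Real.sin b1 * Real.sin c2 * Real.sin h3 * Real.sin h4)
    (Q : Perm3 qa q1 q2 g u v)
    (HP : (labels4_Pair h1 b1 v g ∧ labels4_Pair b2 c2 u v ∧ labels4_Pair c3 h3 u v ∧ labels4_Pair g4 h4 u v) ∨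
      (labels4_Pair h1 b1 u v ∧ labels4_Pair b2 c2 v g ∧ labels4_Pair c3 h3 u v ∧ labels4_Pair g4 h4 u v) ∨
      (labels4_Pair h1 b1 u v ∧ labels4_Pair b2 c2 u v ∧ labels4_Pair c3 h3 v g ∧ labels4_Pair g4 h4 u v) ∨
      (labels4_Pair h1 b1 u v ∧ labels4_Pair b2 c2 u v ∧ labels4_Pair c3 h3 u v ∧ labels4_Pair g4 h4 v g)) :
    labels4_Concl qa b1 b2 c2 c3 := by
  have hg : g = u + 2 * v := by linarith
  subst hg
  have hs' : 2 * u + 3 * v = Real.pi := by linarith
  have Q' : Perm3 qa q1 q2 u v (u + 2 * v) := labels4_rot' Q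
  exact labels4_leaf ![u, v] hu hv hs' hH1 hH2 hprod Q' HP

theorem labels4_split {f h b g u v : ℝ} (P : Perm3 f h b g u v) :
    (f = g ∧ labels4_Pair h b u v ∧ labels4_Pair h b v u) ∨ (f = u ∧ labels4_Pair h b v g ∧ labels4_Pair h b v g) ∨
      (f = v ∧ labels4_Pair h b u g ∧ labels4_Pair h b u g) := by
  unfold Perm3 at P
  unfold labels4_Pair
  tauto

theorem labels4_swap {f h b g u v : ℝ} (P : Perm3 f h b g u v) : Perm3 f h b g v u := by
  unfold Perm3 at P ⊢
  tauto

theorem labels4_swap' {f h b g u v : ℝ} (P : Perm3 f h b g u v) : Perm3 f h b u g v := by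
  unfold Perm3 at P ⊢
  tauto

theorem labels4_rot {f h b g u v : ℝ} (P : Perm3 f h b g u v) : Perm3 f h b v g u := by
  unfold Perm3 at P ⊢
  tauto

theorem labels4_lt {f h b g u v m : ℝ} (P : Perm3 f h b g u v) (hg : g < m) (hu : u < m) (hv : v < m) :
    f < m := by
  rcases labels4_split P with ⟨e, -⟩ | ⟨e, -⟩ | ⟨e, -⟩ <;> rw [e] <;> assumption

theorem labels4_step (g u v : ℝ) (hg : Real.pi / 2 < g) (hu : 0 < u) (hv : 0 < v)
    (hs : g + u + v = Real.pi) {qa q1 q2 f1 h1 b1 f2 b2 c2 f3 c3 h3 f4 g4 h4 : ℝ}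
    (Q : Perm3 qa q1 q2 g u v) (P1 : Perm3 f1 h1 b1 g u v) (P2 : Perm3 f2 b2 c2 g u v)
    (P3 : Perm3 f3 c3 h3 g u v) (P4 : Perm3 f4 g4 h4 g u v) (hF : f1 + f2 + f3 + f4 = 2 * Real.pi)
    (hH1 : q1 + h1 + h4 = Real.pi) (hH2 : q2 + h3 + g4 = Real.pi)
    (hprod : Real.sin h1 * Real.sin b2 * Real.sin c3 * Real.sin g4 =
      Real.sin b1 * Real.sin c2 * Real.sin h3 * Real.sin h4) : labels4_Concl qa b1 b2 c2 c3 := by
  have Q' := labels4_swap Q
  rcases labels4_split P1 with ⟨e1, p1, p1'⟩ | ⟨e1, p1, p1'⟩ | ⟨e1, p1, p1'⟩ <;>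
  rcases labels4_split P2 with ⟨e2, p2, p2'⟩ | ⟨e2, p2, p2'⟩ | ⟨e2, p2, p2'⟩ <;>
  rcases labels4_split P3 with ⟨e3, p3, p3'⟩ | ⟨e3, p3, p3'⟩ | ⟨e3, p3, p3'⟩ <;>
  rcases labels4_split P4 with ⟨e4, p4, p4'⟩ | ⟨e4, p4, p4'⟩ | ⟨e4, p4, p4'⟩ <;>
  first
    | (exfalso; linarith)
    | exact labels4_leafu g u v hu hv hs (by linarith) hH1 hH2 hprod Q (Or.inl ⟨p1, p2, p3, p4⟩)
    | exact labels4_leafu g u v hu hv hs (by linarith) hH1 hH2 hprod Q (Or.inr (Or.inl ⟨p1, p2, p3, p4⟩))
    | exact labels4_leafu g u v hu hv hs (by linarith) hH1 hH2 hprod Q (Or.inr (Or.inr (Or.inl ⟨p1, p2, p3, p4⟩)))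
    | exact labels4_leafu g u v hu hv hs (by linarith) hH1 hH2 hprod Q (Or.inr (Or.inr (Or.inr ⟨p1, p2, p3, p4⟩)))
    | exact labels4_leafu g v u hv hu (by linarith) (by linarith) hH1 hH2 hprod Q' (Or.inl ⟨p1', p2', p3', p4'⟩)
    | exact labels4_leafu g v u hv hu (by linarith) (by linarith) hH1 hH2 hprod Q' (Or.inr (Or.inl ⟨p1', p2', p3', p4'⟩))
    | exact labels4_leafu g v u hv hu (by linarith) (by linarith) hH1 hH2 hprod Q' (Or.inr (Or.inr (Or.inl ⟨p1', p2', p3', p4'⟩)))
    | exact labels4_leafu g v u hv hu (by linarith) (by linarith) hH1 hH2 hprod Q' (Or.inr (Or.inr (Or.inr ⟨p1', p2', p3', p4'⟩)))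

theorem labels4_perm {θ : Fin 3 → ℝ} {x y z : ℝ} (h : IsPerm3 θ x y z) :
    Perm3 x y z (θ 0) (θ 1) (θ 2) := by
  obtain ⟨σ, rfl, rfl, rfl⟩ := h
  have key : ∀ a b c : Fin 3, a ≠ b → a ≠ c → b ≠ c →
      (a = 0 ∧ b = 1 ∧ c = 2) ∨ (a = 0 ∧ b = 2 ∧ c = 1) ∨ (a = 1 ∧ b = 0 ∧ c = 2) ∨
      (a = 1 ∧ b = 2 ∧ c = 0) ∨ (a = 2 ∧ b = 0 ∧ c = 1) ∨ (a = 2 ∧ b = 1 ∧ c = 0) := by
    decide
  have h01 : σ 0 ≠ σ 1 := fun e => absurd (σ.injective e) (by decide)
  have h02 : σ 0 ≠ σ 2 := fun e => absurd (σ.injective e) (by decide)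
  have h12 : σ 1 ≠ σ 2 := fun e => absurd (σ.injective e) (by decide)
  rcases key _ _ _ h01 h02 h12 with ⟨e1, e2, e3⟩ | ⟨e1, e2, e3⟩ | ⟨e1, e2, e3⟩ | ⟨e1, e2, e3⟩ |
    ⟨e1, e2, e3⟩ | ⟨e1, e2, e3⟩
  · exact Or.inl ⟨congrArg θ e1, congrArg θ e2, congrArg θ e3⟩
  · exact Or.inr (Or.inl ⟨congrArg θ e1, congrArg θ e2, congrArg θ e3⟩)
  · exact Or.inr (Or.inr (Or.inl ⟨congrArg θ e1, congrArg θ e2, congrArg θ e3⟩))
  · exact Or.inr (Or.inr (Or.inr (Or.inl ⟨congrArg θ e1, congrArg θ e2, congrArg θ e3⟩)))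
  · exact Or.inr (Or.inr (Or.inr (Or.inr (Or.inl ⟨congrArg θ e1, congrArg θ e2, congrArg θ e3⟩))))
  · exact Or.inr (Or.inr (Or.inr (Or.inr (Or.inr ⟨congrArg θ e1, congrArg θ e2, congrArg θ e3⟩))))

/- Five triangles with the angles θ 0, θ 1, θ 2: Q (angles qa at A, q1 at H1, q2 at H2), P1 (f1 at F, h1 at H1, b1 at B), P2 (f2 at F, b2 at B, c2 at C), P3 (f3 at F, c3 at C, h3 at H2), P4 (f4 at F, g4 at H2, h4 at H1).
HINT (checked by computer: besides qa = .. etc. exactly these solutions). Values: four of the θ's sum up to 2π and no θ is π/2, so exactly one θ is obtuse, call it g, and the others a, b are < π/2 with a + b < π/2; of f1..f4 exactly three equal g and one is another one, call it a; so 3 g + a = 2π, g = a + 2 b, 2 a + 3 b = π. Three θ's with sum π: they are a, b, g in some order, or all equal to a = π/3 (then b = π/9, g = 5π/9) (or a = b and then again the same values).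
Main case (q1,h1,h4) and (q2,h3,g4) are permutations of (a,b,g):
(1) f4 = a: {g4,h4} = {b,g}; mirror symmetry (H1<->H2, B<->C), say h4 = b, g4 = g: h1 = a, q1 = g, b1 = b; (q2,h3) = (a,b): c3 = a, qa = b, product: (b2,c2) = (a,b): isosceles b1+b2 = c2+c3; (b2,c2) = (b,a): sin a sin g = sin b ^ 2, T = (b, 2b, 2a). (q2,h3) = (b,a): c3 = b, qa = a: (b2,c2) = (a,b): sin a sin g = sin b ^2, T = (a, a+b, 2b); (b2,c2) = (b,a): sin g = sin a impossible.
(2) f1 = a: {h1,b1} = {b,g}; h1 = b impossible (H2 needs g: f3 = f4 = g so q2 = g; H1 needs g too: q1 = g, contradiction), so h1 = g, b1 = b, q2 = g, (q1,h4) = (b,a): qa = a, g4 = b, h3 = a, c3 = b: (b2,c2) = (b,a): sin g sin b ^2 = sin a ^3, T = (a, 2b, a+b); (a,b): impossible; (q1,h4) = (a,b): qa = b, g4 = a, h3 = b, c3 = a: (b2,c2) = (a,b): isosceles; (b,a): sin g sin a = sin b ^2, T = (b, 2b, 2a). (4) f3 = a: mirror of (2). (3) f2 = a: both q1 = g and q2 = g: impossible.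
Case h1 = h4 = q1 = a = π/3 (or mirror): f1 = f4 = g, g4 = b, b1 = b; q2 = g, h3 = a, c3 = b, f2 = a, product impossible since sin b < sin a, sin b < sin g, sin g ≠ sin a.
sin is injective enough: use Real.sin_lt_sin_of_lt_of_le_pi_div_two and sin (π - x). If the θ's are not distinct (a = b) the conclusion (first alternative) may come out in another way; treat values, not labels. -/
theorem labels4 (θ : Fin 3 → ℝ) (hpos : ∀ k, 0 < θ k) (hsum : θ 0 + θ 1 + θ 2 = Real.pi)
    (hr : ∀ k, θ k ≠ Real.pi / 2) {qa q1 q2 f1 h1 b1 f2 b2 c2 f3 c3 h3 f4 g4 h4 : ℝ}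
    (Q : IsPerm3 θ qa q1 q2) (P1 : IsPerm3 θ f1 h1 b1) (P2 : IsPerm3 θ f2 b2 c2)
    (P3 : IsPerm3 θ f3 c3 h3) (P4 : IsPerm3 θ f4 g4 h4) (hF : f1 + f2 + f3 + f4 = 2 * Real.pi)
    (hH1 : q1 + h1 + h4 = Real.pi) (hH2 : q2 + h3 + g4 = Real.pi)
    (hprod : Real.sin h1 * Real.sin b2 * Real.sin c3 * Real.sin g4 =
      Real.sin b1 * Real.sin c2 * Real.sin h3 * Real.sin h4) :
    (qa = b1 + b2 ∨ qa = c2 + c3 ∨ b1 + b2 = c2 + c3) ∨
    ∃ a b : ℝ, 0 < a ∧ 0 < b ∧ 2 * a + 3 * b = Real.pi ∧
      ((Real.sin a * Real.sin (a + 2 * b) = Real.sin b ^ 2 ∧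
          (Perm3 qa (b1 + b2) (c2 + c3) a (a + b) (2 * b) ∨
            Perm3 qa (b1 + b2) (c2 + c3) b (2 * b) (2 * a))) ∨
        (Real.sin (a + 2 * b) * Real.sin b ^ 2 = Real.sin a ^ 3 ∧
          Perm3 qa (b1 + b2) (c2 + c3) a (2 * b) (a + b))) := by
  have hQ := labels4_perm Q
  have hP1 := labels4_perm P1
  have hP2 := labels4_perm P2
  have hP3 := labels4_perm P3
  have hP4 := labels4_perm P4
  have key : labels4_Concl qa b1 b2 c2 c3 := by
    rcases lt_or_gt_of_ne (hr 0) with h0 | h0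
    · rcases lt_or_gt_of_ne (hr 1) with h1' | h1'
      · rcases lt_or_gt_of_ne (hr 2) with h2 | h2
        · exfalso
          have t1 := labels4_lt hP1 h0 h1' h2
          have t2 := labels4_lt hP2 h0 h1' h2
          have t3 := labels4_lt hP3 h0 h1' h2
          have t4 := labels4_lt hP4 h0 h1' h2
          linarith
        · exact labels4_step (θ 2) (θ 0) (θ 1) h2 (hpos 0) (hpos 1) (by linarith) (labels4_rot hQ)
            (labels4_rot hP1) (labels4_rot hP2) (labels4_rot hP3) (labels4_rot hP4) hF hH1 hH2 hprod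
      · exact labels4_step (θ 1) (θ 0) (θ 2) h1' (hpos 0) (hpos 2) (by linarith) (labels4_swap' hQ)
          (labels4_swap' hP1) (labels4_swap' hP2) (labels4_swap' hP3) (labels4_swap' hP4) hF hH1 hH2 hprod
    · exact labels4_step (θ 0) (θ 1) (θ 2) h0 (hpos 1) (hpos 2) hsum hQ hP1 hP2 hP3 hP4 hF hH1 hH2 hprod
  exact key


end Pool.Agent.Helper230.Five
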