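import Pool.Agent.Helper230.Five.StarExcl

/-! # Dissections into five mutually similar triangles: RightTile -/

set_option autoImplicit false
noncomputable section
open scoped BigOperators
open Pool.Agent.Helper549.Tri Pool.Agent.Helper549.Tri.Basic Pool.Agent.Helper549.Tri.Angles
  Pool.Agent.Helper549.Tri.AngleSum Pool.Agent.Helper549.Tri.Opp Pool.Agent.Helper549.Tri.Corner
  Pool.Agent.Helper549.Tri.Vertex
namespace Pool.Agent.Helper230.Five


theorem right_tile_rot (f : Fin 3 → ℝ) (c : Fin 3) :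
    ∑ k, f k = f c + f (c + 1) + f (c + 2) := by
  rw [Fin.sum_univ_three]
  fin_cases c
  · rfl
  · show f 0 + f 1 + f 2 = f 1 + f 2 + f 0
    ring
  · show f 0 + f 1 + f 2 = f 2 + f 0 + f 1
    ring

theorem right_tile_rotN (f : Fin 3 → ℕ) (c : Fin 3) :
    ∑ k, f k = f c + f (c + 1) + f (c + 2) := by
  rw [Fin.sum_univ_three]
  fin_cases c
  · rfl
  · show f 0 + f 1 + f 2 = f 1 + f 2 + f 0
    omega
  · show f 0 + f 1 + f 2 = f 2 + f 0 + f 1
    omega

theorem right_tile_fin : ∀ x b b' c : Fin 3, b ≠ c → b' ≠ c → b ≠ b' → x ≠ b' →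
    x = b ∨ x = c := by decide

theorem right_tile_card {T : Fin 3 → ℂ} {t : Fin 5 → Fin 3 → ℂ} (h : Dis 5 T t)
    (τ : Fin 5 → Equiv.Perm (Fin 3)) (p : ℂ) : ∑ k, cnt t τ p k = (I t p).card := by
  classical
  unfold cnt I
  rw [Finset.card_filter, Finset.sum_comm]
  refine Finset.sum_congr rfl fun i _ => ?_
  rw [Finset.sum_comm]
  by_cases hh : Has (t i) p
  · rw [if_pos hh]
    obtain ⟨m, rfl⟩ := hh
    rw [Finset.sum_eq_single m]
    · rw [Finset.sum_eq_single (τ i m)]
      · rw [if_pos ⟨rfl, rfl⟩]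
      · intro b _ hb
        rw [if_neg]
        rintro ⟨_, e⟩
        exact hb e.symm
      · intro hc
        exact absurd (Finset.mem_univ _) hc
    · intro b _ hb
      refine Finset.sum_eq_zero fun k _ => ?_
      rw [if_neg]
      rintro ⟨e, _⟩
      exact hb (vertex_inj _ (h.ccwt i) e)
    · intro hc
      exact absurd (Finset.mem_univ _) hc
  · rw [if_neg hh]
    refine Finset.sum_eq_zero fun m _ => Finset.sum_eq_zero fun k _ => ?_
    rw [if_neg]
    rintro ⟨e, _⟩
    exact hh ⟨m, e⟩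

theorem right_tile_zero {t : Fin 5 → Fin 3 → ℂ} (τ : Fin 5 → Equiv.Perm (Fin 3)) (p : ℂ)
    (k : Fin 3) (h0 : cnt t τ p k = 0) (i : Fin 5) (m : Fin 3) (e : t i m = p) : τ i m ≠ k := by
  intro e2
  unfold cnt at h0
  rw [Finset.sum_eq_zero_iff] at h0
  have h1 := h0 i (Finset.mem_univ _)
  rw [Finset.sum_eq_zero_iff] at h1
  have h2 := h1 m (Finset.mem_univ _)
  rw [if_pos ⟨e, e2⟩] at h2
  exact one_ne_zero h2

theorem right_tile_star {T : Fin 3 → ℂ} {t : Fin 5 → Fin 3 → ℂ} (h : Dis 5 T t) (θ : Fin 3 → ℝ)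
    (τ : Fin 5 → Equiv.Perm (Fin 3)) (hang : ∀ i m, ang (t i) m = θ (τ i m)) (c : Fin 3)
    (hc : θ c = Real.pi / 2) (hne : θ (c + 1) ≠ θ (c + 2)) {p : ℂ}
    (hp : ∀ j, p ≠ T j) (b b' : Fin 3) (hb : b ≠ c) (hb' : b' ≠ c) (hbb : b ≠ b')
    (h5 : ∑ k, cnt t τ p k = 5) (h0 : cnt t τ p b' = 0) : False := by
  have hcard : (I t p).card = 5 := by
    rw [← right_tile_card h τ p]
    exact h5
  have huniv : I t p = Finset.univ := by
    apply Finset.eq_univ_of_card
    rw [hcard, Fintype.card_fin]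
  have hall : ∀ i, Has (t i) p := by
    intro i
    rw [← mem_I, huniv]
    exact Finset.mem_univ _
  refine star_excl h θ τ hang c hc hne hall hp b hb ?_
  intro i m e
  exact right_tile_fin _ b b' c hb hb' hbb (right_tile_zero τ p b' h0 i m e)

theorem right_tile_rat {T : Fin 3 → ℂ} {t : Fin 5 → Fin 3 → ℂ} (h : Dis 5 T t) (θ : Fin 3 → ℝ)
    (τ : Fin 5 → Equiv.Perm (Fin 3)) (hang : ∀ i m, ang (t i) m = θ (τ i m)) (c : Fin 3)
    (hc : θ c = Real.pi / 2) (g a b : ℕ) (hg : g = 2 ∨ g = 3)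
    (ha : θ (c + 1) = a * (Real.pi / (2 * g))) (hb : θ (c + 2) = b * (Real.pi / (2 * g))) :
    (∃ k, ang T k = Real.pi / 2) ∨ ∃ k l, k ≠ l ∧ ang T k = ang T l := by
  have hpi := Real.pi_pos
  have hg0 : (0 : ℝ) < g := by rcases hg with rfl | rfl <;> norm_num
  have hu : 0 < Real.pi / (2 * g) := by positivity
  have hhalf : Real.pi / 2 = g * (Real.pi / (2 * g)) := by
    field_simp
  have key : ∀ j, ∃ x : ℕ, ang T j = x * (Real.pi / (2 * g)) := by
    intro j
    refine ⟨cnt t τ (T j) c * g + cnt t τ (T j) (c + 1) * a + cnt t τ (T j) (c + 2) * b, ?_⟩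
    rw [← corner_angles h τ θ hang j, right_tile_rot _ c, hc, ha, hb, hhalf]
    push_cast
    ring
  choose x hx using key
  have hpos : ∀ j, 0 < x j := by
    intro j
    have h1 := ang_pos T h.ccwT j
    rw [hx j] at h1
    rcases Nat.eq_zero_or_pos (x j) with e | e
    · rw [e] at h1
      simp at h1
    · exact e
  have hs := ang_sum T h.ccwT
  rw [hx 0, hx 1, hx 2] at hs
  have hs' : x 0 + x 1 + x 2 = 2 * g := by
    have h1 : ((x 0 + x 1 + x 2 : ℕ) : ℝ) * (Real.pi / (2 * g)) =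
        ((2 * g : ℕ) : ℝ) * (Real.pi / (2 * g)) := by
      push_cast
      have h2 : 2 * (g : ℝ) * (Real.pi / (2 * g)) = Real.pi := by
        field_simp
      rw [h2]
      linear_combination hs
    have h3 := mul_right_cancel₀ hu.ne' h1
    exact_mod_cast h3
  have p0 := hpos 0
  have p1 := hpos 1
  have p2 := hpos 2
  have hcase : x 0 = x 1 ∨ x 0 = x 2 ∨ x 1 = x 2 ∨ x 0 = g ∨ x 1 = g ∨ x 2 = g := by
    rcases hg with rfl | rfl <;> omega
  rcases hcase with e | e | e | e | e | e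
  · right
    exact ⟨0, 1, by decide, by rw [hx 0, hx 1, e]⟩
  · right
    exact ⟨0, 2, by decide, by rw [hx 0, hx 2, e]⟩
  · right
    exact ⟨1, 2, by decide, by rw [hx 1, hx 2, e]⟩
  · left
    exact ⟨0, by rw [hx 0, e, hhalf]⟩
  · left
    exact ⟨1, by rw [hx 1, e, hhalf]⟩
  · left
    exact ⟨2, by rw [hx 2, e, hhalf]⟩

theorem right_tile_arith (P Q R : Fin 3 → ℕ) (h1 : P 0 + P 1 + P 2 = Q 0 + Q 1 + Q 2)
    (h2 : P 0 + P 1 + P 2 + (R 0 + R 1 + R 2) = 2) (h3 : ∀ j, 1 ≤ P j + Q j + R j) :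
    (∃ j, P j = Q j ∧ P j + R j = 1) ∨ ∃ k l, k ≠ l ∧ P k = P l ∧ Q k = Q l ∧ R k = R l := by
  have a0 := h3 0
  have a1 := h3 1
  have a2 := h3 2
  by_contra hcon
  push Not at hcon
  obtain ⟨c1, c2⟩ := hcon
  have b0 := c1 0
  have b1 := c1 1
  have b2 := c1 2
  have d0 := c2 0 1 (by decide)
  have d1 := c2 0 2 (by decide)
  have d2 := c2 1 2 (by decide)
  clear c1 c2 h3
  generalize P 0 = x0 at *
  generalize P 1 = x1 at *
  generalize P 2 = x2 at *
  generalize Q 0 = y0 at *
  generalize Q 1 = y1 at *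
  generalize Q 2 = y2 at *
  generalize R 0 = z0 at *
  generalize R 1 = z1 at *
  generalize R 2 = z2 at *
  have e0 : x0 ≤ 2 := by omega
  have e1 : x1 ≤ 2 := by omega
  have e2 : x2 ≤ 2 := by omega
  interval_cases x0 <;> interval_cases x1 <;> interval_cases x2 <;> omega

theorem right_tile {T : Fin 3 → ℂ} {t : Fin 5 → Fin 3 → ℂ} (h : Dis 5 T t) (θ : Fin 3 → ℝ)
    (τ : Fin 5 → Equiv.Perm (Fin 3)) (hang : ∀ i m, ang (t i) m = θ (τ i m)) (c : Fin 3)
    (hc : θ c = Real.pi / 2) :
    (∃ k, ang T k = Real.pi / 2) ∨ ∃ k l, k ≠ l ∧ ang T k = ang T l := by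
  classical
  have hpi := Real.pi_pos
  have hpos : ∀ k, 0 < θ k := by
    intro k
    have h1 := hang 0 ((τ 0).symm k)
    rw [Equiv.apply_symm_apply] at h1
    rw [← h1]
    exact ang_pos _ (h.ccwt 0) _
  have hsum : θ (c + 1) + θ (c + 2) = Real.pi / 2 := by
    have h1 := ang_sum (t 0) (h.ccwt 0)
    rw [hang, hang, hang] at h1
    have h2 : ∑ m, θ (τ 0 m) = ∑ k, θ k := Equiv.sum_comp (τ 0) θ
    rw [right_tile_rot θ c, Fin.sum_univ_three, h1, hc] at h2
    linarith
  have ha := hpos (c + 1)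
  have hb := hpos (c + 2)
  by_cases hne : θ (c + 1) = θ (c + 2)
  · refine right_tile_rat h θ τ hang c hc 2 1 1 (Or.inl rfl) ?_ ?_
    · push_cast
      linarith
    · push_cast
      linarith
  by_cases hD : ∀ p ∈ pts t, (∀ j, p ≠ T j) → cnt t τ p (c + 1) = cnt t τ p (c + 2)
  · -- every interior vertex is balanced
    have hT : ∀ j, ang T j = (cnt t τ (T j) c : ℝ) * (Real.pi / 2) +
        cnt t τ (T j) (c + 1) * θ (c + 1) + cnt t τ (T j) (c + 2) * θ (c + 2) := by
      intro j
      rw [← corner_angles h τ θ hang j, right_tile_rot _ c, hc]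
    have hsub : Finset.univ.image T ⊆ pts t := by
      intro p hp
      obtain ⟨j, _, rfl⟩ := Finset.mem_image.1 hp
      exact W_pos_has h j
    have t1 : ∑ p ∈ pts t, cnt t τ p (c + 1) = 5 := cnt_total t τ (c + 1)
    have t2 : ∑ p ∈ pts t, cnt t τ p (c + 2) = 5 := cnt_total t τ (c + 2)
    have h1 : ∑ p ∈ pts t, ((cnt t τ p (c + 1) : ℤ) - cnt t τ p (c + 2)) = 0 := by
      rw [Finset.sum_sub_distrib, ← Nat.cast_sum, ← Nat.cast_sum, t1, t2]
      simp
    have h2 : ∑ p ∈ Finset.univ.image T, ((cnt t τ p (c + 1) : ℤ) - cnt t τ p (c + 2)) =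
        ∑ p ∈ pts t, ((cnt t τ p (c + 1) : ℤ) - cnt t τ p (c + 2)) := by
      refine Finset.sum_subset hsub fun p hp hnp => ?_
      rw [hD p hp, sub_self]
      intro j e
      exact hnp (Finset.mem_image.2 ⟨j, Finset.mem_univ _, e.symm⟩)
    rw [Finset.sum_image (fun x _ y _ e => vertex_inj T h.ccwT e), h1, Fin.sum_univ_three] at h2
    have h3 : cnt t τ (T 0) (c + 1) + cnt t τ (T 1) (c + 1) + cnt t τ (T 2) (c + 1) =
        cnt t τ (T 0) (c + 2) + cnt t τ (T 1) (c + 2) + cnt t τ (T 2) (c + 2) := by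
      omega
    have h4 : cnt t τ (T 0) (c + 1) + cnt t τ (T 1) (c + 1) + cnt t τ (T 2) (c + 1) +
        (cnt t τ (T 0) c + cnt t τ (T 1) c + cnt t τ (T 2) c) = 2 := by
      have hs := ang_sum T h.ccwT
      rw [hT 0, hT 1, hT 2] at hs
      have h5 : ((cnt t τ (T 0) (c + 1) + cnt t τ (T 1) (c + 1) + cnt t τ (T 2) (c + 1) : ℕ) : ℝ) =
        ((cnt t τ (T 0) (c + 2) + cnt t τ (T 1) (c + 2) + cnt t τ (T 2) (c + 2) : ℕ) : ℝ) := by
        rw [h3]
      push_cast at h5
      have h6 : θ (c + 2) = Real.pi / 2 - θ (c + 1) := by linarith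
      have h7 : ((cnt t τ (T 0) (c + 1) + cnt t τ (T 1) (c + 1) + cnt t τ (T 2) (c + 1) +
        (cnt t τ (T 0) c + cnt t τ (T 1) c + cnt t τ (T 2) c) : ℕ) : ℝ) * (Real.pi / 2) =
          ((2 : ℕ) : ℝ) * (Real.pi / 2) := by
        push_cast
        rw [h6] at hs
        linear_combination hs + (Real.pi / 2 - θ (c + 1)) * h5
      have h8 := mul_right_cancel₀ (by positivity) h7
      exact_mod_cast h8
    have h5 : ∀ j, 1 ≤ cnt t τ (T j) (c + 1) + cnt t τ (T j) (c + 2) + cnt t τ (T j) c := by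
      intro j
      by_contra hcon
      have e1 : cnt t τ (T j) (c + 1) = 0 := by omega
      have e2 : cnt t τ (T j) (c + 2) = 0 := by omega
      have e3 : cnt t τ (T j) c = 0 := by omega
      have h6 := ang_pos T h.ccwT j
      rw [hT j, e1, e2, e3] at h6
      simp at h6
    rcases right_tile_arith (fun j => cnt t τ (T j) (c + 1)) (fun j => cnt t τ (T j) (c + 2))
      (fun j => cnt t τ (T j) c) h3 h4 h5 with ⟨j, e1, e2⟩ | ⟨k, l, hkl, e1, e2, e3⟩
    · left
      refine ⟨j, ?_⟩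
      have e1' : cnt t τ (T j) (c + 1) = cnt t τ (T j) (c + 2) := e1
      have e2' : cnt t τ (T j) (c + 1) + cnt t τ (T j) c = 1 := e2
      have e3 : (cnt t τ (T j) (c + 1) : ℝ) + cnt t τ (T j) c = 1 := by exact_mod_cast e2'
      rw [hT j, ← e1']
      linear_combination (cnt t τ (T j) (c + 1) : ℝ) * hsum + (Real.pi / 2) * e3
    · right
      refine ⟨k, l, hkl, ?_⟩
      have e1' : cnt t τ (T k) (c + 1) = cnt t τ (T l) (c + 1) := e1
      have e2' : cnt t τ (T k) (c + 2) = cnt t τ (T l) (c + 2) := e2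
      have e3' : cnt t τ (T k) c = cnt t τ (T l) c := e3
      rw [hT k, hT l, e1', e2', e3']
  · push Not at hD
    obtain ⟨p, hp, hpT, hPQ⟩ := hD
    obtain ⟨i, m, him⟩ := (mem_pts t p).1 hp
    have hv := vertex_angles h τ θ hang i m (by rw [him]; exact hpT)
    rw [him] at hv
    obtain ⟨k, hk, hk2⟩ := hv
    rw [right_tile_rot _ c, hc] at hk2
    have hle : cnt t τ p c + cnt t τ p (c + 1) + cnt t τ p (c + 2) ≤ 5 := by
      rw [← right_tile_rotN (fun k => cnt t τ p k) c, right_tile_card h τ p]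
      exact (Finset.card_le_univ _).trans (by rw [Fintype.card_fin])
    have hstar : cnt t τ p c + cnt t τ p (c + 1) + cnt t τ p (c + 2) = 5 →
        (cnt t τ p (c + 1) = 0 ∨ cnt t τ p (c + 2) = 0) → False := by
      intro h5 h0
      rw [← right_tile_rotN (fun k => cnt t τ p k) c] at h5
      have n1 : ∀ c : Fin 3, c + 1 ≠ c ∧ c + 2 ≠ c ∧ c + 1 ≠ c + 2 := by decide
      obtain ⟨m1, m2, m3⟩ := n1 c
      rcases h0 with h0 | h0
      · exact right_tile_star h θ τ hang c hc hne hpT (c + 2) (c + 1) m2 m1 m3.symm h5 h0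
      · exact right_tile_star h θ τ hang c hc hne hpT (c + 1) (c + 2) m1 m2 m3 h5 h0
    generalize cnt t τ p c = R at *
    generalize cnt t τ p (c + 1) = P at *
    generalize cnt t τ p (c + 2) = Q at *
    have hlin : (((P : ℤ) - Q : ℤ) : ℝ) * θ (c + 1) = ((2 * k - Q - R : ℤ) : ℝ) * (Real.pi / 2) := by
      push_cast
      have h6 : θ (c + 2) = Real.pi / 2 - θ (c + 1) := by linarith
      rw [h6] at hk2
      linear_combination hk2
    obtain ⟨d, hd⟩ : ∃ d : ℤ, d = (P : ℤ) - Q := ⟨_, rfl⟩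
    obtain ⟨e, he⟩ : ∃ e : ℤ, e = 2 * (k : ℤ) - Q - R := ⟨_, rfl⟩
    rw [← hd, ← he] at hlin
    have hde : (0 < e ∧ e < d) ∨ (d < e ∧ e < 0) := by
      have hd0 : d ≠ 0 := by omega
      rcases lt_or_gt_of_ne hd0 with hd1 | hd1
      · right
        have hd2 : (d : ℝ) < 0 := by exact_mod_cast hd1
        constructor
        · have : (d : ℝ) < e := by
            by_contra hcon
            push Not at hcon
            nlinarith
          exact_mod_cast this
        · have : (e : ℝ) < 0 := by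
            by_contra hcon
            push Not at hcon
            nlinarith
          exact_mod_cast this
      · left
        have hd2 : (0 : ℝ) < d := by exact_mod_cast hd1
        constructor
        · have : (0 : ℝ) < e := by
            by_contra hcon
            push Not at hcon
            nlinarith
          exact_mod_cast this
        · have : (e : ℝ) < d := by
            by_contra hcon
            push Not at hcon
            nlinarith
          exact_mod_cast this
    have hcases : d = 2 * e ∨ (d = 3 * e) ∨ (2 * d = 3 * e) := by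
      by_contra hcon
      push Not at hcon
      apply hstar
      · rcases hk with rfl | rfl <;> omega
      · rcases hk with rfl | rfl <;> omega
    have he0 : (e : ℝ) ≠ 0 := by
      have : e ≠ 0 := by omega
      exact_mod_cast this
    rcases hcases with e1 | e1 | e1
    · exfalso
      have e2 : (d : ℝ) = 2 * e := by exact_mod_cast e1
      rw [e2] at hlin
      have h7 : (e : ℝ) * (2 * θ (c + 1)) = e * (Real.pi / 2) := by linarith
      have h8 := mul_left_cancel₀ he0 h7
      apply hne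
      linarith
    · have e2 : (d : ℝ) = 3 * e := by exact_mod_cast e1
      rw [e2] at hlin
      have h7 : (e : ℝ) * (3 * θ (c + 1)) = e * (Real.pi / 2) := by linarith
      have h8 := mul_left_cancel₀ he0 h7
      refine right_tile_rat h θ τ hang c hc 3 1 2 (Or.inr rfl) ?_ ?_
      · push_cast
        linarith
      · push_cast
        linarith
    · have e2 : 2 * (d : ℝ) = 3 * e := by exact_mod_cast e1
      have h7 : (e : ℝ) * (3 * θ (c + 1)) = e * Real.pi := by
        linear_combination 2 * hlin - θ (c + 1) * e2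
      have h8 := mul_left_cancel₀ he0 h7
      refine right_tile_rat h θ τ hang c hc 3 2 1 (Or.inr rfl) ?_ ?_
      · push_cast
        linarith
      · push_cast
        linarith

end Pool.Agent.Helper230.Five
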