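import Pool.Agent.Helper230.Five.Cyc
import Pool.Agent.Helper230.Five.FourComb
import Pool.Agent.Helper230.Five.FourAng
import Pool.Agent.Helper230.Five.Labels4
import Pool.Agent.Helper230.Five.Conv
import Pool.Agent.Helper230.Five.Conv45
import Pool.Agent.Helper230.Five.RightTile

/-! # Dissections into five mutually similar triangles: the classification -/

set_option autoImplicit false
noncomputable section
open scoped BigOperators
open Pool.Agent.Helper549.Tri Pool.Agent.Helper549.Tri.Basic Pool.Agent.Helper549.Tri.Angles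
  Pool.Agent.Helper549.Tri.AngleSum Pool.Agent.Helper549.Tri.Opp Pool.Agent.Helper549.Tri.Corner
  Pool.Agent.Helper549.Tri.Vertex

namespace Pool.Agent.Helper230.Five

variable {T : Fin 3 → ℂ} {t : Fin 5 → Fin 3 → ℂ} {θ : Fin 3 → ℝ} {τ : Fin 5 → Equiv.Perm (Fin 3)}

theorem perm3_s12 {A B C x y z : ℝ} (h : Perm3 A B C x y z) : Perm3 B A C x y z := by
  unfold Perm3 at *
  rcases h with ⟨a, b, c⟩ | ⟨a, b, c⟩ | ⟨a, b, c⟩ | ⟨a, b, c⟩ | ⟨a, b, c⟩ | ⟨a, b, c⟩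
  · exact Or.inr (Or.inr (Or.inl ⟨b, a, c⟩))
  · exact Or.inr (Or.inr (Or.inr (Or.inr (Or.inl ⟨b, a, c⟩))))
  · exact Or.inl ⟨b, a, c⟩
  · exact Or.inr (Or.inr (Or.inr (Or.inr (Or.inr ⟨b, a, c⟩))))
  · exact Or.inr (Or.inl ⟨b, a, c⟩)
  · exact Or.inr (Or.inr (Or.inr (Or.inl ⟨b, a, c⟩)))

theorem perm3_s23 {A B C x y z : ℝ} (h : Perm3 A B C x y z) : Perm3 A C B x y z := by
  unfold Perm3 at *
  rcases h with ⟨a, b, c⟩ | ⟨a, b, c⟩ | ⟨a, b, c⟩ | ⟨a, b, c⟩ | ⟨a, b, c⟩ | ⟨a, b, c⟩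
  · exact Or.inr (Or.inl ⟨a, c, b⟩)
  · exact Or.inl ⟨a, c, b⟩
  · exact Or.inr (Or.inr (Or.inr (Or.inl ⟨a, c, b⟩)))
  · exact Or.inr (Or.inr (Or.inl ⟨a, c, b⟩))
  · exact Or.inr (Or.inr (Or.inr (Or.inr (Or.inr ⟨a, c, b⟩))))
  · exact Or.inr (Or.inr (Or.inr (Or.inr (Or.inl ⟨a, c, b⟩))))

theorem six_cases : ∀ a b c : Fin 3, a ≠ b → a ≠ c → b ≠ c →
    (a = 0 ∧ b = 1 ∧ c = 2) ∨ (a = 0 ∧ b = 2 ∧ c = 1) ∨ (a = 1 ∧ b = 0 ∧ c = 2) ∨
    (a = 1 ∧ b = 2 ∧ c = 0) ∨ (a = 2 ∧ b = 0 ∧ c = 1) ∨ (a = 2 ∧ b = 1 ∧ c = 0) := by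
  decide

theorem perm3_012 {f : Fin 3 → ℝ} {a b c : Fin 3} (hab : a ≠ b) (hac : a ≠ c) (hbc : b ≠ c)
    {x y z : ℝ} (h : Perm3 (f a) (f b) (f c) x y z) : Perm3 (f 0) (f 1) (f 2) x y z := by
  rcases six_cases a b c hab hac hbc with ⟨rfl, rfl, rfl⟩ | ⟨rfl, rfl, rfl⟩ | ⟨rfl, rfl, rfl⟩ |
    ⟨rfl, rfl, rfl⟩ | ⟨rfl, rfl, rfl⟩ | ⟨rfl, rfl, rfl⟩
  · exact h
  · exact perm3_s23 h
  · exact perm3_s12 h
  · exact perm3_s12 (perm3_s23 h)
  · exact perm3_s23 (perm3_s12 h)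
  · exact perm3_s12 (perm3_s23 (perm3_s12 h))

/-- the isosceles triangles -/
def Iso {P : Type*} [MetricSpace P] (T : Fin 3 → P) : Prop :=
  ∃ σ : Equiv.Perm (Fin 3), dist (T (σ 0)) (T (σ 1)) = dist (T (σ 0)) (T (σ 2))

/-- the five sporadic triangles -/
def Spor {P : Type*} [MetricSpace P] (T : Fin 3 → P) : Prop :=
  Shape T 4 6 5 ∨ Shape T 8 5 7 ∨ Shape T 2 4 (3 * Real.sqrt 2) ∨
    (∃ r : ℝ, 0 < r ∧ r ^ 3 + r = 1 ∧ Shape T 1 (Real.sqrt r * (1 + r)) (1 + r ^ 2)) ∨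
    (∃ p : ℝ, 1 < p ∧ p ^ 3 = 2 * p ^ 2 + p + 1 ∧ Shape T p (p + 1 / p) (p - 1))

theorem third : ∀ k l : Fin 3, k ≠ l → ∃ m : Fin 3, m ≠ k ∧ m ≠ l := by decide

theorem exists_perm {x y z : Fin 3} (n1 : x ≠ y) (n2 : x ≠ z) (n3 : y ≠ z) :
    ∃ σ : Equiv.Perm (Fin 3), σ 0 = x ∧ σ 1 = y ∧ σ 2 = z := by
  have hinj : Function.Injective ![x, y, z] := by
    intro a b hab
    fin_cases a <;> fin_cases b <;> simp_all
  exact ⟨Equiv.ofBijective _ (Finite.injective_iff_bijective.1 hinj), rfl, rfl, rfl⟩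

theorem iso_of_ang (T : Fin 3 → ℂ) (hT : 0 < dd T) {k l : Fin 3} (hkl : k ≠ l)
    (h : ang T k = ang T l) : Iso T := by
  obtain ⟨m, hmk, hml⟩ := third k l hkl
  have hs := sine_law T hT k l
  have hp : 0 < Real.sin (ang T l) :=
    Real.sin_pos_of_pos_of_lt_pi (ang_pos _ hT _) (ang_lt_pi _ hT _)
  rw [h] at hs
  have hlen : len T k = len T l := by
    have : (len T k - len T l) * Real.sin (ang T l) = 0 := by linarith
    rcases mul_eq_zero.1 this with e | e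
    · linarith
    · exact absurd e hp.ne'
  rw [len_opp T hml hmk hkl.symm, len_opp T hmk hml hkl] at hlen
  obtain ⟨σ, e0, e1, e2⟩ := exists_perm hml hmk hkl.symm
  refine ⟨σ, ?_⟩
  rw [e0, e1, e2, dist_eq_norm, dist_eq_norm]
  exact hlen

theorem four_all {F : ℂ} (o : One T t θ τ F) (h4 : (I t F).card = 4) : Iso T ∨ Spor T := by
  have hT := o.h.ccwT
  obtain ⟨a, b, c, H1, H2, Q, P1, P2, P3, P4, hab, hac, hbc, n1, n2, n12, f1, f2, hI, hnd, q1, q2,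
    qa, o1, i1, o2, i2, o3, i3, o4, i4⟩ := four_comb o h4 (four_match o h4)
  obtain ⟨A, x1, x2, f1', h1, b1, f2', b2, c2, f3, c3, h3, f4, g4, h4', pQ, p1, p2, p3, p4, hF,
    hH1, hH2, hprod, eA, eB, eC⟩ := four_ang o hab hac hbc n1 n2 n12 f1 f2 hI hnd q1 q2 qa o1 i1
      o2 i2 o3 i3 o4 i4
  rcases labels4 θ (th_pos o.h o.hang) (th_sum o.h o.hang) o.hr pQ p1 p2 p3 p4 hF hH1 hH2 hprod with
    (e | e | e) | ⟨x, y, hx, hy, hxy, (⟨he, hp | hp⟩ | ⟨he, hp⟩)⟩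
  · exact Or.inl (iso_of_ang T hT hab (by rw [eA, eB]; exact e))
  · exact Or.inl (iso_of_ang T hT hac (by rw [eA, eC]; exact e))
  · exact Or.inl (iso_of_ang T hT hbc (by rw [eB, eC]; exact e))
  · rw [← eA, ← eB, ← eC] at hp
    exact Or.inr (Or.inr (Or.inr (Or.inl (conv2 T hT hx hy hxy he
      (perm3_012 (f := ang T) hab hac hbc hp)))))
  · rw [← eA, ← eB, ← eC] at hp
    exact Or.inr (Or.inl (conv1 T hT hx hy hxy he (perm3_012 (f := ang T) hab hac hbc hp)))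
  · rw [← eA, ← eB, ← eC] at hp
    exact Or.inr (Or.inr (Or.inr (Or.inr (Or.inl (conv3 T hT hx hy hxy he
      (perm3_012 (f := ang T) hab hac hbc hp))))))

theorem concB_conv (hT : 0 < dd T) (h : ConcB T) : Iso T ∨ Spor T := by
  rcases h with ⟨k, l, hkl, e⟩ | ⟨a, b, c, hab, hac, hbc, x, h0, h1, hp, he | he⟩
  · exact Or.inl (iso_of_ang T hT hkl e)
  · exact Or.inr (Or.inr (Or.inl (conv4 T hT h0 h1 he (perm3_012 (f := ang T) hab hac hbc hp))))
  · exact Or.inr (Or.inr (Or.inr (Or.inr (Or.inr (conv5 T hT h0 h1 he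
      (perm3_012 (f := ang T) hab hac hbc hp))))))

/-- **the classification** -/
theorem classify (h : Dis 5 T t) (hang : ∀ i m, ang (t i) m = θ (τ i m)) :
    Iso T ∨ (∃ k, ang T k = Real.pi / 2) ∨ Spor T := by
  have hT := h.ccwT
  by_cases hr : ∀ k, θ k ≠ Real.pi / 2
  · have hH3 := n_geth h hang hr
    have hcf := card_nc_full h
    have hsub : full T t ⊆ nc T t := fun p hp => (mem_full.1 hp).1
    have hle := Finset.card_le_card hsub
    have hc : (nc T t).card = 4 ∨ (nc T t).card = 3 ∨ (nc T t).card = 2 := by omega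
    rcases hc with hc | hc | hc
    · exact (case_zero' h hH3 hc).elim
    · obtain ⟨F, o⟩ := one_of h hang hr hc
      have h4 := five_at o
      have h3 := o.h3 F (mem_nc.1 o.hFn).1 (mem_nc.1 o.hFn).2
      have hcc : (I t F).card = 3 ∨ (I t F).card = 4 := by omega
      rcases hcc with e | e
      · rcases three_all o e with e | e
        · exact Or.inr (Or.inl e)
        · rcases concB_conv hT e with e | e
          · exact Or.inl e
          · exact Or.inr (Or.inr e)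
      · rcases four_all o e with e | e
        · exact Or.inl e
        · exact Or.inr (Or.inr e)
    · have heq := Finset.eq_of_subset_of_card_le hsub (by omega)
      exact (case_two' h hH3 hang hc (by rw [heq])).elim
  · push Not at hr
    obtain ⟨c, hc⟩ := hr
    rcases right_tile h θ τ hang c hc with e | ⟨k, l, hkl, e⟩
    · exact Or.inr (Or.inl e)
    · exact Or.inl (iso_of_ang T hT hkl e)

end Pool.Agent.Helper230.Five
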