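import Pool.Agent.Helper230.Five.Inc

/-! # Dissections into five similar triangles: counting -/

set_option autoImplicit false
noncomputable section
open scoped BigOperators
open Pool.Agent.Helper549.Tri Pool.Agent.Helper549.Tri.Basic Pool.Agent.Helper549.Tri.Angles
  Pool.Agent.Helper549.Tri.AngleSum Pool.Agent.Helper549.Tri.Opp Pool.Agent.Helper549.Tri.Corner
  Pool.Agent.Helper549.Tri.Vertex

namespace Pool.Agent.Helper230.Five

variable {N : ℕ} {T : Fin 3 → ℂ} {t : Fin N → Fin 3 → ℂ}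

open Classical in
/-- the tiles with the vertex `p` -/
def I (t : Fin N → Fin 3 → ℂ) (p : ℂ) : Finset (Fin N) := Finset.univ.filter fun i => Has (t i) p

theorem mem_I (t : Fin N → Fin 3 → ℂ) (p : ℂ) (i : Fin N) : i ∈ I t p ↔ Has (t i) p := by
  classical
  unfold I
  simp

open Classical in
/-- all vertices of tiles -/
def pts (t : Fin N → Fin 3 → ℂ) : Finset ℂ :=
  Finset.univ.image fun x : Fin N × Fin 3 => t x.1 x.2

theorem mem_pts (t : Fin N → Fin 3 → ℂ) (p : ℂ) : p ∈ pts t ↔ ∃ i, Has (t i) p := by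
  classical
  unfold pts Has
  rw [Finset.mem_image]
  constructor
  · rintro ⟨⟨i, m⟩, _, h⟩
    exact ⟨i, m, h⟩
  · rintro ⟨i, m, h⟩
    exact ⟨(i, m), Finset.mem_univ _, h⟩

theorem W_eq (t : Fin N → Fin 3 → ℂ) (p : ℂ) : W t p = ∑ i ∈ I t p, q_V (t i) p := by
  classical
  unfold W
  symm
  refine Finset.sum_subset (Finset.subset_univ _) fun i _ hi => ?_
  rw [mem_I] at hi
  exact q_V_zero _ _ hi

theorem ang_T_sum (hT : 0 < dd T) {k l : Fin 3} (hkl : k ≠ l) : ang T k + ang T l < Real.pi := by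
  have h := ang_sum T hT
  have h0 := ang_pos T hT 0
  have h1 := ang_pos T hT 1
  have h2 := ang_pos T hT 2
  fin_cases k <;> fin_cases l <;> simp_all <;> linarith

theorem val (h : Dis N T t) (hs : ∀ i m, ∃ k, ang (t i) m = ang T k) {i : Fin N} {p : ℂ}
    (hi : Has (t i) p) : ∃ k, q_V (t i) p = ang T k := by
  obtain ⟨m, rfl⟩ := hi
  rw [q_V_self _ (h.ccwt i)]
  exact hs i m

theorem n_ge (h : Dis N T t) (hs : ∀ i m, ∃ k, ang (t i) m = ang T k)
    (hr : ∀ k, ang T k ≠ Real.pi / 2) {p : ℂ} (hp : p ∈ pts t) (hT : ∀ j, p ≠ T j) :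
    3 ≤ (I t p).card := by
  obtain ⟨i0, hi0⟩ := (mem_pts t p).1 hp
  have hW : Real.pi ≤ W t p ∧ (W t p = Real.pi ∨ W t p = 2 * Real.pi) := by
    have := Real.pi_pos
    rcases W_cases h hi0 hT with e | ⟨e, _⟩
    · exact ⟨e.ge, Or.inl e⟩
    · exact ⟨by linarith, Or.inr e⟩
  by_contra hcon
  have hc : (I t p).card = 0 ∨ (I t p).card = 1 ∨ (I t p).card = 2 := by omega
  have hpi := Real.pi_pos
  rw [W_eq] at hW
  rcases hc with hc | hc | hc
  · rw [Finset.card_eq_zero] at hc
    rw [hc, Finset.sum_empty] at hW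
    linarith [hW.1]
  · obtain ⟨i, hi⟩ := Finset.card_eq_one.1 hc
    rw [hi, Finset.sum_singleton] at hW
    have : i ∈ I t p := by rw [hi]; exact Finset.mem_singleton_self _
    obtain ⟨k, hk⟩ := val h hs ((mem_I t p i).1 this)
    rw [hk] at hW
    linarith [ang_lt_pi T h.ccwT k, hW.1]
  · obtain ⟨i, j, hij, he⟩ := Finset.card_eq_two.1 hc
    rw [he, Finset.sum_pair hij] at hW
    have h1 : i ∈ I t p := by rw [he]; exact Finset.mem_insert_self _ _
    have h2 : j ∈ I t p := by
      rw [he]; exact Finset.mem_insert_of_mem (Finset.mem_singleton_self _)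
    obtain ⟨k, hk⟩ := val h hs ((mem_I t p i).1 h1)
    obtain ⟨l, hl⟩ := val h hs ((mem_I t p j).1 h2)
    rw [hk, hl] at hW
    by_cases hkl : k = l
    · rw [hkl] at hW
      have h3 := hr l
      have h4 := ang_lt_pi T h.ccwT l
      rcases hW.2 with e | e
      · exact h3 (by linarith)
      · linarith
    · linarith [ang_T_sum h.ccwT hkl, hW.1]

theorem sum_W (h : Dis N T t) : ∑ p ∈ pts t, W t p = N * Real.pi := by
  classical
  unfold W
  rw [Finset.sum_comm]
  have : ∀ i ∈ (Finset.univ : Finset (Fin N)), (∑ p ∈ pts t, q_V (t i) p) = Real.pi := by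
    intro i _
    unfold q_V
    rw [Finset.sum_comm]
    have h2 : ∀ m ∈ (Finset.univ : Finset (Fin 3)),
        (∑ p ∈ pts t, if p = t i m then ang (t i) m else 0) = ang (t i) m := by
      intro m _
      rw [Finset.sum_ite_eq' , if_pos]
      exact (mem_pts t _).2 ⟨i, m, rfl⟩
    rw [Finset.sum_congr rfl h2, Fin.sum_univ_three]
    exact ang_sum _ (h.ccwt i)
  rw [Finset.sum_congr rfl this]
  simp

theorem sum_n (h : Dis N T t) : ∑ p ∈ pts t, (I t p).card = 3 * N := by
  classical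
  have h0 : ∀ p ∈ pts t, (I t p).card = ∑ i : Fin N, ∑ m : Fin 3, if p = t i m then 1 else 0 := by
    intro p _
    unfold I
    rw [Finset.card_filter]
    refine Finset.sum_congr rfl fun i _ => ?_
    by_cases hh : Has (t i) p
    · rw [if_pos hh]
      obtain ⟨m, rfl⟩ := hh
      rw [Finset.sum_eq_single m]
      · rw [if_pos rfl]
      · intro b _ hb
        rw [if_neg]
        intro hc
        exact hb (vertex_inj _ (h.ccwt i) hc).symm
      · intro hc
        exact absurd (Finset.mem_univ _) hc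
    · rw [if_neg hh]
      symm
      refine Finset.sum_eq_zero fun m _ => ?_
      rw [if_neg]
      intro hc
      exact hh ⟨m, hc.symm⟩
  rw [Finset.sum_congr rfl h0, Finset.sum_comm]
  have : ∀ i ∈ (Finset.univ : Finset (Fin N)),
      (∑ p ∈ pts t, ∑ m : Fin 3, if p = t i m then 1 else 0) = 3 := by
    intro i _
    rw [Finset.sum_comm]
    have h2 : ∀ m ∈ (Finset.univ : Finset (Fin 3)),
        (∑ p ∈ pts t, if p = t i m then 1 else 0) = 1 := by
      intro m _
      rw [Finset.sum_ite_eq' , if_pos]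
      exact (mem_pts t _).2 ⟨i, m, rfl⟩
    rw [Finset.sum_congr rfl h2]
    simp
  rw [Finset.sum_congr rfl this]
  simp [mul_comm]

theorem W_pos_has (h : Dis N T t) (j : Fin 3) : T j ∈ pts t := by
  by_contra hc
  rw [mem_pts] at hc
  push Not at hc
  have h1 := W_corner h j
  have h2 : W t (T j) = 0 := by
    unfold W
    exact Finset.sum_eq_zero fun i _ => q_V_zero _ _ (hc i)
  linarith [ang_pos T h.ccwT j]

theorem lam_of_bd {T v : Fin 3 → ℂ} (hT : 0 < dd T) (hv : 0 < dd v) {l k : Fin 3}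
    (hb : onBd T v l k) : lam T k (v (l + 1)) = 0 ∧ lam T k (v (l + 2)) = 0 := by
  have key : ∀ p, lam v l p = 0 → lam T k p = 0 := by
    intro p hp
    rw [lam_eq v hv] at hp
    rw [lam_eq T hT, ← hb.1, ← hb.2]
    rcases mul_eq_zero.1 hp with e | e
    · exact absurd e (len_pos v hv l).ne'
    · rw [e, mul_zero]
  exact ⟨key _ (lam_next v l), key _ (lam_prev v l)⟩

/-- the tile at an unsplit corner -/
theorem unsplit (h : Dis N T t) (j : Fin 3) (h1 : (I t (T j)).card = 1) :
    ∃ i : Fin N, I t (T j) = {i} ∧ ∃ m l1 l2 : Fin 3, t i m = T j ∧ m ≠ l1 ∧ m ≠ l2 ∧ l1 ≠ l2 ∧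
      lam T (j + 2) (t i l1) = 0 ∧ lam T (j + 1) (t i l2) = 0 := by
  obtain ⟨i, hi⟩ := Finset.card_eq_one.1 h1
  have huniq : ∀ i', Has (t i') (T j) → i' = i := by
    intro i' hh
    have := (mem_I t (T j) i').2 hh
    rw [hi] at this
    exact Finset.mem_singleton.1 this
  have hn : ∀ j : Fin 3, j ≠ j + 1 ∧ j ≠ j + 2 := by decide
  obtain ⟨i1, m1, l1, e1, n1, b1⟩ := corner_side h j (j + 1) (hn j).1
  obtain ⟨i2, m2, l2, e2, n2, b2⟩ := corner_side h j (j + 2) (hn j).2
  have f1 := huniq i1 ⟨m1, e1⟩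
  have f2 := huniq i2 ⟨m2, e2⟩
  subst f1
  subst f2
  have hm : m1 = m2 := vertex_inj _ (h.ccwt i2) (e1.trans e2.symm)
  subst hm
  have hl : l1 ≠ l2 := by
    rintro rfl
    have := h_dir_inj T h.ccwT (b1.1.symm.trans b2.1)
    revert this
    fin_cases j <;> decide
  refine ⟨i2, hi, m1, l1, l2, e1, n1.symm, n2.symm, hl, ?_, ?_⟩
  · have := lam_of_bd h.ccwT (h.ccwt i2) b2
    have hc : l1 = l2 + 1 ∨ l1 = l2 + 2 := by
      revert hl
      fin_cases l1 <;> fin_cases l2 <;> decide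
    rcases hc with e | e
    · rw [e]; exact this.1
    · rw [e]; exact this.2
  · have := lam_of_bd h.ccwT (h.ccwt i2) b1
    have hc : l2 = l1 + 1 ∨ l2 = l1 + 2 := by
      revert hl
      fin_cases l1 <;> fin_cases l2 <;> decide
    rcases hc with e | e
    · rw [e]; exact this.1
    · rw [e]; exact this.2

end Pool.Agent.Helper230.Five
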