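import Pool.Agent.Helper230.Five.One
import Pool.Agent.Helper230.Five.AnalysisB

/-! # Dissections into five mutually similar triangles: ConfBAng -/

set_option autoImplicit false
noncomputable section
open scoped BigOperators
open Pool.Agent.Helper549.Tri Pool.Agent.Helper549.Tri.Basic Pool.Agent.Helper549.Tri.Angles
  Pool.Agent.Helper549.Tri.AngleSum Pool.Agent.Helper549.Tri.Opp Pool.Agent.Helper549.Tri.Corner
  Pool.Agent.Helper549.Tri.Vertex
namespace Pool.Agent.Helper230.Five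

variable {T : Fin 3 → ℂ} {t : Fin 5 → Fin 3 → ℂ} {θ : Fin 3 → ℝ} {τ : Fin 5 → Equiv.Perm (Fin 3)}


theorem confB_ang_sum5 {i j k P R : Fin 5} (hnd : [i, j, k, P, R].Nodup) (f : Fin 5 → ℝ) :
    ∑ x, f x = f i + f j + f k + f P + f R := by
  have h1 : [i, j, k, P, R].toFinset = Finset.univ := by
    apply Finset.eq_univ_of_card
    rw [List.toFinset_card_of_nodup hnd]
    rfl
  rw [← h1, List.sum_toFinset f hnd]
  simp only [List.map_cons, List.map_nil, List.sum_cons, List.sum_nil]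
  ring

theorem confB_ang {F : ℂ} (o : One T t θ τ F) {i j k P R : Fin 5}
    (hnd : [i, j, k, P, R].Nodup) (hg : ∀ x, Has (t x) F → q_V (t x) F = 2 * Real.pi / 3)
    {M M1 N1 N E : ℂ} (hpt : [F, M, M1, N1, N, E].Nodup)
    (vi : Set.range (t i) = {F, M, M1}) (vj : Set.range (t j) = {F, M1, N1})
    (vk : Set.range (t k) = {F, N1, N}) (vP : Set.range (t P) = {N, E, M})
    (vR : Set.range (t R) = {N, E, N1}) (hseg : N ∈ openSegment ℝ F M)
    (nN : N ∈ nc T t) (nN1 : N1 ∈ nc T t) {a b c : Fin 3} (ha : E = T a) (hb : M = T b)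
    (hc : M1 = T c) :
    (ang T a = ang T b ∨ ang T a = ang T c ∨ ang T b = ang T c) ∨
    ∃ x : ℝ, 0 < x ∧ x < Real.pi / 3 ∧
      Perm3 (ang T a) (ang T b) (ang T c) (Real.pi / 3) (2 * x) (2 * (Real.pi / 3 - x)) ∧
      (Real.sin x = 2 * Real.sin (Real.pi / 3 - x) ∨
        Real.sin x ^ 3 = 2 * Real.sin x ^ 2 * Real.sin (Real.pi / 3 - x) +
          Real.sin x * Real.sin (Real.pi / 3 - x) ^ 2 + Real.sin (Real.pi / 3 - x) ^ 3) := by
  have h := o.h
  have hang := o.hang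
  have hpi := Real.pi_pos
  simp only [List.nodup_cons, List.mem_cons, List.not_mem_nil, or_false, not_or, not_false_eq_true,
    List.nodup_nil, and_true] at hpt
  obtain ⟨⟨a1, a2, a3, a4, a5⟩, ⟨b1, b2, b3, b4⟩, ⟨c1, c2, c3⟩, ⟨d1, d2⟩, g1⟩ := hpt
  have mem : ∀ (x : Fin 5) (p : ℂ), Has (t x) p ↔ p ∈ Set.range (t x) := fun x p => Iff.rfl
  -- incidences
  have iF : Has (t i) F := by rw [mem, vi]; simp
  have iM : Has (t i) M := by rw [mem, vi]; simp
  have iM1 : Has (t i) M1 := by rw [mem, vi]; simp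
  have jF : Has (t j) F := by rw [mem, vj]; simp
  have jM1 : Has (t j) M1 := by rw [mem, vj]; simp
  have jN1 : Has (t j) N1 := by rw [mem, vj]; simp
  have kF : Has (t k) F := by rw [mem, vk]; simp
  have kN1 : Has (t k) N1 := by rw [mem, vk]; simp
  have kN : Has (t k) N := by rw [mem, vk]; simp
  have PN : Has (t P) N := by rw [mem, vP]; simp
  have PE : Has (t P) E := by rw [mem, vP]; simp
  have PM : Has (t P) M := by rw [mem, vP]; simp
  have RN : Has (t R) N := by rw [mem, vR]; simp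
  have RE : Has (t R) E := by rw [mem, vR]; simp
  have RN1 : Has (t R) N1 := by rw [mem, vR]; simp
  have zi : ∀ p, p ≠ F → p ≠ M → p ≠ M1 → q_V (t i) p = 0 := fun p h1 h2 h3 =>
    q_V_zero _ _ (by rw [mem, vi]; simp [h1, h2, h3])
  have zj : ∀ p, p ≠ F → p ≠ M1 → p ≠ N1 → q_V (t j) p = 0 := fun p h1 h2 h3 =>
    q_V_zero _ _ (by rw [mem, vj]; simp [h1, h2, h3])
  have zk : ∀ p, p ≠ F → p ≠ N1 → p ≠ N → q_V (t k) p = 0 := fun p h1 h2 h3 =>
    q_V_zero _ _ (by rw [mem, vk]; simp [h1, h2, h3])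
  have zP : ∀ p, p ≠ N → p ≠ E → p ≠ M → q_V (t P) p = 0 := fun p h1 h2 h3 =>
    q_V_zero _ _ (by rw [mem, vP]; simp [h1, h2, h3])
  have zR : ∀ p, p ≠ N → p ≠ E → p ≠ N1 → q_V (t R) p = 0 := fun p h1 h2 h3 =>
    q_V_zero _ _ (by rw [mem, vR]; simp [h1, h2, h3])
  have hW : ∀ p, W t p = q_V (t i) p + q_V (t j) p + q_V (t k) p + q_V (t P) p + q_V (t R) p :=
    fun p => confB_ang_sum5 hnd fun x => q_V (t x) p
  -- angle sums in the tiles
  have si := perm3_sum h hang (perm3_of h hang iF iM iM1 a1 a2 b1)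
  have sj := perm3_sum h hang (perm3_of h hang jF jM1 jN1 a2 a3 c1)
  have sk := perm3_sum h hang (perm3_of h hang kF kN1 kN a3 a4 d1)
  have sP := perm3_sum h hang (perm3_of h hang PN PE PM g1 (Ne.symm b3) (Ne.symm b4))
  have sR := perm3_sum h hang (perm3_of h hang RN RE RN1 g1 (Ne.symm d1) (Ne.symm d2))
  rw [hg i iF] at si
  rw [hg j jF] at sj
  rw [hg k kF] at sk
  -- sums at the points
  have wN1 := o.hpi N1 nN1 (Ne.symm a3)
  have wN := o.hpi N nN (Ne.symm a4)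
  rw [hW, zi N1 (Ne.symm a3) (Ne.symm b2) (Ne.symm c1), zP N1 d1 d2 (Ne.symm b2)] at wN1
  rw [hW, zi N (Ne.symm a4) (Ne.symm b3) (Ne.symm c2), zj N (Ne.symm a4) (Ne.symm c2) (Ne.symm d1)]
    at wN
  have wE := W_corner h a
  have wM := W_corner h b
  have wM1 := W_corner h c
  rw [← ha, hW, zi E (Ne.symm a5) (Ne.symm b4) (Ne.symm c3),
    zj E (Ne.symm a5) (Ne.symm c3) (Ne.symm d2), zk E (Ne.symm a5) (Ne.symm d2) (Ne.symm g1)] at wE
  rw [← hb, hW, zj M (Ne.symm a1) b1 b2, zk M (Ne.symm a1) b2 b3, zR M b3 b4 b2] at wM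
  rw [← hc, hW, zk M1 (Ne.symm a2) c1 c2, zP M1 c2 c3 (Ne.symm b1), zR M1 c2 c3 c1] at wM1
  -- values
  obtain ⟨cc, hcc⟩ := valth h hang iF
  rw [hg i iF] at hcc
  have h0 := th_rot h hang cc
  have hsm : ∀ (x : Fin 5) (p : ℂ), Has (t x) p → 0 < q_V (t x) p ∧
      (q_V (t x) p = 2 * Real.pi / 3 ∨ (q_V (t x) p < Real.pi / 3 ∧
        (q_V (t x) p = θ (cc + 1) ∨ q_V (t x) p = θ (cc + 2)))) := by
    intro x p hx
    obtain ⟨l, hl⟩ := valth h hang hx
    rw [hl]
    refine ⟨th_pos h hang l, ?_⟩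
    have p1 := th_pos h hang (cc + 1)
    have p2 := th_pos h hang (cc + 2)
    rcases q_fin3 cc l with e | e | e
    · left; rw [e, hcc]
    · right; rw [e]; exact ⟨by linarith, Or.inl rfl⟩
    · right; rw [e]; exact ⟨by linarith, Or.inr rfl⟩
  have viM := hsm i M iM
  have viM1 := hsm i M1 iM1
  have vjM1 := hsm j M1 jM1
  have vjN1 := hsm j N1 jN1
  have vkN1 := hsm k N1 kN1
  have vkN := hsm k N kN
  have vPN := hsm P N PN
  have vPE := hsm P E PE
  have vPM := hsm P M PM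
  have vRN := hsm R N RN
  have vRE := hsm R E RE
  have vRN1 := hsm R N1 RN1
  have rN1 : q_V (t R) N1 = 2 * Real.pi / 3 := by
    rcases vRN1.2 with e | e
    · exact e
    · exfalso
      linarith [e.1, vkN.1, vjM1.1]
  have rPN : q_V (t P) N = 2 * Real.pi / 3 := by
    rcases vPN.2 with e | e
    · exact e
    · exfalso
      linarith [e.1, vkN1.1, vRE.1]
  have hval : ∀ v, (v = θ (cc + 1) ∨ v = θ (cc + 2)) →
      (q_V (t k) N = θ (cc + 1) ∨ q_V (t k) N = θ (cc + 2)) →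
      v = q_V (t k) N ∨ v = Real.pi / 3 - q_V (t k) N := by
    intro v h1 h2
    rcases h1 with e1 | e1 <;> rcases h2 with e2 | e2 <;> rw [e1, e2]
    · exact Or.inl rfl
    · right; linarith
    · right; linarith
    · exact Or.inl rfl
  have ky : q_V (t k) N = θ (cc + 1) ∨ q_V (t k) N = θ (cc + 2) := by
    rcases vkN.2 with e | e
    · exfalso; linarith [vkN1.1]
    · exact e.2
  have iz : q_V (t i) M = θ (cc + 1) ∨ q_V (t i) M = θ (cc + 2) := by
    rcases viM.2 with e | e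
    · exfalso; linarith [viM1.1]
    · exact e.2
  have pw : q_V (t P) E = θ (cc + 1) ∨ q_V (t P) E = θ (cc + 2) := by
    rcases vPE.2 with e | e
    · exfalso; linarith [vPM.1]
    · exact e.2
  set y := q_V (t k) N with hy
  set z := q_V (t i) M with hz
  set w := q_V (t P) E with hw
  have q1 : q_V (t k) N1 = Real.pi / 3 - y := by linarith
  have q2 : q_V (t j) N1 = y := by linarith
  have q3 : q_V (t j) M1 = Real.pi / 3 - y := by linarith
  have q4 : q_V (t R) N = Real.pi / 3 - y := by linarith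
  have q5 : q_V (t R) E = y := by linarith
  have q6 : q_V (t i) M1 = Real.pi / 3 - z := by linarith
  have q7 : q_V (t P) M = Real.pi / 3 - w := by linarith
  have e1 := slaw h kN kF kN1 (Ne.symm a4) (Ne.symm d1) a3
  have e2 := slaw h jN1 jF jM1 (Ne.symm a3) (Ne.symm c1) a2
  have e3 := slaw h iM iF iM1 (Ne.symm a1) b1 a2
  have e4 := slaw h kN1 kN kF d1 (Ne.symm a3) (Ne.symm a4)
  have e5 := slaw h RE RN RN1 (Ne.symm g1) (Ne.symm d2) (Ne.symm d1)
  have e6 := slaw h PM PN PE b3 b4 g1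
  rw [q1, norm_sub_rev F N1] at e1
  rw [q2, q3, norm_sub_rev F M1] at e2
  rw [q6, norm_sub_rev F M1] at e3
  rw [q1, hg k kF, norm_sub_rev N1 N] at e4
  rw [q5, rN1, norm_sub_rev E N] at e5
  rw [q7, norm_sub_rev M N] at e6
  have e7 : ‖M - F‖ = ‖N - F‖ + ‖N - M‖ := by
    have := dist_add_dist_of_mem_segment (openSegment_subset_segment ℝ F M hseg)
    rw [dist_comm F N, dist_comm F M, dist_eq_norm, dist_eq_norm, dist_eq_norm] at this
    exact this.symm
  have key := analysisB vkN.1 (by linarith [vkN1.1]) (hval z iz ky) (hval w pw ky)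
    (norm_pos_iff.2 (sub_ne_zero.2 (Ne.symm a4))) (norm_pos_iff.2 (sub_ne_zero.2 (Ne.symm a3)))
    (norm_pos_iff.2 (sub_ne_zero.2 (Ne.symm a2))) (norm_pos_iff.2 (sub_ne_zero.2 (Ne.symm a1)))
    (norm_pos_iff.2 (sub_ne_zero.2 (Ne.symm d1))) (norm_pos_iff.2 (sub_ne_zero.2 g1))
    (norm_pos_iff.2 (sub_ne_zero.2 (Ne.symm b3))) e1 e2 e3 e4 e5 e6 e7
  have f1 : ang T a = y + w := by linarith
  have f2 : ang T b = z + (Real.pi / 3 - w) := by linarith
  have f3 : ang T c = (Real.pi / 3 - z) + (Real.pi / 3 - y) := by linarith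
  rw [f1, f2, f3]
  exact key

end Pool.Agent.Helper230.Five
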