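import Pool.Agent.Helper230.Five.Build
import Pool.Agent.Helper230.Five.ConfBAng

/-! # Dissections into five mutually similar triangles: the configuration of type B -/

set_option autoImplicit false
noncomputable section
open scoped BigOperators
open Pool.Agent.Helper549.Tri Pool.Agent.Helper549.Tri.Basic Pool.Agent.Helper549.Tri.Angles
  Pool.Agent.Helper549.Tri.AngleSum Pool.Agent.Helper549.Tri.Opp Pool.Agent.Helper549.Tri.Corner
  Pool.Agent.Helper549.Tri.Vertex

namespace Pool.Agent.Helper230.Five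

variable {T : Fin 3 → ℂ} {t : Fin 5 → Fin 3 → ℂ} {θ : Fin 3 → ℝ} {τ : Fin 5 → Equiv.Perm (Fin 3)}

set_option maxRecDepth 10000 in
theorem rest2 : ∀ i j k : Fin 5, i ≠ j → i ≠ k → j ≠ k →
    ∃ P R : Fin 5, P ≠ i ∧ P ≠ j ∧ P ≠ k ∧ R ≠ i ∧ R ≠ j ∧ R ≠ k ∧ R ≠ P ∧
      ∀ x, x = i ∨ x = j ∨ x = k ∨ x = P ∨ x = R := by
  decide

theorem fin3_pos : ∀ x y c : Fin 3, x ≠ y → x ≠ c → y ≠ c →
    (x = c + 1 ∧ y = c + 2) ∨ (y = c + 1 ∧ x = c + 2) := by
  decide

theorem range_three {v : Fin 3 → ℂ} {x y z : ℂ} (hv : Function.Injective v)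
    (h : ∀ m, v m = x ∨ v m = y ∨ v m = z) : Set.range v = {x, y, z} := by
  obtain ⟨h1, h2, h3⟩ := three_in hv h
  ext p
  simp only [Set.mem_range, Set.mem_insert_iff, Set.mem_singleton_iff]
  constructor
  · rintro ⟨m, rfl⟩
    exact h m
  · rintro (rfl | rfl | rfl)
    · exact h1
    · exact h2
    · exact h3

/-- the conclusion in the case of three tiles at the full vertex -/
def ConcB (T : Fin 3 → ℂ) : Prop :=
  (∃ k l, k ≠ l ∧ ang T k = ang T l) ∨ ∃ a b c : Fin 3, a ≠ b ∧ a ≠ c ∧ b ≠ c ∧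
    ∃ x : ℝ, 0 < x ∧ x < Real.pi / 3 ∧
      Perm3 (ang T a) (ang T b) (ang T c) (Real.pi / 3) (2 * x) (2 * (Real.pi / 3 - x)) ∧
      (Real.sin x = 2 * Real.sin (Real.pi / 3 - x) ∨
        Real.sin x ^ 3 = 2 * Real.sin x ^ 2 * Real.sin (Real.pi / 3 - x) +
          Real.sin x * Real.sin (Real.pi / 3 - x) ^ 2 + Real.sin (Real.pi / 3 - x) ^ 3)

theorem mem_range_iff' {v : Fin 3 → ℂ} {p : ℂ} : p ∈ Set.range v ↔ Has v p := Iff.rfl

theorem pts_card (h : Dis 5 T t) (hn : (nc T t).card = 3) : (pts t).card = 6 := by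
  have := split_sum h (fun _ => 1)
  simp only [Finset.sum_const, smul_eq_mul, mul_one] at this
  omega

theorem confB_comb {F : ℂ} (o : One T t θ τ F) (h3 : (I t F).card = 3) {i j k : Fin 5}
    (hij : i ≠ j) (hik : i ≠ k) (hjk : j ≠ k)
    (hI : ∀ x, Has (t x) F ↔ (x = i ∨ x = j ∨ x = k)) {M M1 N1 N : ℂ}
    (vi : Set.range (t i) = {F, M, M1}) (vj : Set.range (t j) = {F, M1, N1})
    (vk : Set.range (t k) = {F, N1, N}) (fM : M ≠ F) (fM1 : M1 ≠ F) (fN1 : N1 ≠ F) (fN : N ≠ F)
    (d1 : M ≠ M1) (d2 : M ≠ N1) (d3 : M ≠ N) (d4 : M1 ≠ N1) (d5 : M1 ≠ N) (d6 : N1 ≠ N)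
    (hseg : N ∈ openSegment ℝ F M) : ConcB T := by
  classical
  have h := o.h
  obtain ⟨_, _, hg⟩ := three_th h o.hang h3 o.hW
  have iM : Has (t i) M := by
    rw [← mem_range_iff', vi]; simp
  have iM1 : Has (t i) M1 := by
    rw [← mem_range_iff', vi]; simp
  have iF : Has (t i) F := (hI i).2 (Or.inl rfl)
  have jM1 : Has (t j) M1 := by
    rw [← mem_range_iff', vj]; simp
  have jN1 : Has (t j) N1 := by
    rw [← mem_range_iff', vj]; simp
  have kN1 : Has (t k) N1 := by
    rw [← mem_range_iff', vk]; simp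
  have kN : Has (t k) N := by
    rw [← mem_range_iff', vk]; simp
  have viq : ∀ q, Has (t i) q → q = F ∨ q = M ∨ q = M1 := by
    intro q hq
    rw [← mem_range_iff', vi] at hq
    simpa using hq
  have vjq : ∀ q, Has (t j) q → q = F ∨ q = M1 ∨ q = N1 := by
    intro q hq
    rw [← mem_range_iff', vj] at hq
    simpa using hq
  have vkq : ∀ q, Has (t k) q → q = F ∨ q = N1 ∨ q = N := by
    intro q hq
    rw [← mem_range_iff', vk] at hq
    simpa using hq
  obtain ⟨P, R, pi, pj, pk, ri, rj, rk, rp, hall⟩ := rest2 i j k hij hik hjk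
  have hPF : ¬ Has (t P) F := by
    rw [hI]; rintro (e | e | e)
    · exact pi e
    · exact pj e
    · exact pk e
  have hRF : ¬ Has (t R) F := by
    rw [hI]; rintro (e | e | e)
    · exact ri e
    · exact rj e
    · exact rk e
  -- the fifth point
  have hcard := pts_card h o.hn
  have mF : F ∈ pts t := (mem_pts _ _).2 ⟨i, iF⟩
  have mM : M ∈ pts t := (mem_pts _ _).2 ⟨i, iM⟩
  have mM1 : M1 ∈ pts t := (mem_pts _ _).2 ⟨i, iM1⟩
  have mN1 : N1 ∈ pts t := (mem_pts _ _).2 ⟨j, jN1⟩
  have mN : N ∈ pts t := (mem_pts _ _).2 ⟨k, kN⟩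
  have h5c : ({F, M, M1, N1, N} : Finset ℂ).card = 5 := by
    rw [Finset.card_insert_of_notMem (by simp [fM.symm, fM1.symm, fN1.symm, fN.symm]),
      Finset.card_insert_of_notMem (by simp [d1, d2, d3]),
      Finset.card_insert_of_notMem (by simp [d4, d5]), Finset.card_pair d6]
  have h5s : ({F, M, M1, N1, N} : Finset ℂ) ⊆ pts t := by
    intro p hp
    simp only [Finset.mem_insert, Finset.mem_singleton] at hp
    rcases hp with rfl | rfl | rfl | rfl | rfl <;> assumption
  have hEx : (pts t \ {F, M, M1, N1, N}).card = 1 := by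
    rw [Finset.card_sdiff_of_subset h5s, hcard, h5c]
  obtain ⟨E, hE⟩ := Finset.card_eq_one.1 hEx
  have hEm : E ∈ pts t \ {F, M, M1, N1, N} := by rw [hE]; exact Finset.mem_singleton_self _
  rw [Finset.mem_sdiff] at hEm
  obtain ⟨mE, hE2⟩ := hEm
  simp only [Finset.mem_insert, Finset.mem_singleton, not_or] at hE2
  obtain ⟨eF, eM, eM1, eN1, eN⟩ := hE2
  have hpts : ∀ q ∈ pts t, q = F ∨ q = M ∨ q = M1 ∨ q = N1 ∨ q = N ∨ q = E := by
    intro q hq
    by_cases hc : q ∈ ({F, M, M1, N1, N} : Finset ℂ)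
    · simp only [Finset.mem_insert, Finset.mem_singleton] at hc
      rcases hc with e | e | e | e | e
      · exact Or.inl e
      · exact Or.inr (Or.inl e)
      · exact Or.inr (Or.inr (Or.inl e))
      · exact Or.inr (Or.inr (Or.inr (Or.inl e)))
      · exact Or.inr (Or.inr (Or.inr (Or.inr (Or.inl e))))
    · have : q ∈ pts t \ {F, M, M1, N1, N} := Finset.mem_sdiff.2 ⟨hq, hc⟩
      rw [hE, Finset.mem_singleton] at this
      exact Or.inr (Or.inr (Or.inr (Or.inr (Or.inr this))))
  -- the position of N in the tile i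
  obtain ⟨x, hx⟩ := iF
  obtain ⟨y, hy⟩ := iM
  obtain ⟨c, hc⟩ := iM1
  have nxy : x ≠ y := by rintro rfl; exact fM (hy.symm.trans hx)
  have nxc : x ≠ c := by rintro rfl; exact fM1 (hc.symm.trans hx)
  have nyc : y ≠ c := by rintro rfl; exact d1 (hy.symm.trans hc)
  have hxy := fin3_pos x y c nxy nxc nyc
  have hside : ∀ q, q ∈ openSegment ℝ F M → onSide (t i) c q := by
    intro q hq
    unfold onSide
    rcases hxy with ⟨e1, e2⟩ | ⟨e1, e2⟩
    · rw [← e1, ← e2, hx, hy]; exact hq
    · rw [← e1, ← e2, hx, hy, openSegment_symm]; exact hq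
  have hNside := hside N hseg
  have hmidNM : onSide (t i) c ((1 / 2 : ℝ) • N + (1 / 2 : ℝ) • M) := by
    apply hside
    obtain ⟨a, b, ha, hb, hab, rfl⟩ := hseg
    refine ⟨a / 2, b / 2 + 1 / 2, by positivity, by positivity, by linarith, ?_⟩
    simp only [Complex.real_smul]
    push_cast
    ring
  -- N is a noncorner in P and R
  have nN : N ∈ nc T t := near_nc h o.hF (has_mem h ⟨y, hy⟩) hseg mN
  have hiN : ¬ Has (t i) N := by
    intro hq
    rcases viq _ hq with e | e | e
    · exact fN e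
    · exact d3 e.symm
    · exact d5 e.symm
  have hjN : ¬ Has (t j) N := by
    intro hq
    rcases vjq _ hq with e | e | e
    · exact fN e
    · exact d5 e.symm
    · exact d6 e.symm
  have hsub : I t N ⊆ {k, P, R} := by
    intro x hxx
    rw [mem_I] at hxx
    rw [Finset.mem_insert, Finset.mem_insert, Finset.mem_singleton]
    rcases hall x with rfl | rfl | rfl | rfl | rfl
    · exact absurd hxx hiN
    · exact absurd hxx hjN
    · exact Or.inl rfl
    · exact Or.inr (Or.inl rfl)
    · exact Or.inr (Or.inr rfl)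
  have hc3 : ({k, P, R} : Finset (Fin 5)).card ≤ 3 := Finset.card_le_three
  have hNn := o.h3 N mN (mem_nc.1 nN).2
  have heq : I t N = {k, P, R} := Finset.eq_of_subset_of_card_le hsub (by omega)
  have hPN : Has (t P) N := (mem_I _ _ _).1 (by rw [heq]; simp)
  have hRN : Has (t R) N := (mem_I _ _ _).1 (by rw [heq]; simp)
  -- M1 is in none of them
  have hno : ∀ z : Fin 5, z ≠ i → Has (t z) N → ¬ Has (t z) M1 := by
    intro z hzi hzQ hzM
    set q : ℂ := (1 / 2 : ℝ) • N + (1 / 2 : ℝ) • M1 with hq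
    have hq1 : q ∈ interior (hull (t i)) := by
      rw [mem_int _ (h.ccwt i)]
      rw [onSide_iff _ (h.ccwt i)] at hNside
      obtain ⟨s0, s1, s2⟩ := hNside
      have hcM : lam (t i) c M1 = dd (t i) := by rw [← hc]; exact lam_self _ _
      have hcM1 : lam (t i) (c + 1) M1 = 0 := by rw [← hc]; exact q_lam1 _ _
      have hcM2 : lam (t i) (c + 2) M1 = 0 := by rw [← hc]; exact q_lam2 _ _
      intro l
      rw [hq, q_lam_aff (t i) l N M1 _ _ (by norm_num)]
      have hdd := h.ccwt i
      rcases q_fin3 c l with rfl | rfl | rfl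
      · rw [s0, hcM]; linarith
      · rw [hcM1]; linarith
      · rw [hcM2]; linarith
    have hq2 : q ∈ hull (t z) := by
      obtain ⟨u1, hu1⟩ := hzQ
      obtain ⟨u2, hu2⟩ := hzM
      have c1 : N ∈ hull (t z) := hu1 ▸ q_vertex_mem _ _
      have c2 : M1 ∈ hull (t z) := hu2 ▸ q_vertex_mem _ _
      exact (convex_convexHull ℝ _) c1 c2 (by norm_num) (by norm_num) (by norm_num)
    exact int_disj h hzi.symm hq1 hq2
  have hPM1 := hno P pi hPN
  have hRM1 := hno R ri hRN
  -- not both M
  have hnotM : ¬ (Has (t P) M ∧ Has (t R) M) := by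
    rintro ⟨h1, h2⟩
    obtain ⟨a, ha⟩ := mid_side _ hPN h1 d3.symm
    obtain ⟨b, hb⟩ := mid_side _ hRN h2 d3.symm
    exact three_sides h pi.symm ri.symm rp.symm hmidNM ha hb
  -- not both N1
  have hnotN1 : ¬ (Has (t P) N1 ∧ Has (t R) N1) := by
    rintro ⟨h1, h2⟩
    exact pair_two h pk.symm rk.symm rp.symm d6 kN1 kN h1 hPN h2 hRN
  -- corners
  have small_nc : ∀ q ∈ pts t, (∃ s : Finset (Fin 5), I t q ⊆ s ∧ s.card ≤ 2) → ∃ a, q = T a := by
    rintro q hq ⟨s, hs1, hs2⟩
    by_contra hcon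
    push Not at hcon
    have h1 := o.h3 q hq hcon
    have h2 := Finset.card_le_card hs1
    omega
  have cE : ∃ a, E = T a := by
    refine small_nc E mE ⟨{P, R}, ?_, Finset.card_le_two⟩
    intro x hxx
    rw [mem_I] at hxx
    rw [Finset.mem_insert, Finset.mem_singleton]
    rcases hall x with rfl | rfl | rfl | rfl | rfl
    · rcases viq _ hxx with e | e | e
      · exact absurd e eF
      · exact absurd e eM
      · exact absurd e eM1
    · rcases vjq _ hxx with e | e | e
      · exact absurd e eF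
      · exact absurd e eM1
      · exact absurd e eN1
    · rcases vkq _ hxx with e | e | e
      · exact absurd e eF
      · exact absurd e eN1
      · exact absurd e eN
    · exact Or.inl rfl
    · exact Or.inr rfl
  have cM : ∃ a, M = T a := by
    have key : ∃ w : Fin 5, ∀ x, Has (t x) M → x = i ∨ x = w := by
      by_cases hPM : Has (t P) M
      · refine ⟨P, fun x hxx => ?_⟩
        rcases hall x with rfl | rfl | rfl | rfl | rfl
        · exact Or.inl rfl
        · rcases vjq _ hxx with e | e | e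
          · exact absurd e fM
          · exact absurd e d1
          · exact absurd e d2
        · rcases vkq _ hxx with e | e | e
          · exact absurd e fM
          · exact absurd e d2
          · exact absurd e d3
        · exact Or.inr rfl
        · exact absurd ⟨hPM, hxx⟩ hnotM
      · refine ⟨R, fun x hxx => ?_⟩
        rcases hall x with rfl | rfl | rfl | rfl | rfl
        · exact Or.inl rfl
        · rcases vjq _ hxx with e | e | e
          · exact absurd e fM
          · exact absurd e d1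
          · exact absurd e d2
        · rcases vkq _ hxx with e | e | e
          · exact absurd e fM
          · exact absurd e d2
          · exact absurd e d3
        · exact absurd hxx hPM
        · exact Or.inr rfl
    obtain ⟨w, hw⟩ := key
    refine small_nc M mM ⟨{i, w}, ?_, Finset.card_le_two⟩
    intro x hxx
    rw [mem_I] at hxx
    rw [Finset.mem_insert, Finset.mem_singleton]
    exact hw x hxx
  have cM1 : ∃ a, M1 = T a := by
    refine small_nc M1 mM1 ⟨{i, j}, ?_, Finset.card_le_two⟩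
    intro x hxx
    rw [mem_I] at hxx
    rw [Finset.mem_insert, Finset.mem_singleton]
    rcases hall x with rfl | rfl | rfl | rfl | rfl
    · exact Or.inl rfl
    · exact Or.inr rfl
    · rcases vkq _ hxx with e | e | e
      · exact absurd e fM1
      · exact absurd e d4
      · exact absurd e d5
    · exact absurd hxx hPM1
    · exact absurd hxx hRM1
  obtain ⟨a, ha⟩ := cE
  obtain ⟨b, hb⟩ := cM
  obtain ⟨c', hc'⟩ := cM1
  -- N1 is a noncorner
  have nN1 : N1 ∈ nc T t := by
    have hsubn : nc T t ⊆ {F, N1, N} := by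
      intro q hq
      obtain ⟨hq1, hq2⟩ := mem_nc.1 hq
      rcases hpts q hq1 with e | e | e | e | e | e
      · rw [e]; simp
      · exact absurd (e.trans hb) (hq2 b)
      · exact absurd (e.trans hc') (hq2 c')
      · rw [e]; simp
      · rw [e]; simp
      · exact absurd (e.trans ha) (hq2 a)
    have hc4 : ({F, N1, N} : Finset ℂ).card ≤ 3 := Finset.card_le_three
    have := Finset.eq_of_subset_of_card_le hsubn (by rw [o.hn]; exact hc4)
    rw [this]; simp
  have hN1n := o.h3 N1 mN1 (mem_nc.1 nN1).2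
  -- the conclusion once the tiles are known
  have final : ∀ P R : Fin 5, P ≠ i → P ≠ j → P ≠ k → R ≠ i → R ≠ j → R ≠ k → R ≠ P →
      (∀ x, x = i ∨ x = j ∨ x = k ∨ x = P ∨ x = R) →
      ¬ Has (t P) F → ¬ Has (t R) F → Has (t P) N → Has (t R) N → ¬ Has (t P) M1 →
      ¬ Has (t R) M1 → ¬ (Has (t P) M ∧ Has (t R) M) → ¬ Has (t P) N1 → Has (t R) N1 →
      ConcB T := by
    intro P R pi pj pk ri rj rk rp hall hPF hRF hPN hRN hPM1 hRM1 hnotM hPN1 hRN1
    have vP : Set.range (t P) = {N, E, M} := by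
      refine range_three (vertex_inj _ (h.ccwt P)) fun m => ?_
      rcases hpts (t P m) ((mem_pts _ _).2 ⟨P, m, rfl⟩) with e | e | e | e | e | e
      · exact absurd ⟨m, e⟩ hPF
      · exact Or.inr (Or.inr e)
      · exact absurd ⟨m, e⟩ hPM1
      · exact absurd ⟨m, e⟩ hPN1
      · exact Or.inl e
      · exact Or.inr (Or.inl e)
    have hPM : Has (t P) M := by rw [← mem_range_iff', vP]; simp
    have hRM : ¬ Has (t R) M := fun hh => hnotM ⟨hPM, hh⟩
    have vR : Set.range (t R) = {N, E, N1} := by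
      refine range_three (vertex_inj _ (h.ccwt R)) fun m => ?_
      rcases hpts (t R m) ((mem_pts _ _).2 ⟨R, m, rfl⟩) with e | e | e | e | e | e
      · exact absurd ⟨m, e⟩ hRF
      · exact absurd ⟨m, e⟩ hRM
      · exact absurd ⟨m, e⟩ hRM1
      · exact Or.inr (Or.inr e)
      · exact Or.inl e
      · exact Or.inr (Or.inl e)
    have hnd : [i, j, k, P, R].Nodup := by
      simp [hij, hik, hjk, pi.symm, pj.symm, pk.symm, ri.symm, rj.symm, rk.symm, rp.symm]
    have hpt : [F, M, M1, N1, N, E].Nodup := by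
      simp [fM.symm, fM1.symm, fN1.symm, fN.symm, d1, d2, d3, d4, d5, d6, Ne.symm eF, Ne.symm eM,
        Ne.symm eM1, Ne.symm eN1, Ne.symm eN]
    have nab : a ≠ b := by
      rintro rfl; exact eM (ha.trans hb.symm)
    have nac : a ≠ c' := by
      rintro rfl; exact eM1 (ha.trans hc'.symm)
    have nbc : b ≠ c' := by
      rintro rfl; exact d1 (hb.trans hc'.symm)
    rcases confB_ang o hnd (fun x hxx => hg x ((mem_I _ _ _).2 hxx)) hpt vi vj vk vP vR hseg nN nN1
      ha hb hc' with (e | e | e) | e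
    · exact Or.inl ⟨a, b, nab, e⟩
    · exact Or.inl ⟨a, c', nac, e⟩
    · exact Or.inl ⟨b, c', nbc, e⟩
    · exact Or.inr ⟨a, b, c', nab, nac, nbc, e⟩
  have hone : Has (t P) N1 ∨ Has (t R) N1 := by
    by_contra hcon
    push Not at hcon
    have : I t N1 ⊆ {j, k} := by
      intro x hxx
      rw [mem_I] at hxx
      rw [Finset.mem_insert, Finset.mem_singleton]
      rcases hall x with rfl | rfl | rfl | rfl | rfl
      · rcases viq _ hxx with e | e | e
        · exact absurd e fN1
        · exact absurd e.symm d2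
        · exact absurd e.symm d4
      · exact Or.inl rfl
      · exact Or.inr rfl
      · exact absurd hxx hcon.1
      · exact absurd hxx hcon.2
    have h1 := Finset.card_le_card this
    have h2 : ({j, k} : Finset (Fin 5)).card ≤ 2 := Finset.card_le_two
    omega
  rcases hone with hh | hh
  · have hR1 : ¬ Has (t R) N1 := fun e => hnotN1 ⟨hh, e⟩
    exact final R P ri rj rk pi pj pk rp.symm (fun x => by
        rcases hall x with e | e | e | e | e
        · exact Or.inl e
        · exact Or.inr (Or.inl e)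
        · exact Or.inr (Or.inr (Or.inl e))
        · exact Or.inr (Or.inr (Or.inr (Or.inr e)))
        · exact Or.inr (Or.inr (Or.inr (Or.inl e))))
      hRF hPF hRN hPN hRM1 hPM1 (fun e => hnotM ⟨e.2, e.1⟩) hR1 hh
  · have hP1 : ¬ Has (t P) N1 := fun e => hnotN1 ⟨e, hh⟩
    exact final P R pi pj pk ri rj rk rp hall hPF hRF hPN hRN hPM1 hRM1 hnotM hP1 hh

end Pool.Agent.Helper230.Five
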