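import Pool.Agent.Helper230.Five.One
import Pool.Agent.Helper230.Five.Shape

/-! # Dissections into five mutually similar triangles: ThreeEq -/

set_option autoImplicit false
noncomputable section
open scoped BigOperators
open Pool.Agent.Helper549.Tri Pool.Agent.Helper549.Tri.Basic Pool.Agent.Helper549.Tri.Angles
  Pool.Agent.Helper549.Tri.AngleSum Pool.Agent.Helper549.Tri.Opp Pool.Agent.Helper549.Tri.Corner
  Pool.Agent.Helper549.Tri.Vertex
namespace Pool.Agent.Helper230.Five

variable {T : Fin 3 → ℂ} {t : Fin 5 → Fin 3 → ℂ} {θ : Fin 3 → ℝ} {τ : Fin 5 → Equiv.Perm (Fin 3)}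

theorem F5_LF {F : ℂ} (o : One T t θ τ F) {c : Fin 3} (hc : θ c = 2 * Real.pi / 3)
    (hg : ∀ i ∈ I t F, q_V (t i) F = 2 * Real.pi / 3) {i : Fin 5} (hi : i ∈ I t F) :
    LF t F i = Real.log (Real.sin (θ (c + 1))) - Real.log (Real.sin (θ (c + 2))) ∨
    LF t F i = -(Real.log (Real.sin (θ (c + 1))) - Real.log (Real.sin (θ (c + 2)))) := by
  have hpi := Real.pi_pos
  have hh := (mem_I _ _ _).1 hi
  have h1 := hg i hi
  rw [gF_eq o.h hh] at h1
  unfold gF at h1
  rw [o.hang] at h1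
  have h2 : τ i (mi t F i) = c := by
    have h0 := th_rot o.h o.hang c
    have p1 := th_pos o.h o.hang (c + 1)
    have p2 := th_pos o.h o.hang (c + 2)
    rcases q_fin3 c (τ i (mi t F i)) with e | e | e
    · exact e
    · rw [e] at h1; linarith
    · rw [e] at h1; linarith
  have n1 : τ i (mi t F i + 1) ≠ c := by
    rw [← h2]
    intro e
    have := (τ i).injective e
    have hn : ∀ a : Fin 3, a + 1 ≠ a := by decide
    exact hn _ this
  have n2 : τ i (mi t F i + 2) ≠ c := by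
    rw [← h2]
    intro e
    have := (τ i).injective e
    have hn : ∀ a : Fin 3, a + 2 ≠ a := by decide
    exact hn _ this
  have n3 : τ i (mi t F i + 1) ≠ τ i (mi t F i + 2) := by
    intro e
    have := (τ i).injective e
    have hn : ∀ a : Fin 3, a + 1 ≠ a + 2 := by decide
    exact hn _ this
  unfold LF
  rw [o.hang, o.hang]
  rcases q_fin3 c (τ i (mi t F i + 1)) with e | e | e
  · exact absurd e n1
  · rcases q_fin3 c (τ i (mi t F i + 2)) with f | f | f
    · exact absurd f n2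
    · exact absurd (e.trans f.symm) n3
    · left; rw [e, f]
  · rcases q_fin3 c (τ i (mi t F i + 2)) with f | f | f
    · exact absurd f n2
    · right; rw [e, f]; ring
    · exact absurd (e.trans f.symm) n3

theorem F5_six {F : ℂ} (o : One T t θ τ F) (h3 : (I t F).card = 3)
    (hO : ∀ q, (∃ i, Has (t i) F ∧ out t F i = q) ↔ ∃ i, Has (t i) F ∧ inn t F i = q) :
    ∀ k, ∃ n : ℕ, θ k = n * (Real.pi / 6) := by
  classical
  have hpi := Real.pi_pos
  obtain ⟨c, hc, hg⟩ := three_th o.h o.hang h3 o.hW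
  have h0 := th_rot o.h o.hang c
  have p1 := th_pos o.h o.hang (c + 1)
  have p2 := th_pos o.h o.hang (c + 2)
  have hsum : ∑ i ∈ I t F, LF t F i = 0 := by
    apply sum_L o.h
    ext q
    simp only [Finset.mem_image, mem_I]
    exact hO q
  have hd : Real.log (Real.sin (θ (c + 1))) - Real.log (Real.sin (θ (c + 2))) = 0 := by
    obtain ⟨i, j, k, hij, hik, hjk, he⟩ := Finset.card_eq_three.1 h3
    have li := F5_LF o hc hg (i := i) (by rw [he]; simp)
    have lj := F5_LF o hc hg (i := j) (by rw [he]; simp)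
    have lk := F5_LF o hc hg (i := k) (by rw [he]; simp)
    rw [he, Finset.sum_insert (by simp [hij, hik]), Finset.sum_pair hjk] at hsum
    rcases li with li | li <;> rcases lj with lj | lj <;> rcases lk with lk | lk <;>
      rw [li, lj, lk] at hsum <;> linarith
  have s1 : 0 < Real.sin (θ (c + 1)) := Real.sin_pos_of_pos_of_lt_pi p1 (by linarith)
  have s2 : 0 < Real.sin (θ (c + 2)) := Real.sin_pos_of_pos_of_lt_pi p2 (by linarith)
  have hs : Real.sin (θ (c + 1)) = Real.sin (θ (c + 2)) :=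
    Real.log_injOn_pos (Set.mem_Ioi.2 s1) (Set.mem_Ioi.2 s2) (by linarith)
  have hab : θ (c + 1) = θ (c + 2) :=
    Real.injOn_sin ⟨by linarith, by linarith⟩ ⟨by linarith, by linarith⟩ hs
  intro k
  rcases q_fin3 c k with e | e | e
  · exact ⟨4, by rw [e, hc]; push_cast; ring⟩
  · exact ⟨1, by rw [e]; push_cast; linarith⟩
  · exact ⟨1, by rw [e]; push_cast; linarith⟩

/-- TARGET -/
theorem three_eq {F : ℂ} (o : One T t θ τ F) (h3 : (I t F).card = 3)
    (hO : ∀ q, (∃ i, Has (t i) F ∧ out t F i = q) ↔ ∃ i, Has (t i) F ∧ inn t F i = q) :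
    (∃ k, ang T k = Real.pi / 2) ∨ ∃ k l, k ≠ l ∧ ang T k = ang T l := by
  have hpi := Real.pi_pos
  have h6 := F5_six o h3 hO
  have key : ∀ j, ∃ n : ℕ, 1 ≤ n ∧ ang T j = n * (Real.pi / 6) := by
    intro j
    have h1 : ∃ n : ℕ, W t (T j) = n * (Real.pi / 6) := by
      rw [W_eq]
      refine Finset.sum_induction _ (fun x : ℝ => ∃ n : ℕ, x = n * (Real.pi / 6)) ?_ ?_ ?_
      · rintro x y ⟨n, rfl⟩ ⟨m, rfl⟩
        exact ⟨n + m, by push_cast; ring⟩
      · exact ⟨0, by simp⟩
      · intro i hi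
        obtain ⟨k, hk⟩ := valth o.h o.hang ((mem_I _ _ _).1 hi)
        rw [hk]
        exact h6 k
    obtain ⟨n, hn⟩ := h1
    rw [W_corner o.h j] at hn
    refine ⟨n, ?_, hn⟩
    rcases Nat.eq_zero_or_pos n with e | e
    · exfalso
      have := ang_pos T o.h.ccwT j
      rw [hn, e] at this
      simp at this
    · exact e
  obtain ⟨n0, a0, e0⟩ := key 0
  obtain ⟨n1, a1, e1⟩ := key 1
  obtain ⟨n2, a2, e2⟩ := key 2
  have hs := ang_sum T o.h.ccwT
  rw [e0, e1, e2] at hs
  have hs2 : ((n0 + n1 + n2 : ℕ) : ℝ) * (Real.pi / 6) = (6 : ℕ) * (Real.pi / 6) := by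
    push_cast
    linarith
  have hs3 := mul_right_cancel₀ (by positivity : Real.pi / 6 ≠ 0) hs2
  have hs4 : n0 + n1 + n2 = 6 := by exact_mod_cast hs3
  have hcases : n0 = 3 ∨ n1 = 3 ∨ n2 = 3 ∨ n0 = n1 ∨ n0 = n2 ∨ n1 = n2 := by omega
  rcases hcases with e | e | e | e | e | e
  · left; exact ⟨0, by rw [e0, e]; push_cast; ring⟩
  · left; exact ⟨1, by rw [e1, e]; push_cast; ring⟩
  · left; exact ⟨2, by rw [e2, e]; push_cast; ring⟩
  · right; exact ⟨0, 1, by decide, by rw [e0, e1, e]⟩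
  · right; exact ⟨0, 2, by decide, by rw [e0, e2, e]⟩
  · right; exact ⟨1, 2, by decide, by rw [e1, e2, e]⟩

end Pool.Agent.Helper230.Five
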