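import Pool.Agent.Helper230.Five.One
import Pool.Agent.Helper230.Five.Shape

/-! # Dissections into five mutually similar triangles: ThreeMany -/

set_option autoImplicit false
noncomputable section
open scoped BigOperators
open Pool.Agent.Helper549.Tri Pool.Agent.Helper549.Tri.Basic Pool.Agent.Helper549.Tri.Angles
  Pool.Agent.Helper549.Tri.AngleSum Pool.Agent.Helper549.Tri.Opp Pool.Agent.Helper549.Tri.Corner
  Pool.Agent.Helper549.Tri.Vertex
namespace Pool.Agent.Helper230.Five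

variable {T : Fin 3 → ℂ} {t : Fin 5 → Fin 3 → ℂ} {θ : Fin 3 → ℝ} {τ : Fin 5 → Equiv.Perm (Fin 3)}

theorem threeMany_exp : Complex.exp (-((2 * Real.pi / 3 : ℝ) : ℂ) * Complex.I) ≠ 1 := by
  intro hc
  rw [Complex.exp_eq_one_iff] at hc
  obtain ⟨n, hn⟩ := hc
  have hpi : (Real.pi : ℂ) ≠ 0 := by exact_mod_cast Real.pi_ne_zero
  have h1 : ((3 * n + 1 : ℤ) : ℂ) * (2 * Real.pi * Complex.I) = 0 := by
    push_cast at hn ⊢
    linear_combination (-3) * hn
  have h2 : (2 * Real.pi * Complex.I : ℂ) ≠ 0 :=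
    mul_ne_zero (mul_ne_zero two_ne_zero hpi) Complex.I_ne_zero
  have h3 : ((3 * n + 1 : ℤ) : ℂ) = 0 := (mul_eq_zero.1 h1).resolve_right h2
  have h4 : (3 * n + 1 : ℤ) = 0 := by exact_mod_cast h3
  omega

theorem threeMany_dir (h : Dis 5 T t) {F : ℂ} {i : Fin 5} (hi : Has (t i) F)
    (hg : gF t F i = 2 * Real.pi / 3) :
    (out t F i - F) / (‖out t F i - F‖ : ℂ) ≠ (inn t F i - F) / (‖inn t F i - F‖ : ℂ) := by
  intro hc
  have h1 := arc_dir h hi
  rw [hg, hc] at h1
  have hne : (inn t F i - F) / (‖inn t F i - F‖ : ℂ) ≠ 0 := by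
    have h2 := sub_ne_zero.2 (inn_ne_F h hi)
    refine div_ne_zero h2 ?_
    exact_mod_cast (norm_pos_iff.2 h2).ne'
  refine threeMany_exp ?_
  have h3 := (one_mul ((inn t F i - F) / (‖inn t F i - F‖ : ℂ))).trans h1
  exact (mul_right_cancel₀ hne h3).symm

theorem threeMany_nc {F : ℂ} (o : One T t θ τ F) {a b : Fin 5} {X Y : ℂ} (hX : Has (t a) X)
    (hY : Has (t b) Y) (hs : Y ∈ openSegment ℝ F X) : Y ∈ nc T t := by
  have h := o.h
  have hXT : X ∈ hull T := has_mem h hX
  have hYint : Y ∈ interior (hull T) := by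
    have hF := o.hF
    rw [mem_int T h.ccwT] at hF ⊢
    rw [mem_hull T h.ccwT] at hXT
    obtain ⟨x, y, hx, hy, hxy, he⟩ := hs
    intro l
    rw [← he, q_lam_aff T l F X x y hxy]
    have := mul_pos hx (hF l)
    have := mul_nonneg hy.le (hXT l)
    linarith
  refine mem_nc.2 ⟨(mem_pts _ _).2 ⟨b, hY⟩, fun l hl => ?_⟩
  exact corner_not_int h.ccwT l (hl ▸ hYint)

theorem threeMany_near {F : ℂ} (o : One T t θ τ F) {a b : Fin 5} {X Y : ℂ} (hX : Has (t a) X)
    (hY : Has (t b) Y) (fX : X ≠ F) (fY : Y ≠ F) (hXY : X ≠ Y)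
    (hd : (X - F) / (‖X - F‖ : ℂ) = (Y - F) / (‖Y - F‖ : ℂ)) :
    X ∈ nc T t ∨ (Y ∈ nc T t ∧ Y ∈ openSegment ℝ F X) := by
  rcases lt_trichotomy ‖X - F‖ ‖Y - F‖ with hlt | heq | hgt
  · exact Or.inl (threeMany_nc o hY hX (seg_of_dir fY fX hd.symm hlt))
  · exfalso
    apply hXY
    have p1 : 0 < ‖Y - F‖ := norm_pos_iff.2 (sub_ne_zero.2 fY)
    have c1 : ((‖Y - F‖ : ℝ) : ℂ) ≠ 0 := by exact_mod_cast p1.ne'
    rw [heq, div_left_inj' c1] at hd
    exact sub_left_injective hd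
  · have hs := seg_of_dir fX fY hd hgt
    exact Or.inr ⟨threeMany_nc o hX hY hs, hs⟩

theorem threeMany_mid (h : Dis 5 T t) {F : ℂ} {i : Fin 5} (hi : Has (t i) F) {X Y : ℂ}
    {a b c d : ℝ} (ha : 0 ≤ a) (hb : 0 < b) (hab : a + b = 1) (hc : 0 ≤ c) (hd : 0 < d)
    (hcd : c + d = 1) (hac : 0 < a + c) (e1 : a • F + b • out t F i = X)
    (e2 : c • F + d • inn t F i = Y) :
    ((1 / 2 : ℝ) • X + (1 / 2 : ℝ) • Y) ∈ interior (hull (t i)) := by
  rw [mem_int _ (h.ccwt i)]
  have hdd := h.ccwt i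
  have F0 : lam (t i) (mi t F i) F = dd (t i) := by
    conv_lhs => rw [← mi_spec hi]
    rw [mi_spec hi]
    have := lam_self (t i) (mi t F i)
    rwa [mi_spec hi] at this
  have F1 : lam (t i) (mi t F i + 1) F = 0 := by
    have := q_lam1 (t i) (mi t F i)
    rwa [mi_spec hi] at this
  have F2 : lam (t i) (mi t F i + 2) F = 0 := by
    have := q_lam2 (t i) (mi t F i)
    rwa [mi_spec hi] at this
  have O1 : lam (t i) (mi t F i + 1) (out t F i) = dd (t i) := lam_self (t i) _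
  have O2 : lam (t i) (mi t F i + 2) (out t F i) = 0 := by
    have := q_lam1 (t i) (mi t F i + 1)
    rwa [q_e11] at this
  have O0 : lam (t i) (mi t F i) (out t F i) = 0 := by
    have := q_lam2 (t i) (mi t F i + 1)
    rwa [q_e12] at this
  have N2 : lam (t i) (mi t F i + 2) (inn t F i) = dd (t i) := lam_self (t i) _
  have N0 : lam (t i) (mi t F i) (inn t F i) = 0 := by
    have := q_lam1 (t i) (mi t F i + 2)
    rwa [q_e21] at this
  have N1 : lam (t i) (mi t F i + 1) (inn t F i) = 0 := by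
    have := q_lam2 (t i) (mi t F i + 2)
    rwa [q_e22] at this
  intro l
  rw [q_lam_aff (t i) l X Y _ _ (by norm_num), ← e1, ← e2, q_lam_aff (t i) l F _ a b hab,
    q_lam_aff (t i) l F _ c d hcd]
  rcases q_fin3 (mi t F i) l with e | e | e
  · rw [e, F0, O0, N0]
    have := mul_pos hac hdd
    linarith
  · rw [e, F1, O1, N1]
    have := mul_pos hb hdd
    linarith
  · rw [e, F2, O2, N2]
    have := mul_pos hd hdd
    linarith

theorem threeMany_rest : ∀ i j k : Fin 5, i ≠ j → i ≠ k → j ≠ k →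
    ∃ P : Fin 5, P ≠ i ∧ P ≠ j ∧ P ≠ k := by
  decide

theorem threeMany_two {N : ℂ} {e P R : Fin 5} (hc : 3 ≤ (I t N).card)
    (hx : ∀ x, Has (t x) N → x = e ∨ x = P ∨ x = R) : Has (t P) N ∧ Has (t R) N := by
  have hsub : I t N ⊆ {e, P, R} := by
    intro x hxx
    rw [mem_I] at hxx
    rw [Finset.mem_insert, Finset.mem_insert, Finset.mem_singleton]
    exact hx x hxx
  have hc3 : ({e, P, R} : Finset (Fin 5)).card ≤ 3 := Finset.card_le_three
  have heq : I t N = {e, P, R} := Finset.eq_of_subset_of_card_le hsub (by omega)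
  exact ⟨(mem_I _ _ _).1 (by rw [heq]; simp), (mem_I _ _ _).1 (by rw [heq]; simp)⟩

theorem threeMany_vert {F N : ℂ} {x : Fin 5} (hx : Has (t x) F) (hN : Has (t x) N) (hNF : N ≠ F) :
    N = out t F x ∨ N = inn t F x := by
  have h1 : N ∈ Set.range (t x) := hN
  rw [range_eq F hx] at h1
  simp only [Set.mem_insert_iff, Set.mem_singleton_iff] at h1
  rcases h1 with e | e | e
  · exact absurd e hNF
  · exact Or.inl e
  · exact Or.inr e

theorem three_many {F : ℂ} (o : One T t θ τ F) (h3 : (I t F).card = 3) {i j k : Fin 5}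
    (hij : i ≠ j) (hik : i ≠ k) (hjk : j ≠ k)
    (hI : ∀ x, Has (t x) F ↔ (x = i ∨ x = j ∨ x = k))
    (r1 : (out t F i - F) / (‖out t F i - F‖ : ℂ) = (inn t F j - F) / (‖inn t F j - F‖ : ℂ))
    (r2 : (out t F j - F) / (‖out t F j - F‖ : ℂ) = (inn t F k - F) / (‖inn t F k - F‖ : ℂ))
    (r3 : (out t F k - F) / (‖out t F k - F‖ : ℂ) = (inn t F i - F) / (‖inn t F i - F‖ : ℂ))
    (n1 : out t F i ≠ inn t F j) (n3 : out t F k ≠ inn t F i) : False := by
  have h := o.h
  have hi : Has (t i) F := (hI i).2 (Or.inl rfl)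
  have hj : Has (t j) F := (hI j).2 (Or.inr (Or.inl rfl))
  have hk : Has (t k) F := (hI k).2 (Or.inr (Or.inr rfl))
  obtain ⟨c, hc, hg⟩ := three_th h o.hang h3 o.hW
  have gx : ∀ x, Has (t x) F → gF t F x = 2 * Real.pi / 3 := by
    intro x hx
    rw [← gF_eq h hx]
    exact hg x ((mem_I _ _ _).2 hx)
  have di := threeMany_dir h hi (gx i hi)
  have dj := threeMany_dir h hj (gx j hj)
  have dk := threeMany_dir h hk (gx k hk)
  -- the directions
  set u : ℂ → ℂ := fun z => (z - F) / (‖z - F‖ : ℂ) with hu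
  have r1' : u (out t F i) = u (inn t F j) := r1
  have r2' : u (out t F j) = u (inn t F k) := r2
  have r3' : u (out t F k) = u (inn t F i) := r3
  have di' : u (out t F i) ≠ u (inn t F i) := di
  have dj' : u (out t F j) ≠ u (inn t F j) := dj
  have dk' : u (out t F k) ≠ u (inn t F k) := dk
  clear_value u
  obtain ⟨P, p1, p2, p3⟩ := threeMany_rest i j k hij hik hjk
  obtain ⟨R, hRi, hRj, hRk, hRP, hall⟩ := rest5 i j k P hij hik hjk p1 p2 p3
  -- a point of nc which is a vertex only of `e`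
  have key : ∀ (N : ℂ) (e : Fin 5), N ∈ nc T t → N ≠ F →
      (∀ x, (x = i ∨ x = j ∨ x = k) → (N = out t F x ∨ N = inn t F x) → x = e) →
      Has (t P) N ∧ Has (t R) N := by
    intro N e hN hNF hx
    have hN' := mem_nc.1 hN
    refine threeMany_two (e := e) (o.h3 N hN'.1 hN'.2) fun x hxx => ?_
    have hxx' : (x = i ∨ x = j ∨ x = k) → x = e := fun hh =>
      hx x hh (threeMany_vert ((hI x).2 hh) hxx hNF)
    rcases hall x with e1 | e1 | e1 | e1 | e1
    · exact Or.inl (hxx' (Or.inl e1))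
    · exact Or.inl (hxx' (Or.inr (Or.inl e1)))
    · exact Or.inl (hxx' (Or.inr (Or.inr e1)))
    · exact Or.inr (Or.inl e1)
    · exact Or.inr (Or.inr e1)
  -- ray 1
  have ray1 : ∃ (a b : ℝ) (N : ℂ), 0 ≤ a ∧ 0 < b ∧ a + b = 1 ∧ a • F + b • out t F i = N ∧
      Has (t P) N ∧ Has (t R) N ∧ (a = 0 → N = out t F i) := by
    rcases threeMany_near o (out_has F i) (inn_has F j) (out_ne_F h hi) (inn_ne_F h hj) n1 r1 with
      hN | ⟨hN, a, b, ha, hb, hab, he⟩
    · obtain ⟨k1, k2⟩ := key (out t F i) i hN (out_ne_F h hi) (by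
        rintro x (rfl | rfl | rfl) (e | e)
        · rfl
        · rfl
        · rw [e] at r1'; exact absurd r1' dj'
        · exact absurd e n1
        · rw [e, r3'] at di'; exact absurd rfl di'
        · rw [e, ← r2', ] at r1'; exact absurd r1' dj')
      exact ⟨0, 1, out t F i, le_rfl, one_pos, by norm_num, by simp, k1, k2, fun _ => rfl⟩
    · obtain ⟨k1, k2⟩ := key (inn t F j) j hN (inn_ne_F h hj) (by
        rintro x (rfl | rfl | rfl) (e | e)
        · exact absurd e.symm n1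
        · rw [e] at r1'; exact absurd r1' di'
        · rfl
        · rfl
        · rw [e, r3'] at r1'; exact absurd r1' di'
        · rw [e, ← r2'] at dj'; exact absurd rfl dj')
      exact ⟨a, b, inn t F j, ha.le, hb, hab, he, k1, k2, fun h0 => absurd h0 ha.ne'⟩
  have ray3 : ∃ (a b : ℝ) (N : ℂ), 0 ≤ a ∧ 0 < b ∧ a + b = 1 ∧ a • F + b • inn t F i = N ∧
      Has (t P) N ∧ Has (t R) N ∧ (a = 0 → N = inn t F i) := by
    rcases threeMany_near o (inn_has F i) (out_has F k) (inn_ne_F h hi) (out_ne_F h hk) n3.symm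
      r3.symm with hN | ⟨hN, a, b, ha, hb, hab, he⟩
    · obtain ⟨k1, k2⟩ := key (inn t F i) i hN (inn_ne_F h hi) (by
        rintro x (rfl | rfl | rfl) (e | e)
        · rfl
        · rfl
        · rw [← e, r3'.symm, ] at r2'; exact absurd r2' dk'
        · rw [e, ← r1'] at di'; exact absurd rfl di'
        · exact absurd e.symm n3
        · rw [e] at r3'; exact absurd r3' dk')
      exact ⟨0, 1, inn t F i, le_rfl, one_pos, by norm_num, by simp, k1, k2, fun _ => rfl⟩
    · obtain ⟨k1, k2⟩ := key (out t F k) k hN (out_ne_F h hk) (by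
        rintro x (rfl | rfl | rfl) (e | e)
        · rw [e] at r3'; exact absurd r3' di'
        · exact absurd e n3
        · rw [e] at dk'; exact absurd r2' dk'
        · rw [e, ← r1'] at r3'; exact absurd r3' di'
        · rfl
        · rfl)
      exact ⟨a, b, out t F k, ha.le, hb, hab, he, k1, k2, fun h0 => absurd h0 ha.ne'⟩
  obtain ⟨a, b, N1, ha, hb, hab, e1, P1, R1, z1⟩ := ray1
  obtain ⟨a', b', N3, ha', hb', hab', e3, P3, R3, z3⟩ := ray3
  by_cases h0 : 0 < a + a'
  · have hm := threeMany_mid h hi ha hb hab ha' hb' hab' h0 e1 e3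
    refine int_disj h p1.symm hm ?_
    obtain ⟨u1, hu1⟩ := P1
    obtain ⟨u2, hu2⟩ := P3
    have c1 : N1 ∈ hull (t P) := hu1 ▸ q_vertex_mem _ _
    have c2 : N3 ∈ hull (t P) := hu2 ▸ q_vertex_mem _ _
    exact (convex_convexHull ℝ _) c1 c2 (by norm_num) (by norm_num) (by norm_num)
  · have ha0 : a = 0 := by linarith
    have ha0' : a' = 0 := by linarith
    rw [z1 ha0] at P1 R1
    rw [z3 ha0'] at P3 R3
    exact pair_two h p1.symm hRi.symm hRP.symm (out_ne_inn h F i) (out_has F i) (inn_has F i)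
      P1 P3 R1 R3

end Pool.Agent.Helper230.Five
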