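import Pool.Agent.Helper230.Five.ConfB
import Pool.Agent.Helper230.Five.ThreeEq
import Pool.Agent.Helper230.Five.ThreeMany

/-! # Dissections into five mutually similar triangles: three tiles at the full vertex -/

set_option autoImplicit false
noncomputable section
open scoped BigOperators
open Pool.Agent.Helper549.Tri Pool.Agent.Helper549.Tri.Basic Pool.Agent.Helper549.Tri.Angles
  Pool.Agent.Helper549.Tri.AngleSum Pool.Agent.Helper549.Tri.Opp Pool.Agent.Helper549.Tri.Corner
  Pool.Agent.Helper549.Tri.Vertex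

namespace Pool.Agent.Helper230.Five

variable {T : Fin 3 → ℂ} {t : Fin 5 → Fin 3 → ℂ} {θ : Fin 3 → ℝ} {τ : Fin 5 → Equiv.Perm (Fin 3)}

theorem dir_out {F : ℂ} {i : Fin 5} (hi : Has (t i) F) :
    dir (t i) (mi t F i + 2) = (out t F i - F) / (‖out t F i - F‖ : ℂ) := by
  unfold dir len
  rw [aux_sd2, mi_spec hi]
  rfl

theorem out_ray_inj (h : Dis 5 T t) {F : ℂ} {i j : Fin 5} (hi : Has (t i) F) (hj : Has (t j) F)
    (hd : (out t F i - F) / (‖out t F i - F‖ : ℂ) = (out t F j - F) / (‖out t F j - F‖ : ℂ)) :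
    i = j := by
  by_contra hij
  have key : ∀ p, onSide (t i) (mi t F i + 2) p → onSide (t j) (mi t F j + 2) p → False := by
    intro p h1 h2
    have h3 := opp_dir h hij h1 h2
    rw [dir_out hi, dir_out hj, hd, ← dir_out hj] at h3
    exact dir_ne_zero _ (h.ccwt j) _ (self_eq_neg.mp h3)
  rcases ray_cases (out_ne_F h hi) (out_ne_F h hj) hd with e | e | e
  · exact out_inj h hij hi hj e
  · exact key _ (out_side hi (seg_half e)) (out_side hj seg_mid)
  · exact key _ (out_side hi seg_mid) (out_side hj (seg_half e))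

/-- the same ray -/
def SR (F X Y : ℂ) : Prop := (X - F) / (‖X - F‖ : ℂ) = (Y - F) / (‖Y - F‖ : ℂ)

theorem cyc3 {F : ℂ} (o : One T t θ τ F) (h3 : (I t F).card = 3) :
    ∃ i j k : Fin 5, i ≠ j ∧ i ≠ k ∧ j ≠ k ∧ (∀ x, Has (t x) F ↔ (x = i ∨ x = j ∨ x = k)) ∧
      SR F (out t F i) (inn t F j) ∧ SR F (out t F j) (inn t F k) ∧
      SR F (out t F k) (inn t F i) := by
  classical
  obtain ⟨x, y, z, hxy, hxz, hyz, he⟩ := Finset.card_eq_three.1 h3
  have hI : ∀ w, Has (t w) F ↔ (w = x ∨ w = y ∨ w = z) := by
    intro w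
    rw [← mem_I, he]
    simp
  have hx : Has (t x) F := (hI x).2 (Or.inl rfl)
  have hy : Has (t y) F := (hI y).2 (Or.inr (Or.inl rfl))
  have hz : Has (t z) F := (hI z).2 (Or.inr (Or.inr rfl))
  obtain ⟨x', nx, hx', ex⟩ := o.hray x hx
  obtain ⟨y', ny, hy', ey⟩ := o.hray y hy
  obtain ⟨z', nz, hz', ez⟩ := o.hray z hz
  have nxy : x' ≠ y' := by
    rintro rfl; exact hxy (out_ray_inj o.h hx hy (ex.trans ey.symm))
  have nxz : x' ≠ z' := by
    rintro rfl; exact hxz (out_ray_inj o.h hx hz (ex.trans ez.symm))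
  have nyz : y' ≠ z' := by
    rintro rfl; exact hyz (out_ray_inj o.h hy hz (ey.trans ez.symm))
  rcases (hI x').1 hx' with rfl | rfl | rfl
  · exact absurd rfl nx
  · rcases (hI y').1 hy' with rfl | rfl | rfl
    · rcases (hI z').1 hz' with rfl | rfl | rfl
      · exact absurd rfl nyz
      · exact absurd rfl nxz
      · exact absurd rfl nz
    · exact absurd rfl ny
    · rcases (hI z').1 hz' with rfl | rfl | rfl
      · exact ⟨_, _, _, hxy, hxz, hyz, hI, ex, ey, ez⟩
      · exact absurd rfl nxz
      · exact absurd rfl nz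
  · rcases (hI z').1 hz' with rfl | rfl | rfl
    · rcases (hI y').1 hy' with rfl | rfl | rfl
      · exact absurd rfl nyz
      · exact absurd rfl ny
      · exact absurd rfl nxy
    · rcases (hI y').1 hy' with rfl | rfl | rfl
      · refine ⟨_, _, _, hxz, hxy, hyz.symm, fun w => ?_, ex, ez, ey⟩
        rw [hI]
        exact or_congr_right or_comm
      · exact absurd rfl ny
      · exact absurd rfl nxy
    · exact absurd rfl nz

theorem three_path {F : ℂ} (o : One T t θ τ F) (h3 : (I t F).card = 3) {i j k : Fin 5}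
    (hij : i ≠ j) (hik : i ≠ k) (hjk : j ≠ k)
    (hI : ∀ x, Has (t x) F ↔ (x = i ∨ x = j ∨ x = k))
    (e1 : out t F i = inn t F j) (e2 : out t F j = inn t F k)
    (r3 : SR F (out t F k) (inn t F i)) (n3 : out t F k ≠ inn t F i) : ConcB T := by
  have h := o.h
  have hi : Has (t i) F := (hI i).2 (Or.inl rfl)
  have hj : Has (t j) F := (hI j).2 (Or.inr (Or.inl rfl))
  have hk : Has (t k) F := (hI k).2 (Or.inr (Or.inr rfl))
  have ri := range_eq F hi
  have rj := range_eq F hj
  have rk := range_eq F hk
  rcases ray_cases (out_ne_F h hk) (inn_ne_F h hi) r3 with e | hseg | hseg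
  · exact absurd e n3
  · -- `inn i` is nearer: (k, j, i), M = out k, M1 = inn k = out j, N1 = inn j = out i, N = inn i
    refine confB_comb o h3 (i := k) (j := j) (k := i) hjk.symm hik.symm hij.symm
      (fun x => ?_) (M := out t F k) (M1 := inn t F k) (N1 := out t F i) (N := inn t F i)
      rk ?_ ri (out_ne_F h hk) (inn_ne_F h hk) (out_ne_F h hi) (inn_ne_F h hi)
      (out_ne_inn h F k) (out_inj h hik.symm hk hi) n3 ?_ (inn_inj h hik.symm hk hi)
      (out_ne_inn h F i) hseg
    · rw [hI]
      constructor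
      · rintro (e | e | e)
        · exact Or.inr (Or.inr e)
        · exact Or.inr (Or.inl e)
        · exact Or.inl e
      · rintro (e | e | e)
        · exact Or.inr (Or.inr e)
        · exact Or.inr (Or.inl e)
        · exact Or.inl e
    · rw [rj, e2, ← e1]
    · rw [← e2, e1]
      exact out_ne_inn h F j
  · -- `out k` is nearer: M = inn i, M1 = out i = inn j, N1 = out j = inn k, N = out k
    refine confB_comb o h3 (i := i) (j := j) (k := k) hij hik hjk hI
      (M := inn t F i) (M1 := out t F i) (N1 := inn t F k) (N := out t F k)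
      ?_ ?_ ?_ (inn_ne_F h hi) (out_ne_F h hi) (inn_ne_F h hk) (out_ne_F h hk)
      (out_ne_inn h F i).symm (inn_inj h hik hi hk) n3.symm ?_ (out_inj h hik hi hk)
      (out_ne_inn h F k).symm hseg
    · rw [ri]
      ext p
      simp only [Set.mem_insert_iff, Set.mem_singleton_iff]
      exact or_congr_right or_comm
    · rw [rj, e2, ← e1]
      ext p
      simp only [Set.mem_insert_iff, Set.mem_singleton_iff]
      exact or_congr_right or_comm
    · rw [rk]
      ext p
      simp only [Set.mem_insert_iff, Set.mem_singleton_iff]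
      exact or_congr_right or_comm
    · rw [← e2, e1]
      exact (out_ne_inn h F j).symm

theorem three_all {F : ℂ} (o : One T t θ τ F) (h3 : (I t F).card = 3) :
    (∃ k, ang T k = Real.pi / 2) ∨ ConcB T := by
  obtain ⟨i, j, k, hij, hik, hjk, hI, r1, r2, r3⟩ := cyc3 o h3
  have I2 : ∀ x, Has (t x) F ↔ (x = j ∨ x = k ∨ x = i) := fun x => by
    rw [hI]
    constructor
    · rintro (e | e | e)
      · exact Or.inr (Or.inr e)
      · exact Or.inl e
      · exact Or.inr (Or.inl e)
    · rintro (e | e | e)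
      · exact Or.inr (Or.inl e)
      · exact Or.inr (Or.inr e)
      · exact Or.inl e
  have I3 : ∀ x, Has (t x) F ↔ (x = k ∨ x = i ∨ x = j) := fun x => by
    rw [I2]
    constructor
    · rintro (e | e | e)
      · exact Or.inr (Or.inr e)
      · exact Or.inl e
      · exact Or.inr (Or.inl e)
    · rintro (e | e | e)
      · exact Or.inr (Or.inl e)
      · exact Or.inr (Or.inr e)
      · exact Or.inl e
  by_cases e1 : out t F i = inn t F j
  · by_cases e2 : out t F j = inn t F k
    · by_cases e3 : out t F k = inn t F i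
      · rcases three_eq o h3 (fun q => by
          constructor
          · rintro ⟨x, hx, rfl⟩
            rcases (hI x).1 hx with rfl | rfl | rfl
            · exact ⟨j, (hI j).2 (Or.inr (Or.inl rfl)), e1.symm⟩
            · exact ⟨k, (hI k).2 (Or.inr (Or.inr rfl)), e2.symm⟩
            · exact ⟨i, (hI i).2 (Or.inl rfl), e3.symm⟩
          · rintro ⟨x, hx, rfl⟩
            rcases (hI x).1 hx with rfl | rfl | rfl
            · exact ⟨k, (hI k).2 (Or.inr (Or.inr rfl)), e3⟩
            · exact ⟨i, (hI i).2 (Or.inl rfl), e1⟩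
            · exact ⟨j, (hI j).2 (Or.inr (Or.inl rfl)), e2⟩) with e | e
        · exact Or.inl e
        · exact Or.inr (Or.inl e)
      · exact Or.inr (three_path o h3 hij hik hjk hI e1 e2 r3 e3)
    · by_cases e3 : out t F k = inn t F i
      · -- only e2 fails: (k, i, j): out k = inn i, out i = inn j, out j ≠ inn k
        exact Or.inr (three_path o h3 hik.symm hjk.symm hij I3 e3 e1 r2 e2)
      · -- e2, e3 fail: (k, i, j)
        exact (three_many o h3 hik.symm hjk.symm hij I3 r3 r1 r2 e3 e2).elim
  · by_cases e2 : out t F j = inn t F k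
    · by_cases e3 : out t F k = inn t F i
      · -- only e1 fails: (j, k, i): out j = inn k, out k = inn i, out i ≠ inn j
        exact Or.inr (three_path o h3 hjk hij.symm hik.symm I2 e2 e3 r1 e1)
      · exact (three_many o h3 hij hik hjk hI r1 r2 r3 e1 e3).elim
    · exact (three_many o h3 hjk hij.symm hik.symm I2 r2 r3 r1 e2 e1).elim

end Pool.Agent.Helper230.Five
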