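import Pool.Agent.Helper230.Five.Sim

/-! # Dissections into five mutually similar triangles: DisA -/

set_option autoImplicit false
noncomputable section
open scoped BigOperators
open Pool.Agent.Helper549.Tri Pool.Agent.Helper549.Tri.Basic Pool.Agent.Helper549.Tri.Setup
namespace Pool.Agent.Helper230.Five

theorem disA_t0 (V : Fin 3 → ℂ) (u v x y z : ℝ) (p : ℂ) :
    lam (tilesA V u v x y z 0) 0 p =
      u * v * (lam V 0 p + lam V 1 p + lam V 2 p) - v * lam V 1 p - u * lam V 2 p ∧
    lam (tilesA V u v x y z 0) 1 p = v * lam V 1 p ∧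
    lam (tilesA V u v x y z 0) 2 p = u * lam V 2 p := by
  refine ⟨?_, ?_, ?_⟩ <;>
  · simp only [lam0, lam1, lam2, cr, tilesA, bp, Matrix.cons_val_zero,
      Matrix.cons_val_one, Matrix.cons_val, Complex.sub_re, Complex.sub_im, Complex.add_re,
      Complex.add_im, Complex.smul_re, Complex.smul_im, smul_eq_mul]
    ring

theorem disA_t1 (V : Fin 3 → ℂ) (u v x y z : ℝ) (hs : x + y + z = 1) (p : ℂ) :
    lam (tilesA V u v x y z 1) 0 p = (1 - u) * lam V 2 p ∧
    lam (tilesA V u v x y z 1) 1 p = z * lam V 0 p - x * lam V 2 p ∧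
    lam (tilesA V u v x y z 1) 2 p = (1 - u) * (z * lam V 1 p - y * lam V 2 p) -
      u * (z * lam V 0 p - x * lam V 2 p) := by
  have hx : x = 1 - y - z := by linarith
  subst hx
  refine ⟨?_, ?_, ?_⟩ <;>
  · simp only [lam0, lam1, lam2, cr, tilesA, bp, Matrix.cons_val_zero,
      Matrix.cons_val_one, Matrix.cons_val, Complex.sub_re, Complex.sub_im, Complex.add_re,
      Complex.add_im, Complex.smul_re, Complex.smul_im, smul_eq_mul]
    ring

theorem disA_t2 (V : Fin 3 → ℂ) (u v x y z : ℝ) (hs : x + y + z = 1) (p : ℂ) :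
    lam (tilesA V u v x y z 2) 0 p = lam V 0 p ∧
    lam (tilesA V u v x y z 2) 1 p = x * lam V 1 p - y * lam V 0 p ∧
    lam (tilesA V u v x y z 2) 2 p = x * lam V 2 p - z * lam V 0 p := by
  have hx : x = 1 - y - z := by linarith
  subst hx
  refine ⟨?_, ?_, ?_⟩ <;>
  · simp only [lam0, lam1, lam2, cr, tilesA, bp, Matrix.cons_val_zero,
      Matrix.cons_val_one, Matrix.cons_val, Complex.sub_re, Complex.sub_im, Complex.add_re,
      Complex.add_im, Complex.smul_re, Complex.smul_im, smul_eq_mul]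
    try ring

theorem disA_t3 (V : Fin 3 → ℂ) (u v x y z : ℝ) (hs : x + y + z = 1) (p : ℂ) :
    lam (tilesA V u v x y z 3) 0 p = (1 - v) * lam V 1 p ∧
    lam (tilesA V u v x y z 3) 1 p = v * (x * lam V 1 p - y * lam V 0 p) -
      (1 - v) * (z * lam V 1 p - y * lam V 2 p) ∧
    lam (tilesA V u v x y z 3) 2 p = y * lam V 0 p - x * lam V 1 p := by
  have hx : x = 1 - y - z := by linarith
  subst hx
  refine ⟨?_, ?_, ?_⟩ <;>
  · simp only [lam0, lam1, lam2, cr, tilesA, bp, Matrix.cons_val_zero,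
      Matrix.cons_val_one, Matrix.cons_val, Complex.sub_re, Complex.sub_im, Complex.add_re,
      Complex.add_im, Complex.smul_re, Complex.smul_im, smul_eq_mul]
    ring

theorem disA_t4 (V : Fin 3 → ℂ) (u v x y z : ℝ) (hs : x + y + z = 1) (p : ℂ) :
    lam (tilesA V u v x y z 4) 0 p =
      v * lam V 1 p + u * lam V 2 p - u * v * (lam V 0 p + lam V 1 p + lam V 2 p) ∧
    lam (tilesA V u v x y z 4) 1 p = u * (z * lam V 0 p - x * lam V 2 p) -
      (1 - u) * (z * lam V 1 p - y * lam V 2 p) ∧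
    lam (tilesA V u v x y z 4) 2 p = (1 - v) * (z * lam V 1 p - y * lam V 2 p) -
      v * (x * lam V 1 p - y * lam V 0 p) := by
  have hx : x = 1 - y - z := by linarith
  subst hx
  refine ⟨?_, ?_, ?_⟩ <;>
  · simp only [lam0, lam1, lam2, cr, tilesA, bp, Matrix.cons_val_zero,
      Matrix.cons_val_one, Matrix.cons_val, Complex.sub_re, Complex.sub_im, Complex.add_re,
      Complex.add_im, Complex.smul_re, Complex.smul_im, smul_eq_mul]
    ring

theorem disA_dd (V : Fin 3 → ℂ) (u v x y z : ℝ) (hs : x + y + z = 1) :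
    dd (tilesA V u v x y z 0) = u * v * dd V ∧
    dd (tilesA V u v x y z 1) = (1 - u) * z * dd V ∧
    dd (tilesA V u v x y z 2) = x * dd V ∧
    dd (tilesA V u v x y z 3) = (1 - v) * y * dd V ∧
    dd (tilesA V u v x y z 4) = (y * v + z * u - u * v) * dd V := by
  have hx : x = 1 - y - z := by linarith
  subst hx
  refine ⟨?_, ?_, ?_, ?_, ?_⟩ <;>
  · simp only [dd, cr, tilesA, bp, Matrix.cons_val_zero,
      Matrix.cons_val_one, Matrix.cons_val, Complex.sub_re, Complex.sub_im, Complex.add_re,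
      Complex.add_im, Complex.smul_re, Complex.smul_im, smul_eq_mul]
    ring

/-- inclusion of the tiles, in barycentric coordinates -/
theorem disA_inc {L0 L1 L2 u v x y z : ℝ} (hu : 0 < u) (hu1 : u < 1)
    (hv : 0 < v) (hv1 : v < 1) (hx : 0 < x) (hy : 0 < y) (hz : 0 < z) (hs : x + y + z = 1)
    (hF : u * v < y * v + z * u)
    (h : (0 ≤ u * v * (L0 + L1 + L2) - v * L1 - u * L2 ∧ 0 ≤ v * L1 ∧ 0 ≤ u * L2) ∨
      (0 ≤ (1 - u) * L2 ∧ 0 ≤ z * L0 - x * L2 ∧
        0 ≤ (1 - u) * (z * L1 - y * L2) - u * (z * L0 - x * L2)) ∨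
      (0 ≤ L0 ∧ 0 ≤ x * L1 - y * L0 ∧ 0 ≤ x * L2 - z * L0) ∨
      (0 ≤ (1 - v) * L1 ∧ 0 ≤ v * (x * L1 - y * L0) - (1 - v) * (z * L1 - y * L2) ∧
        0 ≤ y * L0 - x * L1) ∨
      (0 ≤ v * L1 + u * L2 - u * v * (L0 + L1 + L2) ∧
        0 ≤ u * (z * L0 - x * L2) - (1 - u) * (z * L1 - y * L2) ∧
        0 ≤ (1 - v) * (z * L1 - y * L2) - v * (x * L1 - y * L0))) :
    0 ≤ L0 ∧ 0 ≤ L1 ∧ 0 ≤ L2 := by
  have u1 : 0 < 1 - u := by linarith
  have v1 : 0 < 1 - v := by linarith
  rcases h with ⟨a, b, c⟩ | ⟨a, b, c⟩ | ⟨a, b, c⟩ | ⟨a, b, c⟩ | ⟨a, b, c⟩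
  · have l1 : 0 ≤ L1 := nonneg_of_mul_nonneg_right b hv
    have l2 : 0 ≤ L2 := nonneg_of_mul_nonneg_right c hu
    refine ⟨?_, l1, l2⟩
    have e : 0 ≤ (u * v) * L0 := by
      have h1 := mul_nonneg u1.le b
      have h2 := mul_nonneg v1.le c
      nlinarith [h1, h2, a]
    exact nonneg_of_mul_nonneg_right e (mul_pos hu hv)
  · have l2 : 0 ≤ L2 := nonneg_of_mul_nonneg_right a u1
    have l0 : 0 ≤ L0 := by
      have : 0 ≤ z * L0 := by linarith [mul_nonneg hx.le l2]
      exact nonneg_of_mul_nonneg_right this hz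
    refine ⟨l0, ?_, l2⟩
    have e : 0 ≤ ((1 - u) * z) * L1 := by
      have h1 := mul_nonneg hu.le b
      have h2 := mul_nonneg (mul_nonneg u1.le hy.le) l2
      nlinarith [h1, h2, c]
    exact nonneg_of_mul_nonneg_right e (mul_pos u1 hz)
  · refine ⟨a, ?_, ?_⟩
    · have : 0 ≤ x * L1 := by linarith [mul_nonneg hy.le a]
      exact nonneg_of_mul_nonneg_right this hx
    · have : 0 ≤ x * L2 := by linarith [mul_nonneg hz.le a]
      exact nonneg_of_mul_nonneg_right this hx
  · have l1 : 0 ≤ L1 := nonneg_of_mul_nonneg_right a v1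
    have l0 : 0 ≤ L0 := by
      have : 0 ≤ y * L0 := by linarith [mul_nonneg hx.le l1]
      exact nonneg_of_mul_nonneg_right this hy
    refine ⟨l0, l1, ?_⟩
    have e : 0 ≤ ((1 - v) * y) * L2 := by
      have h1 := mul_nonneg hv.le c
      have h2 := mul_nonneg (mul_nonneg v1.le hz.le) l1
      nlinarith [h1, h2, b]
    exact nonneg_of_mul_nonneg_right e (mul_pos v1 hy)
  · have w : 0 < y * v + z * u - u * v := by linarith
    have hx' : x = 1 - y - z := by linarith
    have e1 : 0 ≤ (y * v + z * u - u * v) * L1 := by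
      have h1 := mul_nonneg hy.le a
      have h2 := mul_nonneg hu.le c
      have e : (y * v + z * u - u * v) * L1 = y * (v * L1 + u * L2 - u * v * (L0 + L1 + L2)) +
          u * ((1 - v) * (z * L1 - y * L2) - v * (x * L1 - y * L0)) := by
        rw [hx']; ring
      rw [e]; exact add_nonneg h1 h2
    have e2 : 0 ≤ (y * v + z * u - u * v) * L2 := by
      have h1 := mul_nonneg hz.le a
      have h2 := mul_nonneg hv.le b
      have e : (y * v + z * u - u * v) * L2 = z * (v * L1 + u * L2 - u * v * (L0 + L1 + L2)) +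
          v * (u * (z * L0 - x * L2) - (1 - u) * (z * L1 - y * L2)) := by
        rw [hx']; ring
      rw [e]; exact add_nonneg h1 h2
    have e0 : 0 ≤ (y * v + z * u - u * v) * L0 := by
      have h1 := mul_nonneg hx.le a
      have h2 := mul_nonneg v1.le b
      have h3 := mul_nonneg u1.le c
      have e : (y * v + z * u - u * v) * L0 = x * (v * L1 + u * L2 - u * v * (L0 + L1 + L2)) +
          (1 - v) * (u * (z * L0 - x * L2) - (1 - u) * (z * L1 - y * L2)) +
          (1 - u) * ((1 - v) * (z * L1 - y * L2) - v * (x * L1 - y * L0)) := by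
        rw [hx']; ring
      rw [e]; exact add_nonneg (add_nonneg h1 h2) h3
    exact ⟨nonneg_of_mul_nonneg_right e0 w, nonneg_of_mul_nonneg_right e1 w,
      nonneg_of_mul_nonneg_right e2 w⟩

/-- the tiles cover, in barycentric coordinates -/
theorem disA_cov {L0 L1 L2 u v x y z : ℝ} (hu : 0 < u) (hu1 : u < 1)
    (hv : 0 < v) (hv1 : v < 1) (hx : 0 < x) (hy : 0 < y) (hz : 0 < z) (hs : x + y + z = 1)
    (hF : u * v < y * v + z * u) (l0 : 0 ≤ L0) (l1 : 0 ≤ L1) (l2 : 0 ≤ L2) :
    (0 ≤ u * v * (L0 + L1 + L2) - v * L1 - u * L2 ∧ 0 ≤ v * L1 ∧ 0 ≤ u * L2) ∨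
      (0 ≤ (1 - u) * L2 ∧ 0 ≤ z * L0 - x * L2 ∧
        0 ≤ (1 - u) * (z * L1 - y * L2) - u * (z * L0 - x * L2)) ∨
      (0 ≤ L0 ∧ 0 ≤ x * L1 - y * L0 ∧ 0 ≤ x * L2 - z * L0) ∨
      (0 ≤ (1 - v) * L1 ∧ 0 ≤ v * (x * L1 - y * L0) - (1 - v) * (z * L1 - y * L2) ∧
        0 ≤ y * L0 - x * L1) ∨
      (0 ≤ v * L1 + u * L2 - u * v * (L0 + L1 + L2) ∧
        0 ≤ u * (z * L0 - x * L2) - (1 - u) * (z * L1 - y * L2) ∧
        0 ≤ (1 - v) * (z * L1 - y * L2) - v * (x * L1 - y * L0)) := by
  have u1 : 0 < 1 - u := by linarith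
  have v1 : 0 < 1 - v := by linarith
  have hx' : x = 1 - y - z := by linarith
  rcases le_or_gt 0 (u * v * (L0 + L1 + L2) - v * L1 - u * L2) with s | s
  · exact Or.inl ⟨s, mul_nonneg hv.le l1, mul_nonneg hu.le l2⟩
  right
  rcases le_total 0 (z * L1 - y * L2) with k | k
  · rcases le_total 0 (x * L2 - z * L0) with s1 | s1
    · right; left
      refine ⟨l0, ?_, s1⟩
      have h1 : 0 ≤ z * (x * L1 - y * L0) := by
        have e : z * (x * L1 - y * L0) = x * (z * L1 - y * L2) + y * (x * L2 - z * L0) := by ring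
        rw [e]; exact add_nonneg (mul_nonneg hx.le k) (mul_nonneg hy.le s1)
      exact nonneg_of_mul_nonneg_right h1 hz
    · rcases le_total 0 ((1 - u) * (z * L1 - y * L2) - u * (z * L0 - x * L2)) with s2 | s2
      · left
        exact ⟨mul_nonneg u1.le l2, by linarith, s2⟩
      · right; right; right
        refine ⟨by linarith, by linarith, ?_⟩
        have h1 : 0 ≤ (u * z) * ((1 - v) * (z * L1 - y * L2) - v * (x * L1 - y * L0)) := by
          have e : (u * z) * ((1 - v) * (z * L1 - y * L2) - v * (x * L1 - y * L0)) =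
              (v * y) * (-((1 - u) * (z * L1 - y * L2) - u * (z * L0 - x * L2))) +
                (y * v + z * u - u * v) * (z * L1 - y * L2) := by
            rw [hx']; ring
          rw [e]
          exact add_nonneg (mul_nonneg (mul_nonneg hv.le hy.le) (by linarith))
            (mul_nonneg (by linarith) k)
        exact nonneg_of_mul_nonneg_right h1 (mul_pos hu hz)
  · rcases le_total 0 (x * L1 - y * L0) with s1 | s1
    · right; left
      refine ⟨l0, s1, ?_⟩
      have h1 : 0 ≤ y * (x * L2 - z * L0) := by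
        have e : y * (x * L2 - z * L0) = x * (-(z * L1 - y * L2)) + z * (x * L1 - y * L0) := by
          ring
        rw [e]; exact add_nonneg (mul_nonneg hx.le (by linarith)) (mul_nonneg hz.le s1)
      exact nonneg_of_mul_nonneg_right h1 hy
    · rcases le_total 0 (v * (x * L1 - y * L0) - (1 - v) * (z * L1 - y * L2)) with s2 | s2
      · right; right; left
        exact ⟨mul_nonneg v1.le l1, s2, by linarith⟩
      · right; right; right
        refine ⟨by linarith, ?_, by linarith⟩
        have h1 : 0 ≤ (v * y) * (u * (z * L0 - x * L2) - (1 - u) * (z * L1 - y * L2)) := by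
          have e : (v * y) * (u * (z * L0 - x * L2) - (1 - u) * (z * L1 - y * L2)) =
              (u * z) * (-(v * (x * L1 - y * L0) - (1 - v) * (z * L1 - y * L2))) +
                (y * v + z * u - u * v) * (-(z * L1 - y * L2)) := by
            rw [hx']; ring
          rw [e]
          exact add_nonneg (mul_nonneg (mul_nonneg hu.le hz.le) (by linarith))
            (mul_nonneg (by linarith) (by linarith))
        exact nonneg_of_mul_nonneg_right h1 (mul_pos hv hy)

theorem disA_ccw (V : Fin 3 → ℂ) (hV : 0 < dd V) {u v x y z : ℝ} (hu : 0 < u) (hu1 : u < 1)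
    (hv : 0 < v) (hv1 : v < 1) (hx : 0 < x) (hy : 0 < y) (hz : 0 < z) (hs : x + y + z = 1)
    (hF : u * v < y * v + z * u) (i : Fin 5) : 0 < dd (tilesA V u v x y z i) := by
  obtain ⟨h0, h1, h2, h3, h4⟩ := disA_dd V u v x y z hs
  have u1 : 0 < 1 - u := by linarith
  have v1 : 0 < 1 - v := by linarith
  have w : 0 < y * v + z * u - u * v := by linarith
  fin_cases i
  · show 0 < dd (tilesA V u v x y z 0); rw [h0]; positivity
  · show 0 < dd (tilesA V u v x y z 1); rw [h1]; positivity
  · show 0 < dd (tilesA V u v x y z 2); rw [h2]; positivity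
  · show 0 < dd (tilesA V u v x y z 3); rw [h3]; positivity
  · show 0 < dd (tilesA V u v x y z 4); rw [h4]; positivity

theorem disA (V : Fin 3 → ℂ) (hV : 0 < dd V) {u v x y z : ℝ} (hu : 0 < u) (hu1 : u < 1)
    (hv : 0 < v) (hv1 : v < 1) (hx : 0 < x) (hy : 0 < y) (hz : 0 < z) (hs : x + y + z = 1)
    (hF : u * v < y * v + z * u) : Dis 5 V (tilesA V u v x y z) := by
  have hc := disA_ccw V hV hu hu1 hv hv1 hx hy hz hs hF
  refine ⟨hV, hc, ?_, ?_⟩
  · ext p
    rw [Set.mem_iUnion, mem_hull V hV, all3]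
    obtain ⟨a0, a1, a2⟩ := disA_t0 V u v x y z p
    obtain ⟨b0, b1, b2⟩ := disA_t1 V u v x y z hs p
    obtain ⟨c0, c1, c2⟩ := disA_t2 V u v x y z hs p
    obtain ⟨d0, d1, d2⟩ := disA_t3 V u v x y z hs p
    obtain ⟨e0, e1, e2⟩ := disA_t4 V u v x y z hs p
    constructor
    · rintro ⟨i, hi⟩
      rw [mem_hull _ (hc i), all3] at hi
      apply disA_inc hu hu1 hv hv1 hx hy hz hs hF
      fin_cases i
      · change 0 ≤ lam (tilesA V u v x y z 0) 0 p ∧ 0 ≤ lam (tilesA V u v x y z 0) 1 p ∧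
          0 ≤ lam (tilesA V u v x y z 0) 2 p at hi
        rw [a0, a1, a2] at hi
        exact Or.inl hi
      · change 0 ≤ lam (tilesA V u v x y z 1) 0 p ∧ 0 ≤ lam (tilesA V u v x y z 1) 1 p ∧
          0 ≤ lam (tilesA V u v x y z 1) 2 p at hi
        rw [b0, b1, b2] at hi
        exact Or.inr (Or.inl hi)
      · change 0 ≤ lam (tilesA V u v x y z 2) 0 p ∧ 0 ≤ lam (tilesA V u v x y z 2) 1 p ∧
          0 ≤ lam (tilesA V u v x y z 2) 2 p at hi
        rw [c0, c1, c2] at hi
        exact Or.inr (Or.inr (Or.inl hi))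
      · change 0 ≤ lam (tilesA V u v x y z 3) 0 p ∧ 0 ≤ lam (tilesA V u v x y z 3) 1 p ∧
          0 ≤ lam (tilesA V u v x y z 3) 2 p at hi
        rw [d0, d1, d2] at hi
        exact Or.inr (Or.inr (Or.inr (Or.inl hi)))
      · change 0 ≤ lam (tilesA V u v x y z 4) 0 p ∧ 0 ≤ lam (tilesA V u v x y z 4) 1 p ∧
          0 ≤ lam (tilesA V u v x y z 4) 2 p at hi
        rw [e0, e1, e2] at hi
        exact Or.inr (Or.inr (Or.inr (Or.inr hi)))
    · rintro ⟨l0, l1, l2⟩
      rcases disA_cov hu hu1 hv hv1 hx hy hz hs hF l0 l1 l2 with h | h | h | h | h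
      · refine ⟨0, ?_⟩
        rw [mem_hull _ (hc 0), all3, a0, a1, a2]
        exact h
      · refine ⟨1, ?_⟩
        rw [mem_hull _ (hc 1), all3, b0, b1, b2]
        exact h
      · refine ⟨2, ?_⟩
        rw [mem_hull _ (hc 2), all3, c0, c1, c2]
        exact h
      · refine ⟨3, ?_⟩
        rw [mem_hull _ (hc 3), all3, d0, d1, d2]
        exact h
      · refine ⟨4, ?_⟩
        rw [mem_hull _ (hc 4), all3, e0, e1, e2]
        exact h
  · have key : ∀ i j : Fin 5, i < j →
        Disjoint (interior (hull (tilesA V u v x y z i)))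
          (interior (hull (tilesA V u v x y z j))) := by
      intro i j hij
      rw [Set.disjoint_left]
      intro p hi hj
      rw [mem_int _ (hc i), all3] at hi
      rw [mem_int _ (hc j), all3] at hj
      obtain ⟨a0, a1, a2⟩ := disA_t0 V u v x y z p
      obtain ⟨b0, b1, b2⟩ := disA_t1 V u v x y z hs p
      obtain ⟨c0, c1, c2⟩ := disA_t2 V u v x y z hs p
      obtain ⟨d0, d1, d2⟩ := disA_t3 V u v x y z hs p
      obtain ⟨e0, e1, e2⟩ := disA_t4 V u v x y z hs p
      have u1 : 0 < 1 - u := by linarith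
      have v1 : 0 < 1 - v := by linarith
      have hx' : x = 1 - y - z := by linarith
      have w : 0 < y * v + z * u - u * v := by linarith
      -- abbreviations
      obtain ⟨al, hal⟩ : ∃ al, al = u * v * (lam V 0 p + lam V 1 p + lam V 2 p) -
        v * lam V 1 p - u * lam V 2 p := ⟨_, rfl⟩
      obtain ⟨be, hbe⟩ : ∃ be, be = z * lam V 0 p - x * lam V 2 p := ⟨_, rfl⟩
      obtain ⟨ga, hga⟩ : ∃ ga, ga = y * lam V 0 p - x * lam V 1 p := ⟨_, rfl⟩
      obtain ⟨ka, hka⟩ : ∃ ka, ka = z * lam V 1 p - y * lam V 2 p := ⟨_, rfl⟩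
      have H : ∀ i : Fin 5, (0 < lam (tilesA V u v x y z i) 0 p ∧
          0 < lam (tilesA V u v x y z i) 1 p ∧ 0 < lam (tilesA V u v x y z i) 2 p) →
          (i = 0 ∧ 0 < al ∧ 0 < lam V 1 p ∧ 0 < lam V 2 p) ∨
          (i = 1 ∧ 0 < be ∧ 0 < (1 - u) * ka - u * be ∧ 0 < ka) ∨
          (i = 2 ∧ 0 < lam V 0 p ∧ ga < 0 ∧ be < 0) ∨
          (i = 3 ∧ 0 < ga ∧ 0 < -(v * ga) - (1 - v) * ka ∧ ka < 0) ∨
          (i = 4 ∧ al < 0 ∧ 0 < u * be - (1 - u) * ka ∧ 0 < (1 - v) * ka + v * ga) := by
        intro i hi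
        fin_cases i
        · left
          change 0 < lam (tilesA V u v x y z 0) 0 p ∧ 0 < lam (tilesA V u v x y z 0) 1 p ∧
            0 < lam (tilesA V u v x y z 0) 2 p at hi
          rw [a0, a1, a2] at hi
          exact ⟨rfl, by rw [hal]; exact hi.1, pos_of_mul_pos_right hi.2.1 hv.le,
            pos_of_mul_pos_right hi.2.2 hu.le⟩
        · right; left
          change 0 < lam (tilesA V u v x y z 1) 0 p ∧ 0 < lam (tilesA V u v x y z 1) 1 p ∧
            0 < lam (tilesA V u v x y z 1) 2 p at hi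
          rw [b0, b1, b2, ← hbe, ← hka] at hi
          refine ⟨rfl, hi.2.1, hi.2.2, ?_⟩
          have h1 : 0 < (1 - u) * ka := by linarith [mul_pos hu hi.2.1, hi.2.2]
          exact pos_of_mul_pos_right h1 u1.le
        · right; right; left
          change 0 < lam (tilesA V u v x y z 2) 0 p ∧ 0 < lam (tilesA V u v x y z 2) 1 p ∧
            0 < lam (tilesA V u v x y z 2) 2 p at hi
          rw [c0, c1, c2] at hi
          exact ⟨rfl, hi.1, by rw [hga]; linarith [hi.2.1], by rw [hbe]; linarith [hi.2.2]⟩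
        · right; right; right; left
          change 0 < lam (tilesA V u v x y z 3) 0 p ∧ 0 < lam (tilesA V u v x y z 3) 1 p ∧
            0 < lam (tilesA V u v x y z 3) 2 p at hi
          rw [d0, d1, d2, ← hga, ← hka] at hi
          have h2 : 0 < -(v * ga) - (1 - v) * ka := by
            have e : -(v * ga) - (1 - v) * ka =
              v * (x * lam V 1 p - y * lam V 0 p) - (1 - v) * ka := by rw [hga]; ring
            rw [e]; exact hi.2.1
          refine ⟨rfl, hi.2.2, h2, ?_⟩
          have h1 : 0 < (1 - v) * (-ka) := by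
            have := mul_pos hv hi.2.2
            linarith
          have := pos_of_mul_pos_right h1 v1.le
          linarith
        · right; right; right; right
          change 0 < lam (tilesA V u v x y z 4) 0 p ∧ 0 < lam (tilesA V u v x y z 4) 1 p ∧
            0 < lam (tilesA V u v x y z 4) 2 p at hi
          rw [e0, e1, e2, ← hbe, ← hka] at hi
          refine ⟨rfl, by rw [hal]; linarith [hi.1], hi.2.1, ?_⟩
          have e : (1 - v) * ka + v * ga =
              (1 - v) * ka - v * (x * lam V 1 p - y * lam V 0 p) := by rw [hga]; ring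
          rw [e]; exact hi.2.2
      -- the identities
      have id1 : v * ((1 - u) * ka - u * be) = -(z * al) -
          lam V 2 p * (y * v + z * u - u * v) := by
        rw [hka, hbe, hal, hx']; ring
      have id3 : u * (-(v * ga) - (1 - v) * ka) = -(y * al) -
          lam V 1 p * (y * v + z * u - u * v) := by
        rw [hka, hga, hal, hx']; ring
      have id2 : x * al = -(lam V 0 p * (y * v + z * u - u * v)) + ga * (v * (1 - u)) +
          be * (u * (1 - v)) := by
        rw [hbe, hga, hal, hx']; ring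
      rcases H i hi with ⟨ei, f⟩ | ⟨ei, f⟩ | ⟨ei, f⟩ | ⟨ei, f⟩ | ⟨ei, f⟩
      · rcases H j hj with ⟨ej, g⟩ | ⟨ej, g⟩ | ⟨ej, g⟩ | ⟨ej, g⟩ | ⟨ej, g⟩
        · rw [ei, ej] at hij; exact absurd hij (by decide)
        · have h1 := mul_pos hv g.2.1
          have h2 := mul_pos hz f.1
          have h3 := mul_pos f.2.2 w
          linarith
        · have h1 := mul_pos hx f.1
          have h2 := mul_pos g.1 w
          have h3 := mul_neg_of_neg_of_pos g.2.1 (mul_pos hv u1)
          have h4 := mul_neg_of_neg_of_pos g.2.2 (mul_pos hu v1)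
          linarith
        · have h1 := mul_pos hu g.2.1
          have h2 := mul_pos hy f.1
          have h3 := mul_pos f.2.1 w
          linarith
        · linarith [f.1, g.1]
      · rcases H j hj with ⟨ej, g⟩ | ⟨ej, g⟩ | ⟨ej, g⟩ | ⟨ej, g⟩ | ⟨ej, g⟩
        · rw [ei, ej] at hij; exact absurd hij (by decide)
        · rw [ei, ej] at hij; exact absurd hij (by decide)
        · linarith [f.1, g.2.2]
        · linarith [f.2.2, g.2.2]
        · linarith [f.2.1, g.2.1]
      · rcases H j hj with ⟨ej, g⟩ | ⟨ej, g⟩ | ⟨ej, g⟩ | ⟨ej, g⟩ | ⟨ej, g⟩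
        · rw [ei, ej] at hij; exact absurd hij (by decide)
        · rw [ei, ej] at hij; exact absurd hij (by decide)
        · rw [ei, ej] at hij; exact absurd hij (by decide)
        · linarith [f.2.1, g.1]
        · have h1 := mul_neg_of_pos_of_neg hu f.2.2
          have h2 := mul_neg_of_pos_of_neg hv f.2.1
          have h3 : 0 < (1 - u) * (-ka) := by linarith [g.2.1]
          have h4 : 0 < (1 - v) * ka := by linarith [g.2.2]
          have h5 := pos_of_mul_pos_right h3 u1.le
          have h6 := pos_of_mul_pos_right h4 v1.le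
          linarith
      · rcases H j hj with ⟨ej, g⟩ | ⟨ej, g⟩ | ⟨ej, g⟩ | ⟨ej, g⟩ | ⟨ej, g⟩
        · rw [ei, ej] at hij; exact absurd hij (by decide)
        · rw [ei, ej] at hij; exact absurd hij (by decide)
        · rw [ei, ej] at hij; exact absurd hij (by decide)
        · rw [ei, ej] at hij; exact absurd hij (by decide)
        · linarith [f.2.1, g.2.2]
      · rcases H j hj with ⟨ej, g⟩ | ⟨ej, g⟩ | ⟨ej, g⟩ | ⟨ej, g⟩ | ⟨ej, g⟩ <;>
        · rw [ei, ej] at hij; exact absurd hij (by decide)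
    intro i j hij
    rcases lt_or_gt_of_ne hij with h | h
    · exact key i j h
    · exact (key j i h).symm

end Pool.Agent.Helper230.Five
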