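import Pool.Agent.Helper230.Five.Sim

/-! # Dissections into five mutually similar triangles: DisB -/

set_option autoImplicit false
noncomputable section
open scoped BigOperators
open Pool.Agent.Helper549.Tri Pool.Agent.Helper549.Tri.Basic Pool.Agent.Helper549.Tri.Setup
namespace Pool.Agent.Helper230.Five

theorem disB_dd (V : Fin 3 → ℂ) (s c x y z : ℝ) (hs : x + y + z = 1) :
    dd (tilesB V s c x y z 0) = x * dd V ∧
    dd (tilesB V s c x y z 1) = s * y * dd V ∧
    dd (tilesB V s c x y z 2) = c * (s * z - (1 - s) * x) * dd V ∧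
    dd (tilesB V s c x y z 3) = (1 - c) * z * dd V ∧
    dd (tilesB V s c x y z 4) = (1 - s) * ((1 - c) * y + c) * dd V := by
  obtain rfl : z = 1 - x - y := by linarith
  refine ⟨?_, ?_, ?_, ?_, ?_⟩ <;>
  · simp only [dd, cr, tilesB, bp, Matrix.cons_val_zero, Matrix.cons_val_one,
      Matrix.cons_val, Complex.sub_re, Complex.sub_im, Complex.add_re, Complex.add_im,
      Complex.smul_re, Complex.smul_im, smul_eq_mul]
    ring

theorem disB_l0 (V : Fin 3 → ℂ) (s c x y z : ℝ) (hs : x + y + z = 1) (p : ℂ) :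
    lam (tilesB V s c x y z 0) 0 p = lam V 0 p ∧
    lam (tilesB V s c x y z 0) 1 p = x * lam V 1 p - y * lam V 0 p ∧
    lam (tilesB V s c x y z 0) 2 p = x * lam V 2 p - z * lam V 0 p := by
  obtain rfl : z = 1 - x - y := by linarith
  refine ⟨?_, ?_, ?_⟩ <;>
  · simp only [lam0, lam1, lam2, cr, tilesB, bp, Matrix.cons_val_zero,
      Matrix.cons_val_one, Matrix.cons_val, Complex.sub_re, Complex.sub_im, Complex.add_re,
      Complex.add_im, Complex.smul_re, Complex.smul_im, smul_eq_mul]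
    try ring

theorem disB_l1 (V : Fin 3 → ℂ) (s c x y z : ℝ) (hs : x + y + z = 1) (p : ℂ) :
    lam (tilesB V s c x y z 1) 0 p = s * lam V 1 p ∧
    lam (tilesB V s c x y z 1) 1 p = (1 - s) * (x * lam V 1 p - y * lam V 0 p) +
      s * (y * lam V 2 p - z * lam V 1 p) ∧
    lam (tilesB V s c x y z 1) 2 p = y * lam V 0 p - x * lam V 1 p := by
  obtain rfl : z = 1 - x - y := by linarith
  refine ⟨?_, ?_, ?_⟩ <;>
  · simp only [lam0, lam1, lam2, cr, tilesB, bp, Matrix.cons_val_zero,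
      Matrix.cons_val_one, Matrix.cons_val, Complex.sub_re, Complex.sub_im, Complex.add_re,
      Complex.add_im, Complex.smul_re, Complex.smul_im, smul_eq_mul]
    try ring

theorem disB_l2 (V : Fin 3 → ℂ) (s c x y z : ℝ) (hs : x + y + z = 1) (p : ℂ) :
    lam (tilesB V s c x y z 2) 0 p = (1 - c) * ((1 - s) * (x * lam V 1 p - y * lam V 0 p) +
      s * (y * lam V 2 p - z * lam V 1 p)) + c * (s * lam V 2 p - (1 - s) * lam V 0 p) ∧
    lam (tilesB V s c x y z 2) 1 p = c * (z * lam V 0 p - x * lam V 2 p) ∧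
    lam (tilesB V s c x y z 2) 2 p = -((1 - s) * (x * lam V 1 p - y * lam V 0 p) +
      s * (y * lam V 2 p - z * lam V 1 p)) := by
  obtain rfl : z = 1 - x - y := by linarith
  refine ⟨?_, ?_, ?_⟩ <;>
  · simp only [lam0, lam1, lam2, cr, tilesB, bp, Matrix.cons_val_zero,
      Matrix.cons_val_one, Matrix.cons_val, Complex.sub_re, Complex.sub_im, Complex.add_re,
      Complex.add_im, Complex.smul_re, Complex.smul_im, smul_eq_mul]
    try ring

theorem disB_l3 (V : Fin 3 → ℂ) (s c x y z : ℝ) (hs : x + y + z = 1) (p : ℂ) :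
    lam (tilesB V s c x y z 3) 0 p = lam V 2 p ∧
    lam (tilesB V s c x y z 3) 1 p = (1 - c) * (z * lam V 0 p - x * lam V 2 p) ∧
    lam (tilesB V s c x y z 3) 2 p = (1 - c) * (z * lam V 1 p - y * lam V 2 p) -
      c * lam V 2 p := by
  obtain rfl : z = 1 - x - y := by linarith
  refine ⟨?_, ?_, ?_⟩ <;>
  · simp only [lam0, lam1, lam2, cr, tilesB, bp, Matrix.cons_val_zero,
      Matrix.cons_val_one, Matrix.cons_val, Complex.sub_re, Complex.sub_im, Complex.add_re,
      Complex.add_im, Complex.smul_re, Complex.smul_im, smul_eq_mul]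
    try ring

theorem disB_l4 (V : Fin 3 → ℂ) (s c x y z : ℝ) (hs : x + y + z = 1) (p : ℂ) :
    lam (tilesB V s c x y z 4) 0 p = (1 - s) * lam V 1 p ∧
    lam (tilesB V s c x y z 4) 1 p = c * lam V 2 p -
      (1 - c) * (z * lam V 1 p - y * lam V 2 p) ∧
    lam (tilesB V s c x y z 4) 2 p = -((1 - c) * ((1 - s) * (x * lam V 1 p - y * lam V 0 p) +
      s * (y * lam V 2 p - z * lam V 1 p)) + c * (s * lam V 2 p - (1 - s) * lam V 0 p)) := by
  obtain rfl : z = 1 - x - y := by linarith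
  refine ⟨?_, ?_, ?_⟩ <;>
  · simp only [lam0, lam1, lam2, cr, tilesB, bp, Matrix.cons_val_zero,
      Matrix.cons_val_one, Matrix.cons_val, Complex.sub_re, Complex.sub_im, Complex.add_re,
      Complex.add_im, Complex.smul_re, Complex.smul_im, smul_eq_mul]
    try ring

/-- nonnegativity from a positive multiple -/
theorem disB_nn {m a r : ℝ} (hm : 0 < m) (h : m * a = r) (hr : 0 ≤ r) : 0 ≤ a := by
  by_contra hcon
  push Not at hcon
  have := mul_neg_of_pos_of_neg hm hcon
  linarith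

theorem disB_pos {m a r : ℝ} (hm : 0 < m) (h : m * a = r) (hr : 0 < r) : 0 < a := by
  by_contra hcon
  push Not at hcon
  have := mul_nonpos_of_nonneg_of_nonpos hm.le hcon
  linarith

section arith

variable {s c x y z a b e : ℝ}

theorem disB_sub1 (hs0 : 0 < s) (hs1 : s < 1) (hx : 0 < x) (hy : 0 < y) (hz : 0 < z)
    (h0 : 0 ≤ s * b)
    (h1 : 0 ≤ (1 - s) * (x * b - y * a) + s * (y * e - z * b))
    (h2 : 0 ≤ y * a - x * b) : 0 ≤ a ∧ 0 ≤ b ∧ 0 ≤ e := by
  have hb : 0 ≤ b := disB_nn hs0 rfl h0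
  have hm : 0 < s * y := mul_pos hs0 hy
  have h1s : 0 < 1 - s := by linarith
  refine ⟨disB_nn hm (r := x * (s * b) + s * (y * a - x * b)) (by ring) (by positivity), hb, ?_⟩
  exact disB_nn hm (r := z * (s * b) + ((1 - s) * (x * b - y * a) + s * (y * e - z * b)) +
    (1 - s) * (y * a - x * b)) (by ring) (by positivity)

theorem disB_sub2 (hs0 : 0 < s) (hs1 : s < 1) (hc0 : 0 < c) (hc1 : c < 1) (hx : 0 < x)
    (hy : 0 < y) (hz : 0 < z) (hF : (1 - s) * x < s * z)
    (h0 : 0 ≤ (1 - c) * ((1 - s) * (x * b - y * a) + s * (y * e - z * b)) +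
      c * (s * e - (1 - s) * a))
    (h1 : 0 ≤ c * (z * a - x * e))
    (h2 : 0 ≤ -((1 - s) * (x * b - y * a) + s * (y * e - z * b))) :
    0 ≤ a ∧ 0 ≤ b ∧ 0 ≤ e := by
  have hm : 0 < c * (s * z - (1 - s) * x) := mul_pos hc0 (by linarith)
  have h1s : 0 < 1 - s := by linarith
  have h1c : 0 < 1 - c := by linarith
  set k0 := (1 - c) * ((1 - s) * (x * b - y * a) + s * (y * e - z * b)) +
      c * (s * e - (1 - s) * a) with hk0
  set k1 := c * (z * a - x * e) with hk1
  set k2 := -((1 - s) * (x * b - y * a) + s * (y * e - z * b)) with hk2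
  refine ⟨disB_nn hm (r := k0 * x + k1 * s + k2 * ((1 - c) * x)) (by rw [hk0, hk1, hk2]; ring)
      (by positivity),
    disB_nn hm (r := k0 * y + k2 * ((1 - c) * y + c)) (by rw [hk0, hk2]; ring)
      (by positivity),
    disB_nn hm (r := k0 * z + k1 * (1 - s) + k2 * ((1 - c) * z))
      (by rw [hk0, hk1, hk2]; ring) (by positivity)⟩

theorem disB_sub3 (hc0 : 0 < c) (hc1 : c < 1) (hx : 0 < x)
    (hy : 0 < y) (hz : 0 < z)
    (h0 : 0 ≤ e)
    (h1 : 0 ≤ (1 - c) * (z * a - x * e))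
    (h2 : 0 ≤ (1 - c) * (z * b - y * e) - c * e) :
    0 ≤ a ∧ 0 ≤ b ∧ 0 ≤ e := by
  have h1c : 0 < 1 - c := by linarith
  have hm : 0 < (1 - c) * z := mul_pos h1c hz
  refine ⟨disB_nn hm (r := e * ((1 - c) * x) + (1 - c) * (z * a - x * e)) (by ring)
      (by positivity),
    disB_nn hm (r := e * ((1 - c) * y + c) + ((1 - c) * (z * b - y * e) - c * e)) (by ring)
      (by positivity), h0⟩

theorem disB_sub4 (hs0 : 0 < s) (hs1 : s < 1) (hc0 : 0 < c) (hc1 : c < 1) (hx : 0 < x)
    (hy : 0 < y) (hz : 0 < z)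
    (h0 : 0 ≤ (1 - s) * b)
    (h1 : 0 ≤ c * e - (1 - c) * (z * b - y * e))
    (h2 : 0 ≤ -((1 - c) * ((1 - s) * (x * b - y * a) + s * (y * e - z * b)) +
      c * (s * e - (1 - s) * a))) :
    0 ≤ a ∧ 0 ≤ b ∧ 0 ≤ e := by
  have h1s : 0 < 1 - s := by linarith
  have h1c : 0 < 1 - c := by linarith
  have hm : 0 < (1 - s) * ((1 - c) * y + c) := by positivity
  set k0 := (1 - s) * b with hk0
  set k1 := c * e - (1 - c) * (z * b - y * e) with hk1
  set k2 := -((1 - c) * ((1 - s) * (x * b - y * a) + s * (y * e - z * b)) +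
      c * (s * e - (1 - s) * a)) with hk2
  refine ⟨disB_nn hm (r := k0 * ((1 - c) * x) + k1 * s + k2) (by rw [hk0, hk1, hk2]; ring)
      (by positivity),
    disB_nn hm (r := k0 * ((1 - c) * y + c)) (by rw [hk0]; ring) (by positivity),
    disB_nn hm (r := k0 * ((1 - c) * z) + k1 * (1 - s)) (by rw [hk0, hk1]; ring)
      (by positivity)⟩

/-- the cover -/
theorem disB_cov (hs0 : 0 < s) (hs1 : s < 1) (hx : 0 < x)
    (hy : 0 < y) (hz : 0 < z) (hF : (1 - s) * x < s * z) :
    (x * b - y * a < 0 ∨ 0 < z * a - x * e) →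
    (0 < x * b - y * a ∨ (1 - s) * (x * b - y * a) + s * (y * e - z * b) < 0) →
    0 ≤ z * a - x * e ∧ (1 - s) * (x * b - y * a) + s * (y * e - z * b) ≤ 0 := by
  have h1s : 0 < 1 - s := by linarith
  set U := x * b - y * a with hU
  set W := z * a - x * e with hW
  set Y := y * e - z * b with hY
  have hrel : x * Y + y * W + z * U = 0 := by rw [hU, hW, hY]; ring
  -- key relation: x * L1 = (x (1 - s) - s z) U - s y W
  have hkey : x * ((1 - s) * U + s * Y) = ((1 - s) * x - s * z) * U - s * y * W := by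
    have : x * Y = - y * W - z * U := by linarith
    calc x * ((1 - s) * U + s * Y) = x * (1 - s) * U + s * (x * Y) := by ring
      _ = x * (1 - s) * U + s * (- y * W - z * U) := by rw [this]
      _ = _ := by ring
  intro h1 h2
  have hd : (1 - s) * x - s * z < 0 := by linarith
  rcases le_or_gt 0 U with hU0 | hU0
  · have hW0 : 0 < W := by
      rcases h1 with h | h
      · exact absurd h (not_lt.2 hU0)
      · exact h
    refine ⟨hW0.le, ?_⟩
    by_contra hcon
    push Not at hcon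
    have h3 : 0 < x * ((1 - s) * U + s * Y) := mul_pos hx hcon
    have h4 : ((1 - s) * x - s * z) * U ≤ 0 := mul_nonpos_of_nonpos_of_nonneg hd.le hU0
    have h5 : 0 < s * y * W := by positivity
    linarith
  · have hL : (1 - s) * U + s * Y < 0 := by
      rcases h2 with h | h
      · exact absurd h (not_lt.2 hU0.le)
      · exact h
    refine ⟨?_, hL.le⟩
    by_contra hcon
    push Not at hcon
    have h3 : x * ((1 - s) * U + s * Y) < 0 := mul_neg_of_pos_of_neg hx hL
    have h4 : 0 < ((1 - s) * x - s * z) * U := mul_pos_of_neg_of_neg hd hU0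
    have h5 : s * y * W < 0 := mul_neg_of_pos_of_neg (by positivity) hcon
    linarith

/-- sign information in the interior of the fourth tile -/
theorem disB_i3 (hs0 : 0 < s) (hs1 : s < 1) (hc0 : 0 < c) (hc1 : c < 1) (hx : 0 < x)
    (hy : 0 < y) (hz : 0 < z) (hF : (1 - s) * x < s * z)
    (h0 : 0 < e)
    (h1 : 0 < (1 - c) * (z * a - x * e))
    (h2 : 0 < (1 - c) * (z * b - y * e) - c * e) :
    0 < z * a - x * e ∧ (1 - s) * (x * b - y * a) + s * (y * e - z * b) < 0 ∧
    (1 - c) * ((1 - s) * (x * b - y * a) + s * (y * e - z * b)) +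
      c * (s * e - (1 - s) * a) < 0 := by
  have h1s : 0 < 1 - s := by linarith
  have h1c : 0 < 1 - c := by linarith
  have hd : 0 < s * z - (1 - s) * x := by linarith
  have hm : 0 < (1 - c) * z := mul_pos h1c hz
  refine ⟨disB_pos h1c rfl h1, ?_, ?_⟩
  · rw [← neg_pos]
    refine disB_pos hm (r := e * (c * (s * z - (1 - s) * x)) +
      ((1 - c) * (z * a - x * e)) * ((1 - s) * y) +
      ((1 - c) * (z * b - y * e) - c * e) * (s * z - (1 - s) * x)) (by ring) ?_
    positivity
  · rw [← neg_pos]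
    refine disB_pos hm (r := ((1 - c) * (z * a - x * e)) * ((1 - s) * ((1 - c) * y + c)) +
      ((1 - c) * (z * b - y * e) - c * e) * ((1 - c) * (s * z - (1 - s) * x))) (by ring) ?_
    positivity

/-- sign information in the interior of the fifth tile -/
theorem disB_i4 (hs0 : 0 < s) (hs1 : s < 1) (hc0 : 0 < c) (hc1 : c < 1) (hx : 0 < x)
    (hy : 0 < y) (hz : 0 < z) (hF : (1 - s) * x < s * z)
    (h0 : 0 < (1 - s) * b)
    (h1 : 0 < c * e - (1 - c) * (z * b - y * e))
    (h2 : 0 < -((1 - c) * ((1 - s) * (x * b - y * a) + s * (y * e - z * b)) +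
      c * (s * e - (1 - s) * a))) :
    0 < z * a - x * e ∧ (1 - s) * (x * b - y * a) + s * (y * e - z * b) < 0 := by
  have h1s : 0 < 1 - s := by linarith
  have h1c : 0 < 1 - c := by linarith
  have hd : 0 < s * z - (1 - s) * x := by linarith
  have hm : 0 < (1 - s) * ((1 - c) * y + c) := by positivity
  set k0 := (1 - s) * b with hk0
  set k1 := c * e - (1 - c) * (z * b - y * e) with hk1
  set k2 := -((1 - c) * ((1 - s) * (x * b - y * a) + s * (y * e - z * b)) +
      c * (s * e - (1 - s) * a)) with hk2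
  refine ⟨disB_pos hm (r := k1 * (s * z - (1 - s) * x) + k2 * z)
    (by rw [hk1, hk2]; ring) (by positivity), ?_⟩
  rw [← neg_pos]
  refine disB_pos hm (r := k0 * (c * (s * z - (1 - s) * x)) + k2 * ((1 - s) * y))
    (by rw [hk0, hk2]; ring) (by positivity)

end arith

theorem disB (V : Fin 3 → ℂ) (hV : 0 < dd V) {s c x y z : ℝ} (hs0 : 0 < s) (hs1 : s < 1)
    (hc0 : 0 < c) (hc1 : c < 1) (hx : 0 < x) (hy : 0 < y) (hz : 0 < z) (hs : x + y + z = 1)
    (hF : (1 - s) * x < s * z) : Dis 5 V (tilesB V s c x y z) := by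
  have h1s : 0 < 1 - s := by linarith
  have h1c : 0 < 1 - c := by linarith
  have hd : 0 < s * z - (1 - s) * x := by linarith
  have hc : ∀ i : Fin 5, 0 < dd (tilesB V s c x y z i) := by
    obtain ⟨h0, h1, h2, h3, h4⟩ := disB_dd V s c x y z hs
    intro i
    fin_cases i
    · show 0 < dd (tilesB V s c x y z 0); rw [h0]; positivity
    · show 0 < dd (tilesB V s c x y z 1); rw [h1]; positivity
    · show 0 < dd (tilesB V s c x y z 2); rw [h2]; positivity
    · show 0 < dd (tilesB V s c x y z 3); rw [h3]; positivity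
    · show 0 < dd (tilesB V s c x y z 4); rw [h4]; positivity
  refine ⟨hV, hc, ?_, ?_⟩
  · ext p
    rw [Set.mem_iUnion, mem_hull V hV, all3]
    obtain ⟨a0, a1, a2⟩ := disB_l0 V s c x y z hs p
    obtain ⟨b0, b1, b2⟩ := disB_l1 V s c x y z hs p
    obtain ⟨c0, c1, c2⟩ := disB_l2 V s c x y z hs p
    obtain ⟨d0, d1, d2⟩ := disB_l3 V s c x y z hs p
    obtain ⟨e0, e1, e2⟩ := disB_l4 V s c x y z hs p
    constructor
    · rintro ⟨i, hi⟩
      rw [mem_hull _ (hc i), all3] at hi
      fin_cases i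
      · change 0 ≤ lam (tilesB V s c x y z 0) 0 p ∧ 0 ≤ lam (tilesB V s c x y z 0) 1 p ∧
          0 ≤ lam (tilesB V s c x y z 0) 2 p at hi
        rw [a0, a1, a2] at hi
        obtain ⟨h0, h1, h2⟩ := hi
        refine ⟨h0, ?_, ?_⟩
        · have h3 : 0 ≤ y * lam V 0 p := by positivity
          exact disB_nn hx rfl (by linarith)
        · have h3 : 0 ≤ z * lam V 0 p := by positivity
          exact disB_nn hx rfl (by linarith)
      · change 0 ≤ lam (tilesB V s c x y z 1) 0 p ∧ 0 ≤ lam (tilesB V s c x y z 1) 1 p ∧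
          0 ≤ lam (tilesB V s c x y z 1) 2 p at hi
        rw [b0, b1, b2] at hi
        exact disB_sub1 hs0 hs1 hx hy hz hi.1 hi.2.1 hi.2.2
      · change 0 ≤ lam (tilesB V s c x y z 2) 0 p ∧ 0 ≤ lam (tilesB V s c x y z 2) 1 p ∧
          0 ≤ lam (tilesB V s c x y z 2) 2 p at hi
        rw [c0, c1, c2] at hi
        exact disB_sub2 hs0 hs1 hc0 hc1 hx hy hz hF hi.1 hi.2.1 hi.2.2
      · change 0 ≤ lam (tilesB V s c x y z 3) 0 p ∧ 0 ≤ lam (tilesB V s c x y z 3) 1 p ∧
          0 ≤ lam (tilesB V s c x y z 3) 2 p at hi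
        rw [d0, d1, d2] at hi
        exact disB_sub3 hc0 hc1 hx hy hz hi.1 hi.2.1 hi.2.2
      · change 0 ≤ lam (tilesB V s c x y z 4) 0 p ∧ 0 ≤ lam (tilesB V s c x y z 4) 1 p ∧
          0 ≤ lam (tilesB V s c x y z 4) 2 p at hi
        rw [e0, e1, e2] at hi
        exact disB_sub4 hs0 hs1 hc0 hc1 hx hy hz hi.1 hi.2.1 hi.2.2
    · rintro ⟨hA, hB, hE⟩
      by_cases t0 : 0 ≤ x * lam V 1 p - y * lam V 0 p ∧ z * lam V 0 p - x * lam V 2 p ≤ 0
      · refine ⟨0, ?_⟩
        rw [mem_hull _ (hc 0), all3, a0, a1, a2]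
        exact ⟨hA, t0.1, by linarith [t0.2]⟩
      by_cases t1 : x * lam V 1 p - y * lam V 0 p ≤ 0 ∧
          0 ≤ (1 - s) * (x * lam V 1 p - y * lam V 0 p) + s * (y * lam V 2 p - z * lam V 1 p)
      · refine ⟨1, ?_⟩
        rw [mem_hull _ (hc 1), all3, b0, b1, b2]
        exact ⟨by positivity, t1.2, by linarith [t1.1]⟩
      have key := disB_cov (a := lam V 0 p) (b := lam V 1 p) (e := lam V 2 p) hs0 hs1 hx hy hz hF
        (by
          by_contra hcon
          push Not at hcon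
          exact t0 hcon)
        (by
          by_contra hcon
          push Not at hcon
          exact t1 hcon)
      rcases le_total 0 ((1 - c) * ((1 - s) * (x * lam V 1 p - y * lam V 0 p) +
        s * (y * lam V 2 p - z * lam V 1 p)) + c * (s * lam V 2 p - (1 - s) * lam V 0 p))
        with hK | hK
      · refine ⟨2, ?_⟩
        rw [mem_hull _ (hc 2), all3, c0, c1, c2]
        exact ⟨hK, mul_nonneg hc0.le key.1, by linarith [key.2]⟩
      · rcases le_total 0 ((1 - c) * (z * lam V 1 p - y * lam V 2 p) - c * lam V 2 p)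
          with hQ | hQ
        · refine ⟨3, ?_⟩
          rw [mem_hull _ (hc 3), all3, d0, d1, d2]
          exact ⟨hE, mul_nonneg h1c.le key.1, hQ⟩
        · refine ⟨4, ?_⟩
          rw [mem_hull _ (hc 4), all3, e0, e1, e2]
          exact ⟨mul_nonneg h1s.le hB, by linarith, by linarith⟩
  · have key : ∀ i j : Fin 5, i < j →
        Disjoint (interior (hull (tilesB V s c x y z i)))
          (interior (hull (tilesB V s c x y z j))) := by
      intro i j hij
      rw [Set.disjoint_left]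
      intro p hi hj
      rw [mem_int _ (hc i), all3] at hi
      rw [mem_int _ (hc j), all3] at hj
      obtain ⟨a0, a1, a2⟩ := disB_l0 V s c x y z hs p
      obtain ⟨b0, b1, b2⟩ := disB_l1 V s c x y z hs p
      obtain ⟨c0, c1, c2⟩ := disB_l2 V s c x y z hs p
      obtain ⟨d0, d1, d2⟩ := disB_l3 V s c x y z hs p
      obtain ⟨e0, e1, e2⟩ := disB_l4 V s c x y z hs p
      set U := x * lam V 1 p - y * lam V 0 p with hU
      set W := z * lam V 0 p - x * lam V 2 p with hW
      set L := (1 - s) * U + s * (y * lam V 2 p - z * lam V 1 p) with hL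
      set K := (1 - c) * L + c * (s * lam V 2 p - (1 - s) * lam V 0 p) with hK
      set Q := (1 - c) * (z * lam V 1 p - y * lam V 2 p) - c * lam V 2 p with hQ
      have H : ∀ i : Fin 5, (0 < lam (tilesB V s c x y z i) 0 p ∧
          0 < lam (tilesB V s c x y z i) 1 p ∧ 0 < lam (tilesB V s c x y z i) 2 p) →
          (i = 0 ∧ 0 < U ∧ W < 0) ∨ (i = 1 ∧ U < 0 ∧ 0 < L) ∨
          (i = 2 ∧ 0 < W ∧ L < 0 ∧ 0 < K) ∨ (i = 3 ∧ 0 < W ∧ L < 0 ∧ K < 0 ∧ 0 < Q) ∨
          (i = 4 ∧ 0 < W ∧ L < 0 ∧ K < 0 ∧ Q < 0) := by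
        intro i hi
        fin_cases i
        · left
          change 0 < lam (tilesB V s c x y z 0) 0 p ∧ 0 < lam (tilesB V s c x y z 0) 1 p ∧
            0 < lam (tilesB V s c x y z 0) 2 p at hi
          rw [a0, a1, a2] at hi
          exact ⟨rfl, hi.2.1, by rw [hW]; linarith [hi.2.2]⟩
        · right; left
          change 0 < lam (tilesB V s c x y z 1) 0 p ∧ 0 < lam (tilesB V s c x y z 1) 1 p ∧
            0 < lam (tilesB V s c x y z 1) 2 p at hi
          rw [b0, b1, b2] at hi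
          exact ⟨rfl, by rw [hU]; linarith [hi.2.2], hi.2.1⟩
        · right; right; left
          change 0 < lam (tilesB V s c x y z 2) 0 p ∧ 0 < lam (tilesB V s c x y z 2) 1 p ∧
            0 < lam (tilesB V s c x y z 2) 2 p at hi
          rw [c0, c1, c2] at hi
          exact ⟨rfl, disB_pos hc0 rfl hi.2.1, by linarith [hi.2.2], hi.1⟩
        · right; right; right; left
          change 0 < lam (tilesB V s c x y z 3) 0 p ∧ 0 < lam (tilesB V s c x y z 3) 1 p ∧
            0 < lam (tilesB V s c x y z 3) 2 p at hi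
          rw [d0, d1, d2] at hi
          obtain ⟨f1, f2, f3⟩ := disB_i3 hs0 hs1 hc0 hc1 hx hy hz hF hi.1 hi.2.1 hi.2.2
          exact ⟨rfl, f1, f2, f3, hi.2.2⟩
        · right; right; right; right
          change 0 < lam (tilesB V s c x y z 4) 0 p ∧ 0 < lam (tilesB V s c x y z 4) 1 p ∧
            0 < lam (tilesB V s c x y z 4) 2 p at hi
          rw [e0, e1, e2] at hi
          obtain ⟨f1, f2⟩ := disB_i4 hs0 hs1 hc0 hc1 hx hy hz hF hi.1 hi.2.1 hi.2.2
          exact ⟨rfl, f1, f2, by linarith [hi.2.2], by rw [hQ]; linarith [hi.2.1]⟩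
      rcases H i hi with ⟨ei, f⟩ | ⟨ei, f⟩ | ⟨ei, f⟩ | ⟨ei, f⟩ | ⟨ei, f⟩ <;>
        rcases H j hj with ⟨ej, g⟩ | ⟨ej, g⟩ | ⟨ej, g⟩ | ⟨ej, g⟩ | ⟨ej, g⟩ <;>
        first
        | (exfalso; rw [ei, ej] at hij; exact absurd hij (by decide))
        | linarith [f.1, f.2, g.1, g.2]
    intro i j hij
    rcases lt_or_gt_of_ne hij with h | h
    · exact key i j h
    · exact (key j i h).symm

end Pool.Agent.Helper230.Five
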