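import Pool.Agent.Helper549.Tri.Setup

/-! # A dissection of a triangle into five triangles (similar to it if the angles are
`π/6`, `π/6`, `2π/3`) -/

set_option autoImplicit false
noncomputable section
open scoped BigOperators
open Pool.Agent.Helper549.Tri Pool.Agent.Helper549.Tri.Basic Pool.Agent.Helper549.Tri.Setup

namespace Pool.Agent.Helper230.Five

def pH1 (V : Fin 3 → ℂ) : ℂ := (2 / 3 : ℝ) • V 1 + (1 / 3 : ℝ) • V 2
def pH2 (V : Fin 3 → ℂ) : ℂ := (1 / 3 : ℝ) • V 1 + (2 / 3 : ℝ) • V 2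
def pF (V : Fin 3 → ℂ) : ℂ := (1 / 3 : ℝ) • V 0 + (1 / 3 : ℝ) • V 1 + (1 / 3 : ℝ) • V 2

/-- the five tiles -/
def tiles (V : Fin 3 → ℂ) : Fin 5 → Fin 3 → ℂ :=
  ![![pH1 V, V 0, V 1], ![pH2 V, V 2, V 0], ![pF V, V 0, pH1 V], ![pF V, pH2 V, V 0],
    ![pF V, pH1 V, pH2 V]]

theorem dd_tiles (V : Fin 3 → ℂ) : dd (tiles V 0) = dd V / 3 ∧ dd (tiles V 1) = dd V / 3 ∧
    dd (tiles V 2) = dd V / 9 ∧ dd (tiles V 3) = dd V / 9 ∧ dd (tiles V 4) = dd V / 9 := by
  refine ⟨?_, ?_, ?_, ?_, ?_⟩ <;>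
  · simp only [dd, cr, tiles, pH1, pH2, pF, Matrix.cons_val_zero, Matrix.cons_val_one,
      Matrix.cons_val, Complex.sub_re, Complex.sub_im, Complex.add_re, Complex.add_im,
      Complex.smul_re, Complex.smul_im, smul_eq_mul]
    ring

theorem lam0 (v : Fin 3 → ℂ) (p : ℂ) : lam v 0 p = cr (v 2 - v 1) (p - v 1) := rfl
theorem lam1 (v : Fin 3 → ℂ) (p : ℂ) : lam v 1 p = cr (v 0 - v 2) (p - v 2) := rfl
theorem lam2 (v : Fin 3 → ℂ) (p : ℂ) : lam v 2 p = cr (v 1 - v 0) (p - v 0) := rfl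

theorem lam_t0 (V : Fin 3 → ℂ) (p : ℂ) : lam (tiles V 0) 0 p = lam V 2 p ∧
    lam (tiles V 0) 1 p = lam V 0 p / 3 ∧
    lam (tiles V 0) 2 p = (lam V 1 p - 2 * lam V 2 p) / 3 := by
  refine ⟨?_, ?_, ?_⟩ <;>
  · simp only [lam0, lam1, lam2, cr, tiles, pH1, pH2, pF, Matrix.cons_val_zero,
      Matrix.cons_val_one, Matrix.cons_val, Complex.sub_re, Complex.sub_im, Complex.add_re,
      Complex.add_im, Complex.smul_re, Complex.smul_im, smul_eq_mul]
    try ring

theorem lam_t1 (V : Fin 3 → ℂ) (p : ℂ) : lam (tiles V 1) 0 p = lam V 1 p ∧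
    lam (tiles V 1) 1 p = (lam V 2 p - 2 * lam V 1 p) / 3 ∧
    lam (tiles V 1) 2 p = lam V 0 p / 3 := by
  refine ⟨?_, ?_, ?_⟩ <;>
  · simp only [lam0, lam1, lam2, cr, tiles, pH1, pH2, pF, Matrix.cons_val_zero,
      Matrix.cons_val_one, Matrix.cons_val, Complex.sub_re, Complex.sub_im, Complex.add_re,
      Complex.add_im, Complex.smul_re, Complex.smul_im, smul_eq_mul]
    try ring

theorem lam_t2 (V : Fin 3 → ℂ) (p : ℂ) :
    lam (tiles V 2) 0 p = (2 * lam V 2 p - lam V 1 p) / 3 ∧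
    lam (tiles V 2) 1 p = (lam V 0 p + lam V 1 p - 2 * lam V 2 p) / 9 ∧
    lam (tiles V 2) 2 p = (lam V 1 p - lam V 2 p) / 3 := by
  refine ⟨?_, ?_, ?_⟩ <;>
  · simp only [lam0, lam1, lam2, cr, tiles, pH1, pH2, pF, Matrix.cons_val_zero,
      Matrix.cons_val_one, Matrix.cons_val, Complex.sub_re, Complex.sub_im, Complex.add_re,
      Complex.add_im, Complex.smul_re, Complex.smul_im, smul_eq_mul]
    ring

theorem lam_t3 (V : Fin 3 → ℂ) (p : ℂ) :
    lam (tiles V 3) 0 p = (2 * lam V 1 p - lam V 2 p) / 3 ∧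
    lam (tiles V 3) 1 p = (lam V 2 p - lam V 1 p) / 3 ∧
    lam (tiles V 3) 2 p = (lam V 0 p + lam V 2 p - 2 * lam V 1 p) / 9 := by
  refine ⟨?_, ?_, ?_⟩ <;>
  · simp only [lam0, lam1, lam2, cr, tiles, pH1, pH2, pF, Matrix.cons_val_zero,
      Matrix.cons_val_one, Matrix.cons_val, Complex.sub_re, Complex.sub_im, Complex.add_re,
      Complex.add_im, Complex.smul_re, Complex.smul_im, smul_eq_mul]
    ring

theorem lam_t4 (V : Fin 3 → ℂ) (p : ℂ) :
    lam (tiles V 4) 0 p = lam V 0 p / 3 ∧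
    lam (tiles V 4) 1 p = (2 * lam V 1 p - lam V 2 p - lam V 0 p) / 9 ∧
    lam (tiles V 4) 2 p = (2 * lam V 2 p - lam V 1 p - lam V 0 p) / 9 := by
  refine ⟨?_, ?_, ?_⟩ <;>
  · simp only [lam0, lam1, lam2, cr, tiles, pH1, pH2, pF, Matrix.cons_val_zero,
      Matrix.cons_val_one, Matrix.cons_val, Complex.sub_re, Complex.sub_im, Complex.add_re,
      Complex.add_im, Complex.smul_re, Complex.smul_im, smul_eq_mul]
    ring

theorem ccw_tiles (V : Fin 3 → ℂ) (hV : 0 < dd V) (i : Fin 5) : 0 < dd (tiles V i) := by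
  obtain ⟨h0, h1, h2, h3, h4⟩ := dd_tiles V
  fin_cases i
  · show 0 < dd (tiles V 0); rw [h0]; positivity
  · show 0 < dd (tiles V 1); rw [h1]; positivity
  · show 0 < dd (tiles V 2); rw [h2]; positivity
  · show 0 < dd (tiles V 3); rw [h3]; positivity
  · show 0 < dd (tiles V 4); rw [h4]; positivity

theorem all3 (f : Fin 3 → Prop) : (∀ k, f k) ↔ f 0 ∧ f 1 ∧ f 2 := by
  constructor
  · intro h; exact ⟨h 0, h 1, h 2⟩
  · rintro ⟨h0, h1, h2⟩ k
    fin_cases k
    · exact h0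
    · exact h1
    · exact h2

theorem dis_tiles (V : Fin 3 → ℂ) (hV : 0 < dd V) : Dis 5 V (tiles V) := by
  have hc := ccw_tiles V hV
  refine ⟨hV, hc, ?_, ?_⟩
  · ext p
    rw [Set.mem_iUnion, mem_hull V hV, all3]
    obtain ⟨a0, a1, a2⟩ := lam_t0 V p
    obtain ⟨b0, b1, b2⟩ := lam_t1 V p
    obtain ⟨c0, c1, c2⟩ := lam_t2 V p
    obtain ⟨d0, d1, d2⟩ := lam_t3 V p
    obtain ⟨e0, e1, e2⟩ := lam_t4 V p
    constructor
    · rintro ⟨i, hi⟩
      rw [mem_hull _ (hc i), all3] at hi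
      fin_cases i
      · change 0 ≤ lam (tiles V 0) 0 p ∧ 0 ≤ lam (tiles V 0) 1 p ∧ 0 ≤ lam (tiles V 0) 2 p at hi
        rw [a0, a1, a2] at hi
        refine ⟨by linarith [hi.1, hi.2.1, hi.2.2], by linarith [hi.1, hi.2.1, hi.2.2],
          by linarith [hi.1, hi.2.1, hi.2.2]⟩
      · change 0 ≤ lam (tiles V 1) 0 p ∧ 0 ≤ lam (tiles V 1) 1 p ∧ 0 ≤ lam (tiles V 1) 2 p at hi
        rw [b0, b1, b2] at hi
        refine ⟨by linarith [hi.1, hi.2.1, hi.2.2], by linarith [hi.1, hi.2.1, hi.2.2],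
          by linarith [hi.1, hi.2.1, hi.2.2]⟩
      · change 0 ≤ lam (tiles V 2) 0 p ∧ 0 ≤ lam (tiles V 2) 1 p ∧ 0 ≤ lam (tiles V 2) 2 p at hi
        rw [c0, c1, c2] at hi
        refine ⟨by linarith [hi.1, hi.2.1, hi.2.2], by linarith [hi.1, hi.2.1, hi.2.2],
          by linarith [hi.1, hi.2.1, hi.2.2]⟩
      · change 0 ≤ lam (tiles V 3) 0 p ∧ 0 ≤ lam (tiles V 3) 1 p ∧ 0 ≤ lam (tiles V 3) 2 p at hi
        rw [d0, d1, d2] at hi
        refine ⟨by linarith [hi.1, hi.2.1, hi.2.2], by linarith [hi.1, hi.2.1, hi.2.2],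
          by linarith [hi.1, hi.2.1, hi.2.2]⟩
      · change 0 ≤ lam (tiles V 4) 0 p ∧ 0 ≤ lam (tiles V 4) 1 p ∧ 0 ≤ lam (tiles V 4) 2 p at hi
        rw [e0, e1, e2] at hi
        refine ⟨by linarith [hi.1, hi.2.1, hi.2.2], by linarith [hi.1, hi.2.1, hi.2.2],
          by linarith [hi.1, hi.2.1, hi.2.2]⟩
    · rintro ⟨hx, hy, hz⟩
      rcases le_total (2 * lam V 2 p) (lam V 1 p) with s1 | s1
      · refine ⟨0, ?_⟩
        rw [mem_hull _ (hc 0), all3, a0, a1, a2]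
        refine ⟨by linarith, by linarith, by linarith⟩
      · rcases le_total (2 * lam V 1 p) (lam V 2 p) with s2 | s2
        · refine ⟨1, ?_⟩
          rw [mem_hull _ (hc 1), all3, b0, b1, b2]
          refine ⟨by linarith, by linarith, by linarith⟩
        · rcases le_total (lam V 2 p) (lam V 1 p) with s3 | s3
          · rcases le_total (2 * lam V 2 p) (lam V 0 p + lam V 1 p) with s4 | s4
            · refine ⟨2, ?_⟩
              rw [mem_hull _ (hc 2), all3, c0, c1, c2]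
              refine ⟨by linarith, by linarith, by linarith⟩
            · refine ⟨4, ?_⟩
              rw [mem_hull _ (hc 4), all3, e0, e1, e2]
              refine ⟨by linarith, by linarith, by linarith⟩
          · rcases le_total (2 * lam V 1 p) (lam V 0 p + lam V 2 p) with s4 | s4
            · refine ⟨3, ?_⟩
              rw [mem_hull _ (hc 3), all3, d0, d1, d2]
              refine ⟨by linarith, by linarith, by linarith⟩
            · refine ⟨4, ?_⟩
              rw [mem_hull _ (hc 4), all3, e0, e1, e2]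
              refine ⟨by linarith, by linarith, by linarith⟩
  · have key : ∀ i j : Fin 5, i < j →
        Disjoint (interior (hull (tiles V i))) (interior (hull (tiles V j))) := by
      intro i j hij
      rw [Set.disjoint_left]
      intro p hi hj
      rw [mem_int _ (hc i), all3] at hi
      rw [mem_int _ (hc j), all3] at hj
      obtain ⟨a0, a1, a2⟩ := lam_t0 V p
      obtain ⟨b0, b1, b2⟩ := lam_t1 V p
      obtain ⟨c0, c1, c2⟩ := lam_t2 V p
      obtain ⟨d0, d1, d2⟩ := lam_t3 V p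
      obtain ⟨e0, e1, e2⟩ := lam_t4 V p
      have H : ∀ i : Fin 5, (0 < lam (tiles V i) 0 p ∧ 0 < lam (tiles V i) 1 p ∧
          0 < lam (tiles V i) 2 p) →
          (i = 0 ∧ 0 < lam V 2 p ∧ 0 < lam V 0 p ∧ 2 * lam V 2 p < lam V 1 p) ∨
          (i = 1 ∧ 0 < lam V 1 p ∧ 0 < lam V 0 p ∧ 2 * lam V 1 p < lam V 2 p) ∨
          (i = 2 ∧ lam V 1 p < 2 * lam V 2 p ∧ 2 * lam V 2 p < lam V 0 p + lam V 1 p ∧
            lam V 2 p < lam V 1 p) ∨
          (i = 3 ∧ lam V 2 p < 2 * lam V 1 p ∧ 2 * lam V 1 p < lam V 0 p + lam V 2 p ∧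
            lam V 1 p < lam V 2 p) ∨
          (i = 4 ∧ 0 < lam V 0 p ∧ lam V 2 p + lam V 0 p < 2 * lam V 1 p ∧
            lam V 1 p + lam V 0 p < 2 * lam V 2 p) := by
        intro i hi
        fin_cases i
        · left
          change 0 < lam (tiles V 0) 0 p ∧ 0 < lam (tiles V 0) 1 p ∧ 0 < lam (tiles V 0) 2 p at hi
          rw [a0, a1, a2] at hi
          exact ⟨rfl, by linarith [hi.1], by linarith [hi.2.1], by linarith [hi.2.2]⟩
        · right; left
          change 0 < lam (tiles V 1) 0 p ∧ 0 < lam (tiles V 1) 1 p ∧ 0 < lam (tiles V 1) 2 p at hi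
          rw [b0, b1, b2] at hi
          exact ⟨rfl, by linarith [hi.1], by linarith [hi.2.2], by linarith [hi.2.1]⟩
        · right; right; left
          change 0 < lam (tiles V 2) 0 p ∧ 0 < lam (tiles V 2) 1 p ∧ 0 < lam (tiles V 2) 2 p at hi
          rw [c0, c1, c2] at hi
          exact ⟨rfl, by linarith [hi.1], by linarith [hi.2.1], by linarith [hi.2.2]⟩
        · right; right; right; left
          change 0 < lam (tiles V 3) 0 p ∧ 0 < lam (tiles V 3) 1 p ∧ 0 < lam (tiles V 3) 2 p at hi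
          rw [d0, d1, d2] at hi
          exact ⟨rfl, by linarith [hi.1], by linarith [hi.2.2], by linarith [hi.2.1]⟩
        · right; right; right; right
          change 0 < lam (tiles V 4) 0 p ∧ 0 < lam (tiles V 4) 1 p ∧ 0 < lam (tiles V 4) 2 p at hi
          rw [e0, e1, e2] at hi
          exact ⟨rfl, by linarith [hi.1], by linarith [hi.2.1], by linarith [hi.2.2]⟩
      rcases H i hi with ⟨ei, f⟩ | ⟨ei, f⟩ | ⟨ei, f⟩ | ⟨ei, f⟩ | ⟨ei, f⟩ <;>
        rcases H j hj with ⟨ej, g⟩ | ⟨ej, g⟩ | ⟨ej, g⟩ | ⟨ej, g⟩ | ⟨ej, g⟩ <;>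
        first
        | (exfalso; rw [ei, ej] at hij; exact absurd hij (by decide))
        | linarith [f.1, f.2.1, f.2.2, g.1, g.2.1, g.2.2]
    intro i j hij
    rcases lt_or_gt_of_ne hij with h | h
    · exact key i j h
    · exact (key j i h).symm

/-- squared norm -/
def nsq (z : ℂ) : ℝ := z.re ^ 2 + z.im ^ 2

theorem norm_of_nsq {z w : ℂ} {r : ℝ} (hr : 0 < r) (h : nsq z = r ^ 2 * nsq w) :
    ‖z‖ = r * ‖w‖ := by
  have h1 : ‖z‖ ^ 2 = nsq z := by
    rw [← Complex.normSq_eq_norm_sq, Complex.normSq_apply]; unfold nsq; ring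
  have h2 : ‖w‖ ^ 2 = nsq w := by
    rw [← Complex.normSq_eq_norm_sq, Complex.normSq_apply]; unfold nsq; ring
  have h3 : ‖z‖ ^ 2 = (r * ‖w‖) ^ 2 := by rw [h1, h, mul_pow, h2]
  exact (pow_left_inj₀ (norm_nonneg _) (by positivity) two_ne_zero).1 h3

/-- a tile with the right side lengths -/
theorem sim_of {V S : Fin 3 → ℂ} {r : ℝ} (hr : 0 < r)
    (h01 : nsq (S 0 - S 1) = r ^ 2 * nsq (V 0 - V 1))
    (h02 : nsq (S 0 - S 2) = r ^ 2 * nsq (V 0 - V 2))
    (h12 : nsq (S 1 - S 2) = r ^ 2 * nsq (V 1 - V 2)) (k l : Fin 3) :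
    dist (S k) (S l) = r * dist (V k) (V l) := by
  have d01 : dist (S 0) (S 1) = r * dist (V 0) (V 1) := by
    rw [dist_eq_norm, dist_eq_norm]; exact norm_of_nsq hr h01
  have d02 : dist (S 0) (S 2) = r * dist (V 0) (V 2) := by
    rw [dist_eq_norm, dist_eq_norm]; exact norm_of_nsq hr h02
  have d12 : dist (S 1) (S 2) = r * dist (V 1) (V 2) := by
    rw [dist_eq_norm, dist_eq_norm]; exact norm_of_nsq hr h12
  fin_cases k <;> fin_cases l
  · show dist (S 0) (S 0) = r * dist (V 0) (V 0); simp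
  · exact d01
  · exact d02
  · show dist (S 1) (S 0) = r * dist (V 1) (V 0); rw [dist_comm, d01, dist_comm]
  · show dist (S 1) (S 1) = r * dist (V 1) (V 1); simp
  · exact d12
  · show dist (S 2) (S 0) = r * dist (V 2) (V 0); rw [dist_comm, d02, dist_comm]
  · show dist (S 2) (S 1) = r * dist (V 2) (V 1); rw [dist_comm, d12, dist_comm]
  · show dist (S 2) (S 2) = r * dist (V 2) (V 2); simp

theorem tiles_sim (V : Fin 3 → ℂ) (h1 : nsq (V 0 - V 1) = nsq (V 0 - V 2))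
    (h2 : nsq (V 1 - V 2) = 3 * nsq (V 0 - V 1)) (i : Fin 5) :
    ∃ r : ℝ, 0 < r ∧ ∀ k l, dist (tiles V i k) (tiles V i l) = r * dist (V k) (V l) := by
  have r1 : (Real.sqrt (1 / 3)) ^ 2 = 1 / 3 := Real.sq_sqrt (by norm_num)
  have p1 : 0 < Real.sqrt (1 / 3) := Real.sqrt_pos.2 (by norm_num)
  unfold nsq at h1 h2
  simp only [Complex.sub_re, Complex.sub_im] at h1 h2
  fin_cases i
  · show ∃ r : ℝ, 0 < r ∧ ∀ k l, dist (tiles V 0 k) (tiles V 0 l) = r * dist (V k) (V l)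
    refine ⟨Real.sqrt (1 / 3), p1, fun k l => sim_of p1 ?_ ?_ ?_ k l⟩ <;>
    · rw [r1]
      simp only [nsq, tiles, pH1, pH2, pF, Matrix.cons_val_zero, Matrix.cons_val_one,
        Matrix.cons_val, Complex.sub_re, Complex.sub_im, Complex.add_re, Complex.add_im,
        Complex.smul_re, Complex.smul_im, smul_eq_mul]
      linarith [h1, h2]
  · show ∃ r : ℝ, 0 < r ∧ ∀ k l, dist (tiles V 1 k) (tiles V 1 l) = r * dist (V k) (V l)
    refine ⟨Real.sqrt (1 / 3), p1, fun k l => sim_of p1 ?_ ?_ ?_ k l⟩ <;>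
    · rw [r1]
      simp only [nsq, tiles, pH1, pH2, pF, Matrix.cons_val_zero, Matrix.cons_val_one,
        Matrix.cons_val, Complex.sub_re, Complex.sub_im, Complex.add_re, Complex.add_im,
        Complex.smul_re, Complex.smul_im, smul_eq_mul]
      linarith [h1, h2]
  · show ∃ r : ℝ, 0 < r ∧ ∀ k l, dist (tiles V 2 k) (tiles V 2 l) = r * dist (V k) (V l)
    refine ⟨1 / 3, by norm_num, fun k l => sim_of (by norm_num) ?_ ?_ ?_ k l⟩ <;>
    · simp only [nsq, tiles, pH1, pH2, pF, Matrix.cons_val_zero, Matrix.cons_val_one,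
        Matrix.cons_val, Complex.sub_re, Complex.sub_im, Complex.add_re, Complex.add_im,
        Complex.smul_re, Complex.smul_im, smul_eq_mul]
      linarith [h1, h2]
  · show ∃ r : ℝ, 0 < r ∧ ∀ k l, dist (tiles V 3 k) (tiles V 3 l) = r * dist (V k) (V l)
    refine ⟨1 / 3, by norm_num, fun k l => sim_of (by norm_num) ?_ ?_ ?_ k l⟩ <;>
    · simp only [nsq, tiles, pH1, pH2, pF, Matrix.cons_val_zero, Matrix.cons_val_one,
        Matrix.cons_val, Complex.sub_re, Complex.sub_im, Complex.add_re, Complex.add_im,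
        Complex.smul_re, Complex.smul_im, smul_eq_mul]
      linarith [h1, h2]
  · show ∃ r : ℝ, 0 < r ∧ ∀ k l, dist (tiles V 4 k) (tiles V 4 l) = r * dist (V k) (V l)
    refine ⟨1 / 3, by norm_num, fun k l => sim_of (by norm_num) ?_ ?_ ?_ k l⟩ <;>
    · simp only [nsq, tiles, pH1, pH2, pF, Matrix.cons_val_zero, Matrix.cons_val_one,
        Matrix.cons_val, Complex.sub_re, Complex.sub_im, Complex.add_re, Complex.add_im,
        Complex.smul_re, Complex.smul_im, smul_eq_mul]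
      linarith [h1, h2]

end Pool.Agent.Helper230.Five
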