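import Pool.Agent.Helper230.Five.DisA

/-! # Dissections into five mutually similar triangles: Exist456 -/

set_option autoImplicit false
noncomputable section
open scoped BigOperators
open Pool.Agent.Helper549.Tri Pool.Agent.Helper549.Tri.Basic Pool.Agent.Helper549.Tri.Setup
namespace Pool.Agent.Helper230.Five


theorem exist456 (V : Fin 3 → ℂ) (hV : 0 < dd V) {q : ℝ} (hq : 0 < q)
    (h01 : nsq (V 0 - V 1) = 25 * q) (h12 : nsq (V 1 - V 2) = 16 * q)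
    (h02 : nsq (V 0 - V 2) = 36 * q) :
    ∃ (t : Fin 5 → Fin 3 → ℂ) (D : Fin 3 → ℂ), Dis 5 V t ∧ ∀ i, SimTo (t i) D := by
  have hd : Dis 5 V (tilesA V (1 / 5) (1 / 3) (4 / 15) (2 / 5) (1 / 3)) := by
    refine disA V hV ?_ ?_ ?_ ?_ ?_ ?_ ?_ ?_ ?_ <;> norm_num
  refine ⟨tilesA V (1 / 5) (1 / 3) (4 / 15) (2 / 5) (1 / 3),
    ![V 0, bp V (1 - 1 / 5) (1 / 5) 0, bp V (1 - 1 / 3) 0 (1 / 3)], hd, ?_⟩
  have e01 : nsq (V 0 - bp V (1 - 1 / 5) (1 / 5) 0) = q := by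
    rw [bp0 V, nsq_bp V (by norm_num) (by norm_num), h01, h12, h02]; ring
  have e02 : nsq (V 0 - bp V (1 - 1 / 3) 0 (1 / 3)) = 4 * q := by
    rw [bp0 V, nsq_bp V (by norm_num) (by norm_num), h01, h12, h02]; ring
  have e12 : nsq (bp V (1 - 1 / 5) (1 / 5) 0 - bp V (1 - 1 / 3) 0 (1 / 3)) = 2 * q := by
    rw [nsq_bp V (by norm_num) (by norm_num), h01, h12, h02]; ring
  have e21 : nsq (bp V (1 - 1 / 3) 0 (1 / 3) - bp V (1 - 1 / 5) (1 / 5) 0) = 2 * q := by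
    rw [nsq_bp V (by norm_num) (by norm_num), h01, h12, h02]; ring
  have e10 : nsq (bp V (1 - 1 / 5) (1 / 5) 0 - V 0) = q := by
    rw [bp0 V, nsq_bp V (by norm_num) (by norm_num), h01, h12, h02]; ring
  have e20 : nsq (bp V (1 - 1 / 3) 0 (1 / 3) - V 0) = 4 * q := by
    rw [bp0 V, nsq_bp V (by norm_num) (by norm_num), h01, h12, h02]; ring
  have f1 : nsq (bp V (4 / 15) (2 / 5) (1 / 3) - bp V (1 - 1 / 5) (1 / 5) 0) = 8 * q := by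
    rw [nsq_bp V (by norm_num) (by norm_num), h01, h12, h02]; ring
  have f2 : nsq (bp V (4 / 15) (2 / 5) (1 / 3) - V 1) = 4 * q := by
    rw [bp1 V, nsq_bp V (by norm_num) (by norm_num), h01, h12, h02]; ring
  have f3 : nsq (bp V (1 - 1 / 5) (1 / 5) 0 - V 1) = 16 * q := by
    rw [bp1 V, nsq_bp V (by norm_num) (by norm_num), h01, h12, h02]; ring
  have f4 : nsq (bp V (4 / 15) (2 / 5) (1 / 3) - V 2) = 8 * q := by
    rw [bp2 V, nsq_bp V (by norm_num) (by norm_num), h01, h12, h02]; ring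
  have f5 : nsq (bp V (4 / 15) (2 / 5) (1 / 3) - bp V (1 - 1 / 3) 0 (1 / 3)) = 4 * q := by
    rw [nsq_bp V (by norm_num) (by norm_num), h01, h12, h02]; ring
  have f6 : nsq (V 2 - bp V (1 - 1 / 3) 0 (1 / 3)) = 16 * q := by
    rw [bp2 V, nsq_bp V (by norm_num) (by norm_num), h01, h12, h02]; ring
  intro i
  fin_cases i
  · refine sim_perm (Equiv.refl _) (ρ := 1) one_pos ?_ ?_ ?_
    · show nsq (V 0 - bp V (1 - 1 / 5) (1 / 5) 0) = 1 * nsq (V 0 - bp V (1 - 1 / 5) (1 / 5) 0)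
      ring
    · show nsq (V 0 - bp V (1 - 1 / 3) 0 (1 / 3)) = 1 * nsq (V 0 - bp V (1 - 1 / 3) 0 (1 / 3))
      ring
    · show nsq (bp V (1 - 1 / 5) (1 / 5) 0 - bp V (1 - 1 / 3) 0 (1 / 3)) =
        1 * nsq (bp V (1 - 1 / 5) (1 / 5) 0 - bp V (1 - 1 / 3) 0 (1 / 3))
      ring
  · refine sim_perm (finRotate 3) (ρ := 4) (by norm_num) ?_ ?_ ?_
    · show nsq (bp V (4 / 15) (2 / 5) (1 / 3) - bp V (1 - 1 / 5) (1 / 5) 0) =
        4 * nsq (bp V (1 - 1 / 5) (1 / 5) 0 - bp V (1 - 1 / 3) 0 (1 / 3))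
      rw [f1, e12]; ring
    · show nsq (bp V (4 / 15) (2 / 5) (1 / 3) - V 1) =
        4 * nsq (bp V (1 - 1 / 5) (1 / 5) 0 - V 0)
      rw [f2, e10]
    · show nsq (bp V (1 - 1 / 5) (1 / 5) 0 - V 1) =
        4 * nsq (bp V (1 - 1 / 3) 0 (1 / 3) - V 0)
      rw [f3, e20]; ring
  · refine sim_perm (Equiv.swap 0 1) (ρ := 4) (by norm_num) ?_ ?_ ?_
    · show nsq (bp V (4 / 15) (2 / 5) (1 / 3) - V 1) =
        4 * nsq (bp V (1 - 1 / 5) (1 / 5) 0 - V 0)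
      rw [f2, e10]
    · show nsq (bp V (4 / 15) (2 / 5) (1 / 3) - V 2) =
        4 * nsq (bp V (1 - 1 / 5) (1 / 5) 0 - bp V (1 - 1 / 3) 0 (1 / 3))
      rw [f4, e12]; ring
    · show nsq (V 1 - V 2) = 4 * nsq (V 0 - bp V (1 - 1 / 3) 0 (1 / 3))
      rw [h12, e02]; ring
  · refine sim_perm (finRotate 3) (ρ := 4) (by norm_num) ?_ ?_ ?_
    · show nsq (bp V (4 / 15) (2 / 5) (1 / 3) - V 2) =
        4 * nsq (bp V (1 - 1 / 5) (1 / 5) 0 - bp V (1 - 1 / 3) 0 (1 / 3))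
      rw [f4, e12]; ring
    · show nsq (bp V (4 / 15) (2 / 5) (1 / 3) - bp V (1 - 1 / 3) 0 (1 / 3)) =
        4 * nsq (bp V (1 - 1 / 5) (1 / 5) 0 - V 0)
      rw [f5, e10]
    · show nsq (V 2 - bp V (1 - 1 / 3) 0 (1 / 3)) =
        4 * nsq (bp V (1 - 1 / 3) 0 (1 / 3) - V 0)
      rw [f6, e20]; ring
  · refine sim_perm (Equiv.swap 0 2) (ρ := 2) (by norm_num) ?_ ?_ ?_
    · show nsq (bp V (4 / 15) (2 / 5) (1 / 3) - bp V (1 - 1 / 3) 0 (1 / 3)) =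
        2 * nsq (bp V (1 - 1 / 3) 0 (1 / 3) - bp V (1 - 1 / 5) (1 / 5) 0)
      rw [f5, e21]; ring
    · show nsq (bp V (4 / 15) (2 / 5) (1 / 3) - bp V (1 - 1 / 5) (1 / 5) 0) =
        2 * nsq (bp V (1 - 1 / 3) 0 (1 / 3) - V 0)
      rw [f1, e20]; ring
    · show nsq (bp V (1 - 1 / 3) 0 (1 / 3) - bp V (1 - 1 / 5) (1 / 5) 0) =
        2 * nsq (bp V (1 - 1 / 5) (1 / 5) 0 - V 0)
      rw [e21, e10]

end Pool.Agent.Helper230.Five
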