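import Pool.Agent.Helper230.Five.DisB

/-! # Dissections into five mutually similar triangles: Exist578 -/

set_option autoImplicit false
noncomputable section
open scoped BigOperators
open Pool.Agent.Helper549.Tri Pool.Agent.Helper549.Tri.Basic Pool.Agent.Helper549.Tri.Setup
namespace Pool.Agent.Helper230.Five


theorem exist578_key (V : Fin 3 → ℂ) {q : ℝ}
    (h01 : nsq (V 0 - V 1) = 49 * q) (h12 : nsq (V 1 - V 2) = 64 * q)
    (h02 : nsq (V 0 - V 2) = 25 * q) {x y z x' y' z' : ℝ} (h : x + y + z = 1)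
    (h' : x' + y' + z' = 1) :
    nsq (bp V x y z - bp V x' y' z') = -((x - x') * (y - y') * (49 * q) +
      (y - y') * (z - z') * (64 * q) + (x - x') * (z - z') * (25 * q)) := by
  rw [nsq_bp V h h', h01, h12, h02]

theorem exist578 (V : Fin 3 → ℂ) (hV : 0 < dd V) {q : ℝ} (hq : 0 < q)
    (h01 : nsq (V 0 - V 1) = 49 * q) (h12 : nsq (V 1 - V 2) = 64 * q)
    (h02 : nsq (V 0 - V 2) = 25 * q) :
    ∃ (t : Fin 5 → Fin 3 → ℂ) (D : Fin 3 → ℂ), Dis 5 V t ∧ ∀ i, SimTo (t i) D := by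
  have key : ∀ {x y z x' y' z' : ℝ}, x + y + z = 1 → x' + y' + z' = 1 →
      nsq (bp V x y z - bp V x' y' z') = -((x - x') * (y - y') * (49 * q) +
        (y - y') * (z - z') * (64 * q) + (x - x') * (z - z') * (25 * q)) :=
    fun h h' => exist578_key V h01 h12 h02 h h'
  refine ⟨tilesB V (4 / 5) (1 / 8) (16 / 35) (1 / 7) (2 / 5),
    tilesB V (4 / 5) (1 / 8) (16 / 35) (1 / 7) (2 / 5) 0,
    disB V hV (by norm_num) (by norm_num) (by norm_num) (by norm_num) (by norm_num) (by norm_num)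
      (by norm_num) (by norm_num) (by norm_num), fun i => ?_⟩
  fin_cases i
  · exact sim_perm (Equiv.refl _) one_pos (by simp) (by simp) (by simp)
  · refine sim_perm (Equiv.refl _) (ρ := 1 / 4) (by norm_num) ?_ ?_ ?_
    · show nsq (bp V (16 / 35) (1 / 7) (2 / 5) - V 2) =
        1 / 4 * nsq (bp V (16 / 35) (1 / 7) (2 / 5) - V 1)
      rw [bp2 V, bp1 V, key (by norm_num) (by norm_num), key (by norm_num) (by norm_num)]
      ring
    · show nsq (bp V (16 / 35) (1 / 7) (2 / 5) - bp V (4 / 5) 0 (1 - 4 / 5)) =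
        1 / 4 * nsq (bp V (16 / 35) (1 / 7) (2 / 5) - V 2)
      rw [bp2 V, key (by norm_num) (by norm_num), key (by norm_num) (by norm_num)]
      ring
    · show nsq (V 2 - bp V (4 / 5) 0 (1 - 4 / 5)) = 1 / 4 * nsq (V 1 - V 2)
      rw [bp2 V, bp1 V, key (by norm_num) (by norm_num), key (by norm_num) (by norm_num)]
      ring
  · refine sim_perm (Equiv.refl _) (ρ := 1 / 16) (by norm_num) ?_ ?_ ?_
    · show nsq (bp V (16 / 35) (1 / 7) (2 / 5) - bp V (4 / 5) 0 (1 - 4 / 5)) =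
        1 / 16 * nsq (bp V (16 / 35) (1 / 7) (2 / 5) - V 1)
      rw [bp1 V, key (by norm_num) (by norm_num), key (by norm_num) (by norm_num)]
      ring
    · show nsq (bp V (16 / 35) (1 / 7) (2 / 5) -
          bp V ((1 - 1 / 8) * (16 / 35)) ((1 - 1 / 8) * (1 / 7) + 1 / 8) ((1 - 1 / 8) * (2 / 5))) =
        1 / 16 * nsq (bp V (16 / 35) (1 / 7) (2 / 5) - V 2)
      rw [bp2 V, key (by norm_num) (by norm_num), key (by norm_num) (by norm_num)]
      ring
    · show nsq (bp V (4 / 5) 0 (1 - 4 / 5) -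
          bp V ((1 - 1 / 8) * (16 / 35)) ((1 - 1 / 8) * (1 / 7) + 1 / 8) ((1 - 1 / 8) * (2 / 5))) =
        1 / 16 * nsq (V 1 - V 2)
      rw [bp2 V, bp1 V, key (by norm_num) (by norm_num), key (by norm_num) (by norm_num)]
      ring
  · refine sim_perm (Equiv.swap 1 2) (ρ := 49 / 64) (by norm_num) ?_ ?_ ?_
    · show nsq (bp V ((1 - 1 / 8) * (16 / 35)) ((1 - 1 / 8) * (1 / 7) + 1 / 8)
          ((1 - 1 / 8) * (2 / 5)) - V 0) =
        49 / 64 * nsq (bp V (16 / 35) (1 / 7) (2 / 5) - V 2)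
      rw [bp2 V, bp0 V, key (by norm_num) (by norm_num), key (by norm_num) (by norm_num)]
      ring
    · show nsq (bp V ((1 - 1 / 8) * (16 / 35)) ((1 - 1 / 8) * (1 / 7) + 1 / 8)
          ((1 - 1 / 8) * (2 / 5)) - V 1) =
        49 / 64 * nsq (bp V (16 / 35) (1 / 7) (2 / 5) - V 1)
      rw [bp1 V, key (by norm_num) (by norm_num), key (by norm_num) (by norm_num)]
      ring
    · show nsq (V 0 - V 1) = 49 / 64 * nsq (V 2 - V 1)
      rw [bp2 V, bp1 V, bp0 V, key (by norm_num) (by norm_num), key (by norm_num) (by norm_num)]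
      ring
  · refine sim_perm (Equiv.swap 0 1) (ρ := 7 / 64) (by norm_num) ?_ ?_ ?_
    · show nsq (bp V ((1 - 1 / 8) * (16 / 35)) ((1 - 1 / 8) * (1 / 7) + 1 / 8)
          ((1 - 1 / 8) * (2 / 5)) - bp V (4 / 5) 0 (1 - 4 / 5)) =
        7 / 64 * nsq (V 1 - bp V (16 / 35) (1 / 7) (2 / 5))
      rw [bp1 V, key (by norm_num) (by norm_num), key (by norm_num) (by norm_num)]
      ring
    · show nsq (bp V ((1 - 1 / 8) * (16 / 35)) ((1 - 1 / 8) * (1 / 7) + 1 / 8)
          ((1 - 1 / 8) * (2 / 5)) - V 0) =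
        7 / 64 * nsq (V 1 - V 2)
      rw [bp2 V, bp1 V, bp0 V, key (by norm_num) (by norm_num), key (by norm_num) (by norm_num)]
      ring
    · show nsq (bp V (4 / 5) 0 (1 - 4 / 5) - V 0) =
        7 / 64 * nsq (bp V (16 / 35) (1 / 7) (2 / 5) - V 2)
      rw [bp2 V, bp0 V, key (by norm_num) (by norm_num), key (by norm_num) (by norm_num)]
      ring

end Pool.Agent.Helper230.Five
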