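import Pool.Agent.Helper230.Five.DisA

/-! # Dissections into five mutually similar triangles: ExistA2 -/

set_option autoImplicit false
noncomputable section
open scoped BigOperators
open Pool.Agent.Helper549.Tri Pool.Agent.Helper549.Tri.Basic Pool.Agent.Helper549.Tri.Setup
namespace Pool.Agent.Helper230.Five


theorem existA2 (V : Fin 3 → ℂ) (hV : 0 < dd V) {q : ℝ} (hq : 0 < q)
    (h01 : nsq (V 0 - V 1) = 18 * q) (h12 : nsq (V 1 - V 2) = 4 * q)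
    (h02 : nsq (V 0 - V 2) = 16 * q) :
    ∃ (t : Fin 5 → Fin 3 → ℂ) (D : Fin 3 → ℂ), Dis 5 V t ∧ ∀ i, SimTo (t i) D := by
  have E : ∀ x y z x' y' z' : ℝ, x + y + z = 1 → x' + y' + z' = 1 →
      nsq (bp V x y z - bp V x' y' z') = -((x - x') * (y - y') * (18 * q) +
        (y - y') * (z - z') * (4 * q) + (x - x') * (z - z') * (16 * q)) := by
    intro x y z x' y' z' h h'
    rw [nsq_bp V h h', h01, h12, h02]
  refine ⟨tilesA V (1 / 3) (1 / 2) (1 / 6) (1 / 3) (1 / 2),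
    tilesA V (1 / 3) (1 / 2) (1 / 6) (1 / 3) (1 / 2) 0,
    disA V hV (by norm_num) (by norm_num) (by norm_num) (by norm_num) (by norm_num) (by norm_num)
      (by norm_num) (by norm_num) (by norm_num), ?_⟩
  intro i
  fin_cases i
  · refine sim_perm 1 (ρ := 1) (by norm_num) ?_ ?_ ?_
    · show nsq (V 0 - bp V (1 - 1 / 3) (1 / 3) 0) = (1 : ℝ) * nsq (V 0 - bp V (1 - 1 / 3) (1 / 3) 0)
      rw [bp0 V,
        E 1 0 0 (1 - 1 / 3) (1 / 3) 0 (by norm_num) (by norm_num)]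
      ring
    · show nsq (V 0 - bp V (1 - 1 / 2) 0 (1 / 2)) = (1 : ℝ) * nsq (V 0 - bp V (1 - 1 / 2) 0 (1 / 2))
      rw [bp0 V,
        E 1 0 0 (1 - 1 / 2) 0 (1 / 2) (by norm_num) (by norm_num)]
      ring
    · show nsq (bp V (1 - 1 / 3) (1 / 3) 0 - bp V (1 - 1 / 2) 0 (1 / 2)) = (1 : ℝ) * nsq (bp V (1 - 1 / 3) (1 / 3) 0 - bp V (1 - 1 / 2) 0 (1 / 2))
      rw [E (1 - 1 / 3) (1 / 3) 0 (1 - 1 / 2) 0 (1 / 2) (by norm_num) (by norm_num)]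
      ring
  · refine sim_perm (Equiv.swap 0 1) (ρ := 2) (by norm_num) ?_ ?_ ?_
    · show nsq (bp V (1 / 6) (1 / 3) (1 / 2) - bp V (1 - 1 / 3) (1 / 3) 0) = (2 : ℝ) * nsq (bp V (1 - 1 / 3) (1 / 3) 0 - V 0)
      rw [bp0 V,
        E (1 / 6) (1 / 3) (1 / 2) (1 - 1 / 3) (1 / 3) 0 (by norm_num) (by norm_num),
        E (1 - 1 / 3) (1 / 3) 0 1 0 0 (by norm_num) (by norm_num)]
      ring
    · show nsq (bp V (1 / 6) (1 / 3) (1 / 2) - V 1) = (2 : ℝ) * nsq (bp V (1 - 1 / 3) (1 / 3) 0 - bp V (1 - 1 / 2) 0 (1 / 2))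
      rw [bp1 V,
        E (1 / 6) (1 / 3) (1 / 2) 0 1 0 (by norm_num) (by norm_num),
        E (1 - 1 / 3) (1 / 3) 0 (1 - 1 / 2) 0 (1 / 2) (by norm_num) (by norm_num)]
      ring
    · show nsq (bp V (1 - 1 / 3) (1 / 3) 0 - V 1) = (2 : ℝ) * nsq (V 0 - bp V (1 - 1 / 2) 0 (1 / 2))
      rw [bp0 V,
        bp1 V,
        E (1 - 1 / 3) (1 / 3) 0 0 1 0 (by norm_num) (by norm_num),
        E 1 0 0 (1 - 1 / 2) 0 (1 / 2) (by norm_num) (by norm_num)]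
      ring
  · refine sim_perm (Equiv.swap 0 1) (ρ := 1) (by norm_num) ?_ ?_ ?_
    · show nsq (bp V (1 / 6) (1 / 3) (1 / 2) - V 1) = (1 : ℝ) * nsq (bp V (1 - 1 / 3) (1 / 3) 0 - V 0)
      rw [bp0 V,
        bp1 V,
        E (1 / 6) (1 / 3) (1 / 2) 0 1 0 (by norm_num) (by norm_num),
        E (1 - 1 / 3) (1 / 3) 0 1 0 0 (by norm_num) (by norm_num)]
      ring
    · show nsq (bp V (1 / 6) (1 / 3) (1 / 2) - V 2) = (1 : ℝ) * nsq (bp V (1 - 1 / 3) (1 / 3) 0 - bp V (1 - 1 / 2) 0 (1 / 2))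
      rw [bp2 V,
        E (1 / 6) (1 / 3) (1 / 2) 0 0 1 (by norm_num) (by norm_num),
        E (1 - 1 / 3) (1 / 3) 0 (1 - 1 / 2) 0 (1 / 2) (by norm_num) (by norm_num)]
      ring
    · show nsq (V 1 - V 2) = (1 : ℝ) * nsq (V 0 - bp V (1 - 1 / 2) 0 (1 / 2))
      rw [bp0 V,
        bp1 V,
        bp2 V,
        E 0 1 0 0 0 1 (by norm_num) (by norm_num),
        E 1 0 0 (1 - 1 / 2) 0 (1 / 2) (by norm_num) (by norm_num)]
      ring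
  · refine sim_perm (finRotate 3) (ρ := 1) (by norm_num) ?_ ?_ ?_
    · show nsq (bp V (1 / 6) (1 / 3) (1 / 2) - V 2) = (1 : ℝ) * nsq (bp V (1 - 1 / 3) (1 / 3) 0 - bp V (1 - 1 / 2) 0 (1 / 2))
      rw [bp2 V,
        E (1 / 6) (1 / 3) (1 / 2) 0 0 1 (by norm_num) (by norm_num),
        E (1 - 1 / 3) (1 / 3) 0 (1 - 1 / 2) 0 (1 / 2) (by norm_num) (by norm_num)]
      ring
    · show nsq (bp V (1 / 6) (1 / 3) (1 / 2) - bp V (1 - 1 / 2) 0 (1 / 2)) = (1 : ℝ) * nsq (bp V (1 - 1 / 3) (1 / 3) 0 - V 0)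
      rw [bp0 V,
        E (1 / 6) (1 / 3) (1 / 2) (1 - 1 / 2) 0 (1 / 2) (by norm_num) (by norm_num),
        E (1 - 1 / 3) (1 / 3) 0 1 0 0 (by norm_num) (by norm_num)]
      ring
    · show nsq (V 2 - bp V (1 - 1 / 2) 0 (1 / 2)) = (1 : ℝ) * nsq (bp V (1 - 1 / 2) 0 (1 / 2) - V 0)
      rw [bp0 V,
        bp2 V,
        E 0 0 1 (1 - 1 / 2) 0 (1 / 2) (by norm_num) (by norm_num),
        E (1 - 1 / 2) 0 (1 / 2) 1 0 0 (by norm_num) (by norm_num)]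
      ring
  · refine sim_perm 1 (ρ := 1) (by norm_num) ?_ ?_ ?_
    · show nsq (bp V (1 / 6) (1 / 3) (1 / 2) - bp V (1 - 1 / 2) 0 (1 / 2)) = (1 : ℝ) * nsq (V 0 - bp V (1 - 1 / 3) (1 / 3) 0)
      rw [bp0 V,
        E (1 / 6) (1 / 3) (1 / 2) (1 - 1 / 2) 0 (1 / 2) (by norm_num) (by norm_num),
        E 1 0 0 (1 - 1 / 3) (1 / 3) 0 (by norm_num) (by norm_num)]
      ring
    · show nsq (bp V (1 / 6) (1 / 3) (1 / 2) - bp V (1 - 1 / 3) (1 / 3) 0) = (1 : ℝ) * nsq (V 0 - bp V (1 - 1 / 2) 0 (1 / 2))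
      rw [bp0 V,
        E (1 / 6) (1 / 3) (1 / 2) (1 - 1 / 3) (1 / 3) 0 (by norm_num) (by norm_num),
        E 1 0 0 (1 - 1 / 2) 0 (1 / 2) (by norm_num) (by norm_num)]
      ring
    · show nsq (bp V (1 - 1 / 2) 0 (1 / 2) - bp V (1 - 1 / 3) (1 / 3) 0) = (1 : ℝ) * nsq (bp V (1 - 1 / 3) (1 / 3) 0 - bp V (1 - 1 / 2) 0 (1 / 2))
      rw [E (1 - 1 / 2) 0 (1 / 2) (1 - 1 / 3) (1 / 3) 0 (by norm_num) (by norm_num),
        E (1 - 1 / 3) (1 / 3) 0 (1 - 1 / 2) 0 (1 / 2) (by norm_num) (by norm_num)]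
      ring


end Pool.Agent.Helper230.Five

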