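import Pool.Agent.Helper230.Five.DisA

/-! # Dissections into five mutually similar triangles: ExistA3 -/

set_option autoImplicit false
noncomputable section
open scoped BigOperators
open Pool.Agent.Helper549.Tri Pool.Agent.Helper549.Tri.Basic Pool.Agent.Helper549.Tri.Setup
namespace Pool.Agent.Helper230.Five


/-- Since `r ^ 3 + r = 1`, the parameters are `u = r`, `v = z = (1 + r - r ^ 2) / 3`,
`x = (r ^ 2 + 2 * r - 1) / 3`, `y = 1 - r`. -/
theorem existA3 (V : Fin 3 → ℂ) (hV : 0 < dd V) {q r : ℝ} (hq : 0 < q) (hr0 : 0 < r)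
    (hr : r ^ 3 + r = 1) (h01 : nsq (V 0 - V 1) = (1 + r ^ 2) ^ 2 * q)
    (h12 : nsq (V 1 - V 2) = q) (h02 : nsq (V 0 - V 2) = r * (1 + r) ^ 2 * q) :
    ∃ (t : Fin 5 → Fin 3 → ℂ) (D : Fin 3 → ℂ), Dis 5 V t ∧ ∀ i, SimTo (t i) D := by
  have hr3 : 0 < r ^ 3 := by positivity
  have hr1 : r < 1 := by linarith
  obtain ⟨v, hv⟩ : ∃ v : ℝ, v = (1 + r - r ^ 2) / 3 := ⟨_, rfl⟩
  obtain ⟨x, hx⟩ : ∃ x : ℝ, x = (r ^ 2 + 2 * r - 1) / 3 := ⟨_, rfl⟩
  have hv0 : 0 < v := by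
    rw [hv]
    have : 0 < r * (1 - r) := mul_pos hr0 (by linarith)
    nlinarith [this]
  have hv1 : v < 1 := by
    have e : (1 - v) * (1 + r) = 1 := by rw [hv]; linear_combination (1 / 3) * hr
    have : 0 < 1 - v := by
      by_contra hc
      have : (1 - v) * (1 + r) ≤ 0 := mul_nonpos_of_nonpos_of_nonneg (not_lt.1 hc) (by linarith)
      linarith
    linarith
  have hx0 : 0 < x := by
    have e : x * (1 + r) = r ^ 2 := by rw [hx]; linear_combination (1 / 3) * hr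
    by_contra hc
    have h1 : x * (1 + r) ≤ 0 := mul_nonpos_of_nonpos_of_nonneg (not_lt.1 hc) (by linarith)
    have h2 : 0 < r ^ 2 := by positivity
    linarith
  have hy0 : 0 < 1 - r := by linarith
  have hs : x + (1 - r) + v = 1 := by rw [hx, hv]; ring
  have hF : r * v < (1 - r) * v + v * r := by
    have := mul_pos hy0 hv0
    linarith
  have s1 : (1 : ℝ) + 0 + 0 = 1 := by norm_num
  have s2 : (0 : ℝ) + 1 + 0 = 1 := by norm_num
  have s3 : (0 : ℝ) + 0 + 1 = 1 := by norm_num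
  have sH1 : (1 - r) + r + 0 = (1 : ℝ) := by ring
  have sH2 : (1 - v) + 0 + v = (1 : ℝ) := by ring
  have a1 : nsq (bp V 1 0 0 - bp V (1 - r) r 0) = q := by
    rw [nsq_bp V s1 sH1, h01, h12, h02]
    linear_combination (q * (1 + r + r ^ 3)) * hr
  have a2 : nsq (bp V 1 0 0 - bp V (1 - v) 0 v) = r ^ 3 * q := by
    rw [nsq_bp V s1 sH2, h01, h12, h02, hv]
    linear_combination (q * ((-1/9)*r^1 + (-5/9)*r^2 + (1/9)*r^4)) * hr
  have a3 : nsq (bp V (1 - r) r 0 - bp V (1 - v) 0 v) = r ^ 2 * q := by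
    rw [nsq_bp V sH1 sH2, h01, h12, h02, hv]
    linear_combination (q * ((-1/9)*r^1 + (-2/9)*r^2 + (1)*r^3 + (4/9)*r^4)) * hr
  have a4 : nsq (bp V x (1 - r) v - bp V (1 - r) r 0) = r ^ 5 * q := by
    rw [nsq_bp V hs sH1, h01, h12, h02, hv, hx]
    linear_combination (q * ((-1)*r^0 + (23/9)*r^1 + (-44/9)*r^2 + (11/3)*r^3 + (7/9)*r^4)) * hr
  have a5 : nsq (bp V x (1 - r) v - bp V 0 1 0) = r ^ 2 * q := by
    rw [nsq_bp V hs s2, h01, h12, h02, hv, hx]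
    linear_combination (q * ((-1/9)*r^1 + (-2/9)*r^2 + (1)*r^3 + (4/9)*r^4)) * hr
  have a6 : nsq (bp V (1 - r) r 0 - bp V 0 1 0) = r ^ 4 * q := by
    rw [nsq_bp V sH1 s2, h01, h12, h02]
    linear_combination (q * ((-1)*r^0 + (1)*r^1 + (-2)*r^2 + (1)*r^3)) * hr
  have a7 : nsq (bp V 0 1 0 - bp V 0 0 1) = q := by
    rw [nsq_bp V s2 s3, h01, h12, h02]
    ring
  have a8 : nsq (bp V x (1 - r) v - bp V 0 0 1) = r ^ 3 * q := by
    rw [nsq_bp V hs s3, h01, h12, h02, hv, hx]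
    linear_combination (q * ((-1)*r^0 + (11/9)*r^1 + (-5/9)*r^2 + (2/3)*r^3 + (4/9)*r^4)) * hr
  have a9 : nsq (bp V x (1 - r) v - bp V (1 - v) 0 v) = r ^ 4 * q := by
    rw [nsq_bp V hs sH2, h01, h12, h02, hv, hx]
    linear_combination (q * ((-1)*r^0 + (1)*r^1 + (-2)*r^2 + (1)*r^3)) * hr
  have a10 : nsq (bp V 0 0 1 - bp V (1 - v) 0 v) = r * q := by
    rw [nsq_bp V s3 sH2, h01, h12, h02, hv]
    linear_combination (q * ((5/9)*r^1 + (1/9)*r^2 + (1/9)*r^4)) * hr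
  have sym : ∀ a b : ℂ, nsq (a - b) = nsq (b - a) := by
    intro a b
    simp only [nsq, Complex.sub_re, Complex.sub_im]
    ring
  obtain ⟨D, hD⟩ : ∃ D : Fin 3 → ℂ, D = ![bp V 1 0 0, bp V (1 - r) r 0, bp V (1 - v) 0 v] :=
    ⟨_, rfl⟩
  have D0 : D 0 = bp V 1 0 0 := by rw [hD]; rfl
  have D1 : D 1 = bp V (1 - r) r 0 := by rw [hD]; rfl
  have D2 : D 2 = bp V (1 - v) 0 v := by rw [hD]; rfl
  have d01 : nsq (D 0 - D 1) = q := by rw [D0, D1]; exact a1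
  have d02 : nsq (D 0 - D 2) = r ^ 3 * q := by rw [D0, D2]; exact a2
  have d12 : nsq (D 1 - D 2) = r ^ 2 * q := by rw [D1, D2]; exact a3
  have d10 : nsq (D 1 - D 0) = q := by rw [sym]; exact d01
  have d20 : nsq (D 2 - D 0) = r ^ 3 * q := by rw [sym]; exact d02
  have d21 : nsq (D 2 - D 1) = r ^ 2 * q := by rw [sym]; exact d12
  refine ⟨tilesA V r v x (1 - r) v, D, disA V hV hr0 hr1 hv0 hv1 hx0 hy0 hv0 hs hF, ?_⟩
  intro i
  fin_cases i
  · -- the tile `A, H1, H2`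
    refine sim_perm (S := ![V 0, bp V (1 - r) r 0, bp V (1 - v) 0 v]) (1 : Equiv.Perm (Fin 3))
      (ρ := 1) one_pos ?_ ?_ ?_
    · change nsq (V 0 - bp V (1 - r) r 0) = 1 * nsq (D 0 - D 1)
      rw [d01, bp0 V]
      rw [a1]; ring
    · change nsq (V 0 - bp V (1 - v) 0 v) = 1 * nsq (D 0 - D 2)
      rw [d02, bp0 V]
      rw [a2]; ring
    · change nsq (bp V (1 - r) r 0 - bp V (1 - v) 0 v) = 1 * nsq (D 1 - D 2)
      rw [d12, a3]; ring
  · -- the tile `F, H1, B`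
    refine sim_perm (S := ![bp V x (1 - r) v, bp V (1 - r) r 0, V 1])
      (Equiv.swap (1 : Fin 3) 2) (ρ := r ^ 2) (by positivity) ?_ ?_ ?_
    · change nsq (bp V x (1 - r) v - bp V (1 - r) r 0) = r ^ 2 * nsq (D 0 - D 2)
      rw [d02, a4]; ring
    · change nsq (bp V x (1 - r) v - V 1) = r ^ 2 * nsq (D 0 - D 1)
      rw [d01, bp1 V]
      rw [a5]
    · change nsq (bp V (1 - r) r 0 - V 1) = r ^ 2 * nsq (D 2 - D 1)
      rw [d21, bp1 V]
      rw [a6]; ring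
  · -- the tile `F, B, C`
    refine sim_perm (S := ![bp V x (1 - r) v, V 1, V 2])
      (Equiv.swap (0 : Fin 3) 2) (ρ := 1) one_pos ?_ ?_ ?_
    · change nsq (bp V x (1 - r) v - V 1) = 1 * nsq (D 2 - D 1)
      rw [d21, bp1 V]
      rw [a5]; ring
    · change nsq (bp V x (1 - r) v - V 2) = 1 * nsq (D 2 - D 0)
      rw [d20, bp2 V]
      rw [a8]; ring
    · change nsq (V 1 - V 2) = 1 * nsq (D 1 - D 0)
      rw [d10, h12]; ring
  · -- the tile `F, C, H2`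
    refine sim_perm (S := ![bp V x (1 - r) v, V 2, bp V (1 - v) 0 v])
      (Equiv.swap (0 : Fin 3) 2) (ρ := r) hr0 ?_ ?_ ?_
    · change nsq (bp V x (1 - r) v - V 2) = r * nsq (D 2 - D 1)
      rw [d21, bp2 V]
      rw [a8]; ring
    · change nsq (bp V x (1 - r) v - bp V (1 - v) 0 v) = r * nsq (D 2 - D 0)
      rw [d20, a9]; ring
    · change nsq (V 2 - bp V (1 - v) 0 v) = r * nsq (D 1 - D 0)
      rw [d10, bp2 V]
      rw [a10]
  · -- the tile `F, H2, H1`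
    refine sim_perm (S := ![bp V x (1 - r) v, bp V (1 - v) 0 v, bp V (1 - r) r 0])
      (Equiv.swap (0 : Fin 3) 2) (ρ := r ^ 2) (by positivity) ?_ ?_ ?_
    · change nsq (bp V x (1 - r) v - bp V (1 - v) 0 v) = r ^ 2 * nsq (D 2 - D 1)
      rw [d21, a9]; ring
    · change nsq (bp V x (1 - r) v - bp V (1 - r) r 0) = r ^ 2 * nsq (D 2 - D 0)
      rw [d20, a4]; ring
    · change nsq (bp V (1 - v) 0 v - bp V (1 - r) r 0) = r ^ 2 * nsq (D 1 - D 0)
      rw [d10, sym, a3]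

end Pool.Agent.Helper230.Five
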