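import Pool.Agent.Helper230.Five.DisB

/-! # Dissections into five mutually similar triangles: ExistB2 -/

set_option autoImplicit false
noncomputable section
open scoped BigOperators
open Pool.Agent.Helper549.Tri Pool.Agent.Helper549.Tri.Basic Pool.Agent.Helper549.Tri.Setup
namespace Pool.Agent.Helper230.Five


theorem existB2_d (V : Fin 3 → ℂ) {q p : ℝ} (h01 : nsq (V 0 - V 1) = (p - 1) ^ 2 * q)
    (h12 : nsq (V 1 - V 2) = p ^ 2 * q)
    (h02 : nsq (V 0 - V 2) = (p + (p ^ 2 - 2 * p - 1)) ^ 2 * q)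
    {x y z x' y' z' t : ℝ} (h : x + y + z = 1) (h' : x' + y' + z' = 1)
    (ht : -((x - x') * (y - y') * (p - 1) ^ 2 + (y - y') * (z - z') * p ^ 2 +
      (x - x') * (z - z') * (p + (p ^ 2 - 2 * p - 1)) ^ 2) = t) :
    nsq (bp V x y z - bp V x' y' z') = t * q := by
  rw [nsq_bp V h h', h01, h12, h02, ← ht]
  ring

theorem existB2_symm (a b : ℂ) : nsq (a - b) = nsq (b - a) := by
  simp only [nsq, Complex.sub_re, Complex.sub_im]
  ring

theorem existB2 (V : Fin 3 → ℂ) (hV : 0 < dd V) {q p : ℝ} (hq : 0 < q) (hp0 : 1 < p)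
    (hp : p ^ 3 = 2 * p ^ 2 + p + 1) (h01 : nsq (V 0 - V 1) = (p - 1) ^ 2 * q)
    (h12 : nsq (V 1 - V 2) = p ^ 2 * q) (h02 : nsq (V 0 - V 2) = (p + 1 / p) ^ 2 * q) :
    ∃ (t : Fin 5 → Fin 3 → ℂ) (D : Fin 3 → ℂ), Dis 5 V t ∧ ∀ i, SimTo (t i) D := by
  have hpp : p ≠ 0 := by linarith
  have hp2 : 2 < p := by
    by_contra hc
    push Not at hc
    nlinarith [mul_nonneg (sq_nonneg p) (sub_nonneg.2 hc)]
  have hcp : 1 / p = p ^ 2 - 2 * p - 1 := by
    rw [div_eq_iff hpp]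
    linear_combination -hp
  rw [hcp] at h02
  obtain ⟨x, hx⟩ : ∃ x : ℝ, x = (7 / 45) * p ^ 2 + (-13 / 45) * p + (4 / 45) := ⟨_, rfl⟩
  obtain ⟨y, hy⟩ : ∃ y : ℝ, y = (-2 / 9) * p ^ 2 + (5 / 9) * p + (4 / 9) := ⟨_, rfl⟩
  obtain ⟨z, hz⟩ : ∃ z : ℝ, z = (1 / 15) * p ^ 2 + (-4 / 15) * p + (7 / 15) := ⟨_, rfl⟩
  obtain ⟨s, hs⟩ : ∃ s : ℝ, s = (2 / 5) * p ^ 2 + (-3 / 5) * p + (-1 / 5) := ⟨_, rfl⟩
  obtain ⟨c, hc⟩ : ∃ c : ℝ, c = p ^ 2 - 2 * p - 1 := ⟨_, rfl⟩
  obtain ⟨U, hU⟩ : ∃ U : ℝ, U = (1 / 3) * p ^ 2 + (-4 / 3) * p + (4 / 3) := ⟨_, rfl⟩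
  have hW : 0 < 3 * p ^ 2 - p + 1 := by nlinarith
  have hxW : x * (3 * p ^ 2 - p + 1) = p ^ 2 := by
    rw [hx]
    linear_combination ((7 / 15) * p + (-4 / 45)) * hp
  have hyW : y * (3 * p ^ 2 - p + 1) = p ^ 2 + 1 := by
    rw [hy]
    linear_combination ((-2 / 3) * p + (5 / 9)) * hp
  have hzW : z * (3 * p ^ 2 - p + 1) = p ^ 2 - p := by
    rw [hz]
    linear_combination ((1 / 5) * p + (-7 / 15)) * hp
  have hsW : s * (p ^ 2 + 1) = p ^ 2 := by
    rw [hs]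
    linear_combination ((2 / 5) * p + (1 / 5)) * hp
  have hcW : c * p = 1 := by
    rw [hc]
    linear_combination hp
  have hUW : U * (p ^ 2 + p + 1) = 1 := by
    rw [hU]
    linear_combination ((1 / 3) * p + (-1 / 3)) * hp
  have hx0 : 0 < x := by
    have h : 0 < x * (3 * p ^ 2 - p + 1) := by rw [hxW]; positivity
    exact (pos_iff_pos_of_mul_pos h).2 hW
  have hy0 : 0 < y := by
    have h : 0 < y * (3 * p ^ 2 - p + 1) := by rw [hyW]; positivity
    exact (pos_iff_pos_of_mul_pos h).2 hW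
  have hz0 : 0 < z := by
    have h : 0 < z * (3 * p ^ 2 - p + 1) := by rw [hzW]; nlinarith
    exact (pos_iff_pos_of_mul_pos h).2 hW
  have hs0 : 0 < s := by
    have h : 0 < s * (p ^ 2 + 1) := by rw [hsW]; positivity
    exact (pos_iff_pos_of_mul_pos h).2 (by positivity)
  have hs1 : s < 1 := by
    have e : (1 - s) * (p ^ 2 + 1) = 1 := by linear_combination -hsW
    have h : 0 < (1 - s) * (p ^ 2 + 1) := by rw [e]; norm_num
    have := (pos_iff_pos_of_mul_pos h).2 (by positivity)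
    linarith
  have hc0 : 0 < c := by
    have h : 0 < c * p := by rw [hcW]; norm_num
    exact (pos_iff_pos_of_mul_pos h).2 (by linarith)
  have hc1 : c < 1 := by
    have e : (1 - c) * p = p - 1 := by linear_combination -hcW
    have h : 0 < (1 - c) * p := by rw [e]; linarith
    have := (pos_iff_pos_of_mul_pos h).2 (by linarith)
    linarith
  have hU0 : 0 < U := by
    have h : 0 < U * (p ^ 2 + p + 1) := by rw [hUW]; norm_num
    exact (pos_iff_pos_of_mul_pos h).2 (by positivity)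
  have hsum : x + y + z = 1 := by rw [hx, hy, hz]; ring
  have hsN : (1 - c) * x + ((1 - c) * y + c) + (1 - c) * z = 1 := by
    linear_combination (1 - c) * hsum
  have hF : (1 - s) * x < s * z := by
    have e : (s * z - (1 - s) * x) * ((p ^ 2 + 1) * (3 * p ^ 2 - p + 1)) =
        p ^ 2 * (p ^ 2 - p - 1) := by
      have e1 : (1 - s) * (p ^ 2 + 1) = 1 := by linear_combination -hsW
      calc (s * z - (1 - s) * x) * ((p ^ 2 + 1) * (3 * p ^ 2 - p + 1)) =
          (s * (p ^ 2 + 1)) * (z * (3 * p ^ 2 - p + 1)) -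
            ((1 - s) * (p ^ 2 + 1)) * (x * (3 * p ^ 2 - p + 1)) := by ring
        _ = _ := by rw [hsW, hzW, e1, hxW]; ring
    have h : 0 < (s * z - (1 - s) * x) * ((p ^ 2 + 1) * (3 * p ^ 2 - p + 1)) := by
      rw [e]
      have : 0 < p ^ 2 - p - 1 := by nlinarith
      positivity
    have := (pos_iff_pos_of_mul_pos h).2 (by positivity)
    linarith
  have dFM : nsq (bp V x y z - V 1) =
      p ^ 2 * U * q := by
    rw [bp1 V]
    refine existB2_d V h01 h12 h02 hsum (by norm_num) ?_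
    rw [hU]
    simp only [hx, hy, hz, hs, hc]
    linear_combination ((-7 / 675) * p ^ 5 + (41 / 675) * p ^ 4 + (-43 / 405) * p ^ 3 + (-182 / 2025) * p ^ 2 + (488 / 2025) * p + (-16 / 2025)) * hp
  have dFM2 : nsq (bp V x y z - V 2) =
      p ^ 4 * U * q := by
    rw [bp2 V]
    refine existB2_d V h01 h12 h02 hsum (by norm_num) ?_
    rw [hU]
    simp only [hx, hy, hz, hs, hc]
    linear_combination ((-7 / 675) * p ^ 5 + (41 / 675) * p ^ 4 + (-23 / 81) * p ^ 3 + (583 / 2025) * p ^ 2 + (-232 / 2025) * p + (-16 / 2025)) * hp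
  have dM2N2 : nsq (V 2 - bp V s 0 (1 - s)) =
      p ^ 2 * (p ^ 2 + p + 1) * U * q := by
    rw [bp2 V]
    refine existB2_d V h01 h12 h02 (by norm_num) (by ring) ?_
    rw [hU]
    simp only [hx, hy, hz, hs, hc]
    linear_combination ((4 / 25) * p ^ 5 + (-12 / 25) * p ^ 4 + (-2 / 15) * p ^ 3 + (79 / 75) * p ^ 2 + (-7 / 25) * p + (-1 / 25)) * hp
  have dFN2 : nsq (bp V x y z - bp V s 0 (1 - s)) =
      p ^ 2 * U * q := by
    refine existB2_d V h01 h12 h02 hsum (by ring) ?_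
    rw [hU]
    simp only [hx, hy, hz, hs, hc]
    linear_combination ((77 / 675) * p ^ 5 + (-241 / 675) * p ^ 4 + (2 / 405) * p ^ 3 + (1582 / 2025) * p ^ 2 + (-1573 / 2025) * p + (-169 / 2025)) * hp
  have dN2N : nsq (bp V s 0 (1 - s) - bp V ((1 - c) * x) ((1 - c) * y + c) ((1 - c) * z)) =
      (p ^ 2 + p + 1) * U * q := by
    refine existB2_d V h01 h12 h02 (by ring) hsN ?_
    rw [hU]
    simp only [hx, hy, hz, hs, hc]
    linear_combination ((-7 / 675) * p ^ 9 + (23 / 225) * p ^ 8 + (-127 / 405) * p ^ 7 + (16 / 135) * p ^ 6 + (2593 / 2025) * p ^ 5 + (-5797 / 2025) * p ^ 4 + (4759 / 2025) * p ^ 3 + (-74 / 405) * p ^ 2 + (-197 / 135) * p + (2411 / 2025)) * hp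
  have dFN : nsq (bp V x y z - bp V ((1 - c) * x) ((1 - c) * y + c) ((1 - c) * z)) =
      1 * U * q := by
    refine existB2_d V h01 h12 h02 hsum hsN ?_
    rw [hU]
    simp only [hx, hy, hz, hs, hc]
    linear_combination ((-7 / 675) * p ^ 9 + (23 / 225) * p ^ 8 + (-749 / 2025) * p ^ 7 + (56 / 135) * p ^ 6 + (644 / 675) * p ^ 5 + (-791 / 225) * p ^ 4 + (7522 / 2025) * p ^ 3 + (-287 / 2025) * p ^ 2 + (-4976 / 2025) * p + (2684 / 2025)) * hp
  have dNE : nsq (bp V ((1 - c) * x) ((1 - c) * y + c) ((1 - c) * z) - V 0) =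
      p ^ 2 * (p - 1) ^ 2 * U * q := by
    rw [bp0 V]
    refine existB2_d V h01 h12 h02 hsN (by norm_num) ?_
    rw [hU]
    simp only [hx, hy, hz, hs, hc]
    linear_combination ((-7 / 675) * p ^ 9 + (23 / 225) * p ^ 8 + (-707 / 2025) * p ^ 7 + (34 / 135) * p ^ 6 + (2656 / 2025) * p ^ 5 + (-6436 / 2025) * p ^ 4 + (2293 / 2025) * p ^ 3 + (5876 / 2025) * p ^ 2 + (-1147 / 675) * p + (-1369 / 2025)) * hp
  have dNM : nsq (bp V ((1 - c) * x) ((1 - c) * y + c) ((1 - c) * z) - V 1) =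
      (p - 1) ^ 2 * U * q := by
    rw [bp1 V]
    refine existB2_d V h01 h12 h02 hsN (by norm_num) ?_
    rw [hU]
    simp only [hx, hy, hz, hs, hc]
    linear_combination ((-7 / 675) * p ^ 9 + (23 / 225) * p ^ 8 + (-707 / 2025) * p ^ 7 + (34 / 135) * p ^ 6 + (2791 / 2025) * p ^ 5 + (-7246 / 2025) * p ^ 4 + (3823 / 2025) * p ^ 3 + (6551 / 2025) * p ^ 2 + (-2992 / 675) * p + (2636 / 2025)) * hp
  have dN2E : nsq (bp V s 0 (1 - s) - V 0) =
      (p - 1) * U * q := by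
    rw [bp0 V]
    refine existB2_d V h01 h12 h02 (by ring) (by norm_num) ?_
    rw [hU]
    simp only [hx, hy, hz, hs, hc]
    linear_combination ((4 / 25) * p ^ 5 + (-12 / 25) * p ^ 4 + (-3 / 5) * p ^ 3 + (48 / 25) * p ^ 2 + (28 / 25) * p + (-208 / 75)) * hp
  have dMM2 : nsq (V 1 - V 2) = p ^ 2 * (p ^ 2 + p + 1) * U * q := by
    rw [h12]
    linear_combination (-(p ^ 2 * q)) * hUW
  have dEM : nsq (V 0 - V 1) = (p - 1) ^ 2 * (p ^ 2 + p + 1) * U * q := by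
    rw [h01]
    linear_combination (-((p - 1) ^ 2 * q)) * hUW
  refine ⟨tilesB V s c x y z, tilesB V s c x y z 2,
    disB V hV hs0 hs1 hc0 hc1 hx0 hy0 hz0 hsum hF, fun i => ?_⟩
  have hpm : 0 < p - 1 := by linarith
  fin_cases i
  · refine sim_perm (Equiv.swap 1 2) (ρ := p ^ 2) (by positivity) ?_ ?_ ?_
    · show nsq (bp V x y z - V 1) = p ^ 2 * nsq (bp V x y z - bp V ((1 - c) * x) ((1 - c) * y + c) ((1 - c) * z))
      rw [dFM, dFN]
      ring
    · show nsq (bp V x y z - V 2) = p ^ 2 * nsq (bp V x y z - bp V s 0 (1 - s))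
      rw [dFM2, dFN2]
      ring
    · show nsq (V 1 - V 2) = p ^ 2 * nsq (bp V ((1 - c) * x) ((1 - c) * y + c) ((1 - c) * z) - bp V s 0 (1 - s))
      rw [dMM2, existB2_symm, dN2N]
      ring
  · refine sim_perm (Equiv.refl _) (ρ := p ^ 2) (by positivity) ?_ ?_ ?_
    · show nsq (bp V x y z - V 2) = p ^ 2 * nsq (bp V x y z - bp V s 0 (1 - s))
      rw [dFM2, dFN2]
      ring
    · show nsq (bp V x y z - bp V s 0 (1 - s)) = p ^ 2 * nsq (bp V x y z - bp V ((1 - c) * x) ((1 - c) * y + c) ((1 - c) * z))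
      rw [dFN2, dFN]
      ring
    · show nsq (V 2 - bp V s 0 (1 - s)) = p ^ 2 * nsq (bp V s 0 (1 - s) - bp V ((1 - c) * x) ((1 - c) * y + c) ((1 - c) * z))
      rw [dM2N2, dN2N]
      ring
  · refine sim_perm (Equiv.refl _) (ρ := 1) one_pos ?_ ?_ ?_ <;>
    · rw [one_mul]
      rfl
  · refine sim_perm (Equiv.refl _) (ρ := (p - 1) ^ 2) (by positivity) ?_ ?_ ?_
    · show nsq (bp V ((1 - c) * x) ((1 - c) * y + c) ((1 - c) * z) - V 0) = (p - 1) ^ 2 * nsq (bp V x y z - bp V s 0 (1 - s))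
      rw [dNE, dFN2]
      ring
    · show nsq (bp V ((1 - c) * x) ((1 - c) * y + c) ((1 - c) * z) - V 1) = (p - 1) ^ 2 * nsq (bp V x y z - bp V ((1 - c) * x) ((1 - c) * y + c) ((1 - c) * z))
      rw [dNM, dFN]
      ring
    · show nsq (V 0 - V 1) = (p - 1) ^ 2 * nsq (bp V s 0 (1 - s) - bp V ((1 - c) * x) ((1 - c) * y + c) ((1 - c) * z))
      rw [dEM, dN2N]
      ring
  · refine sim_perm (Equiv.swap 0 1) (ρ := p - 1) hpm ?_ ?_ ?_
    · show nsq (bp V ((1 - c) * x) ((1 - c) * y + c) ((1 - c) * z) - bp V s 0 (1 - s)) = (p - 1) * nsq (bp V s 0 (1 - s) - bp V x y z)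
      rw [existB2_symm, dN2N, existB2_symm (bp V s 0 (1 - s)), dFN2]
      linear_combination (-(U * q)) * hp
    · show nsq (bp V ((1 - c) * x) ((1 - c) * y + c) ((1 - c) * z) - V 0) = (p - 1) * nsq (bp V s 0 (1 - s) - bp V ((1 - c) * x) ((1 - c) * y + c) ((1 - c) * z))
      rw [dNE, dN2N]
      linear_combination ((p - 1) * U * q) * hp
    · show nsq (bp V s 0 (1 - s) - V 0) = (p - 1) * nsq (bp V x y z - bp V ((1 - c) * x) ((1 - c) * y + c) ((1 - c) * z))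
      rw [dN2E, dFN]
      ring

end Pool.Agent.Helper230.Five
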