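import Pool.Agent.Helper230.Five.Sim

/-! # Dissections into five mutually similar triangles: ExistIR -/

set_option autoImplicit false
noncomputable section
open scoped BigOperators
open Pool.Agent.Helper549.Tri Pool.Agent.Helper549.Tri.Basic Pool.Agent.Helper549.Tri.Setup
namespace Pool.Agent.Helper230.Five

/-- the tiles: `(G, V0, V1)` and the midpoint subdivision of `(G, V2, V0)`, where
`G = (1 - s) V1 + s V2` -/
def existIR_t (V : Fin 3 → ℂ) (s : ℝ) : Fin 5 → Fin 3 → ℂ :=
  ![![bp V 0 (1 - s) s, bp V 1 0 0, bp V 0 1 0],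
    ![bp V 0 (1 - s) s, bp V 0 ((1 - s) / 2) ((1 + s) / 2), bp V (1 / 2) ((1 - s) / 2) (s / 2)],
    ![bp V 0 ((1 - s) / 2) ((1 + s) / 2), bp V 0 0 1, bp V (1 / 2) 0 (1 / 2)],
    ![bp V (1 / 2) ((1 - s) / 2) (s / 2), bp V (1 / 2) 0 (1 / 2), bp V 1 0 0],
    ![bp V 0 ((1 - s) / 2) ((1 + s) / 2), bp V (1 / 2) 0 (1 / 2),
      bp V (1 / 2) ((1 - s) / 2) (s / 2)]]

theorem existIR_dd (V : Fin 3 → ℂ) (s : ℝ) : dd (existIR_t V s 0) = s * dd V ∧
    dd (existIR_t V s 1) = (1 - s) / 4 * dd V ∧ dd (existIR_t V s 2) = (1 - s) / 4 * dd V ∧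
    dd (existIR_t V s 3) = (1 - s) / 4 * dd V ∧ dd (existIR_t V s 4) = (1 - s) / 4 * dd V := by
  refine ⟨?_, ?_, ?_, ?_, ?_⟩ <;>
  · simp only [dd, cr, existIR_t, bp, Matrix.cons_val_zero, Matrix.cons_val_one,
      Matrix.cons_val, Complex.sub_re, Complex.sub_im, Complex.add_re, Complex.add_im,
      Complex.smul_re, Complex.smul_im, smul_eq_mul]
    ring

theorem existIR_l0 (V : Fin 3 → ℂ) (s : ℝ) (p : ℂ) : lam (existIR_t V s 0) 0 p = lam V 2 p ∧
    lam (existIR_t V s 0) 1 p = s * lam V 0 p ∧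
    lam (existIR_t V s 0) 2 p = -((1 - s) * lam V 2 p - s * lam V 1 p) := by
  refine ⟨?_, ?_, ?_⟩ <;>
  · simp only [lam0, lam1, lam2, cr, existIR_t, bp, Matrix.cons_val_zero,
      Matrix.cons_val_one, Matrix.cons_val, Complex.sub_re, Complex.sub_im, Complex.add_re,
      Complex.add_im, Complex.smul_re, Complex.smul_im, smul_eq_mul]
    ring

theorem existIR_l1 (V : Fin 3 → ℂ) (s : ℝ) (p : ℂ) :
    lam (existIR_t V s 1) 0 p = (lam V 1 p - ((1 - s) * lam V 2 p - s * lam V 1 p)
      - (1 - s) * lam V 0 p) / 4 ∧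
    lam (existIR_t V s 1) 1 p = ((1 - s) * lam V 2 p - s * lam V 1 p) / 2 ∧
    lam (existIR_t V s 1) 2 p = ((1 - s) * lam V 0 p) / 2 := by
  refine ⟨?_, ?_, ?_⟩ <;>
  · simp only [lam0, lam1, lam2, cr, existIR_t, bp, Matrix.cons_val_zero,
      Matrix.cons_val_one, Matrix.cons_val, Complex.sub_re, Complex.sub_im, Complex.add_re,
      Complex.add_im, Complex.smul_re, Complex.smul_im, smul_eq_mul]
    ring

theorem existIR_l2 (V : Fin 3 → ℂ) (s : ℝ) (p : ℂ) :
    lam (existIR_t V s 2) 0 p = lam V 1 p / 2 ∧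
    lam (existIR_t V s 2) 1 p = (((1 - s) * lam V 2 p - s * lam V 1 p) - lam V 1 p
      - (1 - s) * lam V 0 p) / 4 ∧
    lam (existIR_t V s 2) 2 p = ((1 - s) * lam V 0 p) / 2 := by
  refine ⟨?_, ?_, ?_⟩ <;>
  · simp only [lam0, lam1, lam2, cr, existIR_t, bp, Matrix.cons_val_zero,
      Matrix.cons_val_one, Matrix.cons_val, Complex.sub_re, Complex.sub_im, Complex.add_re,
      Complex.add_im, Complex.smul_re, Complex.smul_im, smul_eq_mul]
    ring

theorem existIR_l3 (V : Fin 3 → ℂ) (s : ℝ) (p : ℂ) :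
    lam (existIR_t V s 3) 0 p = lam V 1 p / 2 ∧
    lam (existIR_t V s 3) 1 p = ((1 - s) * lam V 2 p - s * lam V 1 p) / 2 ∧
    lam (existIR_t V s 3) 2 p = ((1 - s) * lam V 0 p - lam V 1 p
      - ((1 - s) * lam V 2 p - s * lam V 1 p)) / 4 := by
  refine ⟨?_, ?_, ?_⟩ <;>
  · simp only [lam0, lam1, lam2, cr, existIR_t, bp, Matrix.cons_val_zero,
      Matrix.cons_val_one, Matrix.cons_val, Complex.sub_re, Complex.sub_im, Complex.add_re,
      Complex.add_im, Complex.smul_re, Complex.smul_im, smul_eq_mul]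
    ring

theorem existIR_l4 (V : Fin 3 → ℂ) (s : ℝ) (p : ℂ) :
    lam (existIR_t V s 4) 0 p = (lam V 1 p + ((1 - s) * lam V 2 p - s * lam V 1 p)
      - (1 - s) * lam V 0 p) / 4 ∧
    lam (existIR_t V s 4) 1 p = (((1 - s) * lam V 2 p - s * lam V 1 p) + (1 - s) * lam V 0 p
      - lam V 1 p) / 4 ∧
    lam (existIR_t V s 4) 2 p = (lam V 1 p + (1 - s) * lam V 0 p
      - ((1 - s) * lam V 2 p - s * lam V 1 p)) / 4 := by
  refine ⟨?_, ?_, ?_⟩ <;>
  · simp only [lam0, lam1, lam2, cr, existIR_t, bp, Matrix.cons_val_zero,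
      Matrix.cons_val_one, Matrix.cons_val, Complex.sub_re, Complex.sub_im, Complex.add_re,
      Complex.add_im, Complex.smul_re, Complex.smul_im, smul_eq_mul]
    ring

theorem existIR_ccw (V : Fin 3 → ℂ) (hV : 0 < dd V) (s : ℝ) (h0 : 0 < s) (h1 : s < 1)
    (i : Fin 5) : 0 < dd (existIR_t V s i) := by
  obtain ⟨e0, e1, e2, e3, e4⟩ := existIR_dd V s
  have hs : 0 < (1 - s) / 4 := by linarith
  fin_cases i
  · show 0 < dd (existIR_t V s 0); rw [e0]; positivity
  · show 0 < dd (existIR_t V s 1); rw [e1]; positivity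
  · show 0 < dd (existIR_t V s 2); rw [e2]; positivity
  · show 0 < dd (existIR_t V s 3); rw [e3]; positivity
  · show 0 < dd (existIR_t V s 4); rw [e4]; positivity

theorem existIR_dis (V : Fin 3 → ℂ) (hV : 0 < dd V) (s : ℝ) (h0 : 0 < s) (h1 : s < 1) :
    Dis 5 V (existIR_t V s) := by
  have hc := existIR_ccw V hV s h0 h1
  have h1' : 0 < 1 - s := by linarith
  refine ⟨hV, hc, ?_, ?_⟩
  · ext p
    rw [Set.mem_iUnion, mem_hull V hV, all3]
    obtain ⟨a0, a1, a2⟩ := existIR_l0 V s p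
    obtain ⟨b0, b1, b2⟩ := existIR_l1 V s p
    obtain ⟨c0, c1, c2⟩ := existIR_l2 V s p
    obtain ⟨d0, d1, d2⟩ := existIR_l3 V s p
    obtain ⟨e0, e1, e2⟩ := existIR_l4 V s p
    -- positivity from the coordinates of `(G, V2, V0)`
    have back : 0 ≤ lam V 1 p → 0 ≤ (1 - s) * lam V 2 p - s * lam V 1 p →
        0 ≤ (1 - s) * lam V 0 p → 0 ≤ lam V 0 p ∧ 0 ≤ lam V 1 p ∧ 0 ≤ lam V 2 p := by
      intro ha hb hc'
      have hsa : 0 ≤ s * lam V 1 p := mul_nonneg h0.le ha
      refine ⟨nonneg_of_mul_nonneg_right hc' h1', ha, ?_⟩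
      exact nonneg_of_mul_nonneg_right (by linarith : 0 ≤ (1 - s) * lam V 2 p) h1'
    constructor
    · rintro ⟨i, hi⟩
      rw [mem_hull _ (hc i), all3] at hi
      fin_cases i
      · change 0 ≤ lam (existIR_t V s 0) 0 p ∧ 0 ≤ lam (existIR_t V s 0) 1 p ∧
          0 ≤ lam (existIR_t V s 0) 2 p at hi
        rw [a0, a1, a2] at hi
        obtain ⟨i1, i2, i3⟩ := hi
        have hz : 0 ≤ (1 - s) * lam V 2 p := mul_nonneg h1'.le i1
        refine ⟨nonneg_of_mul_nonneg_right i2 h0, ?_, i1⟩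
        exact nonneg_of_mul_nonneg_right (by linarith : 0 ≤ s * lam V 1 p) h0
      · change 0 ≤ lam (existIR_t V s 1) 0 p ∧ 0 ≤ lam (existIR_t V s 1) 1 p ∧
          0 ≤ lam (existIR_t V s 1) 2 p at hi
        rw [b0, b1, b2] at hi
        obtain ⟨i1, i2, i3⟩ := hi
        exact back (by linarith) (by linarith) (by linarith)
      · change 0 ≤ lam (existIR_t V s 2) 0 p ∧ 0 ≤ lam (existIR_t V s 2) 1 p ∧
          0 ≤ lam (existIR_t V s 2) 2 p at hi
        rw [c0, c1, c2] at hi
        obtain ⟨i1, i2, i3⟩ := hi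
        exact back (by linarith) (by linarith) (by linarith)
      · change 0 ≤ lam (existIR_t V s 3) 0 p ∧ 0 ≤ lam (existIR_t V s 3) 1 p ∧
          0 ≤ lam (existIR_t V s 3) 2 p at hi
        rw [d0, d1, d2] at hi
        obtain ⟨i1, i2, i3⟩ := hi
        exact back (by linarith) (by linarith) (by linarith)
      · change 0 ≤ lam (existIR_t V s 4) 0 p ∧ 0 ≤ lam (existIR_t V s 4) 1 p ∧
          0 ≤ lam (existIR_t V s 4) 2 p at hi
        rw [e0, e1, e2] at hi
        obtain ⟨i1, i2, i3⟩ := hi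
        exact back (by linarith) (by linarith) (by linarith)
    · rintro ⟨hx, hy, hz⟩
      have hsx : 0 ≤ s * lam V 0 p := mul_nonneg h0.le hx
      have hcx : 0 ≤ (1 - s) * lam V 0 p := mul_nonneg h1'.le hx
      rcases le_total ((1 - s) * lam V 2 p - s * lam V 1 p) 0 with s1 | s1
      · refine ⟨0, ?_⟩
        rw [mem_hull _ (hc 0), all3, a0, a1, a2]
        exact ⟨hz, hsx, by linarith⟩
      · rcases le_total (((1 - s) * lam V 2 p - s * lam V 1 p) + (1 - s) * lam V 0 p)
          (lam V 1 p) with s2 | s2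
        · refine ⟨1, ?_⟩
          rw [mem_hull _ (hc 1), all3, b0, b1, b2]
          refine ⟨by linarith, by linarith, by linarith⟩
        · rcases le_total (lam V 1 p + (1 - s) * lam V 0 p)
            ((1 - s) * lam V 2 p - s * lam V 1 p) with s3 | s3
          · refine ⟨2, ?_⟩
            rw [mem_hull _ (hc 2), all3, c0, c1, c2]
            refine ⟨by linarith, by linarith, by linarith⟩
          · rcases le_total (lam V 1 p + ((1 - s) * lam V 2 p - s * lam V 1 p))
              ((1 - s) * lam V 0 p) with s4 | s4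
            · refine ⟨3, ?_⟩
              rw [mem_hull _ (hc 3), all3, d0, d1, d2]
              refine ⟨by linarith, by linarith, by linarith⟩
            · refine ⟨4, ?_⟩
              rw [mem_hull _ (hc 4), all3, e0, e1, e2]
              refine ⟨by linarith, by linarith, by linarith⟩
  · have key : ∀ i j : Fin 5, i < j →
        Disjoint (interior (hull (existIR_t V s i))) (interior (hull (existIR_t V s j))) := by
      intro i j hij
      rw [Set.disjoint_left]
      intro p hi hj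
      rw [mem_int _ (hc i), all3] at hi
      rw [mem_int _ (hc j), all3] at hj
      obtain ⟨a0, a1, a2⟩ := existIR_l0 V s p
      obtain ⟨b0, b1, b2⟩ := existIR_l1 V s p
      obtain ⟨c0, c1, c2⟩ := existIR_l2 V s p
      obtain ⟨d0, d1, d2⟩ := existIR_l3 V s p
      obtain ⟨e0, e1, e2⟩ := existIR_l4 V s p
      generalize hA : lam V 1 p = a at *
      generalize hB : (1 - s) * lam V 2 p - s * a = b at *
      generalize hC : (1 - s) * lam V 0 p = c at *
      have H : ∀ i : Fin 5, (0 < lam (existIR_t V s i) 0 p ∧ 0 < lam (existIR_t V s i) 1 p ∧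
          0 < lam (existIR_t V s i) 2 p) →
          (i = 0 ∧ b < 0) ∨
          (i = 1 ∧ 0 < b ∧ 0 < c ∧ b + c < a) ∨
          (i = 2 ∧ 0 < a ∧ 0 < c ∧ a + c < b) ∨
          (i = 3 ∧ 0 < a ∧ 0 < b ∧ a + b < c) ∨
          (i = 4 ∧ c < a + b ∧ a < b + c ∧ b < a + c) := by
        intro i hi
        fin_cases i
        · left
          change 0 < lam (existIR_t V s 0) 0 p ∧ 0 < lam (existIR_t V s 0) 1 p ∧
            0 < lam (existIR_t V s 0) 2 p at hi
          rw [a0, a1, a2] at hi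
          exact ⟨rfl, by linarith [hi.2.2]⟩
        · right; left
          change 0 < lam (existIR_t V s 1) 0 p ∧ 0 < lam (existIR_t V s 1) 1 p ∧
            0 < lam (existIR_t V s 1) 2 p at hi
          rw [b0, b1, b2] at hi
          exact ⟨rfl, by linarith [hi.2.1], by linarith [hi.2.2], by linarith [hi.1]⟩
        · right; right; left
          change 0 < lam (existIR_t V s 2) 0 p ∧ 0 < lam (existIR_t V s 2) 1 p ∧
            0 < lam (existIR_t V s 2) 2 p at hi
          rw [c0, c1, c2] at hi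
          exact ⟨rfl, by linarith [hi.1], by linarith [hi.2.2], by linarith [hi.2.1]⟩
        · right; right; right; left
          change 0 < lam (existIR_t V s 3) 0 p ∧ 0 < lam (existIR_t V s 3) 1 p ∧
            0 < lam (existIR_t V s 3) 2 p at hi
          rw [d0, d1, d2] at hi
          exact ⟨rfl, by linarith [hi.1], by linarith [hi.2.1], by linarith [hi.2.2]⟩
        · right; right; right; right
          change 0 < lam (existIR_t V s 4) 0 p ∧ 0 < lam (existIR_t V s 4) 1 p ∧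
            0 < lam (existIR_t V s 4) 2 p at hi
          rw [e0, e1, e2] at hi
          exact ⟨rfl, by linarith [hi.1], by linarith [hi.2.1], by linarith [hi.2.2]⟩
      rcases H i hi with ⟨ei, f⟩ | ⟨ei, f1, f2, f3⟩ | ⟨ei, f1, f2, f3⟩ | ⟨ei, f1, f2, f3⟩ |
          ⟨ei, f1, f2, f3⟩ <;>
        rcases H j hj with ⟨ej, g⟩ | ⟨ej, g1, g2, g3⟩ | ⟨ej, g1, g2, g3⟩ | ⟨ej, g1, g2, g3⟩ |
          ⟨ej, g1, g2, g3⟩ <;>
        first
        | (exfalso; rw [ei, ej] at hij; exact absurd hij (by decide))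
        | linarith
    intro i j hij
    rcases lt_or_gt_of_ne hij with h | h
    · exact key i j h
    · exact (key j i h).symm

theorem existIR_sw0 : (Equiv.swap (1 : Fin 3) 2) 0 = 0 := by decide
theorem existIR_sw1 : (Equiv.swap (1 : Fin 3) 2) 1 = 2 := by decide
theorem existIR_sw2 : (Equiv.swap (1 : Fin 3) 2) 2 = 1 := by decide
theorem existIR_tw0 : (Equiv.swap (0 : Fin 3) 1) 0 = 1 := by decide
theorem existIR_tw1 : (Equiv.swap (0 : Fin 3) 1) 1 = 0 := by decide
theorem existIR_tw2 : (Equiv.swap (0 : Fin 3) 1) 2 = 2 := by decide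

theorem exist_right (V : Fin 3 → ℂ) (hV : 0 < dd V)
    (h : nsq (V 1 - V 2) = nsq (V 0 - V 1) + nsq (V 0 - V 2)) :
    ∃ (t : Fin 5 → Fin 3 → ℂ) (D : Fin 3 → ℂ), Dis 5 V t ∧ ∀ i, SimTo (t i) D := by
  have pos : ∀ i j : Fin 3, V i ≠ V j → 0 < nsq (V i - V j) := by
    intro i j hij
    have h1 : nsq (V i - V j) = Complex.normSq (V i - V j) := by
      rw [Complex.normSq_apply]; unfold nsq; ring
    rw [h1]
    exact Complex.normSq_pos.2 (sub_ne_zero.2 hij)
  have h01 : V 0 ≠ V 1 := by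
    intro he
    have : dd V = 0 := by unfold dd cr; rw [he]; simp
    linarith
  have h02 : V 0 ≠ V 2 := by
    intro he
    have : dd V = 0 := by unfold dd cr; rw [he]; simp
    linarith
  have hP := pos 0 1 h01
  have hR := pos 0 2 h02
  generalize hPd : nsq (V 0 - V 1) = P at *
  generalize hRd : nsq (V 0 - V 2) = R at *
  have hN : 0 < P + R := by linarith
  have hNe : P + R ≠ 0 := hN.ne'
  have hs0 : 0 < P / (P + R) := div_pos hP hN
  have hs1 : P / (P + R) < 1 := by rw [div_lt_one hN]; linarith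
  refine ⟨existIR_t V (P / (P + R)), ![bp V 1 0 0, bp V 0 1 0, bp V 0 0 1],
    existIR_dis V hV _ hs0 hs1, fun i => ?_⟩
  have hρ : 0 < R / (4 * (P + R)) := by positivity
  fin_cases i
  · show SimTo (existIR_t V (P / (P + R)) 0) _
    refine sim_perm (Equiv.swap 1 2) hs0 ?_ ?_ ?_ <;>
    · simp only [existIR_sw0, existIR_sw1, existIR_sw2, existIR_t, Matrix.cons_val_zero,
        Matrix.cons_val_one, Matrix.cons_val]
      rw [nsq_bp V (by ring) (by ring), nsq_bp V (by ring) (by ring), hPd, hRd, h]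
      field_simp
      ring
  · show SimTo (existIR_t V (P / (P + R)) 1) _
    refine sim_perm (Equiv.swap 1 2) hρ ?_ ?_ ?_ <;>
    · simp only [existIR_sw0, existIR_sw1, existIR_sw2, existIR_t, Matrix.cons_val_zero,
        Matrix.cons_val_one, Matrix.cons_val]
      rw [nsq_bp V (by ring) (by ring), nsq_bp V (by ring) (by ring), hPd, hRd, h]
      field_simp
      ring
  · show SimTo (existIR_t V (P / (P + R)) 2) _
    refine sim_perm (Equiv.swap 1 2) hρ ?_ ?_ ?_ <;>
    · simp only [existIR_sw0, existIR_sw1, existIR_sw2, existIR_t, Matrix.cons_val_zero,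
        Matrix.cons_val_one, Matrix.cons_val]
      rw [nsq_bp V (by ring) (by ring), nsq_bp V (by ring) (by ring), hPd, hRd, h]
      field_simp
      ring
  · show SimTo (existIR_t V (P / (P + R)) 3) _
    refine sim_perm (Equiv.swap 1 2) hρ ?_ ?_ ?_ <;>
    · simp only [existIR_sw0, existIR_sw1, existIR_sw2, existIR_t, Matrix.cons_val_zero,
        Matrix.cons_val_one, Matrix.cons_val]
      rw [nsq_bp V (by ring) (by ring), nsq_bp V (by ring) (by ring), hPd, hRd, h]
      field_simp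
      ring
  · show SimTo (existIR_t V (P / (P + R)) 4) _
    refine sim_perm (Equiv.swap 0 1) hρ ?_ ?_ ?_ <;>
    · simp only [existIR_tw0, existIR_tw1, existIR_tw2, existIR_t, Matrix.cons_val_zero,
        Matrix.cons_val_one, Matrix.cons_val]
      rw [nsq_bp V (by ring) (by ring), nsq_bp V (by ring) (by ring), hPd, hRd, h]
      field_simp
      ring

theorem exist_iso (V : Fin 3 → ℂ) (hV : 0 < dd V) (h : nsq (V 0 - V 1) = nsq (V 0 - V 2)) :
    ∃ (t : Fin 5 → Fin 3 → ℂ) (D : Fin 3 → ℂ), Dis 5 V t ∧ ∀ i, SimTo (t i) D := by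
  have hh : (0 : ℝ) < 1 / 2 := by norm_num
  have hh1 : (1 / 2 : ℝ) < 1 := by norm_num
  have hq : (0 : ℝ) < 1 / 4 := by norm_num
  have hhe : (1 : ℝ) - 1 / 2 = 1 / 2 := by norm_num
  refine ⟨existIR_t V (1 / 2), ![bp V 0 (1 / 2) (1 / 2), bp V 1 0 0, bp V 0 1 0],
    existIR_dis V hV _ hh hh1, fun i => ?_⟩
  fin_cases i
  · show SimTo (existIR_t V (1 / 2) 0) _
    refine sim_perm (Equiv.refl _) (ρ := 1) one_pos ?_ ?_ ?_ <;>
    · simp only [Equiv.refl_apply, existIR_t, Matrix.cons_val_zero,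
        Matrix.cons_val_one, Matrix.cons_val, one_mul, hhe]
  · show SimTo (existIR_t V (1 / 2) 1) _
    refine sim_perm (Equiv.swap 1 2) hq ?_ ?_ ?_ <;>
    · simp only [existIR_sw0, existIR_sw1, existIR_sw2, existIR_t, Matrix.cons_val_zero,
        Matrix.cons_val_one, Matrix.cons_val]
      rw [nsq_bp V (by ring) (by ring), nsq_bp V (by ring) (by ring), h]
      ring
  · show SimTo (existIR_t V (1 / 2) 2) _
    refine sim_perm (Equiv.swap 1 2) hq ?_ ?_ ?_ <;>
    · simp only [existIR_sw0, existIR_sw1, existIR_sw2, existIR_t, Matrix.cons_val_zero,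
        Matrix.cons_val_one, Matrix.cons_val]
      rw [nsq_bp V (by ring) (by ring), nsq_bp V (by ring) (by ring), h]
      ring
  · show SimTo (existIR_t V (1 / 2) 3) _
    refine sim_perm (Equiv.swap 1 2) hq ?_ ?_ ?_ <;>
    · simp only [existIR_sw0, existIR_sw1, existIR_sw2, existIR_t, Matrix.cons_val_zero,
        Matrix.cons_val_one, Matrix.cons_val]
      rw [nsq_bp V (by ring) (by ring), nsq_bp V (by ring) (by ring), h]
      ring
  · show SimTo (existIR_t V (1 / 2) 4) _
    refine sim_perm (Equiv.swap 0 1) hq ?_ ?_ ?_ <;>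
    · simp only [existIR_tw0, existIR_tw1, existIR_tw2, existIR_t, Matrix.cons_val_zero,
        Matrix.cons_val_one, Matrix.cons_val]
      rw [nsq_bp V (by ring) (by ring), nsq_bp V (by ring) (by ring), h]
      ring

end Pool.Agent.Helper230.Five
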