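import Pool.Agent.Helper230.Five.Class

/-! # Dissections into five similar triangles: only the angles `π/6`, `π/6`, `2π/3` -/

set_option autoImplicit false
noncomputable section
open scoped BigOperators
open Pool.Agent.Helper549.Tri Pool.Agent.Helper549.Tri.Basic Pool.Agent.Helper549.Tri.Angles
  Pool.Agent.Helper549.Tri.AngleSum Pool.Agent.Helper549.Tri.Opp Pool.Agent.Helper549.Tri.Corner
  Pool.Agent.Helper549.Tri.Vertex

namespace Pool.Agent.Helper230.Five

variable {T : Fin 3 → ℂ} {t : Fin 5 → Fin 3 → ℂ}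

/-- four tiles at the full vertex -/
theorem case_four (h : Dis 5 T t) (τ : Fin 5 → Equiv.Perm (Fin 3))
    (hang : ∀ i m, ang (t i) m = ang T (τ i m)) (hr : ∀ k, ang T k ≠ Real.pi / 2)
    {a : Fin 3} {F : ℂ} (h4 : (I t F).card = 4) (hW : W t F = 2 * Real.pi)
    (hL : ∑ i ∈ I t F, LF t F i = 0) (hb : (I t (T (a + 1))).card = 2)
    (hc : (I t (T (a + 2))).card = 2) : False := by
  classical
  have hs : ∀ i m, ∃ k, ang (t i) m = ang T k := fun i m => ⟨_, hang i m⟩
  have hB := two_sum h hs hb
  have hC := two_sum h hs hc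
  rw [W_corner h] at hB hC
  have hsum := sum_rot' T h.ccwT a
  have pA := ang_pos T h.ccwT a
  have hpi := Real.pi_pos
  have hgs : ∑ i ∈ I t F, gF t F i = 2 * Real.pi := by
    rw [← hW, W_eq]
    exact (Finset.sum_congr rfl fun i hi => gF_eq h ((mem_I _ _ _).1 hi)).symm
  obtain ⟨i1, hi1⟩ := Finset.card_pos.1 (by omega : 0 < (I t F).card)
  obtain ⟨i2, i3, i4, n23, n24, n34, he⟩ := Finset.card_eq_three.1
    (show ((I t F).erase i1).card = 3 by rw [Finset.card_erase_of_mem hi1, h4])
  have g4 : gF t F i1 + gF t F i2 + gF t F i3 + gF t F i4 = 2 * Real.pi := by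
    rw [← hgs, ← Finset.add_sum_erase _ _ hi1, he, Finset.sum_insert (by simp [n23, n24]),
      Finset.sum_pair n34]
    ring
  have L4 : LF t F i1 + LF t F i2 + LF t F i3 + LF t F i4 = 0 := by
    rw [← hL, ← Finset.add_sum_erase _ _ hi1, he, Finset.sum_insert (by simp [n23, n24]),
      Finset.sum_pair n34]
    ring
  have pp := fun i => pc τ hang F i a
  rcases arith h.ccwT hr a hB hC with ⟨e1, e2⟩ | ⟨e1, e2⟩ | ⟨e1, e2⟩
  · have hle : ∀ i, gF t F i ≤ 2 * ang T a := by
      intro i
      rcases pp i with ⟨e, _⟩ | ⟨e, _⟩ | ⟨e, _⟩ <;> rw [e] <;> linarith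
    have := hle i1
    have := hle i2
    have := hle i3
    have := hle i4
    linarith
  · have hA7 : ang T a = Real.pi / 7 := by linarith
    obtain ⟨t1, t2, t3⟩ := trig7 hA7
    have hs2 : sl T (a + 1) = Real.log (Real.sin (2 * ang T a)) := by unfold sl; rw [e1]
    have hs4 : sl T (a + 2) = Real.log (Real.sin (4 * ang T a)) := by unfold sl; rw [e2]
    have hs1 : sl T a = Real.log (Real.sin (ang T a)) := rfl
    rw [← hs1, ← hs2] at t1
    rw [← hs2, ← hs4] at t2
    rw [← hs1, ← hs2, ← hs4] at t3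
    refine four_contra (g1 := gF t F i1) (g2 := gF t F i2) (g3 := gF t F i3) (g4 := gF t F i4)
      (L1 := LF t F i1) (L2 := LF t F i2) (L3 := LF t F i3) (L4 := LF t F i4) pA t1 t2 t3 ?_
      (by linarith) L4
    have key : ∀ i, (gF t F i = ang T a ∧
        (LF t F i = sl T (a + 1) - sl T (a + 2) ∨ LF t F i = sl T (a + 2) - sl T (a + 1))) ∨
        (gF t F i = 2 * ang T a ∧
          (LF t F i = sl T a - sl T (a + 2) ∨ LF t F i = sl T (a + 2) - sl T a)) ∨
        (gF t F i = 4 * ang T a ∧
          (LF t F i = sl T a - sl T (a + 1) ∨ LF t F i = sl T (a + 1) - sl T a)) := by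
      intro i
      have := pp i
      rw [e1, e2] at this
      exact this
    intro x hx
    simp only [List.mem_cons, List.not_mem_nil, or_false] at hx
    rcases hx with rfl | rfl | rfl | rfl
    · exact key i1
    · exact key i2
    · exact key i3
    · exact key i4
  · have hA7 : ang T a = Real.pi / 7 := by linarith
    obtain ⟨t1, t2, t3⟩ := trig7 hA7
    have hs4 : sl T (a + 1) = Real.log (Real.sin (4 * ang T a)) := by unfold sl; rw [e1]
    have hs2 : sl T (a + 2) = Real.log (Real.sin (2 * ang T a)) := by unfold sl; rw [e2]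
    have hs1 : sl T a = Real.log (Real.sin (ang T a)) := rfl
    rw [← hs1, ← hs2] at t1
    rw [← hs2, ← hs4] at t2
    rw [← hs1, ← hs2, ← hs4] at t3
    refine four_contra (g1 := gF t F i1) (g2 := gF t F i2) (g3 := gF t F i3) (g4 := gF t F i4)
      (L1 := LF t F i1) (L2 := LF t F i2) (L3 := LF t F i3) (L4 := LF t F i4) pA t1 t2 t3 ?_
      (by linarith) L4
    have key : ∀ i, (gF t F i = ang T a ∧
        (LF t F i = sl T (a + 2) - sl T (a + 1) ∨ LF t F i = sl T (a + 1) - sl T (a + 2))) ∨
        (gF t F i = 2 * ang T a ∧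
          (LF t F i = sl T a - sl T (a + 1) ∨ LF t F i = sl T (a + 1) - sl T a)) ∨
        (gF t F i = 4 * ang T a ∧
          (LF t F i = sl T a - sl T (a + 2) ∨ LF t F i = sl T (a + 2) - sl T a)) := by
      intro i
      have := pp i
      rw [e1, e2] at this
      rcases this with ⟨u, v⟩ | ⟨u, v⟩ | ⟨u, v⟩
      · exact Or.inl ⟨u, v.symm⟩
      · exact Or.inr (Or.inr ⟨u, v⟩)
      · exact Or.inr (Or.inl ⟨u, v⟩)
    intro x hx
    simp only [List.mem_cons, List.not_mem_nil, or_false] at hx
    rcases hx with rfl | rfl | rfl | rfl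
    · exact key i1
    · exact key i2
    · exact key i3
    · exact key i4

/-- three tiles at the full vertex: the angles at it -/
theorem three_angles (h : Dis 5 T t) (hs : ∀ i m, ∃ k, ang (t i) m = ang T k) {F : ℂ}
    {i j k : Fin 5} (hi : Has (t i) F) (hj : Has (t j) F) (hk : Has (t k) F)
    (hsum : gF t F i + gF t F j + gF t F k = 2 * Real.pi) :
    ∃ c, ang T c = 2 * Real.pi / 3 ∧ gF t F i = 2 * Real.pi / 3 ∧ gF t F j = 2 * Real.pi / 3 ∧
      gF t F k = 2 * Real.pi / 3 := by
  obtain ⟨x, hx⟩ := hs i (mi t F i)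
  obtain ⟨y, hy⟩ := hs j (mi t F j)
  obtain ⟨z, hz⟩ := hs k (mi t F k)
  change gF t F i = _ at hx
  change gF t F j = _ at hy
  change gF t F k = _ at hz
  have hxy : x = y := by
    by_contra hne
    have h1 := ang_T_sum h.ccwT hne
    have h2 := ang_lt_pi T h.ccwT z
    linarith
  have hyz : y = z := by
    by_contra hne
    have h1 := ang_T_sum h.ccwT hne
    have h2 := ang_lt_pi T h.ccwT x
    linarith
  subst hxy
  subst hyz
  refine ⟨x, by linarith, by linarith, by linarith, by linarith⟩

/-- one full vertex -/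
theorem case_one (h : Dis 5 T t) (τ : Fin 5 → Equiv.Perm (Fin 3))
    (hang : ∀ i m, ang (t i) m = ang T (τ i m)) (hr : ∀ k, ang T k ≠ Real.pi / 2)
    {a : Fin 3} {P : Fin 5} (hP : U T t a P) (hn : (nc T t).card = 3) {F : ℂ}
    (hFf : F ∈ full T t) :
    ∃ k, ang T k = 2 * Real.pi / 3 ∧ ang T (k + 1) = Real.pi / 6 ∧
      ang T (k + 2) = Real.pi / 6 := by
  classical
  have hs : ∀ i m, ∃ k, ang (t i) m = ang T k := fun i m => ⟨_, hang i m⟩
  obtain ⟨hF, hW⟩ := full_int h hFf
  have hFn := (mem_full.1 hFf).1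
  obtain ⟨hFp, hFT⟩ := mem_nc.1 hFn
  have hgs : ∑ i ∈ I t F, gF t F i = 2 * Real.pi := by
    rw [← hW, W_eq]
    exact (Finset.sum_congr rfl fun i hi => gF_eq h ((mem_I _ _ _).1 hi)).symm
  have hpc : (pts t).card = 6 := by
    have := split_sum h (fun _ => 1)
    rw [Finset.sum_const, Finset.sum_const, hn] at this
    simpa using this
  set R : Finset ℂ := ((pts t).erase F).erase (T a) with hRdef
  have hTaF : T a ∈ (pts t).erase F := Finset.mem_erase.2 ⟨(hFT a).symm, W_pos_has h a⟩
  have hR4 : R.card = 4 := by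
    rw [hRdef, Finset.card_erase_of_mem hTaF, Finset.card_erase_of_mem hFp, hpc]
  have hmR : ∀ q, q ∈ R ↔ q ≠ T a ∧ q ≠ F ∧ q ∈ pts t := by
    intro q
    rw [hRdef, Finset.mem_erase, Finset.mem_erase]
  have hRm : ∀ x q, Has (t x) q → q = F ∨ q = T a ∨ q ∈ R := by
    intro x q hq
    by_cases h1 : q = F
    · exact Or.inl h1
    · by_cases h2 : q = T a
      · exact Or.inr (Or.inl h2)
      · exact Or.inr (Or.inr ((hmR q).2 ⟨h2, h1, (mem_pts _ _).2 ⟨x, hq⟩⟩))
  have hPa : ∀ x, Has (t x) (T a) → x = P := by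
    intro x hxx
    have := (mem_I _ _ _).2 hxx
    rw [hP.1] at this
    exact Finset.mem_singleton.1 this
  have hPF : ¬ Has (t P) F := fun hh => U_not_int h hP hh hF
  have hin : ∀ x q, Has (t x) F → Has (t x) q → q ≠ F → q ∈ R := by
    intro x q hx hq hqF
    rcases hRm x q hq with e | e | e
    · exact absurd e hqF
    · exfalso
      have := hPa x (e ▸ hq)
      exact hPF (this ▸ hx)
    · exact e
  have hout : ∀ x, Has (t x) F → out t F x ∈ R ∧ inn t F x ∈ R := fun x hx =>
    ⟨hin x _ hx (out_has F x) (out_ne_F h hx), hin x _ hx (inn_has F x) (inn_ne_F h hx)⟩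
  have hOi : Set.InjOn (out t F) (I t F : Set (Fin 5)) := by
    intro x hx y hy hxy
    by_contra hne
    exact out_inj h hne ((mem_I _ _ _).1 hx) ((mem_I _ _ _).1 hy) hxy
  have hNi : Set.InjOn (inn t F) (I t F : Set (Fin 5)) := by
    intro x hx y hy hxy
    by_contra hne
    exact inn_inj h hne ((mem_I _ _ _).1 hx) ((mem_I _ _ _).1 hy) hxy
  have hOc : ((I t F).image (out t F)).card = (I t F).card := Finset.card_image_of_injOn hOi
  have hNc : ((I t F).image (inn t F)).card = (I t F).card := Finset.card_image_of_injOn hNi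
  have hOs : (I t F).image (out t F) ⊆ R := by
    intro q hq
    obtain ⟨x, hx, rfl⟩ := Finset.mem_image.1 hq
    exact (hout x ((mem_I _ _ _).1 hx)).1
  have hNs : (I t F).image (inn t F) ⊆ R := by
    intro q hq
    obtain ⟨x, hx, rfl⟩ := Finset.mem_image.1 hq
    exact (hout x ((mem_I _ _ _).1 hx)).2
  have hge := n_ge h hs hr hFp hFT
  have hle : (I t F).card ≤ 4 := by
    rw [← hOc, ← hR4]
    exact Finset.card_le_card hOs
  rcases (by omega : (I t F).card = 4 ∨ (I t F).card = 3) with h4 | h3
  · exfalso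
    have hO : (I t F).image (out t F) = R := Finset.eq_of_subset_of_card_le hOs (by omega)
    have hNN : (I t F).image (inn t F) = R := Finset.eq_of_subset_of_card_le hNs (by omega)
    have hL := sum_L h (hO.trans hNN.symm)
    have htwo : ∀ q ∈ R, 2 ≤ (I t q).card := by
      intro q hq
      have q1 := hq
      have q2 := hq
      rw [← hO] at q1
      rw [← hNN] at q2
      obtain ⟨x, hx, hxq⟩ := Finset.mem_image.1 q1
      obtain ⟨y, hy, hyq⟩ := Finset.mem_image.1 q2
      refine Finset.one_lt_card.2 ⟨x, ?_, y, ?_, ?_⟩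
      · rw [mem_I, ← hxq]; exact out_has F x
      · rw [mem_I, ← hyq]; exact inn_has F y
      · rintro rfl
        exact out_ne_inn h F x (hxq.trans hyq.symm)
    have hsum := sum_n h
    rw [split_sum h (fun p => (I t p).card), sum_rot (fun j => (I t (T j)).card) a] at hsum
    have hnc : 10 ≤ ∑ p ∈ nc T t, (I t p).card := by
      rw [← Finset.add_sum_erase _ _ hFn, h4]
      have : 6 ≤ ∑ p ∈ (nc T t).erase F, (I t p).card := by
        calc 6 = ∑ p ∈ (nc T t).erase F, 3 := by
              rw [Finset.sum_const, Finset.card_erase_of_mem hFn, hn]; rfl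
          _ ≤ _ := Finset.sum_le_sum fun p hp => by
              have := Finset.mem_of_mem_erase hp
              exact n_ge h hs hr (mem_nc.1 this).1 (mem_nc.1 this).2
      omega
    have hTinj := vertex_inj _ h.ccwT
    have hne1 : T (a + 1) ≠ T a := fun e => by
      have := hTinj e
      revert this; fin_cases a <;> decide
    have hne2 : T (a + 2) ≠ T a := fun e => by
      have := hTinj e
      revert this; fin_cases a <;> decide
    have k1 := htwo (T (a + 1)) ((hmR _).2 ⟨hne1, (hFT _).symm, W_pos_has h _⟩)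
    have k2 := htwo (T (a + 2)) ((hmR _).2 ⟨hne2, (hFT _).symm, W_pos_has h _⟩)
    have k0 : (I t (T a)).card = 1 := by rw [hP.1]; rfl

    exact case_four h τ hang hr (a := a) h4 hW hL (by omega) (by omega)
  · obtain ⟨i, j, k, hij, hik, hjk, he⟩ := Finset.card_eq_three.1 h3
    have hI : ∀ x, Has (t x) F ↔ (x = i ∨ x = j ∨ x = k) := by
      intro x
      rw [← mem_I, he]
      simp only [Finset.mem_insert, Finset.mem_singleton]
    have hi : Has (t i) F := (hI i).2 (Or.inl rfl)
    have hj : Has (t j) F := (hI j).2 (Or.inr (Or.inl rfl))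
    have hk : Has (t k) F := (hI k).2 (Or.inr (Or.inr rfl))
    have hg3 : gF t F i + gF t F j + gF t F k = 2 * Real.pi := by
      rw [← hgs, he, Finset.sum_insert (by simp [hij, hik]), Finset.sum_pair hjk]
      ring
    obtain ⟨c, hc, gi, gj, gk⟩ := three_angles h hs hi hj hk hg3
    have hg : ∀ x, Has (t x) F → gF t F x = 2 * Real.pi / 3 := by
      intro x hx
      rcases (hI x).1 hx with rfl | rfl | rfl
      · exact gi
      · exact gj
      · exact gk
    by_cases hO : (I t F).image (out t F) = (I t F).image (inn t F)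
    · have hL := sum_L h hO
      rw [he, Finset.sum_insert (by simp [hij, hik]), Finset.sum_pair hjk] at hL
      have hsumc := sum_rot' T h.ccwT c
      have p1 := ang_pos T h.ccwT (c + 1)
      have p2 := ang_pos T h.ccwT (c + 2)
      have hpi := Real.pi_pos
      have key : ∀ x, Has (t x) F → LF t F x = sl T (c + 1) - sl T (c + 2) ∨
          LF t F x = sl T (c + 2) - sl T (c + 1) := by
        intro x hx
        have hgx := hg x hx
        rcases pc τ hang F x c with ⟨_, e⟩ | ⟨e, _⟩ | ⟨e, _⟩
        · exact e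
        · exfalso; linarith
        · exfalso; linarith
      have hsl : sl T (c + 1) = sl T (c + 2) := by
        rcases key i hi with e1 | e1 <;> rcases key j hj with e2 | e2 <;>
          rcases key k hk with e3 | e3 <;> linarith
      have q1 : 0 < Real.sin (ang T (c + 1)) := Real.sin_pos_of_pos_of_lt_pi p1 (by linarith)
      have q2 : 0 < Real.sin (ang T (c + 2)) := Real.sin_pos_of_pos_of_lt_pi p2 (by linarith)
      have hsin : Real.sin (ang T (c + 1)) = Real.sin (ang T (c + 2)) :=
        Real.log_injOn_pos q1 q2 hsl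
      have heq : ang T (c + 1) = ang T (c + 2) :=
        Real.injOn_sin ⟨by linarith, by linarith⟩ ⟨by linarith, by linarith⟩ hsin
      exact ⟨c, hc, by linarith, by linarith⟩
    · exfalso
      have w1 : ∃ x, Has (t x) F ∧ ∀ y, Has (t y) F → inn t F y ≠ out t F x := by
        by_contra hcon
        push Not at hcon
        apply hO
        refine Finset.eq_of_subset_of_card_le ?_ (by omega)
        intro q hq
        obtain ⟨x, hx, rfl⟩ := Finset.mem_image.1 hq
        obtain ⟨y, hy, hyx⟩ := hcon x ((mem_I _ _ _).1 hx)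
        exact Finset.mem_image.2 ⟨y, (mem_I _ _ _).2 hy, hyx⟩
      have w2 : ∃ x, Has (t x) F ∧ ∀ y, Has (t y) F → out t F y ≠ inn t F x := by
        by_contra hcon
        push Not at hcon
        apply hO
        symm
        refine Finset.eq_of_subset_of_card_le ?_ (by omega)
        intro q hq
        obtain ⟨x, hx, rfl⟩ := Finset.mem_image.1 hq
        obtain ⟨y, hy, hyx⟩ := hcon x ((mem_I _ _ _).1 hx)
        exact Finset.mem_image.2 ⟨y, (mem_I _ _ _).2 hy, hyx⟩
      obtain ⟨x, hx, hWx⟩ := w1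
      obtain ⟨z, hz, hZz⟩ := w2
      exact path_all h hs hr hF hP hR4 hRm hij hik hjk hI hout hg hx hz hWx hZz

/-- **Only the angles `π/6`, `π/6`, `2π/3`.** -/
theorem main5 (h : Dis 5 T t) (τ : Fin 5 → Equiv.Perm (Fin 3))
    (hang : ∀ i m, ang (t i) m = ang T (τ i m)) (hr : ∀ k, ang T k ≠ Real.pi / 2) :
    ∃ k, ang T k = 2 * Real.pi / 3 ∧ ang T (k + 1) = Real.pi / 6 ∧
      ang T (k + 2) = Real.pi / 6 := by
  classical
  have hs : ∀ i m, ∃ k, ang (t i) m = ang T k := fun i m => ⟨_, hang i m⟩
  obtain ⟨a, -, ha⟩ := Finset.exists_min_image (Finset.univ : Finset (Fin 3)) (ang T)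
    ⟨0, Finset.mem_univ _⟩
  obtain ⟨P, hP⟩ := min_unsplit h hs (a := a) (fun k => ha k (Finset.mem_univ _))
  have hcf := card_nc_full h
  have hsub : full T t ⊆ nc T t := fun p hp => (mem_full.1 hp).1
  have hle := Finset.card_le_card hsub
  rcases (by omega : (full T t).card = 0 ∨ (full T t).card = 1 ∨ (full T t).card = 2) with
    h0 | h1 | h2
  · exact (case_zero h hs hr (by omega)).elim
  · obtain ⟨F, hF⟩ := Finset.card_pos.1 (by omega : 0 < (full T t).card)
    exact case_one h τ hang hr hP (by omega) hF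
  · have : full T t = nc T t := Finset.eq_of_subset_of_card_le hsub (by omega)
    exact (case_two h hP this.ge).elim

end Pool.Agent.Helper230.Five
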