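import Pool.Agent.Helper230.Five.One
import Pool.Agent.Helper230.Five.Shape

/-! # Dissections into five mutually similar triangles: FourNonadj -/

set_option autoImplicit false
noncomputable section
open scoped BigOperators
open Pool.Agent.Helper549.Tri Pool.Agent.Helper549.Tri.Basic Pool.Agent.Helper549.Tri.Angles
  Pool.Agent.Helper549.Tri.AngleSum Pool.Agent.Helper549.Tri.Opp Pool.Agent.Helper549.Tri.Corner
  Pool.Agent.Helper549.Tri.Vertex
namespace Pool.Agent.Helper230.Five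

variable {T : Fin 3 → ℂ} {t : Fin 5 → Fin 3 → ℂ} {θ : Fin 3 → ℝ} {τ : Fin 5 → Equiv.Perm (Fin 3)}

/-- a vertex which is not a corner has at most one zero barycentric coordinate -/
theorem four_nonadj_one {H : ℂ} (h : Dis 5 T t) (n : H ∈ nc T t) {x y : Fin 3} (hxy : x ≠ y)
    (hx : lam T x H = 0) (hy : lam T y H = 0) : False := by
  obtain ⟨hp, hn⟩ := mem_nc.1 n
  obtain ⟨i, hi⟩ := (mem_pts t H).1 hp
  rcases vertex_cases T h.ccwT H (has_mem h hi) with h1 | ⟨k, h1⟩ | ⟨k, h1⟩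
  · have := (mem_int T h.ccwT H).1 h1 x
    linarith
  · obtain ⟨_, h2, h3⟩ := (onSide_iff T h.ccwT k H).1 h1
    have ex : x = k := by
      rcases q_fin3 k x with e | e | e
      · exact e
      · rw [e] at hx; linarith
      · rw [e] at hx; linarith
    have ey : y = k := by
      rcases q_fin3 k y with e | e | e
      · exact e
      · rw [e] at hy; linarith
      · rw [e] at hy; linarith
    exact hxy (ex.trans ey.symm)
  · exact hn k h1

/-- on every side of `T` there is `H1` or `H2` -/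
theorem four_nonadj_side {F : ℂ} (h : Dis 5 T t) (hF : F ∈ interior (hull T)) {b k : Fin 3}
    (hbk : b ≠ k) {H1 H2 : ℂ}
    (hB : ∀ i, Has (t i) (T b) → ∀ q, Has (t i) q → q = F ∨ q = T b ∨ q = H1 ∨ q = H2) :
    lam T k H1 = 0 ∨ lam T k H2 = 0 := by
  obtain ⟨i, m, l, hm, hlm, hbd⟩ := corner_side h b k hbk
  obtain ⟨m', hm', hml⟩ : ∃ m' : Fin 3, m' ≠ m ∧ m' ≠ l := by
    revert hlm
    clear hm hbd
    revert l m
    decide
  have h0 : lam T k (t i m') = 0 := by
    obtain ⟨e1, e2⟩ := lam_of_bd h.ccwT (h.ccwt i) hbd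
    rcases q_fin3 l m' with e | e | e
    · exact absurd e hml
    · rw [e]; exact e1
    · rw [e]; exact e2
  rcases hB i ⟨m, hm⟩ (t i m') ⟨m', rfl⟩ with e | e | e | e
  · rw [e] at h0
    have := (mem_int T h.ccwT F).1 hF k
    linarith
  · exact absurd (vertex_inj (t i) (h.ccwt i) (e.trans hm.symm)) hm'
  · rw [e] at h0
    exact Or.inl h0
  · rw [e] at h0
    exact Or.inr h0

theorem four_nonadj {F : ℂ} (o : One T t θ τ F) {b c : Fin 3} (hbc : b ≠ c) {H1 H2 : ℂ}
    (n1 : H1 ∈ nc T t) (n2 : H2 ∈ nc T t)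
    (hB : ∀ i, Has (t i) (T b) → ∀ q, Has (t i) q → q = F ∨ q = T b ∨ q = H1 ∨ q = H2)
    (hC : ∀ i, Has (t i) (T c) → ∀ q, Has (t i) q → q = F ∨ q = T c ∨ q = H1 ∨ q = H2) :
    False := by
  have key : ∀ k : Fin 3, lam T k H1 = 0 ∨ lam T k H2 = 0 := by
    intro k
    by_cases hk : b = k
    · exact four_nonadj_side o.h o.hF (fun e => hbc (hk.trans e.symm)) hC
    · exact four_nonadj_side o.h o.hF hk hB
  have n01 : (0 : Fin 3) ≠ 1 := by decide
  have n02 : (0 : Fin 3) ≠ 2 := by decide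
  have n12 : (1 : Fin 3) ≠ 2 := by decide
  rcases key 0 with k0 | k0 <;> rcases key 1 with k1 | k1 <;> rcases key 2 with k2 | k2
  · exact four_nonadj_one o.h n1 n01 k0 k1
  · exact four_nonadj_one o.h n1 n01 k0 k1
  · exact four_nonadj_one o.h n1 n02 k0 k2
  · exact four_nonadj_one o.h n2 n12 k1 k2
  · exact four_nonadj_one o.h n1 n12 k1 k2
  · exact four_nonadj_one o.h n2 n02 k0 k2
  · exact four_nonadj_one o.h n2 n01 k0 k1
  · exact four_nonadj_one o.h n2 n01 k0 k1

end Pool.Agent.Helper230.Five
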