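import Pool.Agent.Helper230.Five.Path

/-! # Dissections into five mutually similar triangles: general tools -/

set_option autoImplicit false
noncomputable section
open scoped BigOperators
open Pool.Agent.Helper549.Tri Pool.Agent.Helper549.Tri.Basic Pool.Agent.Helper549.Tri.Angles
  Pool.Agent.Helper549.Tri.AngleSum Pool.Agent.Helper549.Tri.Opp Pool.Agent.Helper549.Tri.Corner
  Pool.Agent.Helper549.Tri.Vertex

namespace Pool.Agent.Helper230.Five

variable {T : Fin 3 → ℂ} {t : Fin 5 → Fin 3 → ℂ} {θ : Fin 3 → ℝ} {τ : Fin 5 → Equiv.Perm (Fin 3)}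

/-- `(x, y, z)` is a permutation of the values of `θ` -/
def IsPerm3 (θ : Fin 3 → ℝ) (x y z : ℝ) : Prop :=
  ∃ σ : Equiv.Perm (Fin 3), x = θ (σ 0) ∧ y = θ (σ 1) ∧ z = θ (σ 2)

theorem th_pos (h : Dis 5 T t) (hang : ∀ i m, ang (t i) m = θ (τ i m)) (k : Fin 3) : 0 < θ k := by
  have := hang 0 ((τ 0).symm k)
  rw [Equiv.apply_symm_apply] at this
  rw [← this]
  exact ang_pos _ (h.ccwt 0) _

theorem th_sum (h : Dis 5 T t) (hang : ∀ i m, ang (t i) m = θ (τ i m)) :
    θ 0 + θ 1 + θ 2 = Real.pi := by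
  have h1 := ang_sum (t 0) (h.ccwt 0)
  rw [hang, hang, hang] at h1
  have h2 : ∑ m, θ (τ 0 m) = ∑ k, θ k := Equiv.sum_comp (τ 0) θ
  rw [Fin.sum_univ_three, Fin.sum_univ_three] at h2
  linarith

theorem th_rot (h : Dis 5 T t) (hang : ∀ i m, ang (t i) m = θ (τ i m)) (a : Fin 3) :
    θ a + θ (a + 1) + θ (a + 2) = Real.pi := by
  rw [← th_sum h hang]
  fin_cases a
  · rfl
  · show θ 1 + θ 2 + θ 0 = _; ring
  · show θ 2 + θ 0 + θ 1 = _; ring

theorem th_pair (h : Dis 5 T t) (hang : ∀ i m, ang (t i) m = θ (τ i m)) {k l : Fin 3}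
    (hkl : k ≠ l) : θ k + θ l < Real.pi := by
  have h0 := th_rot h hang k
  have p1 := th_pos h hang (k + 1)
  have p2 := th_pos h hang (k + 2)
  rcases q_fin3 k l with e | e | e
  · exact absurd e.symm hkl
  · rw [e]; linarith
  · rw [e]; linarith

theorem th_lt (h : Dis 5 T t) (hang : ∀ i m, ang (t i) m = θ (τ i m)) (k : Fin 3) :
    θ k < Real.pi := by
  have h0 := th_rot h hang k
  have p1 := th_pos h hang (k + 1)
  have p2 := th_pos h hang (k + 2)
  linarith

theorem valth (h : Dis 5 T t) (hang : ∀ i m, ang (t i) m = θ (τ i m)) {i : Fin 5} {p : ℂ}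
    (hi : Has (t i) p) : ∃ k, q_V (t i) p = θ k := by
  obtain ⟨m, rfl⟩ := hi
  rw [q_V_self _ (h.ccwt i)]
  exact ⟨_, hang i m⟩

/-- the condition on the numbers of tiles at the vertices -/
def H3 (T : Fin 3 → ℂ) (t : Fin 5 → Fin 3 → ℂ) : Prop :=
  ∀ p ∈ pts t, (∀ j, p ≠ T j) → 3 ≤ (I t p).card

theorem n_geth (h : Dis 5 T t) (hang : ∀ i m, ang (t i) m = θ (τ i m))
    (hr : ∀ k, θ k ≠ Real.pi / 2) : H3 T t := by
  intro p hp hT
  obtain ⟨i0, hi0⟩ := (mem_pts t p).1 hp
  have hW : Real.pi ≤ W t p ∧ (W t p = Real.pi ∨ W t p = 2 * Real.pi) := by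
    have := Real.pi_pos
    rcases W_cases h hi0 hT with e | ⟨e, _⟩
    · exact ⟨e.ge, Or.inl e⟩
    · exact ⟨by linarith, Or.inr e⟩
  by_contra hcon
  have hc : (I t p).card = 0 ∨ (I t p).card = 1 ∨ (I t p).card = 2 := by omega
  have hpi := Real.pi_pos
  rw [W_eq] at hW
  rcases hc with hc | hc | hc
  · rw [Finset.card_eq_zero] at hc
    rw [hc, Finset.sum_empty] at hW
    linarith [hW.1]
  · obtain ⟨i, hi⟩ := Finset.card_eq_one.1 hc
    rw [hi, Finset.sum_singleton] at hW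
    have : i ∈ I t p := by rw [hi]; exact Finset.mem_singleton_self _
    obtain ⟨k, hk⟩ := valth h hang ((mem_I t p i).1 this)
    rw [hk] at hW
    linarith [th_lt h hang k, hW.1]
  · obtain ⟨i, j, hij, he⟩ := Finset.card_eq_two.1 hc
    rw [he, Finset.sum_pair hij] at hW
    have h1 : i ∈ I t p := by rw [he]; exact Finset.mem_insert_self _ _
    have h2 : j ∈ I t p := by
      rw [he]; exact Finset.mem_insert_of_mem (Finset.mem_singleton_self _)
    obtain ⟨k, hk⟩ := valth h hang ((mem_I t p i).1 h1)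
    obtain ⟨l, hl⟩ := valth h hang ((mem_I t p j).1 h2)
    rw [hk, hl] at hW
    by_cases hkl : k = l
    · rw [hkl] at hW
      have h3 := hr l
      have h4 := th_lt h hang l
      rcases hW.2 with e | e
      · exact h3 (by linarith)
      · linarith
    · linarith [th_pair h hang hkl, hW.1]

theorem inter_le_two (h : Dis 5 T t) {X Y : ℂ} (hXY : X ≠ Y) : (I t X ∩ I t Y).card ≤ 2 := by
  by_contra hcon
  obtain ⟨i, j, k, hij, hik, hjk, hs⟩ := Finset.two_lt_card.1 (not_le.1 hcon) |> fun ⟨i, hi, j, hj, k, hk, a, b, c⟩ =>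
    (⟨i, j, k, a, b, c, hi, hj, hk⟩ : ∃ i j k, i ≠ j ∧ i ≠ k ∧ j ≠ k ∧ i ∈ I t X ∩ I t Y ∧
      j ∈ I t X ∩ I t Y ∧ k ∈ I t X ∩ I t Y)
  obtain ⟨hi, hj, hk⟩ := hs
  rw [Finset.mem_inter, mem_I, mem_I] at hi hj hk
  exact pair_two h hij hik hjk hXY hi.1 hi.2 hj.1 hj.2 hk.1 hk.2

theorem perm3_of (h : Dis 5 T t) (hang : ∀ i m, ang (t i) m = θ (τ i m)) {i : Fin 5} {X Y Z : ℂ}
    (hX : Has (t i) X) (hY : Has (t i) Y) (hZ : Has (t i) Z) (h1 : X ≠ Y) (h2 : X ≠ Z)
    (h3 : Y ≠ Z) : IsPerm3 θ (q_V (t i) X) (q_V (t i) Y) (q_V (t i) Z) := by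
  obtain ⟨x, rfl⟩ := hX
  obtain ⟨y, rfl⟩ := hY
  obtain ⟨z, rfl⟩ := hZ
  rw [q_V_self _ (h.ccwt i), q_V_self _ (h.ccwt i), q_V_self _ (h.ccwt i), hang, hang, hang]
  have n1 : x ≠ y := by rintro rfl; exact h1 rfl
  have n2 : x ≠ z := by rintro rfl; exact h2 rfl
  have n3 : y ≠ z := by rintro rfl; exact h3 rfl
  have hinj : Function.Injective ![x, y, z] := by
    intro a b hab
    fin_cases a <;> fin_cases b <;> simp_all
  refine ⟨(Equiv.ofBijective _ (Finite.injective_iff_bijective.1 hinj)).trans (τ i), ?_, ?_, ?_⟩ <;>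
    rfl

theorem perm3_sum (h : Dis 5 T t) (hang : ∀ i m, ang (t i) m = θ (τ i m)) {x y z : ℝ}
    (hp : IsPerm3 θ x y z) : x + y + z = Real.pi := by
  obtain ⟨σ, rfl, rfl, rfl⟩ := hp
  have h2 : ∑ m, θ (σ m) = ∑ k, θ k := Equiv.sum_comp σ θ
  rw [Fin.sum_univ_three, Fin.sum_univ_three] at h2
  rw [h2]
  exact th_sum h hang

theorem len_opp (v : Fin 3 → ℂ) {x y z : Fin 3} (h1 : x ≠ y) (h2 : x ≠ z) (h3 : y ≠ z) :
    len v z = ‖v x - v y‖ := by
  unfold len sd
  have : (x = z + 1 ∧ y = z + 2) ∨ (y = z + 1 ∧ x = z + 2) := by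
    revert h1 h2 h3
    fin_cases x <;> fin_cases y <;> fin_cases z <;> decide
  rcases this with ⟨e1, e2⟩ | ⟨e1, e2⟩
  · rw [e1, e2, norm_sub_rev]
  · rw [e1, e2]

theorem slaw (h : Dis 5 T t) {i : Fin 5} {X Y Z : ℂ}
    (hX : Has (t i) X) (hY : Has (t i) Y) (hZ : Has (t i) Z) (h1 : X ≠ Y) (h2 : X ≠ Z)
    (h3 : Y ≠ Z) : ‖X - Y‖ * Real.sin (q_V (t i) X) = ‖Y - Z‖ * Real.sin (q_V (t i) Z) := by
  obtain ⟨x, rfl⟩ := hX
  obtain ⟨y, rfl⟩ := hY
  obtain ⟨z, rfl⟩ := hZ
  rw [q_V_self _ (h.ccwt i), q_V_self _ (h.ccwt i)]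
  have n1 : x ≠ y := by rintro rfl; exact h1 rfl
  have n2 : x ≠ z := by rintro rfl; exact h2 rfl
  have n3 : y ≠ z := by rintro rfl; exact h3 rfl
  rw [← len_opp (t i) n1 n2 n3, ← len_opp (t i) n3 n1.symm n2.symm]
  exact sine_law (t i) (h.ccwt i) z x

/-- three tiles at a full vertex -/
theorem three_th (h : Dis 5 T t) (hang : ∀ i m, ang (t i) m = θ (τ i m)) {F : ℂ}
    (h3 : (I t F).card = 3) (hW : W t F = 2 * Real.pi) :
    ∃ c, θ c = 2 * Real.pi / 3 ∧ ∀ i ∈ I t F, q_V (t i) F = 2 * Real.pi / 3 := by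
  obtain ⟨i, j, k, hij, hik, hjk, he⟩ := Finset.card_eq_three.1 h3
  rw [W_eq, he, Finset.sum_insert (by simp [hij, hik]), Finset.sum_pair hjk] at hW
  have hi : i ∈ I t F := by rw [he]; simp
  have hj : j ∈ I t F := by rw [he]; simp
  have hk : k ∈ I t F := by rw [he]; simp
  obtain ⟨x, hx⟩ := valth h hang ((mem_I _ _ _).1 hi)
  obtain ⟨y, hy⟩ := valth h hang ((mem_I _ _ _).1 hj)
  obtain ⟨z, hz⟩ := valth h hang ((mem_I _ _ _).1 hk)
  have hxy : x = y := by
    by_contra hne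
    have h1 := th_pair h hang hne
    have h2 := th_lt h hang z
    linarith
  have hyz : y = z := by
    by_contra hne
    have h1 := th_pair h hang hne
    have h2 := th_lt h hang x
    linarith
  subst hxy
  subst hyz
  refine ⟨x, by linarith, fun l hl => ?_⟩
  rw [he] at hl
  simp only [Finset.mem_insert, Finset.mem_singleton] at hl
  rcases hl with rfl | rfl | rfl <;> linarith

theorem small (h : Dis 5 T t) (hang : ∀ i m, ang (t i) m = θ (τ i m)) {c : Fin 3}
    (hc : θ c = 2 * Real.pi / 3) (k : Fin 3) : θ k = 2 * Real.pi / 3 ∨ θ k < Real.pi / 3 := by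
  have h0 := th_rot h hang c
  have p1 := th_pos h hang (c + 1)
  have p2 := th_pos h hang (c + 2)
  rcases q_fin3 c k with e | e | e
  · left; rw [e, hc]
  · right; rw [e]; linarith
  · right; rw [e]; linarith

theorem case_zero' (h : Dis 5 T t) (h3 : H3 T t) (hn : (nc T t).card = 4) : False := by
  classical
  have hsum := sum_n h
  rw [split_sum h (fun p => (I t p).card)] at hsum
  have hge : 12 ≤ ∑ p ∈ nc T t, (I t p).card := by
    calc 12 = ∑ p ∈ nc T t, 3 := by rw [Finset.sum_const, hn]; rfl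
      _ ≤ _ := Finset.sum_le_sum fun p hp => h3 p (mem_nc.1 hp).1 (mem_nc.1 hp).2
  have hpos : ∀ j, 0 < (I t (T j)).card := by
    intro j
    obtain ⟨i, hi⟩ := (mem_pts t _).1 (W_pos_has h j)
    exact Finset.card_pos.2 ⟨i, (mem_I _ _ _).2 hi⟩
  have p0 := hpos 0
  have p1 := hpos 1
  have p2 := hpos 2
  have hone : ∀ j, (I t (T j)).card = 1 := by
    intro j
    fin_cases j
    · show (I t (T 0)).card = 1; omega
    · show (I t (T 1)).card = 1; omega
    · show (I t (T 2)).card = 1; omega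
  have hex : ∀ j, ∃ i, U T t j i := fun j => by
    obtain ⟨i, hi⟩ := unsplit h j (hone j)
    exact ⟨i, hi⟩
  choose P hP using hex
  have hPinj : Function.Injective P := by
    intro j j' hjj
    by_contra hne
    obtain ⟨i0, h0⟩ := exists_other (P j)
    exact U_ne h h0 hne (hP j) (hP j') hjj
  have hcardP : (Finset.univ.image P).card = 3 := by
    rw [Finset.card_image_of_injective _ hPinj]; rfl
  have hside : ∀ s ∈ nc T t, ∃ k, onSide T k s := by
    intro s hsn
    obtain ⟨hs1, hs2⟩ := mem_nc.1 hsn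
    have h3 := h3 s hs1 hs2
    have hint : (I t s ∩ Finset.univ.image P).Nonempty := by
      by_contra hcon
      rw [Finset.not_nonempty_iff_eq_empty, ← Finset.disjoint_iff_inter_eq_empty] at hcon
      have h5 := Finset.card_union_of_disjoint hcon
      have h6 : (I t s ∪ Finset.univ.image P).card ≤ 5 := by
        simpa using Finset.card_le_univ (I t s ∪ Finset.univ.image P)
      omega
    obtain ⟨x, hx⟩ := hint
    rw [Finset.mem_inter, Finset.mem_image] at hx
    obtain ⟨hx1, j, _, rfl⟩ := hx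
    rw [mem_I] at hx1
    have hni := U_not_int h (hP j) hx1
    rcases vertex_cases T h.ccwT s (has_mem h hx1) with e | e | ⟨k, e⟩
    · exact absurd e hni
    · exact e
    · exact absurd e (hs2 k)
  choose! κ hκ using hside
  obtain ⟨p, hp, q, hq, hpq, hk⟩ := Finset.exists_ne_map_eq_of_card_lt_of_maps_to
    (s := nc T t) (t := (Finset.univ : Finset (Fin 3))) (by rw [hn]; decide)
    (f := κ) (fun x _ => Finset.mem_univ _)
  have o1 := hκ p hp
  have o2 := hκ q hq
  rw [← hk] at o2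
  have b1 : I t p ⊆ Finset.univ.erase (P (κ p)) := by
    intro x hx
    rw [mem_I] at hx
    rw [Finset.mem_erase]
    refine ⟨?_, Finset.mem_univ _⟩
    rintro rfl
    exact U_not_side h (hP _) hx o1
  have b2 : I t q ⊆ Finset.univ.erase (P (κ p)) := by
    intro x hx
    rw [mem_I] at hx
    rw [Finset.mem_erase]
    refine ⟨?_, Finset.mem_univ _⟩
    rintro rfl
    exact U_not_side h (hP _) hx o2
  have c1 := h3 p (mem_nc.1 hp).1 (mem_nc.1 hp).2
  have c2 := h3 q (mem_nc.1 hq).1 (mem_nc.1 hq).2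
  have c3 := Finset.card_union_add_card_inter (I t p) (I t q)
  have c4 : (I t p ∪ I t q).card ≤ 4 := by
    refine (Finset.card_le_card (Finset.union_subset b1 b2)).trans ?_
    rw [Finset.card_erase_of_mem (Finset.mem_univ _)]
    simp
  have c5 : 1 < (I t p ∩ I t q).card := by omega
  obtain ⟨x, hx, y, hy, hxy⟩ := Finset.one_lt_card.1 c5
  rw [Finset.mem_inter, mem_I, mem_I] at hx hy
  exact pair_bd h hxy hpq hx.1 hx.2 hy.1 hy.2 o1 o2

theorem case_two_aux (h : Dis 5 T t) (hang : ∀ i m, ang (t i) m = θ (τ i m)) {F G : ℂ}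
    (hFG : F ≠ G) (hWF : W t F = 2 * Real.pi) (hWG : W t G = 2 * Real.pi)
    (hG : (I t G).card = 3) (hF : (I t F).card ≤ 4) (hI : (I t F).card = (I t F ∩ I t G).card + 2)
    (hpos : 0 < (I t F ∩ I t G).card) : False := by
  classical
  obtain ⟨c, hc, hg⟩ := three_th h hang hG hWG
  have hpi := Real.pi_pos
  rw [W_eq, ← Finset.sum_inter_add_sum_sdiff (I t F) (I t G)] at hWF
  have s1 : ∑ i ∈ I t F ∩ I t G, q_V (t i) F < ∑ i ∈ I t F ∩ I t G, Real.pi / 3 := by
    refine Finset.sum_lt_sum_of_nonempty (Finset.card_pos.1 hpos) fun i hi => ?_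
    rw [Finset.mem_inter] at hi
    have hgi := hg i hi.2
    obtain ⟨x, hx⟩ := (mem_I _ _ _).1 hi.1
    obtain ⟨y, hy⟩ := (mem_I _ _ _).1 hi.2
    have hxy : x ≠ y := by rintro rfl; exact hFG (hx.symm.trans hy)
    rw [← hx, q_V_self _ (h.ccwt i), hang]
    rw [← hy, q_V_self _ (h.ccwt i), hang] at hgi
    have := th_pair h hang (fun e => hxy ((τ i).injective e) : τ i x ≠ τ i y)
    linarith
  have s2 : ∑ i ∈ I t F \ I t G, q_V (t i) F ≤ ∑ i ∈ I t F \ I t G, 2 * Real.pi / 3 := by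
    refine Finset.sum_le_sum fun i hi => ?_
    rw [Finset.mem_sdiff] at hi
    obtain ⟨k, hk⟩ := valth h hang ((mem_I _ _ _).1 hi.1)
    rw [hk]
    rcases small h hang hc k with e | e <;> linarith
  have hcard := Finset.card_inter_add_card_sdiff (I t F) (I t G)
  rw [Finset.sum_const, nsmul_eq_mul] at s1 s2
  have hd : (I t F \ I t G).card = 2 := by omega
  have hle : (I t F ∩ I t G).card ≤ 2 := by omega
  rw [hd] at s2
  have : ((I t F ∩ I t G).card : ℝ) ≤ 2 := by exact_mod_cast hle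
  push_cast at s2
  nlinarith

theorem case_two' (h : Dis 5 T t) (h3 : H3 T t) (hang : ∀ i m, ang (t i) m = θ (τ i m))
    (hn : (nc T t).card = 2) (hf : nc T t ⊆ full T t) : False := by
  classical
  obtain ⟨F, G, hFG, he⟩ := Finset.card_eq_two.1 hn
  have hF : F ∈ nc T t := by rw [he]; simp
  have hG : G ∈ nc T t := by rw [he]; simp
  have wF := (full_int h (hf hF)).2
  have wG := (full_int h (hf hG)).2
  have hcov : I t F ∪ I t G = Finset.univ := by
    ext i
    simp only [Finset.mem_union, mem_I, Finset.mem_univ, iff_true]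
    by_contra hcon
    push Not at hcon
    obtain ⟨j, hj⟩ := exists_other i
    refine not_whole h hj.symm (range_of_sub (vertex_inj _ (h.ccwt i)) fun m => ?_)
    by_contra hc2
    push Not at hc2
    have h1 : t i m ∈ nc T t := mem_nc.2 ⟨(mem_pts _ _).2 ⟨i, m, rfl⟩, hc2⟩
    rw [he] at h1
    simp only [Finset.mem_insert, Finset.mem_singleton] at h1
    rcases h1 with e | e
    · exact hcon.1 ⟨m, e⟩
    · exact hcon.2 ⟨m, e⟩
  have c1 := Finset.card_union_add_card_inter (I t F) (I t G)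
  rw [hcov] at c1
  have c2 := inter_le_two h hFG
  have c3 := h3 F (mem_nc.1 hF).1 (mem_nc.1 hF).2
  have c4 := h3 G (mem_nc.1 hG).1 (mem_nc.1 hG).2
  have c5 : (Finset.univ : Finset (Fin 5)).card = 5 := rfl
  rw [c5] at c1
  by_cases hG3 : (I t G).card = 3
  · exact case_two_aux h hang hFG wF wG hG3 (by omega) (by omega) (by omega)
  · have hF3 : (I t F).card = 3 := by omega
    rw [Finset.inter_comm] at c1 c2
    exact case_two_aux h hang hFG.symm wG wF hF3 (by omega) (by omega) (by omega)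

end Pool.Agent.Helper230.Five
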