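import Pool.Agent.Helper230.Five.Cnt

/-! # Dissections into five similar triangles: geometric lemmas -/

set_option autoImplicit false
noncomputable section
open scoped BigOperators
open Pool.Agent.Helper549.Tri Pool.Agent.Helper549.Tri.Basic Pool.Agent.Helper549.Tri.Angles
  Pool.Agent.Helper549.Tri.AngleSum Pool.Agent.Helper549.Tri.Opp Pool.Agent.Helper549.Tri.Corner
  Pool.Agent.Helper549.Tri.Vertex

namespace Pool.Agent.Helper230.Five

variable {N : ℕ} {T : Fin 3 → ℂ} {t : Fin N → Fin 3 → ℂ}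

theorem three_in {v : Fin 3 → ℂ} (hv : Function.Injective v) {x y z : ℂ}
    (h : ∀ m, v m = x ∨ v m = y ∨ v m = z) : Has v x ∧ Has v y ∧ Has v z := by
  have n01 : v 0 ≠ v 1 := fun e => absurd (hv e) (by decide)
  have n02 : v 0 ≠ v 2 := fun e => absurd (hv e) (by decide)
  have n12 : v 1 ≠ v 2 := fun e => absurd (hv e) (by decide)
  rcases h 0 with a | a | a <;> rcases h 1 with b | b | b <;> rcases h 2 with c | c | c <;>
    first
    | exact absurd (a.trans b.symm) n01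
    | exact absurd (a.trans c.symm) n02
    | exact absurd (b.trans c.symm) n12
    | exact ⟨⟨_, a⟩, ⟨_, b⟩, ⟨_, c⟩⟩
    | exact ⟨⟨_, a⟩, ⟨_, c⟩, ⟨_, b⟩⟩
    | exact ⟨⟨_, b⟩, ⟨_, a⟩, ⟨_, c⟩⟩
    | exact ⟨⟨_, b⟩, ⟨_, c⟩, ⟨_, a⟩⟩
    | exact ⟨⟨_, c⟩, ⟨_, a⟩, ⟨_, b⟩⟩
    | exact ⟨⟨_, c⟩, ⟨_, b⟩, ⟨_, a⟩⟩

theorem no_four {v : Fin 3 → ℂ} {w x y z : ℂ} (hw : Has v w) (hx : Has v x) (hy : Has v y)
    (hz : Has v z) (h1 : w ≠ x) (h2 : w ≠ y) (h3 : w ≠ z) (h4 : x ≠ y) (h5 : x ≠ z) (h6 : y ≠ z) :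
    False := by
  obtain ⟨a, ha⟩ := hw
  obtain ⟨b, hb⟩ := hx
  obtain ⟨c, hc⟩ := hy
  obtain ⟨d, hd⟩ := hz
  have n1 : a ≠ b := by rintro rfl; exact h1 (ha.symm.trans hb)
  have n2 : a ≠ c := by rintro rfl; exact h2 (ha.symm.trans hc)
  have n3 : a ≠ d := by rintro rfl; exact h3 (ha.symm.trans hd)
  have n4 : b ≠ c := by rintro rfl; exact h4 (hb.symm.trans hc)
  have n5 : b ≠ d := by rintro rfl; exact h5 (hb.symm.trans hd)
  have n6 : c ≠ d := by rintro rfl; exact h6 (hc.symm.trans hd)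
  omega

theorem range_of_sub {v : Fin 3 → ℂ} (hv : Function.Injective v)
    (h : ∀ m, ∃ k, v m = T k) : Set.range v = Set.range T := by
  have h3 : ∀ m, v m = T 0 ∨ v m = T 1 ∨ v m = T 2 := by
    intro m
    obtain ⟨k, hk⟩ := h m
    rw [hk]
    fin_cases k
    · exact Or.inl rfl
    · exact Or.inr (Or.inl rfl)
    · exact Or.inr (Or.inr rfl)
  obtain ⟨a0, a1, a2⟩ := three_in hv h3
  apply Set.Subset.antisymm
  · rintro _ ⟨m, rfl⟩
    obtain ⟨k, hk⟩ := h m
    exact ⟨k, hk.symm⟩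
  · rintro _ ⟨k, rfl⟩
    fin_cases k
    · exact a0
    · exact a1
    · exact a2

/-- the tile `i` is the only tile at the corner `j` -/
def U (T : Fin 3 → ℂ) (t : Fin N → Fin 3 → ℂ) (j : Fin 3) (i : Fin N) : Prop :=
  I t (T j) = {i} ∧ ∃ m l1 l2 : Fin 3, t i m = T j ∧ m ≠ l1 ∧ m ≠ l2 ∧ l1 ≠ l2 ∧
      lam T (j + 2) (t i l1) = 0 ∧ lam T (j + 1) (t i l2) = 0

theorem fin3_cover {m l1 l2 : Fin 3} (h1 : m ≠ l1) (h2 : m ≠ l2) (h3 : l1 ≠ l2) (x : Fin 3) :
    x = m ∨ x = l1 ∨ x = l2 := by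
  omega

theorem U_bd {j : Fin 3} {i : Fin N} (hU : U T t j i) {q : ℂ}
    (hq : Has (t i) q) : lam T (j + 1) q = 0 ∨ lam T (j + 2) q = 0 := by
  obtain ⟨_, m, l1, l2, e, n1, n2, n3, b1, b2⟩ := hU
  obtain ⟨x, rfl⟩ := hq
  rcases fin3_cover n1 n2 n3 x with rfl | rfl | rfl
  · rw [e]; exact Or.inl (q_lam1 T j)
  · exact Or.inr b1
  · exact Or.inl b2

theorem U_not_int (h : Dis N T t) {j : Fin 3} {i : Fin N} (hU : U T t j i) {q : ℂ}
    (hq : Has (t i) q) : q ∉ interior (hull T) := by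
  intro hc
  rw [mem_int T h.ccwT] at hc
  rcases U_bd hU hq with e | e
  · exact (hc _).ne' e
  · exact (hc _).ne' e

theorem U_not_side (h : Dis N T t) {j : Fin 3} {i : Fin N} (hU : U T t j i) {q : ℂ}
    (hq : Has (t i) q) : ¬ onSide T j q := by
  intro hc
  rw [onSide_iff T h.ccwT] at hc
  rcases U_bd hU hq with e | e
  · exact hc.2.1.ne' e
  · exact hc.2.2.ne' e

theorem lam_T_self (hT : 0 < dd T) (j : Fin 3) : lam T j (T j) ≠ 0 := by
  rw [lam_self]
  exact hT.ne'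

theorem U_ne_aux (h : Dis N T t) {i i' : Fin N} (hii : i' ≠ i) {j : Fin 3}
    (hU : U T t j i) (hU' : U T t (j + 1) i) : False := by
  have hhas' : Has (t i) (T (j + 1)) := by
    have : i ∈ I t (T (j + 1)) := by rw [hU'.1]; exact Finset.mem_singleton_self _
    exact (mem_I _ _ _).1 this
  have hU2 := hU
  obtain ⟨_, m, l1, l2, e, n1, n2, n3, b1, b2⟩ := hU2
  -- the vertex T (j+1) is t i l1
  have hinj := vertex_inj _ (h.ccwt i)
  have hTinj := vertex_inj _ h.ccwT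
  obtain ⟨x, hx⟩ := hhas'
  have hxl : x = l1 := by
    rcases fin3_cover n1 n2 n3 x with rfl | rfl | rfl
    · exfalso
      have := hTinj (hx.symm.trans e)
      revert this
      fin_cases j <;> decide
    · rfl
    · exfalso
      rw [hx] at b2
      exact lam_T_self h.ccwT _ b2
  subst hxl
  have hq : t i l2 = T (j + 2) := by
    have hmem : t i l2 ∈ hull T := q_sub h i (q_vertex_mem _ _)
    have hb := U_bd hU' (q := t i l2) ⟨l2, rfl⟩
    have e1 : j + 1 + 1 = j + 2 := q_e11 j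
    have e2 : j + 1 + 2 = j := q_e12 j
    rw [e1, e2] at hb
    rcases hb with hb | hb
    · exfalso
      have := q_unique T h.ccwT j _ hmem b2 hb
      exact n2 (hinj (e.trans this.symm))
    · exact q_unique T h.ccwT (j + 2) _ hmem (by rw [q_e21]; exact hb) (by rw [q_e22]; exact b2)
  refine not_whole h hii.symm (range_of_sub hinj fun y => ?_)
  rcases fin3_cover n1 n2 n3 y with rfl | rfl | rfl
  · exact ⟨_, e⟩
  · exact ⟨_, hx⟩
  · exact ⟨_, hq⟩

theorem U_ne (h : Dis N T t) {i i' i0 : Fin N} (h0 : i0 ≠ i) {j j' : Fin 3} (hj : j ≠ j')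
    (hU : U T t j i) (hU' : U T t j' i') : i ≠ i' := by
  rintro rfl
  have : j' = j + 1 ∨ j = j' + 1 := by
    revert hj
    fin_cases j <;> fin_cases j' <;> decide
  rcases this with rfl | rfl
  · exact U_ne_aux h h0 hU hU'
  · exact U_ne_aux h h0 hU' hU

/-- the corner with the smallest angle is not split -/
theorem min_unsplit (h : Dis N T t) (hs : ∀ i m, ∃ k, ang (t i) m = ang T k) {a : Fin 3}
    (ha : ∀ k, ang T a ≤ ang T k) : ∃ i, U T t a i := by
  have hW := W_corner h a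
  rw [W_eq] at hW
  have h1 : ((I t (T a)).card : ℝ) * ang T a ≤ ang T a := by
    calc ((I t (T a)).card : ℝ) * ang T a = ∑ i ∈ I t (T a), ang T a := by
          rw [Finset.sum_const, nsmul_eq_mul]
      _ ≤ ∑ i ∈ I t (T a), q_V (t i) (T a) := by
          refine Finset.sum_le_sum fun i hi => ?_
          obtain ⟨k, hk⟩ := val h hs ((mem_I _ _ _).1 hi)
          rw [hk]
          exact ha k
      _ = ang T a := hW
  have hpos := ang_pos T h.ccwT a
  have h2 : (I t (T a)).card ≤ 1 := by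
    by_contra hc
    have h3 : (2 : ℝ) ≤ ((I t (T a)).card : ℝ) := by
      exact_mod_cast (by omega : 2 ≤ (I t (T a)).card)
    nlinarith
  have h3 : 0 < (I t (T a)).card := by
    obtain ⟨i, hi⟩ := (mem_pts t _).1 (W_pos_has h a)
    exact Finset.card_pos.2 ⟨i, (mem_I _ _ _).2 hi⟩
  obtain ⟨i, hi⟩ := unsplit h a (by omega)
  exact ⟨i, hi⟩

theorem not_onSide_vertex (v : Fin 3 → ℂ) (hv : 0 < dd v) (c x : Fin 3) : ¬ onSide v c (v x) := by
  intro hc
  rw [onSide_iff v hv] at hc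
  obtain ⟨h0, h1, h2⟩ := hc
  rcases q_fin3 c x with rfl | rfl | rfl
  · exact lam_T_self hv _ h0
  · rw [show lam v (c + 2) (v (c + 1)) = 0 from ?_] at h2
    · exact lt_irrefl _ h2
    · have := q_lam1 v (c + 1)
      rwa [q_e11] at this
  · rw [show lam v (c + 1) (v (c + 2)) = 0 from ?_] at h1
    · exact lt_irrefl _ h1
    · have := q_lam2 v (c + 2)
      rwa [q_e22] at this

/-- a corner is not an interior point -/
theorem corner_not_int (hT : 0 < dd T) (j : Fin 3) : T j ∉ interior (hull T) := by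
  intro hc
  rw [mem_int T hT] at hc
  exact (hc _).ne' (q_lam1 T j)

set_option maxRecDepth 10000 in
theorem rest5 : ∀ i j k P : Fin 5, i ≠ j → i ≠ k → j ≠ k → P ≠ i → P ≠ j → P ≠ k →
    ∃ R : Fin 5, R ≠ i ∧ R ≠ j ∧ R ≠ k ∧ R ≠ P ∧ ∀ x, x = i ∨ x = j ∨ x = k ∨ x = P ∨ x = R := by
  decide

/-- the path configuration is impossible -/
theorem path_contra {t : Fin 5 → Fin 3 → ℂ} (h : Dis 5 T t)
    (hs : ∀ i m, ∃ k, ang (t i) m = ang T k)
    (hr : ∀ k, ang T k ≠ Real.pi / 2) {F : ℂ} (hF : F ∈ interior (hull T)) {a : Fin 3} {P : Fin 5}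
    (hP : U T t a P) {i j k : Fin 5} (hij : i ≠ j) (hik : i ≠ k) (hjk : j ≠ k)
    (hIF : ∀ x, Has (t x) F ↔ (x = i ∨ x = j ∨ x = k))
    {M M' N' Q : ℂ} (iM : Has (t i) M) (iM' : Has (t i) M') (jM' : Has (t j) M')
    (jN' : Has (t j) N') (kN' : Has (t k) N') (kQ : Has (t k) Q)
    (hpts : ∀ x, ∀ q, Has (t x) q → q = F ∨ q = T a ∨ q = M ∨ q = M' ∨ q = N' ∨ q = Q)
    (d1 : M ≠ M') (_d2 : M ≠ N') (d3 : M ≠ Q) (d4 : M' ≠ N') (d5 : M' ≠ Q) (d6 : N' ≠ Q)
    (f1 : M ≠ F) (f2 : M' ≠ F) (f3 : N' ≠ F) (f4 : Q ≠ F)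
    (hseg : Q ∈ openSegment ℝ F M) : False := by
  have hMT : M ∈ hull T := has_mem h iM
  have iF : Has (t i) F := (hIF i).2 (Or.inl rfl)
  have jF : Has (t j) F := (hIF j).2 (Or.inr (Or.inl rfl))
  -- Q is an interior point
  have hQint : Q ∈ interior (hull T) := by
    rw [mem_int T h.ccwT] at hF ⊢
    rw [mem_hull T h.ccwT] at hMT
    obtain ⟨x, y, hx, hy, hxy, he⟩ := hseg
    intro l
    rw [← he, q_lam_aff T l F M x y hxy]
    have := mul_pos hx (hF l)
    have := mul_nonneg hy.le (hMT l)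
    linarith
  have hQc : ∀ l, Q ≠ T l := by
    intro l hl
    exact corner_not_int h.ccwT l (hl ▸ hQint)
  have hQn := n_ge h hs hr ((mem_pts t Q).2 ⟨k, kQ⟩) hQc
  -- position in the tile i
  obtain ⟨x, hx⟩ := iF
  obtain ⟨y, hy⟩ := iM
  obtain ⟨c, hc⟩ := iM'
  have nxy : x ≠ y := by rintro rfl; exact f1 (hy.symm.trans hx)
  have nxc : x ≠ c := by rintro rfl; exact f2 (hc.symm.trans hx)
  have nyc : y ≠ c := by rintro rfl; exact d1 (hy.symm.trans hc)
  have hxy : (x = c + 1 ∧ y = c + 2) ∨ (y = c + 1 ∧ x = c + 2) := by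
    revert nxy nxc nyc
    fin_cases x <;> fin_cases y <;> fin_cases c <;> decide
  have hside : ∀ q, q ∈ openSegment ℝ F M → onSide (t i) c q := by
    intro q hq
    unfold onSide
    rcases hxy with ⟨e1, e2⟩ | ⟨e1, e2⟩
    · rw [← e1, ← e2, hx, hy]; exact hq
    · rw [← e1, ← e2, hx, hy, openSegment_symm]; exact hq
  have hQside := hside Q hseg
  have hiQ : ¬ Has (t i) Q := by
    rintro ⟨z, hz⟩
    exact not_onSide_vertex _ (h.ccwt i) c z (hz ▸ hQside)
  have hjQ : ¬ Has (t j) Q := fun hh =>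
    no_four jF jM' jN' hh f2.symm f3.symm f4.symm d4 d5 d6
  have hPF : ¬ Has (t P) F := fun hh => U_not_int h hP hh hF
  have hPF' := hPF
  rw [hIF] at hPF'
  push Not at hPF'
  obtain ⟨p1, p2, p3⟩ := hPF'
  obtain ⟨R, hRi, hRj, hRk, hRP, hall⟩ := rest5 i j k P hij hik hjk p1 p2 p3
  have hRF : ¬ Has (t R) F := by
    rw [hIF]
    rintro (e | e | e)
    · exact hRi e
    · exact hRj e
    · exact hRk e
  have hsub : I t Q ⊆ {k, P, R} := by
    intro x hxx
    rw [mem_I] at hxx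
    rw [Finset.mem_insert, Finset.mem_insert, Finset.mem_singleton]
    rcases hall x with rfl | rfl | rfl | rfl | rfl
    · exact absurd hxx hiQ
    · exact absurd hxx hjQ
    · exact Or.inl rfl
    · exact Or.inr (Or.inl rfl)
    · exact Or.inr (Or.inr rfl)
  have hc3 : ({k, P, R} : Finset (Fin 5)).card ≤ 3 := Finset.card_le_three
  have heq : I t Q = {k, P, R} := Finset.eq_of_subset_of_card_le hsub (by omega)
  have hPQ : Has (t P) Q := (mem_I _ _ _).1 (by rw [heq]; simp)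
  have hRQ : Has (t R) Q := (mem_I _ _ _).1 (by rw [heq]; simp)
  -- the point M' is in none of them
  have hno : ∀ z : Fin 5, z ≠ i → Has (t z) Q → ¬ Has (t z) M' := by
    intro z hzi hzQ hzM
    set q : ℂ := (1 / 2 : ℝ) • Q + (1 / 2 : ℝ) • M' with hq
    have hq1 : q ∈ interior (hull (t i)) := by
      rw [mem_int _ (h.ccwt i)]
      rw [onSide_iff _ (h.ccwt i)] at hQside
      obtain ⟨s0, s1, s2⟩ := hQside
      have hcM : lam (t i) c M' = dd (t i) := by rw [← hc]; exact lam_self _ _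
      have hcM1 : lam (t i) (c + 1) M' = 0 := by rw [← hc]; exact q_lam1 _ _
      have hcM2 : lam (t i) (c + 2) M' = 0 := by rw [← hc]; exact q_lam2 _ _
      intro l
      rw [hq, q_lam_aff (t i) l Q M' _ _ (by norm_num)]
      have hdd := h.ccwt i
      rcases q_fin3 c l with rfl | rfl | rfl
      · rw [s0, hcM]; linarith
      · rw [hcM1]; linarith
      · rw [hcM2]; linarith
    have hq2 : q ∈ hull (t z) := by
      obtain ⟨u1, hu1⟩ := hzQ
      obtain ⟨u2, hu2⟩ := hzM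
      have c1 : Q ∈ hull (t z) := hu1 ▸ q_vertex_mem _ _
      have c2 : M' ∈ hull (t z) := hu2 ▸ q_vertex_mem _ _
      exact (convex_convexHull ℝ _) c1 c2 (by norm_num) (by norm_num) (by norm_num)
    exact int_disj h hzi.symm hq1 hq2
  have hPM' := hno P p1 hPQ
  have hRM' := hno R hRi hRQ
  -- the corner
  have hPa : ∀ x, Has (t x) (T a) → x = P := by
    intro x hxx
    have := (mem_I _ _ _).2 hxx
    rw [hP.1] at this
    exact Finset.mem_singleton.1 this
  have hPa' : Has (t P) (T a) := (mem_I _ _ _).1 (by rw [hP.1]; exact Finset.mem_singleton_self _)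
  -- the tile R
  have hR3 : Has (t R) M ∧ Has (t R) N' ∧ Has (t R) Q := by
    refine three_in (vertex_inj _ (h.ccwt R)) fun m => ?_
    rcases hpts R (t R m) ⟨m, rfl⟩ with e | e | e | e | e | e
    · exact absurd ⟨m, e⟩ hRF
    · exact absurd (hPa R ⟨m, e⟩) hRP
    · exact Or.inl e
    · exact absurd ⟨m, e⟩ hRM'
    · exact Or.inr (Or.inl e)
    · exact Or.inr (Or.inr e)
  -- the tile P
  have hP3 : Has (t P) M ∨ Has (t P) N' := by
    by_contra hcon
    push Not at hcon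
    obtain ⟨w1, w2⟩ := hcon
    have hb : ∀ m, t P m = T a ∨ t P m = Q ∨ t P m = Q := by
      intro m
      rcases hpts P (t P m) ⟨m, rfl⟩ with e | e | e | e | e | e
      · exact absurd ⟨m, e⟩ hPF
      · exact Or.inl e
      · exact absurd ⟨m, e⟩ w1
      · exact absurd ⟨m, e⟩ hPM'
      · exact absurd ⟨m, e⟩ w2
      · exact Or.inr (Or.inl e)
    have hv := vertex_inj _ (h.ccwt P)
    have n01 : t P 0 ≠ t P 1 := fun e => absurd (hv e) (by decide)
    have n02 : t P 0 ≠ t P 2 := fun e => absurd (hv e) (by decide)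
    have n12 : t P 1 ≠ t P 2 := fun e => absurd (hv e) (by decide)
    rcases hb 0 with a0 | a0 | a0 <;> rcases hb 1 with b0 | b0 | b0 <;>
      rcases hb 2 with c0 | c0 | c0 <;>
      first
      | exact absurd (a0.trans b0.symm) n01
      | exact absurd (a0.trans c0.symm) n02
      | exact absurd (b0.trans c0.symm) n12
  rcases hP3 with hPM | hPN
  · -- the segment from Q to M
    obtain ⟨k1, hk1⟩ := mid_side _ hPQ hPM d3.symm
    obtain ⟨k2, hk2⟩ := mid_side _ hRQ hR3.1 d3.symm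
    have hmid : ((1 / 2 : ℝ) • Q + (1 / 2 : ℝ) • M) ∈ openSegment ℝ F M := by
      obtain ⟨u, w, hu, hw, huw, he⟩ := hseg
      refine ⟨u / 2, w / 2 + 1 / 2, by linarith, by linarith, by linarith, ?_⟩
      rw [← he]
      module
    exact three_sides h (Ne.symm p1) hRi.symm hRP.symm (hside _ hmid) hk1 hk2
  · exact pair_two h (Ne.symm p3) hRk.symm hRP.symm d6 kN' kQ hPN hPQ hR3.2.1 hR3.2.2

end Pool.Agent.Helper230.Five
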