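import Pool.Agent.Helper230.Five.Trans
import Pool.Agent.Helper230.Five.Exist456
import Pool.Agent.Helper230.Five.ExistA2
import Pool.Agent.Helper230.Five.ExistA3
import Pool.Agent.Helper230.Five.Exist578
import Pool.Agent.Helper230.Five.ExistB2
import Pool.Agent.Helper230.Five.ExistIR
import Pool.Agent.Helper230.Five.Shape

/-! # Dissections into five mutually similar triangles: IfDir -/

set_option autoImplicit false
noncomputable section
open scoped BigOperators
open Pool.Agent.Helper549.Tri Pool.Agent.Helper549.Tri.Basic Pool.Agent.Helper549.Tri.Setup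
namespace Pool.Agent.Helper230.Five



/-- an isometry onto `ℂ` preserving the orientation of the (permuted) triangle -/
theorem ifDir_iso (T : Fin 3 → Pl) (hT : AffineIndependent ℝ T) (σ : Equiv.Perm (Fin 3)) :
    ∃ e : Pl ≃ₗᵢ[ℝ] ℂ, 0 < dd (fun k => e (T (σ k))) := by
  have hTσ : AffineIndependent ℝ (fun k => T (σ k)) := hT.comp_embedding σ.toEmbedding
  have h1 : AffineIndependent ℝ (fun k => eC (T (σ k))) :=
    hTσ.map' eC.toLinearEquiv.toLinearMap.toAffineMap eC.injective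
  have h2 := dd_ne _ h1
  rcases lt_or_gt_of_ne h2 with h | h
  · refine ⟨eC.trans Complex.conjLIE, ?_⟩
    have e1 : dd (fun k => (eC.trans Complex.conjLIE) (T (σ k))) =
        - dd (fun k => eC (T (σ k))) := by
      unfold dd cr
      simp only [LinearIsometryEquiv.trans_apply, Complex.conjLIE_apply, Complex.sub_re,
        Complex.sub_im, Complex.conj_re, Complex.conj_im]
      ring
    rw [e1]
    linarith
  · exact ⟨eC, h⟩

theorem transfer (T : Fin 3 → Pl) (hT : AffineIndependent ℝ T) (σ : Equiv.Perm (Fin 3))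
    (hex : ∀ V : Fin 3 → ℂ, 0 < dd V → (∀ k l, ‖V k - V l‖ = dist (T (σ k)) (T (σ l))) →
      ∃ (t : Fin 5 → Fin 3 → ℂ) (D : Fin 3 → ℂ), Dis 5 V t ∧ ∀ i, SimTo (t i) D) :
    FiveGood T := by
  obtain ⟨e, he⟩ := ifDir_iso T hT σ
  obtain ⟨t, D, hdis, hsim⟩ := hex (fun k => e (T (σ k))) he (fun k l => by
    rw [← dist_eq_norm]
    exact e.dist_map _ _)
  have hpull : ∀ S : Fin 3 → ℂ, convexHull ℝ (Set.range fun m => e.symm (S m)) =
      e.symm '' hull S := by
    intro S
    have h : (Set.range fun m => e.symm (S m)) = e.symm '' Set.range S := by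
      rw [← Set.range_comp]; rfl
    rw [h]
    exact (e.symm.toLinearEquiv.toLinearMap.image_convexHull (Set.range S)).symm
  have hT' : hull (fun k => e (T (σ k))) = e '' convexHull ℝ (Set.range T) := by
    have h1 : Set.range (fun k => e (T (σ k))) = e '' Set.range T := by
      ext z
      constructor
      · rintro ⟨k, rfl⟩
        exact ⟨T (σ k), ⟨σ k, rfl⟩, rfl⟩
      · rintro ⟨_, ⟨k, rfl⟩, rfl⟩
        refine ⟨σ.symm k, ?_⟩
        simp
    unfold hull
    rw [h1]
    exact (e.toLinearEquiv.toLinearMap.image_convexHull (Set.range T)).symm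
  refine ⟨fun i m => e.symm (t i m), fun i => ?_, fun i j => ?_, ?_, fun i j hij => ?_⟩
  · exact (aff_of_dd _ (hdis.ccwt i).ne').map' e.symm.toLinearEquiv.toLinearMap.toAffineMap
      e.symm.injective
  · obtain ⟨σi, ri, hri, hi⟩ := hsim i
    obtain ⟨σj, rj, hrj, hj⟩ := hsim j
    refine ⟨σi.trans σj.symm, ri / rj, div_pos hri hrj, fun k l => ?_⟩
    rw [e.symm.dist_map, e.symm.dist_map, hi, hj]
    simp only [Equiv.trans_apply, Equiv.apply_symm_apply]
    field_simp
  · have e1 : (⋃ i, convexHull ℝ (Set.range fun m => e.symm (t i m))) =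
        e.symm '' ⋃ i, hull (t i) := by
      rw [Set.image_iUnion]
      exact Set.iUnion_congr fun i => hpull _
    rw [e1, hdis.cover, hT', ← Set.image_comp]
    have : (⇑e.symm ∘ ⇑e) = id := by
      funext x
      simp
    rw [this, Set.image_id]
  · rw [hpull, hpull]
    have h1 : ∀ S : Set ℂ, interior (e.symm '' S) = e.symm '' interior S :=
      fun S => (e.symm.toHomeomorph.image_interior S).symm
    rw [h1, h1]
    exact (Set.disjoint_image_iff e.symm.injective).2 (hdis.disj i j hij)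

theorem if_all (T : Fin 3 → Pl) (hT : AffineIndependent ℝ T)
    (h : (∃ σ : Equiv.Perm (Fin 3), dist (T (σ 0)) (T (σ 1)) = dist (T (σ 0)) (T (σ 2))) ∨
      (∃ k, EuclideanGeometry.angle (T (k + 1)) (T k) (T (k + 2)) = Real.pi / 2) ∨
      Shape T 4 6 5 ∨ Shape T 8 5 7 ∨ Shape T 2 4 (3 * Real.sqrt 2) ∨
      (∃ r : ℝ, 0 < r ∧ r ^ 3 + r = 1 ∧ Shape T 1 (Real.sqrt r * (1 + r)) (1 + r ^ 2)) ∨
      (∃ p : ℝ, 1 < p ∧ p ^ 3 = 2 * p ^ 2 + p + 1 ∧ Shape T p (p + 1 / p) (p - 1))) :
    FiveGood T := by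
  rcases h with ⟨σ, h⟩ | ⟨k, h⟩ | ⟨σ, r, hr, h12, h02, h01⟩ | ⟨σ, r, hr, h12, h02, h01⟩ |
    ⟨σ, r, hr, h12, h02, h01⟩ | ⟨r, hr0, hr3, σ, s, hs, h12, h02, h01⟩ |
    ⟨p, hp0, hp3, σ, s, hs, h12, h02, h01⟩
  · refine transfer T hT σ fun V hV hd => exist_iso V hV ?_
    rw [nsq_eq, nsq_eq, hd, hd, h]
  · refine transfer T hT (Equiv.addLeft k) fun V hV hd => exist_right V hV ?_
    have h2 := (EuclideanGeometry.dist_sq_eq_dist_sq_add_dist_sq_iff_angle_eq_pi_div_two
      (T (k + 1)) (T k) (T (k + 2))).2 h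
    have d12 : ‖V 1 - V 2‖ = dist (T (k + 1)) (T (k + 2)) := hd 1 2
    have d01 : ‖V 0 - V 1‖ = dist (T k) (T (k + 1)) := by
      have := hd 0 1
      simpa using this
    have d02 : ‖V 0 - V 2‖ = dist (T k) (T (k + 2)) := by
      have := hd 0 2
      simpa using this
    rw [nsq_eq, nsq_eq, nsq_eq, d12, d01, d02, dist_comm (T k) (T (k + 1)),
      dist_comm (T k) (T (k + 2))]
    nlinarith [h2]
  · refine transfer T hT σ fun V hV hd => exist456 V hV (q := r ^ 2) (by positivity) ?_ ?_ ?_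
    · rw [nsq_eq, hd, h01]; ring
    · rw [nsq_eq, hd, h12]; ring
    · rw [nsq_eq, hd, h02]; ring
  · refine transfer T hT σ fun V hV hd => exist578 V hV (q := r ^ 2) (by positivity) ?_ ?_ ?_
    · rw [nsq_eq, hd, h01]; ring
    · rw [nsq_eq, hd, h12]; ring
    · rw [nsq_eq, hd, h02]; ring
  · refine transfer T hT σ fun V hV hd => existA2 V hV (q := r ^ 2) (by positivity) ?_ ?_ ?_
    · have h2 : Real.sqrt 2 ^ 2 = 2 := Real.sq_sqrt (by norm_num)
      rw [nsq_eq, hd, h01]
      linear_combination (9 * r ^ 2) * h2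
    · rw [nsq_eq, hd, h12]; ring
    · rw [nsq_eq, hd, h02]; ring
  · refine transfer T hT σ fun V hV hd => existA3 V hV (q := s ^ 2) (r := r) (by positivity) hr0
      hr3 ?_ ?_ ?_
    · rw [nsq_eq, hd, h01]; ring
    · rw [nsq_eq, hd, h12]; ring
    · have h2 : Real.sqrt r ^ 2 = r := Real.sq_sqrt hr0.le
      rw [nsq_eq, hd, h02]
      linear_combination ((1 + r) ^ 2 * s ^ 2) * h2
  · refine transfer T hT σ fun V hV hd => existB2 V hV (q := s ^ 2) (p := p) (by positivity) hp0
      hp3 ?_ ?_ ?_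
    · rw [nsq_eq, hd, h01]; ring
    · rw [nsq_eq, hd, h12]; ring
    · rw [nsq_eq, hd, h02]; ring

end Pool.Agent.Helper230.Five
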