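import Pool.Agent.Helper549.Tri.Vertex
import Pool.Agent.Helper549.Tri.Corner
import Pool.Agent.Helper549.Tri.Opp
import Pool.Agent.Helper549.Tri.Setup

/-! # Dissections into five similar triangles: incidence lemmas -/

set_option autoImplicit false
noncomputable section
open scoped BigOperators
open Pool.Agent.Helper549.Tri Pool.Agent.Helper549.Tri.Basic Pool.Agent.Helper549.Tri.Angles
  Pool.Agent.Helper549.Tri.AngleSum Pool.Agent.Helper549.Tri.Opp Pool.Agent.Helper549.Tri.Corner
  Pool.Agent.Helper549.Tri.Vertex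

namespace Pool.Agent.Helper230.Five

variable {N : ℕ} {T : Fin 3 → ℂ} {t : Fin N → Fin 3 → ℂ}

/-- `p` is a vertex of the triangle `v` -/
def Has (v : Fin 3 → ℂ) (p : ℂ) : Prop := ∃ m, v m = p

theorem dir_ne_zero (v : Fin 3 → ℂ) (hv : 0 < dd v) (k : Fin 3) : dir v k ≠ 0 := by
  intro h
  have := norm_dir v hv k
  rw [h, norm_zero] at this
  norm_num at this

/-- three tiles cannot have a point in their open sides -/
theorem three_sides (h : Dis N T t) {i j l : Fin N} (hij : i ≠ j) (hil : i ≠ l) (hjl : j ≠ l)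
    {p : ℂ} {a b c : Fin 3} (hi : onSide (t i) a p) (hj : onSide (t j) b p)
    (hl : onSide (t l) c p) : False := by
  have h1 := opp_dir h hij hi hj
  have h2 := opp_dir h hil hi hl
  have h3 := opp_dir h hjl hj hl
  rw [h3, neg_neg] at h1
  rw [h1] at h2
  exact dir_ne_zero (t l) (h.ccwt l) c (self_eq_neg.mp h2)

/-- two tiles cannot have a point of the boundary in their open sides -/
theorem two_bd (h : Dis N T t) {i j : Fin N} (hij : i ≠ j)
    {p : ℂ} {a b c : Fin 3} (hi : onSide (t i) a p) (hj : onSide (t j) b p)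
    (hT : onSide T c p) : False := by
  have h1 := opp_dir h hij hi hj
  have h2 := bd_dir h hi hT
  have h3 := bd_dir h hj hT
  rw [h2, h3] at h1
  exact dir_ne_zero T h.ccwT c (self_eq_neg.mp h1)

/-- an interior point of a tile is in no other tile -/
theorem int_disj (h : Dis N T t) {i j : Fin N} (hij : i ≠ j) {p : ℂ}
    (hi : p ∈ interior (hull (t i))) (hj : p ∈ hull (t j)) : False := by
  have hconv : Convex ℝ (hull (t j)) := convex_convexHull ℝ _
  have hc : p ∈ closure (interior (hull (t j))) := by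
    rw [hconv.closure_interior_eq_closure_of_nonempty_interior
      (hull_interior_nonempty (t j) (h.ccwt j))]
    exact subset_closure hj
  obtain ⟨q, hq1, hq2⟩ := mem_closure_iff.1 hc _ isOpen_interior hi
  exact Set.disjoint_left.1 (h.disj i j hij) hq1 hq2

/-- the midpoint of two vertices is in an open side -/
theorem mid_side (v : Fin 3 → ℂ) {p q : ℂ} (hp : Has v p) (hq : Has v q) (hpq : p ≠ q) :
    ∃ k, onSide v k ((1 / 2 : ℝ) • p + (1 / 2 : ℝ) • q) := by
  obtain ⟨a, ha⟩ := hp
  obtain ⟨b, hb⟩ := hq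
  have hab : a ≠ b := by
    rintro rfl
    exact hpq (ha.symm.trans hb)
  have : ∃ k : Fin 3, (a = k + 1 ∧ b = k + 2) ∨ (b = k + 1 ∧ a = k + 2) := by
    revert hab
    fin_cases a <;> fin_cases b <;> decide
  obtain ⟨k, ⟨h1, h2⟩ | ⟨h1, h2⟩⟩ := this
  · refine ⟨k, 1 / 2, 1 / 2, by norm_num, by norm_num, by norm_num, ?_⟩
    rw [← h1, ← h2, ha, hb]
  · refine ⟨k, 1 / 2, 1 / 2, by norm_num, by norm_num, by norm_num, ?_⟩
    rw [← h1, ← h2, ha, hb]
    exact add_comm _ _

/-- at most two tiles contain two given points as vertices -/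
theorem pair_two (h : Dis N T t) {i j l : Fin N} (hij : i ≠ j) (hil : i ≠ l) (hjl : j ≠ l)
    {p q : ℂ} (hpq : p ≠ q) (hip : Has (t i) p) (hiq : Has (t i) q) (hjp : Has (t j) p)
    (hjq : Has (t j) q) (hlp : Has (t l) p) (hlq : Has (t l) q) : False := by
  obtain ⟨a, ha⟩ := mid_side _ hip hiq hpq
  obtain ⟨b, hb⟩ := mid_side _ hjp hjq hpq
  obtain ⟨c, hc⟩ := mid_side _ hlp hlq hpq
  exact three_sides h hij hil hjl ha hb hc

/-- two points of an open side of `T` are vertices of at most one tile -/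
theorem pair_bd (h : Dis N T t) {i j : Fin N} (hij : i ≠ j)
    {p q : ℂ} (hpq : p ≠ q) (hip : Has (t i) p) (hiq : Has (t i) q) (hjp : Has (t j) p)
    (hjq : Has (t j) q) {k : Fin 3} (hp : onSide T k p) (hq : onSide T k q) : False := by
  obtain ⟨a, ha⟩ := mid_side _ hip hiq hpq
  obtain ⟨b, hb⟩ := mid_side _ hjp hjq hpq
  refine two_bd h hij ha hb (c := k) ?_
  rw [onSide_iff T h.ccwT] at hp hq ⊢
  rw [q_lam_aff T k p q _ _ (by norm_num), q_lam_aff T _ p q _ _ (by norm_num),
    q_lam_aff T _ p q _ _ (by norm_num)]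
  obtain ⟨p1, p2, p3⟩ := hp
  obtain ⟨q1, q2, q3⟩ := hq
  refine ⟨by rw [p1, q1]; ring, by positivity, by positivity⟩

/-- two tiles do not have the same vertices -/
theorem same_vert (h : Dis N T t) {i j : Fin N} (hij : i ≠ j)
    (hs : Set.range (t i) = Set.range (t j)) : False := by
  obtain ⟨p, hp⟩ := hull_interior_nonempty (t i) (h.ccwt i)
  have : hull (t i) = hull (t j) := by unfold hull; rw [hs]
  exact Set.disjoint_left.1 (h.disj i j hij) hp (this ▸ hp)

/-- no tile is the whole triangle -/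
theorem not_whole (h : Dis N T t) {i j : Fin N} (hij : i ≠ j)
    (hs : Set.range (t i) = Set.range T) : False := by
  obtain ⟨p, hp⟩ := hull_interior_nonempty (t j) (h.ccwt j)
  have h1 : hull (t i) = hull T := by unfold hull; rw [hs]
  have h2 : p ∈ interior (hull (t i)) := by
    rw [h1]
    exact interior_mono (q_sub h j) hp
  exact Set.disjoint_left.1 (h.disj i j hij) h2 hp

theorem has_mem (h : Dis N T t) {i : Fin N} {p : ℂ} (hp : Has (t i) p) : p ∈ hull T := by
  obtain ⟨m, rfl⟩ := hp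
  exact q_sub h i (q_vertex_mem _ _)

/-- the sum of the angles of the tiles at a point -/
def W (t : Fin N → Fin 3 → ℂ) (p : ℂ) : ℝ := ∑ i, q_V (t i) p

theorem q_V_self (v : Fin 3 → ℂ) (hv : 0 < dd v) (m : Fin 3) : q_V v (v m) = ang v m := by
  classical
  unfold q_V
  rw [Finset.sum_eq_single m]
  · rw [if_pos rfl]
  · intro b _ hb
    rw [if_neg]
    intro hc
    exact hb (vertex_inj v hv hc).symm
  · intro hc
    exact absurd (Finset.mem_univ _) hc

theorem q_V_zero (v : Fin 3 → ℂ) (p : ℂ) (hp : ¬ Has v p) : q_V v p = 0 := by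
  classical
  unfold q_V
  refine Finset.sum_eq_zero fun m _ => ?_
  rw [if_neg]
  intro hc
  exact hp ⟨m, hc.symm⟩

theorem W_corner (h : Dis N T t) (j : Fin 3) : W t (T j) = ang T j := by
  unfold W
  rw [← q_angT T h.ccwT j, ← angle_sum h (T j)]
  refine Finset.sum_congr rfl (fun i _ => ?_)
  rw [q_angAt, q_Etile h i j]
  simp

theorem q_E_int (T : Fin 3 → ℂ) (hT : 0 < dd T) (p : ℂ) (hp : p ∈ interior (hull T)) :
    q_E T p = 2 := by
  classical
  unfold q_E
  rw [if_pos hp, Finset.sum_eq_zero]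
  intro k _
  rw [if_neg]
  intro hs
  rw [onSide_iff T hT] at hs
  rw [mem_int T hT] at hp
  have := hp k
  rw [hs.1] at this
  exact lt_irrefl _ this

theorem q_E_side (T : Fin 3 → ℂ) (hT : 0 < dd T) (p : ℂ) (k : Fin 3) (hp : onSide T k p) :
    q_E T p = 1 := by
  classical
  unfold q_E
  have hint : p ∉ interior (hull T) := sc_notint T hT hp
  rw [if_neg hint, add_zero, Finset.sum_eq_single k]
  · rw [if_pos hp]
  · intro b _ hb
    rw [if_neg]
    intro hc
    exact hb (sc_uniq T hT hp hc)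
  · intro hc
    exact absurd (Finset.mem_univ _) hc

/-- the angle sum at a vertex which is not a corner of `T` -/
theorem W_cases (h : Dis N T t) {i : Fin N} {p : ℂ} (hi : Has (t i) p) (hT : ∀ j, p ≠ T j) :
    W t p = Real.pi ∨ (W t p = 2 * Real.pi ∧ p ∈ interior (hull T)) := by
  have hmem := has_mem h hi
  have hsum := angle_sum h p
  simp only [q_angAt] at hsum
  rw [Finset.sum_add_distrib, ← Finset.sum_mul] at hsum
  have hV : q_V T p = 0 := by
    classical
    unfold q_V
    refine Finset.sum_eq_zero (fun k _ => ?_)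
    rw [if_neg (hT k)]
  rw [hV, zero_add] at hsum
  have hpos : 0 < W t p := by
    unfold W
    obtain ⟨m, rfl⟩ := hi
    refine Finset.sum_pos' (fun l _ => ?_) ⟨i, Finset.mem_univ _, ?_⟩
    · by_cases hh : Has (t l) (t i m)
      · obtain ⟨m', hm'⟩ := hh
        rw [← hm', q_V_self (t l) (h.ccwt l)]
        exact (ang_pos _ (h.ccwt l) _).le
      · rw [q_V_zero _ _ hh]
    · rw [q_V_self (t i) (h.ccwt i)]
      exact ang_pos _ (h.ccwt i) _
  have hcast : (∑ i, (q_E (t i) p : ℝ)) = ((∑ i, q_E (t i) p : ℕ) : ℝ) := by push_cast; rfl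
  rw [hcast] at hsum
  have hW : W t p = ((q_E T p : ℝ) - ((∑ i, q_E (t i) p : ℕ) : ℝ)) * Real.pi := by
    unfold W
    linarith
  have hpi := Real.pi_pos
  have hlt : ((∑ i, q_E (t i) p : ℕ) : ℝ) < (q_E T p : ℝ) := by
    by_contra hcon
    have : ((q_E T p : ℝ) - ((∑ i, q_E (t i) p : ℕ) : ℝ)) * Real.pi ≤ 0 :=
      mul_nonpos_of_nonpos_of_nonneg (by linarith) hpi.le
    linarith
  have hlt' : (∑ i, q_E (t i) p) < q_E T p := by exact_mod_cast hlt
  rcases vertex_cases T h.ccwT _ hmem with h1 | ⟨k, h1⟩ | ⟨k, h1⟩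
  · rw [q_E_int T h.ccwT p h1] at hW hlt'
    have : (∑ i, q_E (t i) p) = 0 ∨ (∑ i, q_E (t i) p) = 1 := by omega
    rcases this with e | e
    · right
      rw [e] at hW
      refine ⟨by rw [hW]; norm_num, h1⟩
    · left
      rw [e] at hW
      rw [hW]; norm_num
  · rw [q_E_side T h.ccwT p k h1] at hW hlt'
    have : (∑ i, q_E (t i) p) = 0 := by omega
    left
    rw [this] at hW
    rw [hW]; norm_num
  · exact absurd h1 (hT k)

end Pool.Agent.Helper230.Five
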