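import Pool.Agent.Helper230.Five.Arc

/-! # Dissections into five similar triangles: the classification -/

set_option autoImplicit false
noncomputable section
open scoped BigOperators
open Pool.Agent.Helper549.Tri Pool.Agent.Helper549.Tri.Basic Pool.Agent.Helper549.Tri.Angles
  Pool.Agent.Helper549.Tri.AngleSum Pool.Agent.Helper549.Tri.Opp Pool.Agent.Helper549.Tri.Corner
  Pool.Agent.Helper549.Tri.Vertex

namespace Pool.Agent.Helper230.Five

variable {T : Fin 3 → ℂ} {t : Fin 5 → Fin 3 → ℂ}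

open Classical in
/-- the vertices which are not corners of `T` -/
def nc (T : Fin 3 → ℂ) (t : Fin 5 → Fin 3 → ℂ) : Finset ℂ := (pts t).filter fun p => ∀ j, p ≠ T j

open Classical in
/-- the vertices with angle sum `2 π` -/
def full (T : Fin 3 → ℂ) (t : Fin 5 → Fin 3 → ℂ) : Finset ℂ :=
  (nc T t).filter fun p => W t p ≠ Real.pi

theorem mem_nc {p : ℂ} : p ∈ nc T t ↔ p ∈ pts t ∧ ∀ j, p ≠ T j := by
  classical
  unfold nc
  rw [Finset.mem_filter]

theorem mem_full {p : ℂ} : p ∈ full T t ↔ p ∈ nc T t ∧ W t p ≠ Real.pi := by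
  classical
  unfold full
  rw [Finset.mem_filter]

theorem split_sum {M : Type} [AddCommMonoid M] (h : Dis 5 T t) (f : ℂ → M) :
    ∑ p ∈ pts t, f p = ∑ p ∈ nc T t, f p + (f (T 0) + f (T 1) + f (T 2)) := by
  classical
  have this : (pts t).filter (fun p => ¬ ∀ j, p ≠ T j) = Finset.univ.image T := by
    ext p
    rw [Finset.mem_filter, Finset.mem_image]
    constructor
    · rintro ⟨_, hp⟩
      push Not at hp
      obtain ⟨j, hj⟩ := hp
      exact ⟨j, Finset.mem_univ _, hj.symm⟩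
    · rintro ⟨j, _, rfl⟩
      refine ⟨W_pos_has h j, fun hc => hc j rfl⟩
  have e1 := Finset.sum_filter_add_sum_filter_not (pts t) (fun p => ∀ j, p ≠ T j) f
  rw [this, Finset.sum_image (fun x _ y _ hxy => vertex_inj T h.ccwT hxy), Fin.sum_univ_three] at e1
  rw [← e1]
  unfold nc
  rfl

theorem card_nc_full (h : Dis 5 T t) : (nc T t).card + (full T t).card = 4 := by
  classical
  have h1 := sum_W h
  rw [split_sum h, W_corner h, W_corner h, W_corner h, ang_sum T h.ccwT] at h1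
  have h2 : ∑ p ∈ nc T t, W t p = ∑ p ∈ nc T t, (Real.pi + if W t p ≠ Real.pi then Real.pi else 0) := by
    refine Finset.sum_congr rfl fun p hp => ?_
    obtain ⟨hp1, hp2⟩ := mem_nc.1 hp
    obtain ⟨i, hi⟩ := (mem_pts _ _).1 hp1
    rcases W_cases h hi hp2 with e | ⟨e, _⟩
    · rw [if_neg (by simpa using e), add_zero, e]
    · rw [if_pos, e]
      · ring
      · rw [e]; intro hc; linarith [Real.pi_pos]
  rw [Finset.sum_add_distrib, Finset.sum_const, ← Finset.sum_filter, Finset.sum_const] at h2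
  rw [h2] at h1
  have h3 : (((nc T t).card + (full T t).card : ℕ) : ℝ) * Real.pi = 4 * Real.pi := by
    unfold full
    push_cast
    simp only [nsmul_eq_mul] at h1
    push_cast at h1
    linarith
  have h4 := mul_right_cancel₀ Real.pi_pos.ne' h3
  exact_mod_cast h4

theorem full_int (h : Dis 5 T t) {p : ℂ} (hp : p ∈ full T t) :
    p ∈ interior (hull T) ∧ W t p = 2 * Real.pi := by
  obtain ⟨h1, h2⟩ := mem_full.1 hp
  obtain ⟨hp1, hp2⟩ := mem_nc.1 h1
  obtain ⟨i, hi⟩ := (mem_pts _ _).1 hp1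
  rcases W_cases h hi hp2 with e | ⟨e, e2⟩
  · exact absurd e h2
  · exact ⟨e2, e⟩

theorem exists_other (i : Fin 5) : ∃ j : Fin 5, j ≠ i := by
  revert i; decide

/-- two full vertices are impossible -/
theorem case_two (h : Dis 5 T t) {a : Fin 3} {P : Fin 5} (hP : U T t a P)
    (hf : nc T t ⊆ full T t) : False := by
  obtain ⟨j, hj⟩ := exists_other P
  refine not_whole h hj.symm (range_of_sub (vertex_inj _ (h.ccwt P)) fun m => ?_)
  by_contra hcon
  push Not at hcon
  have h1 : t P m ∈ nc T t := mem_nc.2 ⟨(mem_pts _ _).2 ⟨P, m, rfl⟩, hcon⟩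
  exact U_not_int h hP ⟨m, rfl⟩ (full_int h (hf h1)).1

theorem case_zero (h : Dis 5 T t) (hs : ∀ i m, ∃ k, ang (t i) m = ang T k)
    (hr : ∀ k, ang T k ≠ Real.pi / 2) (hn : (nc T t).card = 4) : False := by
  classical
  have hsum := sum_n h
  rw [split_sum h (fun p => (I t p).card)] at hsum
  have hge : 12 ≤ ∑ p ∈ nc T t, (I t p).card := by
    calc 12 = ∑ p ∈ nc T t, 3 := by rw [Finset.sum_const, hn]; rfl
      _ ≤ _ := Finset.sum_le_sum fun p hp => n_ge h hs hr (mem_nc.1 hp).1 (mem_nc.1 hp).2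
  have hpos : ∀ j, 0 < (I t (T j)).card := by
    intro j
    obtain ⟨i, hi⟩ := (mem_pts t _).1 (W_pos_has h j)
    exact Finset.card_pos.2 ⟨i, (mem_I _ _ _).2 hi⟩
  have p0 := hpos 0
  have p1 := hpos 1
  have p2 := hpos 2
  have hone : ∀ j, (I t (T j)).card = 1 := by
    intro j
    fin_cases j
    · show (I t (T 0)).card = 1; omega
    · show (I t (T 1)).card = 1; omega
    · show (I t (T 2)).card = 1; omega
  have hex : ∀ j, ∃ i, U T t j i := fun j => by
    obtain ⟨i, hi⟩ := unsplit h j (hone j)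
    exact ⟨i, hi⟩
  choose P hP using hex
  have hPinj : Function.Injective P := by
    intro j j' hjj
    by_contra hne
    obtain ⟨i0, h0⟩ := exists_other (P j)
    exact U_ne h h0 hne (hP j) (hP j') hjj
  have hcardP : (Finset.univ.image P).card = 3 := by
    rw [Finset.card_image_of_injective _ hPinj]; rfl
  have hside : ∀ s ∈ nc T t, ∃ k, onSide T k s := by
    intro s hsn
    obtain ⟨hs1, hs2⟩ := mem_nc.1 hsn
    have h3 := n_ge h hs hr hs1 hs2
    have hint : (I t s ∩ Finset.univ.image P).Nonempty := by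
      by_contra hcon
      rw [Finset.not_nonempty_iff_eq_empty, ← Finset.disjoint_iff_inter_eq_empty] at hcon
      have h5 := Finset.card_union_of_disjoint hcon
      have h6 : (I t s ∪ Finset.univ.image P).card ≤ 5 := by
        simpa using Finset.card_le_univ (I t s ∪ Finset.univ.image P)
      omega
    obtain ⟨x, hx⟩ := hint
    rw [Finset.mem_inter, Finset.mem_image] at hx
    obtain ⟨hx1, j, _, rfl⟩ := hx
    rw [mem_I] at hx1
    have hni := U_not_int h (hP j) hx1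
    rcases vertex_cases T h.ccwT s (has_mem h hx1) with e | e | ⟨k, e⟩
    · exact absurd e hni
    · exact e
    · exact absurd e (hs2 k)
  choose! κ hκ using hside
  obtain ⟨p, hp, q, hq, hpq, hk⟩ := Finset.exists_ne_map_eq_of_card_lt_of_maps_to
    (s := nc T t) (t := (Finset.univ : Finset (Fin 3))) (by rw [hn]; decide)
    (f := κ) (fun x _ => Finset.mem_univ _)
  have o1 := hκ p hp
  have o2 := hκ q hq
  rw [← hk] at o2
  have b1 : I t p ⊆ Finset.univ.erase (P (κ p)) := by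
    intro x hx
    rw [mem_I] at hx
    rw [Finset.mem_erase]
    refine ⟨?_, Finset.mem_univ _⟩
    rintro rfl
    exact U_not_side h (hP _) hx o1
  have b2 : I t q ⊆ Finset.univ.erase (P (κ p)) := by
    intro x hx
    rw [mem_I] at hx
    rw [Finset.mem_erase]
    refine ⟨?_, Finset.mem_univ _⟩
    rintro rfl
    exact U_not_side h (hP _) hx o2
  have c1 := n_ge h hs hr (mem_nc.1 hp).1 (mem_nc.1 hp).2
  have c2 := n_ge h hs hr (mem_nc.1 hq).1 (mem_nc.1 hq).2
  have c3 := Finset.card_union_add_card_inter (I t p) (I t q)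
  have c4 : (I t p ∪ I t q).card ≤ 4 := by
    refine (Finset.card_le_card (Finset.union_subset b1 b2)).trans ?_
    rw [Finset.card_erase_of_mem (Finset.mem_univ _)]
    simp
  have c5 : 1 < (I t p ∩ I t q).card := by omega
  obtain ⟨x, hx, y, hy, hxy⟩ := Finset.one_lt_card.1 c5
  rw [Finset.mem_inter, mem_I, mem_I] at hx hy
  exact pair_bd h hxy hpq hx.1 hx.2 hy.1 hy.2 o1 o2

theorem four_contra {A s1 s2 s4 : ℝ} (hA : 0 < A) (h12 : s1 < s2) (h24 : s2 < s4)
    (h3 : s4 + 2 * s1 < 3 * s2) {g1 g2 g3 g4 L1 L2 L3 L4 : ℝ}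
    (H : ∀ x ∈ [(g1, L1), (g2, L2), (g3, L3), (g4, L4)],
      (x.1 = A ∧ (x.2 = s2 - s4 ∨ x.2 = s4 - s2)) ∨
      (x.1 = 2 * A ∧ (x.2 = s1 - s4 ∨ x.2 = s4 - s1)) ∨
      (x.1 = 4 * A ∧ (x.2 = s1 - s2 ∨ x.2 = s2 - s1)))
    (hg : g1 + g2 + g3 + g4 = 14 * A) (hL : L1 + L2 + L3 + L4 = 0) : False := by
  have m1 := H (g1, L1) (by simp)
  have m2 := H (g2, L2) (by simp)
  have m3 := H (g3, L3) (by simp)
  have m4 := H (g4, L4) (by simp)
  clear H
  simp only at m1 m2 m3 m4
  have le : ∀ g L : ℝ, (g = A ∧ (L = s2 - s4 ∨ L = s4 - s2)) ∨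
      (g = 2 * A ∧ (L = s1 - s4 ∨ L = s4 - s1)) ∨
      (g = 4 * A ∧ (L = s1 - s2 ∨ L = s2 - s1)) → g ≤ 4 * A := by
    rintro g L (⟨e, _⟩ | ⟨e, _⟩ | ⟨e, _⟩) <;> rw [e] <;> linarith
  have l1 := le _ _ m1
  have l2 := le _ _ m2
  have l3 := le _ _ m3
  have l4 := le _ _ m4
  have red : ∀ g L : ℝ, 2 * A ≤ g → ((g = A ∧ (L = s2 - s4 ∨ L = s4 - s2)) ∨
      (g = 2 * A ∧ (L = s1 - s4 ∨ L = s4 - s1)) ∨
      (g = 4 * A ∧ (L = s1 - s2 ∨ L = s2 - s1))) →
      ((g = 2 * A ∧ (L = s1 - s4 ∨ L = s4 - s1)) ∨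
      (g = 4 * A ∧ (L = s1 - s2 ∨ L = s2 - s1))) := by
    rintro g L hge (⟨e, _⟩ | e | e)
    · exfalso; linarith
    · exact Or.inl e
    · exact Or.inr e
  have n1 := red _ _ (by linarith) m1
  have n2 := red _ _ (by linarith) m2
  have n3 := red _ _ (by linarith) m3
  have n4 := red _ _ (by linarith) m4
  clear m1 m2 m3 m4 le red
  rcases n1 with ⟨a1, b1⟩ | ⟨a1, b1⟩ <;> rcases n2 with ⟨a2, b2⟩ | ⟨a2, b2⟩ <;>
    rcases n3 with ⟨a3, b3⟩ | ⟨a3, b3⟩ <;> rcases n4 with ⟨a4, b4⟩ | ⟨a4, b4⟩ <;>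
    first
    | (exfalso; linarith)
    | (rcases b1 with b1 | b1 <;> rcases b2 with b2 | b2 <;> rcases b3 with b3 | b3 <;>
        rcases b4 with b4 | b4 <;> linarith)

end Pool.Agent.Helper230.Five
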