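import Pool.Agent.Helper230.Five.Gen

/-! # Dissections into five mutually similar triangles: one full vertex, the set-up -/

set_option autoImplicit false
noncomputable section
open scoped BigOperators
open Pool.Agent.Helper549.Tri Pool.Agent.Helper549.Tri.Basic Pool.Agent.Helper549.Tri.Angles
  Pool.Agent.Helper549.Tri.AngleSum Pool.Agent.Helper549.Tri.Opp Pool.Agent.Helper549.Tri.Corner
  Pool.Agent.Helper549.Tri.Vertex

namespace Pool.Agent.Helper230.Five

/-- a dissection into five tiles with the angles `θ`, without a right angle, with exactly one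
vertex `F` of angle sum `2 π` -/
structure One (T : Fin 3 → ℂ) (t : Fin 5 → Fin 3 → ℂ) (θ : Fin 3 → ℝ)
    (τ : Fin 5 → Equiv.Perm (Fin 3)) (F : ℂ) : Prop where
  h : Dis 5 T t
  hang : ∀ i m, ang (t i) m = θ (τ i m)
  hr : ∀ k, θ k ≠ Real.pi / 2
  h3 : H3 T t
  hn : (nc T t).card = 3
  hFn : F ∈ nc T t
  hW : W t F = 2 * Real.pi
  hF : F ∈ interior (hull T)
  hpi : ∀ p ∈ nc T t, p ≠ F → W t p = Real.pi
  hray : ∀ i, Has (t i) F → ∃ j, j ≠ i ∧ Has (t j) F ∧
      (out t F i - F) / (‖out t F i - F‖ : ℂ) = (inn t F j - F) / (‖inn t F j - F‖ : ℂ)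

end Pool.Agent.Helper230.Five
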