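import Pool.Agent.Helper230.Five.Main

/-! # Dissections into five similar triangles: one full vertex, three tiles -/

set_option autoImplicit false
noncomputable section
open scoped BigOperators
open Pool.Agent.Helper549.Tri Pool.Agent.Helper549.Tri.Basic Pool.Agent.Helper549.Tri.Angles
  Pool.Agent.Helper549.Tri.AngleSum Pool.Agent.Helper549.Tri.Opp Pool.Agent.Helper549.Tri.Corner
  Pool.Agent.Helper549.Tri.Vertex

namespace Pool.Agent.Helper230.Five

variable {T : Fin 3 → ℂ} {t : Fin 5 → Fin 3 → ℂ}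

theorem four_list {R : Finset ℂ} (h4 : R.card = 4) {w x y z : ℂ} (hw : w ∈ R) (hx : x ∈ R)
    (hy : y ∈ R) (hz : z ∈ R) (h1 : w ≠ x) (h2 : w ≠ y) (h3 : w ≠ z) (h5 : x ≠ y) (h6 : x ≠ z)
    (h7 : y ≠ z) : ∀ p ∈ R, p = w ∨ p = x ∨ p = y ∨ p = z := by
  classical
  have hc : ({w, x, y, z} : Finset ℂ).card = 4 := by
    rw [Finset.card_insert_of_notMem (by simp [h1, h2, h3]),
      Finset.card_insert_of_notMem (by simp [h5, h6]), Finset.card_pair h7]
  have hsub : ({w, x, y, z} : Finset ℂ) ⊆ R := by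
    intro p hp
    simp only [Finset.mem_insert, Finset.mem_singleton] at hp
    rcases hp with rfl | rfl | rfl | rfl <;> assumption
  have heq := Finset.eq_of_subset_of_card_le hsub (by omega)
  intro p hp
  rw [← heq] at hp
  simpa only [Finset.mem_insert, Finset.mem_singleton] using hp

theorem range_eq (F : ℂ) {i : Fin 5} (hi : Has (t i) F) :
    Set.range (t i) = {F, out t F i, inn t F i} := by
  ext p
  simp only [Set.mem_range, Set.mem_insert_iff, Set.mem_singleton_iff]
  constructor
  · rintro ⟨m, rfl⟩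
    rcases q_fin3 (mi t F i) m with e | e | e
    · left; rw [e, mi_spec hi]
    · right; left; rw [e]; rfl
    · right; right; rw [e]; rfl
  · rintro (rfl | rfl | rfl)
    · exact hi
    · exact ⟨_, rfl⟩
    · exact ⟨_, rfl⟩

theorem path_core1 (h : Dis 5 T t) {F : ℂ} {R : Finset ℂ} (hR4 : R.card = 4) {i j k : Fin 5}
    (hij : i ≠ j) (hik : i ≠ k) (hjk : j ≠ k) (hi : Has (t i) F) (hj : Has (t j) F)
    (hk : Has (t k) F)
    (hout : ∀ x, Has (t x) F → out t F x ∈ R ∧ inn t F x ∈ R)
    (hW : ∀ y, Has (t y) F → inn t F y ≠ out t F i)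
    (hZ : ∀ y, Has (t y) F → out t F y ≠ inn t F i) : False := by
  have hl := four_list hR4 (hout i hi).1 (hout i hi).2 (hout j hj).1 (hout k hk).1
    (out_ne_inn h F i) (out_inj h hij hi hj) (out_inj h hik hi hk) (hZ j hj).symm (hZ k hk).symm
    (out_inj h hjk hj hk)
  have e1 : inn t F j = out t F k := by
    rcases hl _ (hout j hj).2 with e | e | e | e
    · exact absurd e (hW j hj)
    · exact absurd e.symm (inn_inj h hij hi hj)
    · exact absurd e.symm (out_ne_inn h F j)
    · exact e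
  have e2 : inn t F k = out t F j := by
    rcases hl _ (hout k hk).2 with e | e | e | e
    · exact absurd e (hW k hk)
    · exact absurd e.symm (inn_inj h hik hi hk)
    · exact e
    · exact absurd e.symm (out_ne_inn h F k)
  refine same_vert h hjk ?_
  rw [range_eq F hj, range_eq F hk, e1, e2]
  ext p
  simp only [Set.mem_insert_iff, Set.mem_singleton_iff]
  tauto

theorem path_core2 (h : Dis 5 T t) (hs : ∀ i m, ∃ k, ang (t i) m = ang T k)
    (hr : ∀ k, ang T k ≠ Real.pi / 2) {F : ℂ} (hF : F ∈ interior (hull T)) {a : Fin 3} {P : Fin 5}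
    (hP : U T t a P) {R : Finset ℂ} (hR4 : R.card = 4)
    (hRm : ∀ x q, Has (t x) q → q = F ∨ q = T a ∨ q ∈ R)
    {i j k : Fin 5} (hij : i ≠ j) (hik : i ≠ k) (hjk : j ≠ k)
    (hI : ∀ x, Has (t x) F ↔ (x = i ∨ x = j ∨ x = k))
    (hout : ∀ x, Has (t x) F → out t F x ∈ R ∧ inn t F x ∈ R)
    (hg : ∀ x, Has (t x) F → gF t F x = 2 * Real.pi / 3)
    (hW : ∀ y, Has (t y) F → inn t F y ≠ out t F i)
    (hZ : ∀ y, Has (t y) F → out t F y ≠ inn t F k) : False := by
  have hi : Has (t i) F := (hI i).2 (Or.inl rfl)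
  have hj : Has (t j) F := (hI j).2 (Or.inr (Or.inl rfl))
  have hk : Has (t k) F := (hI k).2 (Or.inr (Or.inr rfl))
  have hWX : out t F i ≠ inn t F i := out_ne_inn h F i
  have hYZ : out t F k ≠ inn t F k := out_ne_inn h F k
  have hWY : out t F i ≠ out t F k := out_inj h hik hi hk
  have hXZ : inn t F i ≠ inn t F k := inn_inj h hik hi hk
  have hWZ : out t F i ≠ inn t F k := (hW k hk).symm
  by_cases hXY : inn t F i = out t F k
  · have hl := four_list hR4 (hout i hi).1 (hout k hk).2 (hout i hi).2 (hout j hj).1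
      hWZ hWX (out_inj h hij hi hj) hXZ.symm (hZ j hj).symm
      (by rw [hXY]; exact out_inj h hjk.symm hk hj)
    rcases hl _ (hout j hj).2 with e | e | e | e
    · exact hW j hj e
    · exact inn_inj h hjk hj hk e
    · exact inn_inj h hij hi hj e.symm
    · exact out_ne_inn h F j e.symm
  · have hl := four_list hR4 (hout i hi).1 (hout i hi).2 (hout k hk).1 (hout k hk).2
      hWX hWY hWZ hXY hXZ hYZ
    have e1 : out t F j = inn t F i := by
      rcases hl _ (hout j hj).1 with e | e | e | e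
      · exact absurd e.symm (out_inj h hij hi hj)
      · exact e
      · exact absurd e (out_inj h hjk hj hk)
      · exact absurd e (hZ j hj)
    have e2 : inn t F j = out t F k := by
      rcases hl _ (hout j hj).2 with e | e | e | e
      · exact absurd e (hW j hj)
      · exact absurd e.symm (inn_inj h hij hi hj)
      · exact e
      · exact absurd e (inn_inj h hjk hj hk)
    have hd := three_arcs h hi hj hk (hg i hi) (hg j hj) (hg k hk) e1.symm e2
    have fW := out_ne_F h hi
    have fX := inn_ne_F h hi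
    have fY := out_ne_F h hk
    have fZ := inn_ne_F h hk
    rcases lt_trichotomy ‖inn t F k - F‖ ‖out t F i - F‖ with hlt | heq | hgt
    · have hseg := seg_of_dir fW fZ hd hlt
      refine path_contra h hs hr hF hP hij hik hjk hI (M := out t F i) (M' := inn t F i)
        (N' := out t F k) (Q := inn t F k) (out_has F i) (inn_has F i) (e1 ▸ out_has F j)
        (e2 ▸ inn_has F j) (out_has F k) (inn_has F k) ?_ hWX hWY hWZ hXY hXZ hYZ fW fX fY fZ hseg
      intro x q hq
      rcases hRm x q hq with e | e | e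
      · exact Or.inl e
      · exact Or.inr (Or.inl e)
      · exact Or.inr (Or.inr (hl q e))
    · apply hWZ
      have p1 : 0 < ‖out t F i - F‖ := norm_pos_iff.2 (sub_ne_zero.2 fW)
      have c1 : ((‖out t F i - F‖ : ℝ) : ℂ) ≠ 0 := by exact_mod_cast p1.ne'
      rw [heq, div_left_inj' c1] at hd
      exact sub_left_injective hd
    · have hseg := seg_of_dir fZ fW hd.symm hgt
      refine path_contra h hs hr hF hP (i := k) (j := j) (k := i) hjk.symm hik.symm hij.symm
        (fun x => by rw [hI]; tauto) (M := inn t F k) (M' := out t F k)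
        (N' := inn t F i) (Q := out t F i) (inn_has F k) (out_has F k) (e2 ▸ inn_has F j)
        (e1 ▸ out_has F j) (inn_has F i) (out_has F i) ?_ hYZ.symm hXZ.symm hWZ.symm
        (Ne.symm hXY) hWY.symm hWX.symm fZ fY fX fW hseg
      intro x q hq
      rcases hRm x q hq with e | e | e
      · exact Or.inl e
      · exact Or.inr (Or.inl e)
      · rcases hl q e with e' | e' | e' | e'
        · exact Or.inr (Or.inr (Or.inr (Or.inr (Or.inr e'))))
        · exact Or.inr (Or.inr (Or.inr (Or.inr (Or.inl e'))))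
        · exact Or.inr (Or.inr (Or.inr (Or.inl e')))
        · exact Or.inr (Or.inr (Or.inl e'))

theorem path_all (h : Dis 5 T t) (hs : ∀ i m, ∃ k, ang (t i) m = ang T k)
    (hr : ∀ k, ang T k ≠ Real.pi / 2) {F : ℂ} (hF : F ∈ interior (hull T)) {a : Fin 3} {P : Fin 5}
    (hP : U T t a P) {R : Finset ℂ} (hR4 : R.card = 4)
    (hRm : ∀ x q, Has (t x) q → q = F ∨ q = T a ∨ q ∈ R)
    {i j k : Fin 5} (hij : i ≠ j) (hik : i ≠ k) (hjk : j ≠ k)
    (hI : ∀ x, Has (t x) F ↔ (x = i ∨ x = j ∨ x = k))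
    (hout : ∀ x, Has (t x) F → out t F x ∈ R ∧ inn t F x ∈ R)
    (hg : ∀ x, Has (t x) F → gF t F x = 2 * Real.pi / 3)
    {x z : Fin 5} (hx : Has (t x) F) (hz : Has (t z) F)
    (hW : ∀ y, Has (t y) F → inn t F y ≠ out t F x)
    (hZ : ∀ y, Has (t y) F → out t F y ≠ inn t F z) : False := by
  have hi : Has (t i) F := (hI i).2 (Or.inl rfl)
  have hj : Has (t j) F := (hI j).2 (Or.inr (Or.inl rfl))
  have hk : Has (t k) F := (hI k).2 (Or.inr (Or.inr rfl))
  have i1 : ∀ x, Has (t x) F ↔ (x = i ∨ x = k ∨ x = j) := fun x => by rw [hI]; tauto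
  have i2 : ∀ x, Has (t x) F ↔ (x = j ∨ x = i ∨ x = k) := fun x => by rw [hI]; tauto
  have i3 : ∀ x, Has (t x) F ↔ (x = j ∨ x = k ∨ x = i) := fun x => by rw [hI]; tauto
  have i4 : ∀ x, Has (t x) F ↔ (x = k ∨ x = i ∨ x = j) := fun x => by rw [hI]; tauto
  have i5 : ∀ x, Has (t x) F ↔ (x = k ∨ x = j ∨ x = i) := fun x => by rw [hI]; tauto
  rcases (hI x).1 hx with rfl | rfl | rfl <;> rcases (hI z).1 hz with rfl | rfl | rfl
  · exact path_core1 h hR4 hij hik hjk hi hj hk hout hW hZ
  · exact path_core2 h hs hr hF hP hR4 hRm hik hij hjk.symm i1 hout hg hW hZ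
  · exact path_core2 h hs hr hF hP hR4 hRm hij hik hjk hI hout hg hW hZ
  · exact path_core2 h hs hr hF hP hR4 hRm hjk hij.symm hik.symm i3 hout hg hW hZ
  · exact path_core1 h hR4 hij.symm hjk hik hj hi hk hout hW hZ
  · exact path_core2 h hs hr hF hP hR4 hRm hij.symm hjk hik i2 hout hg hW hZ
  · exact path_core2 h hs hr hF hP hR4 hRm hjk.symm hik.symm hij.symm i5 hout hg hW hZ
  · exact path_core2 h hs hr hF hP hR4 hRm hik.symm hjk.symm hij i4 hout hg hW hZ
  · exact path_core1 h hR4 hik.symm hjk.symm hij hk hi hj hout hW hZ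

end Pool.Agent.Helper230.Five
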