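import Pool.Agent.Helper230.Five.Classify
import Pool.Agent.Helper230.Five.IfDir

/-! # Dissections into five mutually similar triangles: the plane -/

set_option autoImplicit false
noncomputable section
open scoped BigOperators
open Pool.Agent.Helper549.Tri Pool.Agent.Helper549.Tri.Basic Pool.Agent.Helper549.Tri.Setup

namespace Pool.Agent.Helper230.Five

theorem shape_conv {T : Fin 3 → Pl} {ρ : Equiv.Perm (Fin 3)} {x y z : ℝ}
    (h : Shape (fun k => eC (T (ρ k))) x y z) : Shape T x y z := by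
  obtain ⟨σ, r, hr, h1, h2, h3⟩ := h
  refine ⟨σ.trans ρ, r, hr, ?_, ?_, ?_⟩
  · rw [← h1, eC.dist_map]; rfl
  · rw [← h2, eC.dist_map]; rfl
  · rw [← h3, eC.dist_map]; rfl

theorem only_if5 (T : Fin 3 → Pl) (hT : AffineIndependent ℝ T) (h : FiveGood T) :
    Iso T ∨ (∃ k, EuclideanGeometry.angle (T (k + 1)) (T k) (T (k + 2)) = Real.pi / 2) ∨
      Spor T := by
  obtain ⟨P, hP, hsim, hU, hD⟩ := h
  obtain ⟨ρ, hρ⟩ := orient T hT
  choose r hro using fun i => orient (P i) (hP i)
  choose σ c hc hσ using fun i => hsim i 0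
  have hDis : Dis 5 (fun k => eC (T (ρ k))) (fun i k => eC (P i (r i k))) := by
    refine ⟨hρ, hro, ?_, ?_⟩
    · rw [hull_img T ρ, ← hU, Set.image_iUnion]
      refine Set.iUnion_congr fun i => ?_
      exact hull_img (P i) (r i)
    · intro i j hij
      rw [hull_img (P i) (r i), hull_img (P j) (r j)]
      have h1 : ∀ S : Set Pl, interior (eC '' S) = eC '' interior S :=
        fun S => (eC.toHomeomorph.image_interior S).symm
      rw [h1, h1]
      exact (Set.disjoint_image_iff eC.injective).2 (hD i j hij)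
  have hangT : ∀ k, ang (fun k => eC (T (ρ k))) k = angE T (ρ k) := by
    intro k
    rw [← angE_perm T ρ k]
    unfold ang
    exact angle_of_dist _ _ _ _ _ _ (eC.dist_map _ _) (eC.dist_map _ _) (eC.dist_map _ _)
  have hangt : ∀ i m, ang (fun k => eC (P i (r i k))) m =
      (fun k => angE (P 0) k) (((r i).trans (σ i)) m) := by
    intro i m
    show _ = angE (P 0) (((r i).trans (σ i)) m)
    rw [← angE_perm (P 0) ((r i).trans (σ i)) m]
    unfold ang
    refine angle_of_sim _ _ _ _ _ _ (hc i) ?_ ?_ ?_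
    · rw [eC.dist_map, hσ]; rfl
    · rw [eC.dist_map, hσ]; rfl
    · rw [eC.dist_map, hσ]; rfl
  rcases classify hDis (τ := fun i => (r i).trans (σ i)) hangt with ⟨s, hs⟩ | ⟨k, hk⟩ |
    (e | e | e | ⟨x, h1, h2, e⟩ | ⟨x, h1, h2, e⟩)
  · left
    refine ⟨s.trans ρ, ?_⟩
    rw [eC.dist_map, eC.dist_map] at hs
    exact hs
  · right; left
    rw [hangT] at hk
    exact ⟨ρ k, hk⟩
  · exact Or.inr (Or.inr (Or.inl (shape_conv e)))
  · exact Or.inr (Or.inr (Or.inr (Or.inl (shape_conv e))))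
  · exact Or.inr (Or.inr (Or.inr (Or.inr (Or.inl (shape_conv e)))))
  · exact Or.inr (Or.inr (Or.inr (Or.inr (Or.inr (Or.inl ⟨x, h1, h2, shape_conv e⟩)))))
  · exact Or.inr (Or.inr (Or.inr (Or.inr (Or.inr (Or.inr ⟨x, h1, h2, shape_conv e⟩)))))

theorem five_iff (T : Fin 3 → Pl) (hT : AffineIndependent ℝ T) :
    FiveGood T ↔
      Iso T ∨ (∃ k, EuclideanGeometry.angle (T (k + 1)) (T k) (T (k + 2)) = Real.pi / 2) ∨
      Spor T :=
  ⟨only_if5 T hT, fun h => if_all T hT h⟩

end Pool.Agent.Helper230.Five
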