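import Pool.Agent.Helper230.Five.Exist

/-! # Dissections into five mutually similar triangles: tools for the constructions -/

set_option autoImplicit false
noncomputable section
open scoped BigOperators
open Pool.Agent.Helper549.Tri Pool.Agent.Helper549.Tri.Basic Pool.Agent.Helper549.Tri.Setup

namespace Pool.Agent.Helper230.Five

/-- the point with the barycentric coordinates `x, y, z` -/
def bp (V : Fin 3 → ℂ) (x y z : ℝ) : ℂ := x • V 0 + y • V 1 + z • V 2

theorem bp0 (V : Fin 3 → ℂ) : V 0 = bp V 1 0 0 := by simp [bp]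
theorem bp1 (V : Fin 3 → ℂ) : V 1 = bp V 0 1 0 := by simp [bp]
theorem bp2 (V : Fin 3 → ℂ) : V 2 = bp V 0 0 1 := by simp [bp]

/-- squared distance of two points with barycentric coordinates -/
theorem nsq_bp (V : Fin 3 → ℂ) {x y z x' y' z' : ℝ} (h : x + y + z = 1) (h' : x' + y' + z' = 1) :
    nsq (bp V x y z - bp V x' y' z') = -((x - x') * (y - y') * nsq (V 0 - V 1) +
      (y - y') * (z - z') * nsq (V 1 - V 2) + (x - x') * (z - z') * nsq (V 0 - V 2)) := by
  have hz : z = 1 - x - y := by linarith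
  have hz' : z' = 1 - x' - y' := by linarith
  subst hz
  subst hz'
  simp only [nsq, bp, Complex.sub_re, Complex.sub_im, Complex.add_re, Complex.add_im,
    Complex.smul_re, Complex.smul_im, smul_eq_mul]
  ring

/-- the triangle `S` is similar to the triangle `D` -/
def SimTo (S D : Fin 3 → ℂ) : Prop :=
  ∃ (σ : Equiv.Perm (Fin 3)) (r : ℝ), 0 < r ∧
    ∀ k l, dist (S k) (S l) = r * dist (D (σ k)) (D (σ l))

theorem sim_perm {S D : Fin 3 → ℂ} (σ : Equiv.Perm (Fin 3)) {ρ : ℝ} (hρ : 0 < ρ)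
    (h01 : nsq (S 0 - S 1) = ρ * nsq (D (σ 0) - D (σ 1)))
    (h02 : nsq (S 0 - S 2) = ρ * nsq (D (σ 0) - D (σ 2)))
    (h12 : nsq (S 1 - S 2) = ρ * nsq (D (σ 1) - D (σ 2))) : SimTo S D := by
  have hs : (Real.sqrt ρ) ^ 2 = ρ := Real.sq_sqrt hρ.le
  refine ⟨σ, Real.sqrt ρ, Real.sqrt_pos.2 hρ, fun k l => ?_⟩
  exact sim_of (V := fun m => D (σ m)) (Real.sqrt_pos.2 hρ) (by rw [hs]; exact h01)
    (by rw [hs]; exact h02) (by rw [hs]; exact h12) k l

/-- the dissections of type A (`V = (A, B, C)`; `H1` on `AB`, `H2` on `AC`, `F` inside) -/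
def tilesA (V : Fin 3 → ℂ) (u v x y z : ℝ) : Fin 5 → Fin 3 → ℂ :=
  ![![V 0, bp V (1 - u) u 0, bp V (1 - v) 0 v],
    ![bp V x y z, bp V (1 - u) u 0, V 1],
    ![bp V x y z, V 1, V 2],
    ![bp V x y z, V 2, bp V (1 - v) 0 v],
    ![bp V x y z, bp V (1 - v) 0 v, bp V (1 - u) u 0]]

/-- the dissections of type B (`V = (E, M, M')`; `N'` on `M'E`, `F` inside, `N` on `FM`) -/
def tilesB (V : Fin 3 → ℂ) (s c x y z : ℝ) : Fin 5 → Fin 3 → ℂ :=
  ![![bp V x y z, V 1, V 2],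
    ![bp V x y z, V 2, bp V s 0 (1 - s)],
    ![bp V x y z, bp V s 0 (1 - s), bp V ((1 - c) * x) ((1 - c) * y + c) ((1 - c) * z)],
    ![bp V ((1 - c) * x) ((1 - c) * y + c) ((1 - c) * z), V 0, V 1],
    ![bp V ((1 - c) * x) ((1 - c) * y + c) ((1 - c) * z), bp V s 0 (1 - s), V 0]]

end Pool.Agent.Helper230.Five
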