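import Pool.Agent.Helper230.Five.Path

/-! # Dissections into five mutually similar triangles: StarExcl -/

set_option autoImplicit false
noncomputable section
open scoped BigOperators
open Pool.Agent.Helper549.Tri Pool.Agent.Helper549.Tri.Basic Pool.Agent.Helper549.Tri.Angles
  Pool.Agent.Helper549.Tri.AngleSum Pool.Agent.Helper549.Tri.Opp Pool.Agent.Helper549.Tri.Corner
  Pool.Agent.Helper549.Tri.Vertex
namespace Pool.Agent.Helper230.Five

theorem starExcl_len (w : Fin 3 → ℂ) {k l m : Fin 3} (h1 : k ≠ l) (h2 : k ≠ m) (h3 : l ≠ m) :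
    len w k = ‖w l - w m‖ := by
  unfold len sd
  have : (l = k + 1 ∧ m = k + 2) ∨ (l = k + 2 ∧ m = k + 1) := by
    revert h1 h2 h3
    revert k l m
    decide
  rcases this with ⟨rfl, rfl⟩ | ⟨rfl, rfl⟩
  · rw [norm_sub_rev]
  · rfl

theorem starExcl_ang {T : Fin 3 → ℂ} {t : Fin 5 → Fin 3 → ℂ} (h : Dis 5 T t) (θ : Fin 3 → ℝ)
    (τ : Fin 5 → Equiv.Perm (Fin 3)) (hang : ∀ i m, ang (t i) m = θ (τ i m)) (c : Fin 3)
    (hc : θ c = Real.pi / 2) : (∀ k, 0 < θ k) ∧ (∀ k, k ≠ c → θ k < Real.pi / 2) := by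
  have hpos : ∀ k, 0 < θ k := by
    intro k
    have := ang_pos (t 0) (h.ccwt 0) ((τ 0).symm k)
    rw [hang, Equiv.apply_symm_apply] at this
    exact this
  have hsum : ∑ k, θ k = Real.pi := by
    have h1 := ang_sum (t 0) (h.ccwt 0)
    rw [hang, hang, hang] at h1
    have h2 := Equiv.sum_comp (τ 0) θ
    rw [← h2, Fin.sum_univ_three]
    exact h1
  refine ⟨hpos, ?_⟩
  intro k hk
  have key : ∀ k c : Fin 3, k ≠ c → ∃ d : Fin 3, d ≠ k ∧ d ≠ c ∧
      (Finset.univ : Finset (Fin 3)) = {k, c, d} := by decide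
  obtain ⟨d, h1, h2, h3⟩ := key k c hk
  rw [h3, Finset.sum_insert (by simp [hk, h1.symm]), Finset.sum_pair h2.symm] at hsum
  linarith [hpos d]

theorem starExcl_two {T : Fin 3 → ℂ} {t : Fin 5 → Fin 3 → ℂ} (h : Dis 5 T t) (θ : Fin 3 → ℝ)
    (τ : Fin 5 → Equiv.Perm (Fin 3)) (hang : ∀ i m, ang (t i) m = θ (τ i m)) (c : Fin 3)
    (hc : θ c = Real.pi / 2) {v : ℂ} (hv : ∀ i, Has (t i) v) {X : ℂ} (hX : X ∈ nc T t)
    (hXv : X ≠ v) :
    W t X = Real.pi ∧ (I t X).card = 2 ∧ ∀ i m, t i m = X → τ i m = c := by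
  obtain ⟨hpos, hlt⟩ := starExcl_ang h θ τ hang c hc
  obtain ⟨hX1, hX2⟩ := mem_nc.1 hX
  obtain ⟨i0, hi0⟩ := (mem_pts _ _).1 hX1
  have hpi := Real.pi_pos
  have hle : (I t X).card ≤ 2 := by
    by_contra hcon
    push Not at hcon
    obtain ⟨i, hi, j, hj, l, hl, hij, hil, hjl⟩ := Finset.two_lt_card.1 hcon
    rw [mem_I] at hi hj hl
    exact pair_two h hij hil hjl hXv.symm (hv i) hi (hv j) hj (hv l) hl
  have hθ : ∀ k, θ k ≤ Real.pi / 2 := fun k => by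
    by_cases e : k = c
    · rw [e, hc]
    · exact (hlt k e).le
  have hq : ∀ i, Has (t i) X → q_V (t i) X ≤ Real.pi / 2 := by
    rintro i ⟨m, rfl⟩
    rw [q_V_self _ (h.ccwt i), hang]
    exact hθ _
  have hWge : Real.pi ≤ W t X := by
    rcases W_cases h hi0 hX2 with e | ⟨e, _⟩
    · rw [e]
    · rw [e]; linarith
  have hWle : W t X ≤ (I t X).card * (Real.pi / 2) := by
    rw [W_eq]
    calc _ ≤ ∑ i ∈ I t X, Real.pi / 2 :=
          Finset.sum_le_sum (fun i hi => hq i ((mem_I _ _ _).1 hi))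
      _ = _ := by rw [Finset.sum_const, nsmul_eq_mul]
  have hcard : (I t X).card = 2 := by
    by_contra hne
    have h1 : (I t X).card ≤ 1 := by omega
    have h2 : ((I t X).card : ℝ) ≤ 1 := by exact_mod_cast h1
    nlinarith
  refine ⟨?_, hcard, ?_⟩
  · rw [hcard] at hWle
    push_cast at hWle
    linarith
  · intro i m him
    by_contra hne
    have hi : i ∈ I t X := (mem_I _ _ _).2 ⟨m, him⟩
    have hlt' : W t X < Real.pi := by
      rw [W_eq]
      calc _ < ∑ i ∈ I t X, Real.pi / 2 :=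
            Finset.sum_lt_sum (fun j hj => hq j ((mem_I _ _ _).1 hj))
              ⟨i, hi, by rw [← him, q_V_self _ (h.ccwt i), hang]; exact hlt _ hne⟩
        _ = Real.pi := by
            rw [Finset.sum_const, hcard, nsmul_eq_mul]
            push_cast
            ring
    linarith

theorem starExcl_tile {T : Fin 3 → ℂ} {t : Fin 5 → Fin 3 → ℂ} (h : Dis 5 T t) (θ : Fin 3 → ℝ)
    (τ : Fin 5 → Equiv.Perm (Fin 3)) (hang : ∀ i m, ang (t i) m = θ (τ i m)) (c : Fin 3)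
    (hc : θ c = Real.pi / 2) {v : ℂ} {b b' : Fin 3} (hb : b ≠ c) (hb1 : b' ≠ b) (hb2 : b' ≠ c)
    (hlab : ∀ i m, t i m = v → τ i m = b ∨ τ i m = c) {i : Fin 5} (hiv : Has (t i) v) {X Y : ℂ}
    (hXv : X ≠ v) (hX : Has (t i) X) (hY : ¬ Has (t i) Y)
    (hcX : ∀ i m, t i m = X → τ i m = c)
    (hall : ∀ p, p ∈ pts t → p = v ∨ p = X ∨ p = Y ∨ ∃ j, p = T j) :
    ∃ z, Set.range (t i) = {v, X, T z} ∧ ‖v - T z‖ * Real.sin (θ b') = ‖v - X‖ := by
  obtain ⟨mv, hmv⟩ := hiv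
  obtain ⟨mX, hmX⟩ := hX
  have hinj := vertex_inj _ (h.ccwt i)
  have hne : mv ≠ mX := by
    rintro rfl
    exact hXv (hmX.symm.trans hmv)
  have key : ∀ a b : Fin 3, a ≠ b → ∃ d : Fin 3, d ≠ a ∧ d ≠ b ∧ ∀ x, x = a ∨ x = b ∨ x = d := by
    decide
  obtain ⟨mZ, hz1, hz2, hz3⟩ := key mv mX hne
  have hlX : τ i mX = c := hcX i mX hmX
  have hlv : τ i mv = b := by
    rcases hlab i mv hmv with e | e
    · exact e
    · exact absurd ((τ i).injective (e.trans hlX.symm)) hne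
  have hlZ : τ i mZ = b' := by
    have k2 : ∀ x b b' c : Fin 3, b ≠ c → b' ≠ b → b' ≠ c → x ≠ b → x ≠ c → x = b' := by decide
    refine k2 _ b b' c hb hb1 hb2 ?_ ?_
    · intro e
      exact hz1 ((τ i).injective (e.trans hlv.symm))
    · intro e
      exact hz2 ((τ i).injective (e.trans hlX.symm))
  have hp : ∃ j, t i mZ = T j := by
    rcases hall (t i mZ) ((mem_pts _ _).2 ⟨i, mZ, rfl⟩) with e | e | e | e
    · exact absurd (hinj (e.trans hmv.symm)) hz1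
    · exact absurd (hinj (e.trans hmX.symm)) hz2
    · exact absurd ⟨mZ, e⟩ hY
    · exact e
  obtain ⟨z, hz⟩ := hp
  refine ⟨z, ?_, ?_⟩
  · ext p
    simp only [Set.mem_range, Set.mem_insert_iff, Set.mem_singleton_iff]
    constructor
    · rintro ⟨m, rfl⟩
      rcases hz3 m with e | e | e
      · left; rw [e, hmv]
      · right; left; rw [e, hmX]
      · right; right; rw [e, hz]
    · rintro (rfl | rfl | rfl)
      · exact ⟨mv, hmv⟩
      · exact ⟨mX, hmX⟩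
      · exact ⟨mZ, hz⟩
  · have hsl := sine_law (t i) (h.ccwt i) mX mZ
    rw [starExcl_len (t i) hne.symm hz2.symm hz1.symm, starExcl_len (t i) hz1 hz2 hne, hang, hang,
      hlX, hlZ, hmv, hmX, hz, hc, Real.sin_pi_div_two, mul_one] at hsl
    exact hsl

theorem starExcl_c1 {a a' x y y' w : Fin 3} (h1 : a ≠ a') (ha : a ≠ w) (ha' : a' ≠ w)
    (w3 : ∀ x, x = w ∨ x = y ∨ x = y') (p1 : ¬ (a = y ∧ x = y)) (p2 : ¬ (a' = y ∧ x = y))
    (q1 : ¬ (a = y' ∧ x = y')) (q2 : ¬ (a' = y' ∧ x = y')) : x = w := by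
  rcases w3 x with g | g | g
  · exact g
  · exfalso
    have e1 : a = y' := by
      rcases w3 a with f | f | f
      · exact (ha f).elim
      · exact (p1 ⟨f, g⟩).elim
      · exact f
    have e2 : a' = y' := by
      rcases w3 a' with f | f | f
      · exact (ha' f).elim
      · exact (p2 ⟨f, g⟩).elim
      · exact f
    exact h1 (e1.trans e2.symm)
  · exfalso
    have e1 : a = y := by
      rcases w3 a with f | f | f
      · exact (ha f).elim
      · exact f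
      · exact (q1 ⟨f, g⟩).elim
    have e2 : a' = y := by
      rcases w3 a' with f | f | f
      · exact (ha' f).elim
      · exact f
      · exact (q2 ⟨f, g⟩).elim
    exact h1 (e1.trans e2.symm)

theorem starExcl_c2 (D : Fin 3 → ℝ) {a a' b b' y y' w : Fin 3} (h1 : a ≠ a') (h2 : b ≠ b')
    (w3 : ∀ x, x = w ∨ x = y ∨ x = y')
    (k1 : ¬ (a = y ∧ b = y) ∧ ¬ (a = y ∧ b' = y) ∧ ¬ (a' = y ∧ b = y) ∧ ¬ (a' = y ∧ b' = y))
    (k2 : ¬ (a = y' ∧ b = y') ∧ ¬ (a = y' ∧ b' = y') ∧ ¬ (a' = y' ∧ b = y') ∧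
      ¬ (a' = y' ∧ b' = y')) (d1 : D a = D a') : ∃ x, (x = a ∨ x = a') ∧ x ≠ w ∧ D w = D x := by
  by_cases ha : a = w
  · exact ⟨a', Or.inr rfl, by rw [← ha]; exact h1.symm, by rw [← ha]; exact d1⟩
  · by_cases ha' : a' = w
    · exact ⟨a, Or.inl rfl, ha, by rw [← ha']; exact d1.symm⟩
    · exfalso
      have f1 := starExcl_c1 h1 ha ha' w3 k1.1 k1.2.2.1 k2.1 k2.2.2.1
      have f2 := starExcl_c1 h1 ha ha' w3 k1.2.1 k1.2.2.2 k2.2.1 k2.2.2.2
      exact h2 (f1.trans f2.symm)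

theorem starExcl_comb (D : Fin 3 → ℝ) (a a' b b' y y' : Fin 3) (h1 : a ≠ a') (h2 : b ≠ b')
    (h3 : y ≠ y')
    (k1 : ¬ (a = y ∧ b = y) ∧ ¬ (a = y ∧ b' = y) ∧ ¬ (a' = y ∧ b = y) ∧ ¬ (a' = y ∧ b' = y))
    (k2 : ¬ (a = y' ∧ b = y') ∧ ¬ (a = y' ∧ b' = y') ∧ ¬ (a' = y' ∧ b = y') ∧
      ¬ (a' = y' ∧ b' = y')) (d1 : D a = D a') (d2 : D b = D b') : D y = D y' := by
  have key : ∀ y y' : Fin 3, y ≠ y' → ∃ w, w ≠ y ∧ w ≠ y' ∧ ∀ x, x = w ∨ x = y ∨ x = y' := by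
    decide
  obtain ⟨w, w1, w2, w3⟩ := key y y' h3
  obtain ⟨x, x1, x2, x3⟩ := starExcl_c2 D h1 h2 w3 k1 k2 d1
  obtain ⟨z, z1, z2, z3⟩ := starExcl_c2 D (a := b) (a' := b') (b := a) (b' := a') h2 h1 w3
    ⟨fun g => k1.1 g.symm, fun g => k1.2.2.1 g.symm, fun g => k1.2.1 g.symm,
      fun g => k1.2.2.2 g.symm⟩
    ⟨fun g => k2.1 g.symm, fun g => k2.2.2.1 g.symm, fun g => k2.2.1 g.symm,
      fun g => k2.2.2.2 g.symm⟩ d2
  have n1 : ¬ (x = y ∧ z = y) := by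
    rintro ⟨g1, g2⟩
    rcases x1 with rfl | rfl <;> rcases z1 with rfl | rfl
    · exact k1.1 ⟨g1, g2⟩
    · exact k1.2.1 ⟨g1, g2⟩
    · exact k1.2.2.1 ⟨g1, g2⟩
    · exact k1.2.2.2 ⟨g1, g2⟩
  have n2 : ¬ (x = y' ∧ z = y') := by
    rintro ⟨g1, g2⟩
    rcases x1 with rfl | rfl <;> rcases z1 with rfl | rfl
    · exact k2.1 ⟨g1, g2⟩
    · exact k2.2.1 ⟨g1, g2⟩
    · exact k2.2.2.1 ⟨g1, g2⟩
    · exact k2.2.2.2 ⟨g1, g2⟩
  rcases w3 x with f | f | f
  · exact (x2 f).elim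
  · rcases w3 z with g | g | g
    · exact (z2 g).elim
    · exact (n1 ⟨f, g⟩).elim
    · rw [← f, ← g]; exact x3.symm.trans z3
  · rcases w3 z with g | g | g
    · exact (z2 g).elim
    · rw [← f, ← g]; exact z3.symm.trans x3
    · exact (n2 ⟨f, g⟩).elim

theorem star_excl {T : Fin 3 → ℂ} {t : Fin 5 → Fin 3 → ℂ} (h : Dis 5 T t) (θ : Fin 3 → ℝ)
    (τ : Fin 5 → Equiv.Perm (Fin 3)) (hang : ∀ i m, ang (t i) m = θ (τ i m)) (c : Fin 3)
    (hc : θ c = Real.pi / 2) (hne : θ (c + 1) ≠ θ (c + 2)) {v : ℂ} (hv : ∀ i, Has (t i) v)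
    (hvT : ∀ j, v ≠ T j) (b : Fin 3) (hb : b ≠ c)
    (hlab : ∀ i m, t i m = v → τ i m = b ∨ τ i m = c) : False := by
  classical
  obtain ⟨hpos, hlt⟩ := starExcl_ang h θ τ hang c hc
  have hpi := Real.pi_pos
  have hvnc : v ∈ nc T t := mem_nc.2 ⟨(mem_pts t v).2 ⟨0, hv 0⟩, hvT⟩
  have two : ∀ X ∈ (nc T t).erase v,
      W t X = Real.pi ∧ (I t X).card = 2 ∧ ∀ i m, t i m = X → τ i m = c := fun X hX =>
    starExcl_two h θ τ hang c hc hv (Finset.mem_of_mem_erase hX) (Finset.ne_of_mem_erase hX)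
  have hd : ∀ X ∈ (nc T t).erase v, ∀ Y ∈ (nc T t).erase v, X ≠ Y →
      ∀ i, Has (t i) X → ¬ Has (t i) Y := by
    rintro X hX Y hY hXY i ⟨m, hm⟩ ⟨m', hm'⟩
    have e1 := (two X hX).2.2 i m hm
    have e2 := (two Y hY).2.2 i m' hm'
    have e3 : m = m' := (τ i).injective (e1.trans e2.symm)
    subst e3
    exact hXY (hm.symm.trans hm')
  have hAle : ((nc T t).erase v).card ≤ 2 := by
    have hdis : ∀ X ∈ (nc T t).erase v, ∀ Y ∈ (nc T t).erase v, X ≠ Y →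
        Disjoint (I t X) (I t Y) := by
      intro X hX Y hY hXY
      rw [Finset.disjoint_left]
      intro i hiX hiY
      rw [mem_I] at hiX hiY
      exact hd X hX Y hY hXY i hiX hiY
    have h1 := Finset.card_biUnion hdis
    have h2 : ∑ X ∈ (nc T t).erase v, (I t X).card = ((nc T t).erase v).card * 2 := by
      rw [Finset.sum_congr rfl (fun X hX => (two X hX).2.1), Finset.sum_const, smul_eq_mul]
    have h3 : (((nc T t).erase v).biUnion (I t)).card ≤ 5 := by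
      simpa using Finset.card_le_univ (((nc T t).erase v).biUnion (I t))
    omega
  have hfull : (full T t).card ≤ 1 := by
    rw [Finset.card_le_one]
    have hf : ∀ p ∈ full T t, p = v := by
      intro p hp
      by_contra hcon
      obtain ⟨h1, h2⟩ := mem_full.1 hp
      exact h2 (two p (Finset.mem_erase.2 ⟨hcon, h1⟩)).1
    intro p hp q hq
    rw [hf p hp, hf q hq]
  have hA : ((nc T t).erase v).card = 2 := by
    have h1 := card_nc_full h
    have h2 := Finset.card_erase_of_mem hvnc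
    have h3 : 0 < (nc T t).card := Finset.card_pos.2 ⟨v, hvnc⟩
    omega
  obtain ⟨X1, X2, hX12, hAeq⟩ := Finset.card_eq_two.1 hA
  have m1 : X1 ∈ (nc T t).erase v := by rw [hAeq]; exact Finset.mem_insert_self _ _
  have m2 : X2 ∈ (nc T t).erase v := by
    rw [hAeq]; exact Finset.mem_insert_of_mem (Finset.mem_singleton_self _)
  have t1 := two X1 m1
  have t2 := two X2 m2
  obtain ⟨i1, i2, hi12, hI1⟩ := Finset.card_eq_two.1 t1.2.1
  obtain ⟨i3, i4, hi34, hI2⟩ := Finset.card_eq_two.1 t2.2.1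
  have a1 : Has (t i1) X1 := (mem_I t X1 i1).1 (by rw [hI1]; exact Finset.mem_insert_self _ _)
  have a2 : Has (t i2) X1 := (mem_I t X1 i2).1 (by
    rw [hI1]; exact Finset.mem_insert_of_mem (Finset.mem_singleton_self _))
  have a3 : Has (t i3) X2 := (mem_I t X2 i3).1 (by rw [hI2]; exact Finset.mem_insert_self _ _)
  have a4 : Has (t i4) X2 := (mem_I t X2 i4).1 (by
    rw [hI2]; exact Finset.mem_insert_of_mem (Finset.mem_singleton_self _))
  have hX1v := Finset.ne_of_mem_erase m1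
  have hX2v := Finset.ne_of_mem_erase m2
  have hall : ∀ p, p ∈ pts t → p = v ∨ p = X1 ∨ p = X2 ∨ ∃ j, p = T j := by
    intro p hp
    by_cases hT : ∀ j, p ≠ T j
    · by_cases hpv : p = v
      · exact Or.inl hpv
      · have : p ∈ (nc T t).erase v := Finset.mem_erase.2 ⟨hpv, mem_nc.2 ⟨hp, hT⟩⟩
        rw [hAeq, Finset.mem_insert, Finset.mem_singleton] at this
        rcases this with e | e
        · exact Or.inr (Or.inl e)
        · exact Or.inr (Or.inr (Or.inl e))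
    · push Not at hT
      exact Or.inr (Or.inr (Or.inr hT))
  have hall' : ∀ p, p ∈ pts t → p = v ∨ p = X2 ∨ p = X1 ∨ ∃ j, p = T j := by
    intro p hp
    rcases hall p hp with e | e | e | e
    · exact Or.inl e
    · exact Or.inr (Or.inr (Or.inl e))
    · exact Or.inr (Or.inl e)
    · exact Or.inr (Or.inr (Or.inr e))
  have kb : ∀ b c : Fin 3, b ≠ c → ∃ b', b' ≠ b ∧ b' ≠ c := by decide
  obtain ⟨b', hb1, hb2⟩ := kb b c hb
  obtain ⟨z1, r1, d1⟩ := starExcl_tile h θ τ hang c hc hb hb1 hb2 hlab (hv i1) hX1v a1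
    (hd X1 m1 X2 m2 hX12 i1 a1) t1.2.2 hall
  obtain ⟨z2, r2, d2⟩ := starExcl_tile h θ τ hang c hc hb hb1 hb2 hlab (hv i2) hX1v a2
    (hd X1 m1 X2 m2 hX12 i2 a2) t1.2.2 hall
  obtain ⟨z3, r3, d3⟩ := starExcl_tile h θ τ hang c hc hb hb1 hb2 hlab (hv i3) hX2v a3
    (hd X2 m2 X1 m1 hX12.symm i3 a3) t2.2.2 hall'
  obtain ⟨z4, r4, d4⟩ := starExcl_tile h θ τ hang c hc hb hb1 hb2 hlab (hv i4) hX2v a4
    (hd X2 m2 X1 m1 hX12.symm i4 a4) t2.2.2 hall'
  have hsin : 0 < Real.sin (θ b') := Real.sin_pos_of_pos_of_lt_pi (hpos b') (by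
    have := hlt b' hb2
    linarith)
  have D12 : ‖v - T z1‖ = ‖v - T z2‖ := mul_right_cancel₀ hsin.ne' (d1.trans d2.symm)
  have D34 : ‖v - T z3‖ = ‖v - T z4‖ := mul_right_cancel₀ hsin.ne' (d3.trans d4.symm)
  have z12 : z1 ≠ z2 := by
    intro e
    exact same_vert h hi12 (by rw [r1, r2, e])
  have z34 : z3 ≠ z4 := by
    intro e
    exact same_vert h hi34 (by rw [r3, r4, e])
  have c1 : Has (t i1) (T z1) := by
    have : T z1 ∈ Set.range (t i1) := by rw [r1]; simp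
    exact this
  have c2 : Has (t i2) (T z2) := by
    have : T z2 ∈ Set.range (t i2) := by rw [r2]; simp
    exact this
  have c3 : Has (t i3) (T z3) := by
    have : T z3 ∈ Set.range (t i3) := by rw [r3]; simp
    exact this
  have c4 : Has (t i4) (T z4) := by
    have : T z4 ∈ Set.range (t i4) := by rw [r4]; simp
    exact this
  have hcross : ∀ i j, Has (t i) X1 → Has (t j) X2 → i ≠ j := by
    rintro i j hi hj rfl
    exact hd X1 m1 X2 m2 hX12 i hi hj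
  have hex : ∀ i1 i2 i3 i4 : Fin 5, ∃ e, e ≠ i1 ∧ e ≠ i2 ∧ e ≠ i3 ∧ e ≠ i4 := by decide
  obtain ⟨e, e1, e2, e3, e4⟩ := hex i1 i2 i3 i4
  have hnX1 : ¬ Has (t e) X1 := by
    intro hh
    have := (mem_I t X1 e).2 hh
    rw [hI1, Finset.mem_insert, Finset.mem_singleton] at this
    rcases this with g | g
    · exact e1 g
    · exact e2 g
  have hnX2 : ¬ Has (t e) X2 := by
    intro hh
    have := (mem_I t X2 e).2 hh
    rw [hI2, Finset.mem_insert, Finset.mem_singleton] at this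
    rcases this with g | g
    · exact e3 g
    · exact e4 g
  obtain ⟨me, hme⟩ := hv e
  have hinj := vertex_inj _ (h.ccwt e)
  have hce : ∀ x, x ≠ me → ∃ j, t e x = T j := by
    intro x hx
    rcases hall (t e x) ((mem_pts _ _).2 ⟨e, x, rfl⟩) with g | g | g | g
    · exact absurd (hinj (g.trans hme.symm)) hx
    · exact absurd ⟨x, g⟩ hnX1
    · exact absurd ⟨x, g⟩ hnX2
    · exact g
  have hn1 : ∀ m : Fin 3, m + 1 ≠ m ∧ m + 2 ≠ m ∧ m + 1 ≠ m + 2 := by decide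
  obtain ⟨n1, n2, n3⟩ := hn1 me
  obtain ⟨y, hy⟩ := hce (me + 1) n1
  obtain ⟨y', hy'⟩ := hce (me + 2) n2
  have hyy : y ≠ y' := by
    rintro rfl
    exact n3 (hinj (hy.trans hy'.symm))
  have hbad : ∀ i j k l, Has (t i) X1 → Has (t j) X2 → e ≠ i → e ≠ j → Has (t i) (T k) →
      Has (t j) (T l) → ∀ w, Has (t e) (T w) → ¬ (k = w ∧ l = w) := by
    rintro i j k l hi hj hei hej hik hjl w hew ⟨rfl, rfl⟩
    exact pair_two h (hcross i j hi hj) hei.symm hej.symm (hvT _) (hv i) hik (hv j) hjl (hv e) hew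
  have hy1 : Has (t e) (T y) := ⟨_, hy⟩
  have hy2 : Has (t e) (T y') := ⟨_, hy'⟩
  have hD : ‖v - T y‖ = ‖v - T y'‖ :=
    starExcl_comb (fun j => ‖v - T j‖) z1 z2 z3 z4 y y' z12 z34 hyy
    ⟨hbad i1 i3 z1 z3 a1 a3 e1 e3 c1 c3 y hy1, hbad i1 i4 z1 z4 a1 a4 e1 e4 c1 c4 y hy1,
      hbad i2 i3 z2 z3 a2 a3 e2 e3 c2 c3 y hy1, hbad i2 i4 z2 z4 a2 a4 e2 e4 c2 c4 y hy1⟩
    ⟨hbad i1 i3 z1 z3 a1 a3 e1 e3 c1 c3 y' hy2, hbad i1 i4 z1 z4 a1 a4 e1 e4 c1 c4 y' hy2,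
      hbad i2 i3 z2 z3 a2 a3 e2 e3 c2 c3 y' hy2, hbad i2 i4 z2 z4 a2 a4 e2 e4 c2 c4 y' hy2⟩
    D12 D34
  have hsl := sine_law (t e) (h.ccwt e) (me + 1) (me + 2)
  rw [starExcl_len (t e) n1 n3 n2.symm, starExcl_len (t e) n2 n3.symm n1.symm, hme, hy, hy',
    ← hD, hang, hang] at hsl
  have hvy : 0 < ‖v - T y‖ := norm_pos_iff.2 (sub_ne_zero.2 (hvT y))
  have hs2 := mul_left_cancel₀ hvy.ne' hsl
  have hθ : ∀ k, θ k ≤ Real.pi / 2 := fun k => by
    by_cases g : k = c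
    · rw [g, hc]
    · exact (hlt k g).le
  have heq : θ (τ e (me + 2)) = θ (τ e (me + 1)) := by
    apply Real.injOn_sin ⟨by linarith [hpos (τ e (me + 2))], hθ _⟩
      ⟨by linarith [hpos (τ e (me + 1))], hθ _⟩ hs2
  have hll : τ e (me + 1) ≠ τ e (me + 2) := fun g => n3 ((τ e).injective g)
  have hl1 : τ e (me + 1) ≠ c := by
    intro g
    rw [g, hc] at heq
    have : τ e (me + 2) ≠ c := fun g2 => hll (g.trans g2.symm)
    linarith [hlt _ this]
  have hl2 : τ e (me + 2) ≠ c := by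
    intro g
    rw [g, hc] at heq
    linarith [hlt _ hl1]
  have kf : ∀ l l' c : Fin 3, l ≠ l' → l ≠ c → l' ≠ c →
      (l = c + 1 ∧ l' = c + 2) ∨ (l = c + 2 ∧ l' = c + 1) := by decide
  rcases kf _ _ c hll hl1 hl2 with ⟨g1, g2⟩ | ⟨g1, g2⟩
  · rw [g1, g2] at heq
    exact hne heq.symm
  · rw [g1, g2] at heq
    exact hne heq

end Pool.Agent.Helper230.Five
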