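import Pool.Agent.Helper230.Five.Final
import Pool.Agent.Helper230.Five.Exist

/-! # Dissections into five similar triangles: the plane -/

set_option autoImplicit false
noncomputable section
open scoped BigOperators
open Pool.Agent.Helper549.Tri Pool.Agent.Helper549.Tri.Basic Pool.Agent.Helper549.Tri.Setup

namespace Pool.Agent.Helper230.Five

abbrev Pl := EuclideanSpace ℝ (Fin 2)

/-- the angle at the vertex `k` -/
def angE (T : Fin 3 → Pl) (k : Fin 3) : ℝ := EuclideanGeometry.angle (T (k + 1)) (T k) (T (k + 2))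

theorem angle_of_sim {V P V' P' : Type*} [NormedAddCommGroup V] [InnerProductSpace ℝ V]
    [MetricSpace P] [NormedAddTorsor V P] [NormedAddCommGroup V'] [InnerProductSpace ℝ V']
    [MetricSpace P'] [NormedAddTorsor V' P'] (a b c : P) (a' b' c' : P') {r : ℝ} (hr : 0 < r)
    (h1 : dist a b = r * dist a' b') (h2 : dist c b = r * dist c' b')
    (h3 : dist a c = r * dist a' c') :
    EuclideanGeometry.angle a b c = EuclideanGeometry.angle a' b' c' := by
  unfold EuclideanGeometry.angle InnerProductGeometry.angle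
  congr 1
  rw [real_inner_eq_norm_mul_self_add_norm_mul_self_sub_norm_sub_mul_self_div_two,
    real_inner_eq_norm_mul_self_add_norm_mul_self_sub_norm_sub_mul_self_div_two,
    vsub_sub_vsub_cancel_right, vsub_sub_vsub_cancel_right, ← dist_eq_norm_vsub V,
    ← dist_eq_norm_vsub V, ← dist_eq_norm_vsub V, ← dist_eq_norm_vsub V',
    ← dist_eq_norm_vsub V', ← dist_eq_norm_vsub V', h1, h2, h3]
  have e1 : (r * dist a' b' * (r * dist a' b') + r * dist c' b' * (r * dist c' b') -
      r * dist a' c' * (r * dist a' c')) / 2 = (r * r) * ((dist a' b' * dist a' b' +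
      dist c' b' * dist c' b' - dist a' c' * dist a' c') / 2) := by ring
  have e2 : r * dist a' b' * (r * dist c' b') = (r * r) * (dist a' b' * dist c' b') := by ring
  rw [e1, e2, mul_div_mul_left _ _ (mul_pos hr hr).ne']

theorem angE_perm (T : Fin 3 → Pl) (τ : Equiv.Perm (Fin 3)) (m : Fin 3) :
    EuclideanGeometry.angle (T (τ (m + 1))) (T (τ m)) (T (τ (m + 2))) = angE T (τ m) := by
  unfold angE
  rcases perm3 τ m with ⟨h1, h2⟩ | ⟨h1, h2⟩
  · rw [h1, h2]
  · rw [h1, h2, EuclideanGeometry.angle_comm]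

/-- **Only if.** -/
theorem only_if (T : Fin 3 → Pl) (hT : AffineIndependent ℝ T)
    (hr : ∀ k, angE T k ≠ Real.pi / 2) (P : Fin 5 → Fin 3 → Pl)
    (hP : ∀ i, AffineIndependent ℝ (P i))
    (hsim : ∀ i, ∃ (σ : Equiv.Perm (Fin 3)) (r : ℝ), 0 < r ∧
      ∀ k l, dist (P i k) (P i l) = r * dist (T (σ k)) (T (σ l)))
    (hU : (⋃ i, convexHull ℝ (Set.range (P i))) = convexHull ℝ (Set.range T))
    (hD : ∀ i j, i ≠ j → Disjoint (interior (convexHull ℝ (Set.range (P i))))
          (interior (convexHull ℝ (Set.range (P j))))) :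
    ∃ k, angE T k = 2 * Real.pi / 3 ∧ angE T (k + 1) = Real.pi / 6 ∧
      angE T (k + 2) = Real.pi / 6 := by
  obtain ⟨ρ, hρ⟩ := orient T hT
  choose r hro using fun i => orient (P i) (hP i)
  choose σ c hc hσ using hsim
  have hDis : Dis 5 (fun k => eC (T (ρ k))) (fun i k => eC (P i (r i k))) := by
    refine ⟨hρ, hro, ?_, ?_⟩
    · rw [hull_img T ρ, ← hU, Set.image_iUnion]
      refine Set.iUnion_congr fun i => ?_
      exact hull_img (P i) (r i)
    · intro i j hij
      rw [hull_img (P i) (r i), hull_img (P j) (r j)]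
      have h1 : ∀ S : Set Pl, interior (eC '' S) = eC '' interior S :=
        fun S => (eC.toHomeomorph.image_interior S).symm
      rw [h1, h1]
      exact (Set.disjoint_image_iff eC.injective).2 (hD i j hij)
  have hangT : ∀ k, ang (fun k => eC (T (ρ k))) k = angE T (ρ k) := by
    intro k
    rw [← angE_perm T ρ k]
    unfold ang
    exact angle_of_dist _ _ _ _ _ _ (eC.dist_map _ _) (eC.dist_map _ _) (eC.dist_map _ _)
  have hangt : ∀ i m, ang (fun k => eC (P i (r i k))) m =
      ang (fun k => eC (T (ρ k))) (((r i).trans (σ i)).trans ρ.symm m) := by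
    intro i m
    rw [hangT]
    have e : ρ (((r i).trans (σ i)).trans ρ.symm m) = ((r i).trans (σ i)) m := by simp
    rw [e, ← angE_perm T ((r i).trans (σ i)) m]
    unfold ang
    refine angle_of_sim _ _ _ _ _ _ (hc i) ?_ ?_ ?_
    · rw [eC.dist_map, hσ]; rfl
    · rw [eC.dist_map, hσ]; rfl
    · rw [eC.dist_map, hσ]; rfl
  obtain ⟨k, h1, h2, h3⟩ := main5 hDis (fun i => ((r i).trans (σ i)).trans ρ.symm) hangt
    (fun k => by rw [hangT]; exact hr _)
  rw [hangT] at h1 h2 h3
  refine ⟨ρ k, h1, ?_⟩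
  rcases perm3 ρ k with ⟨e1, e2⟩ | ⟨e1, e2⟩
  · rw [e1] at h2; rw [e2] at h3; exact ⟨h2, h3⟩
  · rw [e1] at h2; rw [e2] at h3; exact ⟨h3, h2⟩

theorem aff_of_dd (v : Fin 3 → ℂ) (hv : dd v ≠ 0) : AffineIndependent ℝ v := by
  rw [affineIndependent_iff_of_fintype]
  intro w hw hw0
  have h0 : w 0 = -(w 1 + w 2) := by
    rw [Fin.sum_univ_three] at hw; linarith
  rw [Finset.univ.weightedVSub_eq_weightedVSubOfPoint_of_sum_eq_zero w v hw (v 0),
    Finset.weightedVSubOfPoint_apply, Fin.sum_univ_three] at hw0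
  simp only [vsub_eq_sub, sub_self, smul_zero, zero_add] at hw0
  have hre := congrArg Complex.re hw0
  have him := congrArg Complex.im hw0
  simp only [Complex.add_re, Complex.add_im, Complex.smul_re, Complex.smul_im, smul_eq_mul,
    Complex.sub_re, Complex.sub_im, Complex.zero_re, Complex.zero_im] at hre him
  have hdd : dd v = ((v 1).re - (v 0).re) * ((v 2).im - (v 0).im) -
      ((v 1).im - (v 0).im) * ((v 2).re - (v 0).re) := by
    unfold dd cr
    simp only [Complex.sub_re, Complex.sub_im]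
  have w1 : w 1 = 0 := by
    have : w 1 * dd v = 0 := by
      rw [hdd]
      linear_combination ((v 2).im - (v 0).im) * hre - ((v 2).re - (v 0).re) * him
    exact (mul_eq_zero.1 this).resolve_right hv
  have w2 : w 2 = 0 := by
    have : w 2 * dd v = 0 := by
      rw [hdd]
      linear_combination ((v 1).re - (v 0).re) * him - ((v 1).im - (v 0).im) * hre
    exact (mul_eq_zero.1 this).resolve_right hv
  intro i
  fin_cases i
  · show w 0 = 0; rw [h0, w1, w2]; ring
  · exact w1
  · exact w2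

theorem dd_rot (v : Fin 3 → ℂ) (j : Fin 3) : dd (fun m => v (j + m)) = dd v := by
  fin_cases j
  · show dd (fun m => v (0 + m)) = dd v
    simp only [zero_add]
  · show cr (v 2 - v 1) (v 0 - v 1) = cr (v 1 - v 0) (v 2 - v 0)
    simp only [cr, Complex.sub_re, Complex.sub_im]
    ring
  · show cr (v 0 - v 2) (v 1 - v 2) = cr (v 1 - v 0) (v 2 - v 0)
    simp only [cr, Complex.sub_re, Complex.sub_im]
    ring

theorem nsq_eq (z : ℂ) : nsq z = ‖z‖ ^ 2 := by
  rw [← Complex.normSq_eq_norm_sq, Complex.normSq_apply]; unfold nsq; ring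

/-- **If.** -/
theorem if_dir (T : Fin 3 → Pl) (hT : AffineIndependent ℝ T) (k : Fin 3)
    (h0 : angE T k = 2 * Real.pi / 3) (h1 : angE T (k + 1) = Real.pi / 6)
    (h2 : angE T (k + 2) = Real.pi / 6) :
    ∃ P : Fin 5 → Fin 3 → Pl, (∀ i, AffineIndependent ℝ (P i)) ∧
    (∀ i, ∃ (σ : Equiv.Perm (Fin 3)) (r : ℝ), 0 < r ∧
      ∀ k l, dist (P i k) (P i l) = r * dist (T (σ k)) (T (σ l))) ∧
    (⋃ i, convexHull ℝ (Set.range (P i))) = convexHull ℝ (Set.range T) ∧
    (∀ i j, i ≠ j → Disjoint (interior (convexHull ℝ (Set.range (P i))))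
          (interior (convexHull ℝ (Set.range (P j))))) := by
  -- distances
  have hiso : dist (T k) (T (k + 1)) = dist (T k) (T (k + 2)) := by
    apply EuclideanGeometry.dist_eq_of_angle_eq_angle_of_angle_ne_pi
    · unfold angE at h1 h2
      have e1 : k + 1 + 1 = k + 2 := Vertex.q_e11 k
      have e2 : k + 1 + 2 = k := Vertex.q_e12 k
      have e3 : k + 2 + 1 = k := Vertex.q_e21 k
      have e4 : k + 2 + 2 = k + 1 := Vertex.q_e22 k
      rw [e1, e2] at h1
      rw [e3, e4] at h2
      rw [EuclideanGeometry.angle_comm] at h1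
      rw [h1, h2]
    · unfold angE at h0
      rw [h0]
      intro hc
      linarith [Real.pi_pos]
  have hcos : Real.cos (2 * Real.pi / 3) = -1 / 2 := by
    rw [show 2 * Real.pi / 3 = Real.pi - Real.pi / 3 by ring, Real.cos_pi_sub,
      Real.cos_pi_div_three]
    ring
  have hbase : dist (T (k + 1)) (T (k + 2)) ^ 2 = 3 * dist (T k) (T (k + 1)) ^ 2 := by
    have hl := EuclideanGeometry.law_cos (T (k + 1)) (T k) (T (k + 2))
    unfold angE at h0
    rw [h0, hcos, dist_comm (T (k + 1)) (T k), dist_comm (T (k + 2)) (T k), ← hiso] at hl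
    nlinarith [hl]
  -- orientation
  obtain ⟨ρ, hρ⟩ := orient T hT
  obtain ⟨π', hπ0, hπ⟩ : ∃ π' : Equiv.Perm (Fin 3), π' 0 = k ∧ ∀ m, π' m = ρ (ρ.symm k + m) := by
    refine ⟨(Equiv.addLeft (ρ.symm k)).trans ρ, ?_, fun m => rfl⟩
    simp
  set V : Fin 3 → ℂ := fun m => eC (T (π' m)) with hV
  have hVdd : 0 < dd V := by
    have := dd_rot (fun k => eC (T (ρ k))) (ρ.symm k)
    have e : V = fun m => (fun k => eC (T (ρ k))) (ρ.symm k + m) := by
      funext m
      simp only [hV, hπ]
    rw [e, this]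
    exact hρ
  have d01 : ‖V 0 - V 1‖ = dist (T k) (T (π' 1)) := by
    rw [← dist_eq_norm, hV]
    simp only
    rw [eC.dist_map, hπ0]
  have d02 : ‖V 0 - V 2‖ = dist (T k) (T (π' 2)) := by
    rw [← dist_eq_norm, hV]
    simp only
    rw [eC.dist_map, hπ0]
  have d12 : ‖V 1 - V 2‖ = dist (T (π' 1)) (T (π' 2)) := by
    rw [← dist_eq_norm, hV]
    simp only
    rw [eC.dist_map]
  have hn : nsq (V 0 - V 1) = nsq (V 0 - V 2) ∧ nsq (V 1 - V 2) = 3 * nsq (V 0 - V 1) := by
    rw [nsq_eq, nsq_eq, nsq_eq, d01, d02, d12]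
    have := perm3 π' 0
    rw [zero_add, zero_add, hπ0] at this
    rcases this with ⟨e1, e2⟩ | ⟨e1, e2⟩
    · rw [e1, e2, ← hiso]
      exact ⟨rfl, hbase⟩
    · rw [e1, e2, ← hiso, dist_comm (T (k + 2))]
      exact ⟨rfl, hbase⟩
  have hdis := dis_tiles V hVdd
  have hpull : ∀ S : Fin 3 → ℂ, convexHull ℝ (Set.range fun m => eC.symm (S m)) =
      eC.symm '' hull S := by
    intro S
    have e : (Set.range fun m => eC.symm (S m)) = eC.symm '' Set.range S := by
      rw [← Set.range_comp]; rfl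
    rw [e]
    exact (eC.symm.toLinearEquiv.toLinearMap.image_convexHull (Set.range S)).symm
  refine ⟨fun i m => eC.symm (tiles V i m), fun i => ?_, fun i => ?_, ?_, fun i j hij => ?_⟩
  · exact (aff_of_dd _ (hdis.ccwt i).ne').map' eC.symm.toLinearEquiv.toLinearMap.toAffineMap
      eC.symm.injective
  · obtain ⟨r, hr, hd⟩ := tiles_sim V hn.1 hn.2 i
    refine ⟨π', r, hr, fun a b => ?_⟩
    rw [eC.symm.dist_map, hd, hV]
    simp only
    rw [eC.dist_map]
  · have e1 : (⋃ i, convexHull ℝ (Set.range fun m => eC.symm (tiles V i m))) =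
        eC.symm '' ⋃ i, hull (tiles V i) := by
      rw [Set.image_iUnion]
      exact Set.iUnion_congr fun i => hpull _
    rw [e1, hdis.cover, hV, hull_img T π', ← Set.image_comp]
    have : (⇑eC.symm ∘ ⇑eC) = id := by
      funext x
      simp
    rw [this, Set.image_id]
  · rw [hpull, hpull]
    have h1 : ∀ S : Set ℂ, interior (eC.symm '' S) = eC.symm '' interior S :=
      fun S => (eC.symm.toHomeomorph.image_interior S).symm
    rw [h1, h1]
    exact (Set.disjoint_image_iff eC.symm.injective).2 (hdis.disj i j hij)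

end Pool.Agent.Helper230.Five
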